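import Pool.Agent.Lib.MP_5771ce_al.S3.Defs

/-!
# Section 3 of the chain `GROUP` (MP_5771ce_al): Lemma DI (3.2)
-/

open Subgroup
open scoped Pointwise commutatorElement

universe u

namespace MP_5771ce_al

variable {G : Type u} [Group G]

namespace DIAux

/-- A subgroup containing a Sylow `p`-subgroup of `A` for every `p` contains `A`. -/
theorem le_of_sylow [Finite G] {A K : Subgroup G}
    (h : ∀ p : ℕ, p.Prime → ∃ B, IsSylowIn p B A ∧ B ≤ K) : A ≤ K := by
  rw [← relIndex_eq_one]
  by_contra hne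
  obtain ⟨p, hp, hd⟩ := Nat.exists_prime_and_dvd hne
  obtain ⟨B, hB, hBK⟩ := h p hp
  apply hB.not_dvd
  have h1 : K.relIndex A ∣ B.relIndex A := relIndex_dvd_of_le_left A hBK
  exact hd.trans h1

theorem eq_bot_of_coprime [Finite G] {N M : Subgroup G} {s p : ℕ} (hs : s.Prime) (hp : p.Prime)
    (h : p ≠ s) (hN : IsPGroup s N) (hM : IsPGroup p M) {x : G} (hx : x ∈ N) (hx' : x ∈ M) :
    x = 1 := by
  obtain ⟨n, hn⟩ := hN ⟨x, hx⟩
  obtain ⟨m, hm⟩ := hM ⟨x, hx'⟩
  have h1 : orderOf x ∣ s ^ n := orderOf_dvd_of_pow_eq_one (congrArg Subtype.val hn)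
  have h2 : orderOf x ∣ p ^ m := orderOf_dvd_of_pow_eq_one (congrArg Subtype.val hm)
  have h3 : Nat.Coprime (s ^ n) (p ^ m) :=
    Nat.Coprime.pow n m ((Nat.coprime_primes hs hp).2 h.symm)
  exact orderOf_eq_one_iff.1 (Nat.eq_one_of_dvd_coprimes h3 h1 h2)

theorem eq_one_of_not_dvd [Finite G] {N A : Subgroup G} {s : ℕ} (hs : s.Prime)
    (hN : IsPGroup s N) (hA : ¬ s ∣ Nat.card A) {x : G} (hx : x ∈ N) (hx' : x ∈ A) : x = 1 := by
  obtain ⟨n, hn⟩ := hN ⟨x, hx⟩
  have h1 : orderOf x ∣ s ^ n := orderOf_dvd_of_pow_eq_one (congrArg Subtype.val hn)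
  have h2 : orderOf x ∣ Nat.card A := by
    have := orderOf_dvd_natCard (⟨x, hx'⟩ : A)
    rwa [Subgroup.orderOf_mk] at this
  have h3 : Nat.Coprime (s ^ n) (Nat.card A) :=
    Nat.Coprime.pow_left n ((Nat.Prime.coprime_iff_not_dvd hs).2 hA)
  exact orderOf_eq_one_iff.1 (Nat.eq_one_of_dvd_coprimes h3 h1 h2)

/-- `O_r(L) ≤ A` if `|L : A|` is a power of `s ≠ r`. -/
theorem opc_le_of_index [Finite G] {A R : Subgroup G} {s r : ℕ} (hs : s.Prime) (hr : r.Prime)
    (hrs : r ≠ s) (hR : IsPGroup s R) (hp : Permutes A R) (ht : A ⊔ R = ⊤) :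
    opc r (⊤ : Subgroup G) ≤ A := by
  have hrf : Fact r.Prime := ⟨hr⟩
  have hsf : Fact s.Prime := ⟨hs⟩
  set X := opc r (⊤ : Subgroup G) with hX
  have hXp : IsPGroup r X := opc_isPGroup r ⊤
  have hXn : X.Normal := normalIn_top.1 (opc_normalIn r ⊤)
  have hperm : Permutes A X := permutes_of_conj_mem fun a _ x hx => hXn.conj_mem x hx a
  have h1 : A.relIndex (A ⊔ X) ∣ Nat.card X := by
    rw [hperm.relIndex_sup]
    exact relIndex_dvd_card A X
  have h2 : A.relIndex (A ⊔ X) ∣ Nat.card R := by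
    have h3 : A.relIndex (A ⊔ X) ∣ A.index := by
      rw [← relIndex_mul_index (le_sup_left : A ≤ A ⊔ X)]
      exact dvd_mul_right _ _
    have h4 : A.index = A.relIndex R := by
      rw [← hp.relIndex_sup, ht, relIndex_top_right]
    rw [h4] at h3
    exact h3.trans (relIndex_dvd_card A R)
  obtain ⟨n, hn⟩ := (IsPGroup.iff_card).1 hXp
  obtain ⟨m, hm⟩ := (IsPGroup.iff_card).1 hR
  rw [hn] at h1
  rw [hm] at h2
  have h3 : Nat.Coprime (r ^ n) (s ^ m) := Nat.Coprime.pow n m ((Nat.coprime_primes hr hs).2 hrs)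
  have h4 := Nat.eq_one_of_dvd_coprimes h3 h1 h2
  rw [relIndex_eq_one] at h4
  exact le_sup_right.trans h4

/-- `B N` is normal, for a Sylow `p`-subgroup `B` of `A` and `N = O_s(L)`. -/
theorem normal_sup [Finite G] {A R : Subgroup G} (hab : ∀ a ∈ A, ∀ b ∈ A, a * b = b * a) {s : ℕ}
    [hs : Fact s.Prime] (hR : IsPGroup s R) (hp : Permutes A R) (ht : A ⊔ R = ⊤)
    (hsol : Group.IsSolvable G) {p : ℕ} (hpp : p.Prime) (hps : p ≠ s) {B : Subgroup G}
    (hB : IsSylowIn p B A) : (B ⊔ opc s (⊤ : Subgroup G)).Normal := by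
  have hpf : Fact p.Prime := ⟨hpp⟩
  set N := opc s (⊤ : Subgroup G) with hN
  have hNn : N.Normal := normalIn_top.1 (opc_normalIn s ⊤)
  set f := QuotientGroup.mk' N with hf
  have hker : f.ker = N := QuotientGroup.ker_mk' N
  have hsurj : Function.Surjective f := QuotientGroup.mk'_surjective N
  have htop : (⊤ : Subgroup G).map f = ⊤ := map_top_of_surjective f hsurj
  have hsolq : Group.IsSolvable (⊤ : Subgroup (G ⧸ N)) := by
    rw [← htop]
    refine isSolvable_map ?_ f
    exact Group.isSolvable_of_isSolvable_injective (f := (⊤ : Subgroup G).subtype)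
      (Subgroup.subtype_injective _)
  have hbot : opc s (⊤ : Subgroup (G ⧸ N)) = ⊥ := by
    have h1 := opc_map_of_ker (p := s) (E := (⊤ : Subgroup G)) (f := f) le_top
      (by rw [hker]; exact opc_isPGroup s ⊤)
    rw [htop] at h1
    rw [h1, ← hN, Subgroup.map_eq_bot_iff, hker]
  have hpq : Permutes (A.map f) (R.map f) := permutes_map hp f
  have htq : A.map f ⊔ R.map f = ⊤ := by rw [← Subgroup.map_sup, ht, htop]
  have hRq : IsPGroup s (R.map f) := hR.map f
  have hle : ∀ r : ℕ, r.Prime → r ≠ s → opc r (⊤ : Subgroup (G ⧸ N)) ≤ A.map f :=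
    fun r hr hrs => opc_le_of_index hs.out hr hrs hRq hpq htq
  have habq : ∀ a ∈ A.map f, ∀ b ∈ A.map f, a * b = b * a := by
    rintro _ ⟨a, ha, rfl⟩ _ ⟨b, hb, rfl⟩
    rw [← map_mul, hab a ha b hb, map_mul]
  have h1 : B.map f ≤ opc p (⊤ : Subgroup (G ⧸ N)) := by
    refine le_opc_of_centralizes hsolq le_top (hB.isPGroup.map f) ?_
    intro r hr
    by_cases hrs : r = s
    · rw [hrs, hbot]
      intro x _
      rw [mem_centralizer_iff]
      intro y hy
      rw [SetLike.mem_coe, mem_bot] at hy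
      rw [hy]; simp
    · intro x hx
      rw [mem_centralizer_iff]
      intro y hy
      exact habq y (hle r hr hrs hy) x (map_mono hB.le hx)
  have h2 : B.map f = opc p (⊤ : Subgroup (G ⧸ N)) :=
    (hB.map f).eq_of_le (opc_isPGroup p ⊤) h1 (hle p hpp hps)
  have h3 : ((B.map f).comap f).Normal := by
    have h4 : (B.map f).Normal := by rw [h2]; exact normalIn_top.1 (opc_normalIn p ⊤)
    exact h4.comap f
  rwa [comap_map_eq, hker] at h3

/-- Lemma DI for `AR = G`. -/
theorem DI_top [Finite G] {A R : Subgroup G} (hA : HerPermutable A)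
    (hab : ∀ a ∈ A, ∀ b ∈ A, a * b = b * a) {s : ℕ} [hs : Fact s.Prime] (hR : IsPGroup s R)
    (hsA : ¬ s ∣ Nat.card A) (hp : Permutes A R) (ht : A ⊔ R = ⊤)
    (hsol : Group.IsSolvable G) :
    R ≤ normalizer (A : Set G) ∨ A ≤ normalizer (R : Set G) := by
  classical
  set N := opc s (⊤ : Subgroup G) with hN
  have hNp : IsPGroup s N := opc_isPGroup s ⊤
  have hNn : N.Normal := normalIn_top.1 (opc_normalIn s ⊤)
  have hAN : ∀ a ∈ A, ∀ n ∈ N, a * n * a⁻¹ ∈ N := fun a _ n hn => hNn.conj_mem n hn a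
  have hinf : A ⊓ N = ⊥ := by
    rw [eq_bot_iff]
    rintro x ⟨hxA, hxN⟩
    exact eq_one_of_not_dvd hs.out hNp hsA hxN hxA
  have hinv : ∀ Y ≤ N, ∀ a ∈ A, ∀ y ∈ Y, a * y * a⁻¹ ∈ Y := by
    intro Y hY
    exact conj_mem_of_permutes
      (hA.permutes_of_isPGroup hNp (permutes_of_conj_mem hAN) hY) hY
      (by rw [hinf]; exact bot_le) hAN
  -- the `s`-part of `A` is trivial
  have hps : ∀ {p : ℕ} {B : Subgroup G}, p.Prime → IsSylowIn p B A → B ≠ ⊥ → p ≠ s := by
    rintro p B hpp hB hne rfl
    apply hne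
    rw [eq_bot_iff]
    intro x hx
    exact eq_one_of_not_dvd hpp hB.isPGroup hsA hx (hB.le hx)
  by_cases hcase : ∀ p : ℕ, p.Prime → ∀ B : Subgroup G, IsSylowIn p B A → ⁅N, B⁆ = ⊥
  · -- `A` centralises `N`
    left
    have key : ∀ r : G, A ≤ conjBy A r := by
      intro r
      apply le_of_sylow
      intro p hpp
      have hpf : Fact p.Prime := ⟨hpp⟩
      obtain ⟨B, hB⟩ := exists_isSylowIn (p := p) A
      refine ⟨B, hB, ?_⟩
      by_cases hBb : B = ⊥
      · rw [hBb]; exact bot_le
      have hne := hps hpp hB hBb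
      have hn := normal_sup hab hR hp ht hsol hpp hne hB
      rw [← hN] at hn
      have hcomm := commute_of_commutator_eq_bot (hcase p hpp B hB)
      have hBn : N ≤ normalizer (B : Set G) := by
        rw [le_normalizer_iff]
        intro n hn' b hb
        rw [hcomm n hn' b hb, mul_inv_cancel_right]
        exact hb
      have hBB : NormalIn B (B ⊔ N) :=
        normalIn_of_le_normalizer le_sup_left (sup_le le_normalizer hBn)
      have hBS : IsSylowIn p B (B ⊔ N) := by
        refine ⟨le_sup_left, hB.isPGroup, ?_⟩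
        have h1 : Permutes B N := permutes_of_le_normalizer hBn
        rw [h1.relIndex_sup]
        intro hd
        exact not_dvd_card_of_isPGroup hpp hs.out hne.symm hNp
          (hd.trans (relIndex_dvd_card B N))
      have h2 : B = opc p (B ⊔ N) :=
        hBS.eq_of_le (opc_isPGroup p _) (le_opc hBB hB.isPGroup) (opc_le p _)
      have h3 : B.Normal := by
        have h4 := (normalIn_top.2 hn).opc p
        rw [← h2] at h4
        exact normalIn_top.1 h4
      intro b hb
      rw [mem_conjBy]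
      exact hB.le (h3.conj_mem b hb r)
    intro r _
    rw [mem_normalizer_iff_conjBy]
    exact (Subgroup.eq_of_le_of_card_ge (key r) (card_conjBy A r).le).symm
  · -- `N` is the Sylow subgroup
    right
    push Not at hcase
    obtain ⟨p, hpp, B, hB, hne⟩ := hcase
    have hpf : Fact p.Prime := ⟨hpp⟩
    have hBb : B ≠ ⊥ := by
      rintro rfl
      exact hne (commutator_bot_right N)
    have hps' := hps hpp hB hBb
    have hn := normal_sup hab hR hp ht hsol hpp hps' hB
    rw [← hN] at hn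
    have hNp' : ¬ p ∣ Nat.card N := not_dvd_card_of_isPGroup hpp hs.out hps'.symm hNp
    have hBN : B ≤ normalizer (N : Set G) := by
      rw [le_normalizer_iff]
      intro b _ n hn'
      exact hNn.conj_mem n hn' b
    -- fixed points
    have hfix : ∀ y ∈ N, (∀ b ∈ B, b * y = y * b) → y = 1 := by
      intro y hy hyb
      refine eq_one_of_power (A := B) (R := N) (X := ⁅N, B⁆) hNp
        (fun Y hY a ha => hinv Y hY a (hB.le ha))
        (le_normalizer_iff_commutator_le_left.1 hBN) hne ?_ hy hyb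
      exact (commutator_commutator_eq hB.isPGroup hBN hNp').ge
    set C := normalizer (B : Set G) with hC
    have hNC : ∀ n ∈ N, n ∈ C → n = 1 := by
      intro n hn' hnC
      apply hfix n hn'
      intro b hb
      have h1 : n * b * n⁻¹ * b⁻¹ ∈ B :=
        B.mul_mem ((mem_normalizer_iff.1 hnC b).1 hb) (B.inv_mem hb)
      have h2 : n * b * n⁻¹ * b⁻¹ ∈ N := by
        have h3 := N.mul_mem hn' (hNn.conj_mem _ (N.inv_mem hn') b)
        have h4 : n * b * n⁻¹ * b⁻¹ = n * (b * n⁻¹ * b⁻¹) := by group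
        rwa [h4]
      have h3 := eq_bot_of_coprime hs.out hpp hps' hNp hB.isPGroup h2 h1
      have h4 : n * b * n⁻¹ = b := mul_inv_eq_one.1 h3
      exact (mul_inv_eq_iff_eq_mul.1 h4).symm
    have hBS : IsSylowIn p B (B ⊔ N) := by
      refine ⟨le_sup_left, hB.isPGroup, ?_⟩
      have h1 : Permutes B N := permutes_of_conj_mem fun b _ n hn' => hNn.conj_mem n hn' b
      rw [h1.relIndex_sup]
      exact fun hd => hNp' (hd.trans (relIndex_dvd_card B N))
    have hsup : N ⊔ C = ⊤ := by
      have h1 := hBS.frattini_sup (normalIn_top.2 hn)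
      rw [top_inf_eq] at h1
      rw [← h1]
      apply le_antisymm
      · exact sup_le (le_sup_right.trans le_sup_left) le_sup_right
      · exact sup_le (sup_le (le_normalizer.trans le_sup_right) le_sup_left) le_sup_right
    -- `s` does not divide `|C|`
    have hsC : ¬ s ∣ Nat.card C := by
      intro hd
      obtain ⟨c, hc⟩ := exists_prime_orderOf_dvd_card' (G := C) s hd
      rw [← Subgroup.orderOf_coe] at hc
      have hcC : (c : G) ∈ C := c.2
      have hcs : (c : G) ^ s = 1 := by rw [← hc]; exact pow_orderOf_eq_one _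
      have hcne : (c : G) ≠ 1 := by
        intro h
        rw [h, orderOf_one] at hc
        exact hs.out.one_lt.ne hc
      have hZ : IsPGroup s (zpowers (c : G)) := by
        rintro ⟨x, hx⟩
        refine ⟨1, Subtype.ext ?_⟩
        obtain ⟨i, rfl⟩ := mem_zpowers_iff.1 hx
        show ((c : G) ^ i) ^ s ^ 1 = 1
        rw [pow_one, ← zpow_natCast, ← zpow_mul, mul_comm, zpow_mul, zpow_natCast, hcs, one_zpow]
      obtain ⟨R', hR', hcR'⟩ := exists_isSylowIn_ge hZ (le_top : zpowers (c : G) ≤ ⊤)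
      have hNR' : N ≤ R' := hR'.opc_le
      have hc' : (c : G) ∈ R' := hcR' (mem_zpowers _)
      -- a fixed point of `c` of order `s` in `N`
      obtain ⟨d, hdN, hdne, hdc, hds⟩ : ∃ d ∈ N, d ≠ 1 ∧ (c : G) * d = d * c ∧ d ^ s = 1 := by
        have hNb : N ≠ ⊥ := by
          intro h
          apply hne
          rw [h]
          exact commutator_bot_left B
        have hNnt : Nontrivial N := (nontrivial_iff_ne_bot N).2 hNb
        have hR'p : IsPGroup s R' := hR'.isPGroup
        let _ : MulAction R' N :=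
          { smul := fun r n => ⟨(r : G) * n * (r : G)⁻¹, hNn.conj_mem _ n.2 _⟩
            one_smul := fun n => Subtype.ext (by
              show (1 : G) * n * (1 : G)⁻¹ = n
              group)
            mul_smul := fun r r' n => Subtype.ext (by
              show ((r : G) * r') * n * ((r : G) * r')⁻¹ = r * (r' * n * (r' : G)⁻¹) * (r : G)⁻¹
              group) }
        have hdv : s ∣ Nat.card N := by
          obtain ⟨k, hk⟩ := (IsPGroup.iff_card).1 hNp
          have h3 := Finite.one_lt_card (α := N)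
          rw [hk] at h3 ⊢
          exact dvd_pow_self s (by rintro rfl; simp at h3)
        obtain ⟨b, hb, hb1⟩ := hR'p.exists_fixed_point_of_prime_dvd_card_of_fixed_point N hdv
          (a := 1) (by
            intro r
            apply Subtype.ext
            show (r : G) * (1 : G) * (r : G)⁻¹ = 1
            group)
        have hbc : (c : G) * b = b * c := by
          have h3 : (c : G) * b * (c : G)⁻¹ = b := congrArg Subtype.val (hb ⟨c, hc'⟩)
          exact mul_inv_eq_iff_eq_mul.1 h3
        have hbne : (b : G) ≠ 1 := fun h => hb1 (Subtype.ext h.symm)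
        obtain ⟨n, hn⟩ := IsPGroup.iff_orderOf.1 hNp b
        rw [← Subgroup.orderOf_coe] at hn
        have hn0 : n ≠ 0 := by
          rintro rfl
          rw [pow_zero, orderOf_eq_one_iff] at hn
          exact hbne hn
        obtain ⟨m, rfl⟩ := Nat.exists_eq_succ_of_ne_zero hn0
        refine ⟨(b : G) ^ s ^ m, N.pow_mem b.2 _, ?_, ?_, ?_⟩
        · intro h
          have h3 := orderOf_dvd_of_pow_eq_one h
          rw [hn] at h3
          have h4 := (Nat.pow_dvd_pow_iff_le_right hs.out.one_lt).1 h3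
          omega
        · exact ((show Commute (c : G) b from hbc).pow_right _).eq
        · rw [← pow_mul, ← pow_succ, ← Nat.succ_eq_add_one, ← hn]
          exact pow_orderOf_eq_one _
      -- `A` permutes with `⟨cd⟩`
      set g : G := c * d with hg
      have hRt : IsSylowIn s R ⊤ := by
        refine ⟨le_top, hR, ?_⟩
        rw [← ht, sup_comm, hp.symm.relIndex_sup]
        exact fun hd => hsA (hd.trans (relIndex_dvd_card R A))
      have hAR' : Permutes A R' := by
        obtain ⟨x, -, hx⟩ := hRt.exists_conjBy_eq hR'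
        obtain ⟨r, hr, a, ha, e⟩ := hp.mem_sup'.1 (ht ▸ mem_top x : x ∈ A ⊔ R)
        rw [← hx, ← e, conjBy_mul, conjBy_eq_self hr]
        have h1 := permutes_conj hp a
        rwa [conjBy_eq_self ha] at h1
      have hgR' : g ∈ R' := R'.mul_mem hc' (hNR' hdN)
      have hgp : Permutes A (zpowers g) :=
        hA.permutes_of_isPGroup hR'.isPGroup hAR' (by rwa [zpowers_le])
      have hcom : Commute (c : G) d := hdc
      -- `J ∩ ⟨d⟩ = 1`
      have hJ : ∀ x ∈ A ⊔ zpowers g, x ∈ zpowers d → x = 1 := by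
        intro x hx hxd
        obtain ⟨a, ha, y, hy, e⟩ := hgp.mem_sup.1 hx
        obtain ⟨i, rfl⟩ := mem_zpowers_iff.1 hy
        obtain ⟨j, hj⟩ := mem_zpowers_iff.1 hxd
        have hxN : x ∈ N := by rw [← hj]; exact N.zpow_mem hdN j
        have ha1 : a = 1 := by
          apply eq_one_of_not_dvd hs.out hR'.isPGroup hsA _ ha
          have : a = x * (g ^ i)⁻¹ := by rw [← e]; group
          rw [this]
          exact R'.mul_mem (hNR' hxN) (R'.inv_mem (R'.zpow_mem hgR' i))
        rw [ha1, one_mul] at e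
        have h1 : g ^ i = (c : G) ^ i * d ^ i := by rw [hg]; exact hcom.mul_zpow i
        have h2 : (c : G) ^ i ∈ N := by
          have : (c : G) ^ i = x * (d ^ i)⁻¹ := by rw [← e, h1]; group
          rw [this]
          exact N.mul_mem hxN (N.inv_mem (N.zpow_mem hdN i))
        have h3 := hNC _ h2 (C.zpow_mem hcC i)
        have h4 : (s : ℤ) ∣ i := by
          rw [← hc]
          exact orderOf_dvd_iff_zpow_eq_one.2 h3
        obtain ⟨k, rfl⟩ := h4
        rw [← e, h1, h3, one_mul, zpow_mul, zpow_natCast, hds, one_zpow]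
      -- so `d` centralises `B`
      apply hdne
      apply hfix d hdN
      intro b hb
      have hdZ : d ∈ zpowers d := mem_zpowers d
      have hZN : zpowers d ≤ N := by rwa [zpowers_le]
      have h1 : b⁻¹ * d * b ∈ zpowers d := by
        have := hinv (zpowers d) hZN b⁻¹ (A.inv_mem (hB.le hb)) d hdZ
        simpa using this
      have h2 : b⁻¹ * d * b * d⁻¹ ∈ zpowers d := (zpowers d).mul_mem h1 ((zpowers d).inv_mem hdZ)
      have h3 : (c : G) * (b⁻¹ * d * b * d⁻¹) * (c : G)⁻¹ = b⁻¹ * d * b * d⁻¹ := by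
        obtain ⟨k, hk⟩ := mem_zpowers_iff.1 h2
        rw [← hk, (hcom.zpow_right k).eq, mul_inv_cancel_right]
      have h4 : g * b * g⁻¹ = ((c : G) * b * (c : G)⁻¹) * (b⁻¹ * d * b * d⁻¹) := by
        rw [← h3, hg]; group
      have h5 : (c : G) * b * (c : G)⁻¹ ∈ B := (mem_normalizer_iff.1 hcC b).1 hb
      have h6 : b⁻¹ * d * b * d⁻¹ = 1 := by
        apply hJ _ _ h2
        have h7 : b⁻¹ * d * b * d⁻¹ = ((c : G) * b * (c : G)⁻¹)⁻¹ * (g * b * g⁻¹) := by
          rw [h4]; group
        rw [h7]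
        have hgJ : g ∈ A ⊔ zpowers g := mem_sup_right (mem_zpowers g)
        have hbJ : b ∈ A ⊔ zpowers g := mem_sup_left (hB.le hb)
        exact mul_mem (inv_mem (mem_sup_left (hB.le h5)))
          (mul_mem (mul_mem hgJ hbJ) (inv_mem hgJ))
      have h7 : b⁻¹ * d * b = d := mul_inv_eq_one.1 h6
      calc b * d = b * (b⁻¹ * d * b) := by rw [h7]
        _ = d * b := by group
    have hNS : IsSylowIn s N ⊤ := by
      refine ⟨le_top, hNp, ?_⟩
      have h1 : Permutes N C := permutes_of_le_normalizer (by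
        rw [le_normalizer_iff]
        intro x _ n hn'
        exact hNn.conj_mem n hn' x)
      rw [← hsup, h1.relIndex_sup]
      exact fun hd => hsC (hd.trans (relIndex_dvd_card N C))
    have hRN : R ≤ N := by
      obtain ⟨x, -, hx⟩ := hNS.exists_le_conjBy hR le_top
      rwa [(opc_normalIn s (⊤ : Subgroup G)).conjBy_eq (mem_top x)] at hx
    rw [le_normalizer_iff]
    exact hinv R hRN

end DIAux

open DIAux

/-- (3.2) Lemma DI. -/
theorem DI [Finite G] {A R : Subgroup G} (hA : HerPermutable A)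
    (hab : ∀ a ∈ A, ∀ b ∈ A, a * b = b * a) {s : ℕ} [Fact s.Prime] (hR : IsPGroup s R)
    (hsA : ¬ s ∣ Nat.card A) (hp : Permutes A R)
    (hsol : Group.IsSolvable (A ⊔ R : Subgroup G)) :
    R ≤ normalizer (A : Set G) ∨ A ≤ normalizer (R : Set G) := by
  set L := A ⊔ R with hL
  have hAL : A ≤ L := le_sup_left
  have hRL : R ≤ L := le_sup_right
  have h := DI_top (G := L) (A := A.subgroupOf L) (R := R.subgroupOf L) (s := s)
    (hA.subgroupOf hAL)
    (fun a ha b hb => Subtype.ext (hab a ha b hb))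
    (hR.comap_subtype)
    (by
      intro hd
      apply hsA
      rwa [Nat.card_congr (subgroupOfEquivOfLe hAL).toEquiv] at hd)
    (by
      refine permutes_of_map (f := L.subtype) L.subtype_injective ?_
      rwa [subgroupOf_map_subtype, subgroupOf_map_subtype, inf_of_le_left hAL,
        inf_of_le_left hRL])
    (by
      rw [← subgroupOf_sup hAL hRL, ← hL, subgroupOf_self])
    hsol
  rcases h with h | h
  · left
    rw [le_normalizer_iff]
    intro r hr a ha
    have h1 : (⟨r, hRL hr⟩ : L) ∈ R.subgroupOf L := hr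
    have h2 := (mem_normalizer_iff.1 (h h1) ⟨a, hAL ha⟩).1 ha
    exact h2
  · right
    rw [le_normalizer_iff]
    intro a ha r hr
    have h1 : (⟨a, hAL ha⟩ : L) ∈ A.subgroupOf L := ha
    have h2 := (mem_normalizer_iff.1 (h h1) ⟨r, hRL hr⟩).1 hr
    exact h2

end MP_5771ce_al
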