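import Pool.Agent.Lib.MP_5771ce_al.Iso

/-!
# Power automorphisms of abelian `s`-groups (`MP_5771ce_al`, section 3.1)
-/

open Subgroup
open scoped Pointwise commutatorElement

universe u

namespace MP_5771ce_al

variable {G : Type u} [Group G]

/-- iterated power action -/
theorem conj_pow_eq_of_pow {a x : G} {k : ℕ} (h : a * x * a⁻¹ = x ^ k) (n : ℕ) :
    a ^ n * x * (a ^ n)⁻¹ = x ^ k ^ n := by
  induction n with
  | zero => simp
  | succ n ih =>
    have h1 : a ^ (n + 1) * x * (a ^ (n + 1))⁻¹ = a * (a ^ n * x * (a ^ n)⁻¹) * a⁻¹ := by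
      rw [pow_succ']; group
    rw [h1, ih, ← conj_pow, h, ← pow_mul, pow_succ, mul_comm]

/-- If `s` does not divide the order of `a` there is `i` with `a ^ (i * s ^ N) = a`. -/
theorem exists_pow_mul_eq_self [Finite G] {s : ℕ} (hs : s.Prime) {a : G}
    (ha : ¬ s ∣ orderOf a) (N : ℕ) : ∃ i : ℕ, a ^ (i * s ^ N) = a := by
  have hc : (s ^ N).Coprime (orderOf a) := Nat.Coprime.pow_left _ ((Nat.Prime.coprime_iff_not_dvd hs).2 ha)
  obtain ⟨i, hi⟩ := exists_pow_eq_self_of_coprime hc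
  exact ⟨i, by rw [mul_comm, pow_mul, hi]⟩

theorem exists_pow_eq [Finite G] {S : Subgroup G} {s : ℕ} [Fact s.Prime] (hS : IsPGroup s S)
    (hab : ∀ x ∈ S, ∀ y ∈ S, x * y = y * x) {a : G} (ha : ¬ s ∣ orderOf a)
    (hinv : ∀ x ∈ S, a * x * a⁻¹ ∈ zpowers x) : ∃ k : ℕ, ∀ x ∈ S, a * x * a⁻¹ = x ^ k := by
  have _ := hab
  have hs : s.Prime := Fact.out
  -- all subgroups are invariant under `⟨a⟩`
  have hinv1 : ∀ Y ≤ S, ∀ n : ℕ, ∀ y ∈ Y, a ^ n * y * (a ^ n)⁻¹ ∈ Y := by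
    intro Y hY n
    induction n with
    | zero => intro y hy; simpa using hy
    | succ n ih =>
      intro y hy
      have h1 : a ^ (n + 1) * y * (a ^ (n + 1))⁻¹ = a * (a ^ n * y * (a ^ n)⁻¹) * a⁻¹ := by
        rw [pow_succ']; group
      rw [h1]
      have h2 := ih y hy
      exact (zpowers_le.2 h2) (hinv _ (hY h2))
  have hinv2 : ∀ Y ≤ S, ∀ b ∈ zpowers a, ∀ y ∈ Y, b * y * b⁻¹ ∈ Y := by
    intro Y hY b hb y hy
    obtain ⟨n, rfl⟩ := (mem_powers_iff_mem_zpowers.2 hb)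
    exact hinv1 Y hY n y hy
  obtain ⟨k₀, hk₀⟩ := exists_uniform_mod hS hinv2 (mem_zpowers a)
  obtain ⟨N, hN⟩ := IsPGroup.iff_card.1 hS
  obtain ⟨i, hi⟩ := exists_pow_mul_eq_self hs ha N
  refine ⟨k₀ ^ (i * s ^ N), fun y hy => ?_⟩
  obtain ⟨k, hk, e⟩ := hk₀ y hy
  have h1 := conj_pow_eq_of_pow e (i * s ^ N)
  rw [hi] at h1
  rw [h1]
  -- `k ^ (i s^N) ≡ k₀ ^ (i s^N) mod s^(N+1)`
  have h2 : (s : ℤ) ∣ (k : ℤ) - (k₀ : ℤ) := (Int.natCast_modEq_iff.2 hk).symm.dvd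
  have h3 : ((s : ℤ) ^ (N + 1)) ∣ (k : ℤ) ^ s ^ N - (k₀ : ℤ) ^ s ^ N :=
    dvd_sub_pow_of_dvd_sub h2 N
  have h4 : (k : ℤ) ^ s ^ N ≡ (k₀ : ℤ) ^ s ^ N [ZMOD ((s : ℤ) ^ (N + 1))] :=
    (Int.modEq_iff_dvd.2 h3).symm
  have h5 : (k ^ s ^ N) ^ i ≡ (k₀ ^ s ^ N) ^ i [MOD s ^ (N + 1)] := by
    apply Nat.ModEq.pow
    exact Int.natCast_modEq_iff.1 (by exact_mod_cast h4)
  have h6 : orderOf y ∣ s ^ (N + 1) := by
    apply orderOf_dvd_of_pow_eq_one
    rw [pow_succ, pow_mul, ← hN]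
    have h7 : (⟨y, hy⟩ : S) ^ Nat.card S = 1 := pow_card_eq_one'
    have h8 : y ^ Nat.card S = 1 := congrArg Subtype.val h7
    rw [h8, one_pow]
  rw [pow_eq_pow_iff_modEq, mul_comm i, pow_mul, pow_mul]
  exact h5.of_dvd h6

theorem fixedPointFree_of_pow [Finite G] {S : Subgroup G} {s : ℕ} [Fact s.Prime]
    (hS : IsPGroup s S) {a : G} (ha : ¬ s ∣ orderOf a) {k : ℕ}
    (hk : ∀ x ∈ S, a * x * a⁻¹ = x ^ k) :
    (∀ x ∈ S, a * x = x * a) ∨ ∀ x ∈ S, a * x = x * a → x = 1 := by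
  have hs : s.Prime := Fact.out
  by_contra hcon
  push Not at hcon
  obtain ⟨⟨y, hy, hya⟩, x, hx, hxa, hx1⟩ := hcon
  apply hya
  -- `k ≡ 1 mod s`
  have h1 : x ^ k = x ^ 1 := by
    rw [← hk x hx, hxa, mul_inv_cancel_right, pow_one]
  have h2 : s ∣ orderOf x := by
    obtain ⟨n, hn⟩ := IsPGroup.iff_orderOf.1 hS ⟨x, hx⟩
    rw [orderOf_mk] at hn
    rw [hn]
    apply dvd_pow_self
    rintro rfl
    rw [pow_zero, orderOf_eq_one_iff] at hn
    exact hx1 hn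
  rw [pow_eq_pow_iff_modEq] at h1
  have h3 : k ≡ 1 [MOD s] := h1.of_dvd h2
  obtain ⟨N, hN⟩ := IsPGroup.iff_card.1 hS
  obtain ⟨i, hi⟩ := exists_pow_mul_eq_self hs ha N
  have h4 := conj_pow_eq_of_pow (hk y hy) (i * s ^ N)
  rw [hi] at h4
  have h2 : (s : ℤ) ∣ (k : ℤ) - 1 := (Int.natCast_modEq_iff.2 h3).symm.dvd
  have h3 : ((s : ℤ) ^ (N + 1)) ∣ (k : ℤ) ^ s ^ N - 1 ^ s ^ N :=
    dvd_sub_pow_of_dvd_sub h2 N
  have h5 : (k : ℤ) ^ s ^ N ≡ 1 ^ s ^ N [ZMOD ((s : ℤ) ^ (N + 1))] :=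
    (Int.modEq_iff_dvd.2 h3).symm
  have h5 : (k ^ s ^ N) ^ i ≡ (1 ^ s ^ N) ^ i [MOD s ^ (N + 1)] := by
    apply Nat.ModEq.pow
    exact Int.natCast_modEq_iff.1 (by exact_mod_cast h5)
  have h6 : orderOf y ∣ s ^ (N + 1) := by
    apply orderOf_dvd_of_pow_eq_one
    rw [pow_succ, pow_mul, ← hN]
    have h7 : (⟨y, hy⟩ : S) ^ Nat.card S = 1 := pow_card_eq_one'
    have h8 : y ^ Nat.card S = 1 := congrArg Subtype.val h7
    rw [h8, one_pow]
  have h7 : a * y * a⁻¹ = y := by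
    rw [h4]
    conv_rhs => rw [← pow_one y]
    rw [pow_eq_pow_iff_modEq, mul_comm i, pow_mul]
    have h8 := h5.of_dvd h6
    rwa [one_pow, one_pow] at h8
  calc a * y = a * y * a⁻¹ * a := by group
    _ = y * a := by rw [h7]

/-- A group of power automorphisms of an abelian `s`-group, of order prime to `s`, is cyclic: a
subgroup `B` of exponent `p` acting by powers has index at most `p` over the kernel. -/
theorem relIndex_dvd_of_pow [Finite G] {S B : Subgroup G} {s p : ℕ} [Fact s.Prime]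
    (hp : p.Prime) (hS : IsPGroup s S) (hBab : ∀ a ∈ B, ∀ b ∈ B, a * b = b * a)
    (hB : ∀ b ∈ B, b ^ p = 1) (hsB : ¬ s ∣ Nat.card B)
    (hk : ∀ a ∈ B, ∃ k : ℕ, ∀ x ∈ S, a * x * a⁻¹ = x ^ k) :
    (B ⊓ centralizer (S : Set G)).relIndex B ∣ p := by
  have _ := hp
  have _ := hBab
  have hs : s.Prime := Fact.out
  have hord : ∀ a ∈ B, ¬ s ∣ orderOf a := by
    intro a ha h
    apply hsB
    refine h.trans ?_
    have := orderOf_dvd_natCard (⟨a, ha⟩ : B)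
    rwa [orderOf_mk] at this
  by_cases hSb : S = ⊥
  · have h1 : B ⊓ centralizer (S : Set G) = B := by
      rw [inf_eq_left, hSb]
      intro b _
      rw [mem_centralizer_iff]
      intro x hx
      rw [SetLike.mem_coe, mem_bot] at hx
      rw [hx, one_mul, mul_one]
    rw [h1, relIndex_self]
    exact one_dvd _
  -- an element of order `s`
  have : Nontrivial S := (nontrivial_iff_ne_bot S).2 hSb
  obtain ⟨n, hn⟩ := IsPGroup.iff_card.1 hS
  have hsd : s ∣ Nat.card S := by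
    rw [hn]
    apply dvd_pow_self
    rintro rfl
    rw [pow_zero] at hn
    exact hSb (card_eq_one.1 hn)
  obtain ⟨x, hx⟩ := exists_prime_orderOf_dvd_card' s hsd
  obtain ⟨x, hxS⟩ := x
  rw [orderOf_mk] at hx
  have hx1 : x ≠ 1 := by
    rintro rfl
    rw [orderOf_one] at hx
    exact hs.one_lt.ne hx
  -- the action on `⟨x⟩`
  have hnorm : B ≤ normalizer (zpowers x : Set G) := by
    apply le_normalizer_of_conj_mem
    intro a ha y hy
    obtain ⟨k, hk⟩ := hk a ha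
    obtain ⟨m, rfl⟩ := hy
    have h1 : a * x ^ m * a⁻¹ = (x ^ k) ^ m := by
      rw [← hk x hxS, conj_zpow]
    simp only
    rw [h1]
    exact zpow_mem (pow_mem (mem_zpowers x) k) m
  let φ : B →* MulAut (zpowers x) :=
    (normalizerMonoidHom (zpowers x)).comp (inclusion hnorm)
  have hker : φ.ker = (B ⊓ centralizer (S : Set G)).subgroupOf B := by
    ext ⟨b, hb⟩
    rw [mem_subgroupOf, mem_inf]
    have h1 : (⟨b, hb⟩ : B) ∈ φ.ker ↔ b ∈ centralizer ((zpowers x : Subgroup G) : Set G) := by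
      rw [MonoidHom.mem_ker, MonoidHom.comp_apply, ← MonoidHom.mem_ker,
        normalizerMonoidHom_ker, mem_subgroupOf]
      rfl
    rw [h1]
    constructor
    · intro h
      refine ⟨hb, ?_⟩
      obtain ⟨k, hk⟩ := hk b hb
      rcases fixedPointFree_of_pow hS (hord b hb) hk with h2 | h2
      · rw [mem_centralizer_iff]
        intro y hy
        exact (h2 y hy).symm
      · rw [mem_centralizer_iff] at h
        exact absurd (h2 x hxS (h x (mem_zpowers x)).symm) hx1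
    · rintro ⟨-, h⟩
      exact centralizer_le (by exact_mod_cast (zpowers_le.2 hxS)) h
  have h1 : (B ⊓ centralizer (S : Set G)).relIndex B = Nat.card φ.range := by
    rw [relIndex, ← hker, index_ker]
  rw [h1]
  have : IsCyclic (MulAut (zpowers x)) := by
    have hcard : Nat.card (zpowers x) = s := by rw [Nat.card_zpowers, hx]
    have : Fact (Nat.card (zpowers x)).Prime := ⟨by rw [hcard]; exact hs⟩
    exact isCyclic_of_surjective (IsCyclic.mulAutMulEquiv (zpowers x)).symm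
      (MulEquiv.surjective _)
  rw [← IsCyclic.exponent_eq_card]
  apply Monoid.exponent_dvd_of_forall_pow_eq_one
  rintro ⟨_, b, rfl⟩
  ext1
  change φ b ^ p = 1
  rw [← map_pow]
  have h2 : b ^ p = 1 := Subtype.ext (hB b b.2)
  rw [h2, map_one]

end MP_5771ce_al
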