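import Pool.Agent.Lib.MP_5771ce_al.S3.Basic3
import Pool.Agent.Lib.MP_5771ce_al.S3.PA2
import Pool.Agent.Lib.MP_5771ce_al.S3.DI
import Pool.Agent.Lib.MP_5771ce_al.LibJ

/-!
# Section 3 (MP_5771ce_al): active Sylow subgroups (3.3)
-/

open Subgroup
open scoped Pointwise commutatorElement

universe u

namespace MP_5771ce_al

variable {G : Type u} [Group G]

theorem conj_mem_of_le_normalizer {A S : Subgroup G} (h : A ≤ normalizer (S : Set G)) :
    ∀ a ∈ A, ∀ x ∈ S, a * x * a⁻¹ ∈ S := fun _ ha x hx =>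
  (mem_normalizer_iff.1 (h ha) x).1 hx

theorem permutes_of_le_normalizer_right {A S : Subgroup G} (h : A ≤ normalizer (S : Set G)) :
    Permutes A S := permutes_of_conj_mem (conj_mem_of_le_normalizer h)

theorem conjBy_top (g : G) : MP_5771ce_al.conjBy (⊤ : Subgroup G) g = ⊤ := by
  rw [eq_top_iff]
  intro x _
  rw [mem_conjBy]
  exact mem_top _

theorem normalizer_conjBy (S : Subgroup G) (g : G) :
    normalizer (MP_5771ce_al.conjBy S g : Set G) =
      MP_5771ce_al.conjBy (normalizer (S : Set G)) g := by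
  ext x
  rw [mem_conjBy, mem_normalizer_iff_conjBy, mem_normalizer_iff_conjBy, ← conjBy_mul]
  constructor
  · intro h
    rw [conjBy_mul, h, ← conjBy_mul, mul_inv_cancel, conjBy_one]
  · intro h
    have h2 : g * x = g * x * g⁻¹ * g := by group
    rw [h2, conjBy_mul, h]

section act

variable [Finite G] {A : Subgroup G} {q : ℕ}

/-- all subgroups of an `A`-invariant `s`-group are `A`-invariant -/
theorem HerPermutable.conj_mem_of_not_dvd (hA : HerPermutable A) {s : ℕ} (hs : s.Prime)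
    (hsA : ¬ s ∣ Nat.card A) {S : Subgroup G} (hS : IsPGroup s S)
    (hn : A ≤ normalizer (S : Set G)) : ∀ Y ≤ S, ∀ a ∈ A, ∀ y ∈ Y, a * y * a⁻¹ ∈ Y := by
  have : Fact s.Prime := ⟨hs⟩
  exact conj_mem_of_opc (opc_eq_bot_of_not_dvd hs hsA) hS (conj_mem_of_le_normalizer hn)
    (fun Y hY => hA.permutes_of_isPGroup hS (permutes_of_le_normalizer_right hn) hY)

/-- an `A`-invariant, not centralised `s`-group gives an isolated pair -/
theorem isoPair_of_ne (hA : HerPermutable A) (hab : ∀ a ∈ A, ∀ b ∈ A, a * b = b * a) {s : ℕ}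
    (hs : s.Prime) (hsA : ¬ s ∣ Nat.card A) {S : Subgroup G} (hS : IsPGroup s S)
    (hn : A ≤ normalizer (S : Set G)) (hne : ⁅S, A⁆ ≠ ⊥) : IsoPair A s S := by
  have _ : Fact s.Prime := ⟨hs⟩
  have hinv := hA.conj_mem_of_not_dvd hs hsA hS hn
  -- a Sylow subgroup of `A` acts nontrivially
  have h1 : ∃ p : ℕ, p.Prime ∧ p ∣ Nat.card A ∧ ⁅S, opc p A⁆ ≠ ⊥ := by
    by_contra hno
    push Not at hno
    apply hne
    rw [commutator_eq_bot_iff_le_centralizer]
    have h2 : A ≤ centralizer (S : Set G) := le_of_opc_le_of_abelian hab fun p hp hd => by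
      have := hno p hp hd
      rw [commutator_comm, commutator_eq_bot_iff_le_centralizer] at this
      exact this
    exact le_centralizer_iff.1 h2
  obtain ⟨p, hp, hd, hne2⟩ := h1
  have _ : Fact p.Prime := ⟨hp⟩
  have hps : ¬ p ∣ Nat.card S :=
    not_dvd_card_of_isPGroup hp hs (by rintro rfl; exact hsA hd) hS
  have hnp : opc p A ≤ normalizer (S : Set G) := (opc_le p A).trans hn
  have h3 := commutator_commutator_eq (opc_isPGroup p A) hnp hps
  have h4 : ⁅S, opc p A⁆ ≤ S := le_normalizer_iff_commutator_le_left.1 hnp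
  have h5 : ⁅S, opc p A⁆ ≤ ⁅⁅S, opc p A⁆, A⁆ := by
    conv_lhs => rw [← h3]
    exact commutator_mono le_rfl (opc_le p A)
  have hSb : S ≠ ⊥ := by
    rintro rfl
    apply hne
    rw [commutator_eq_bot_iff_le_centralizer]
    exact bot_le
  exact ⟨opc_eq_bot_of_not_dvd hs hsA, hS, hSb, conj_mem_of_le_normalizer hn,
    fun Y hY => hA.permutes_of_isPGroup hS (permutes_of_le_normalizer_right hn) hY,
    le_commutator_of_power hS hinv h4 hne2 h5 le_rfl⟩

omit [Finite G] in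
theorem IsoPair.commutator_ne_bot {s : ℕ} {S : Subgroup G} (h : IsoPair A s S) : ⁅S, A⁆ ≠ ⊥ := by
  intro h1
  apply h.ne_bot
  rw [← le_bot_iff, ← h1]
  exact h.comm

theorem MCq.isSylowIn_opc_of_exists_M (h : MCq A q) {s : ℕ} (hs : s.Prime)
    (hsA : ¬ s ∣ Nat.card A) {M : Subgroup G} (hAM : A ≤ M) (hM : M ≠ ⊤)
    (hI : IsoPair A s (opc s M)) : IsSylowIn s (opc s M) M := by
  have _ : Fact s.Prime := ⟨hs⟩
  obtain ⟨P, hP, hperm⟩ := h.mc.her.exists_isSylowIn_permutes hAM s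
  have h1 : opc s M ≤ P := hP.opc_le
  have hAN : A ≤ normalizer (P : Set G) := by
    rcases DI h.mc.her h.comm hP.isPGroup hsA hperm
      (h.mc.isSolvable_sup_of_isPGroup hP.isPGroup hperm) with h2 | h2
    · exfalso
      apply hI.commutator_ne_bot
      rw [← le_bot_iff, ← hI.inf_eq_bot]
      refine le_inf ?_ ?_
      · exact le_normalizer_iff_commutator_le_right.1 (h1.trans h2)
      · exact le_normalizer_iff_commutator_le_left.1 (le_normalizer_of_conj_mem hI.norm)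
    · exact h2
  have hne : ⁅P, A⁆ ≠ ⊥ := by
    intro h2
    apply hI.commutator_ne_bot
    rw [← le_bot_iff, ← h2]
    exact commutator_mono h1 le_rfl
  have hIP := isoPair_of_ne h.mc.her h.comm hs hsA hP.isPGroup hAN hne
  have h3 : P ≤ opc s M := h.mc.lemmaP hAM hM hP.le hP.isPGroup hIP.norm hIP.comm
  rwa [le_antisymm h1 h3]

theorem isSylowIn_top_of_normalizer {s : ℕ} (hs : s.Prime) {S : Subgroup G}
    (h : IsSylowIn s S (normalizer (S : Set G))) : IsSylowIn s S ⊤ := by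
  have _ : Fact s.Prime := ⟨hs⟩
  obtain ⟨T, hT, hST⟩ := exists_isSylowIn_ge h.isPGroup (le_top : S ≤ ⊤)
  rcases eq_or_lt_of_le hST with h1 | h1
  · rwa [h1]
  · exfalso
    have h2 := lt_inf_normalizer_of_lt hT.isPGroup h1
    exact h2.ne (h.eq_of_le (hT.isPGroup.to_le inf_le_left) h2.le inf_le_right)

theorem Act.isoPair (h : MCq A q) {s : ℕ} {S : Subgroup G} (hS : Act s A S) : IsoPair A s S :=
  isoPair_of_ne h.mc.her h.comm hS.prime hS.ndvd hS.syl.isPGroup hS.norm hS.ne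

theorem Act.of_isoPair (h : MCq A q) {s : ℕ} (hs : s.Prime)
    (hsA : ¬ s ∣ Nat.card A) {M : Subgroup G} (hAM : A ≤ M) (hM : M ≠ ⊤)
    (hI : IsoPair A s (opc s M)) (hN : M = normalizer (opc s M : Set G)) :
    Act s A (opc s M) where
  prime := hs
  ndvd := hsA
  syl := by
    apply isSylowIn_top_of_normalizer hs
    rw [← hN]
    exact h.isSylowIn_opc_of_exists_M hs hsA hAM hM hI
  norm := by rw [← hN]; exact hAM
  ne := hI.commutator_ne_bot

/-- (3.3.1) -/
theorem MCq.exists_act (h : MCq A q) {s : ℕ} (hs : s.Prime) (hsA : ¬ s ∣ Nat.card A)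
    {S₀ : Subgroup G} (hS₀ : IsPGroup s S₀) (hn : A ≤ normalizer (S₀ : Set G))
    (hne : ⁅S₀, A⁆ ≠ ⊥) : ∃ S, S₀ ≤ S ∧ Act s A S := by
  have _ : Fact s.Prime := ⟨hs⟩
  obtain ⟨M, hM, hAM, h1, h2, h3, -⟩ := h.mc.exists_M
    (isoPair_of_ne h.mc.her h.comm hs hsA hS₀ hn hne)
  exact ⟨opc s M, h1, Act.of_isoPair h hs hsA hAM hM.1 h2 h3⟩

theorem Act.comm (h : MCq A q) {s : ℕ} {S : Subgroup G} (hS : Act s A S) :
    ∀ x ∈ S, ∀ y ∈ S, x * y = y * x := by
  have _ : Fact s.Prime := ⟨hS.prime⟩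
  exact (hS.isoPair h).commute

theorem Act.exists_M (h : MCq A q) {s : ℕ} {S : Subgroup G} (hS : Act s A S) :
    IsCoatom (normalizer (S : Set G)) ∧
      ∀ X ≤ S, X ≠ ⊥ → ∀ E : Subgroup G, E ≠ ⊤ → A ≤ E → X ≤ E →
        E ≤ normalizer (S : Set G) := by
  have _ : Fact s.Prime := ⟨hS.prime⟩
  obtain ⟨M, hM, hAM, h1, h2, h3, h4⟩ := h.mc.exists_M (hS.isoPair h)
  have h5 : S = opc s M := hS.syl.eq_of_le (opc_isPGroup s M) h1 le_top
  rw [h5, ← h3]
  exact ⟨hM, h4⟩

/-- (3.3.2a) -/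
theorem Act.le_normalizer (h : MCq A q) {s : ℕ} {S : Subgroup G} (hS : Act s A S)
    {E : Subgroup G} (hE : E ≠ ⊤) (hAE : A ≤ E) (hX : E ⊓ S ≠ ⊥) :
    E ≤ normalizer (S : Set G) :=
  (hS.exists_M h).2 (E ⊓ S) inf_le_right hX E hE hAE inf_le_left

theorem Act.isCoatom (h : MCq A q) {s : ℕ} {S : Subgroup G} (hS : Act s A S) :
    IsCoatom (normalizer (S : Set G)) := (hS.exists_M h).1

omit [Finite G] in
theorem Act.ne_bot {s : ℕ} {S : Subgroup G} (hS : Act s A S) : S ≠ ⊥ := by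
  intro h1
  apply hS.ne
  rw [h1, commutator_eq_bot_iff_le_centralizer]
  exact bot_le

/-- (3.3.2b) -/
theorem Act.normalizer_le (h : MCq A q) {s : ℕ} {S X : Subgroup G} (hS : Act s A S)
    (hX : X ≤ S) (hne : X ≠ ⊥) : normalizer (X : Set G) ≤ normalizer (S : Set G) := by
  have _ : Fact s.Prime := ⟨hS.prime⟩
  refine (hS.exists_M h).2 X hX hne _ ?_ ?_ Subgroup.le_normalizer
  · exact h.mc.normalizer_ne_top hne (isSolvable_of_isPGroup (hS.syl.isPGroup.to_le hX))
  · exact le_normalizer_of_conj_mem ((hS.isoPair h).conj_mem X hX)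

/-- (3.3.2c) -/
theorem Act.normalizer_le_of_centralizes (h : MCq A q) {s : ℕ} {S B : Subgroup G}
    (hS : Act s A S) (hB : B ≤ A) (hne : B ≠ ⊥) (hBS : B ≤ centralizer (S : Set G)) :
    normalizer (B : Set G) ≤ normalizer (S : Set G) := by
  refine (hS.exists_M h).2 S le_rfl hS.ne_bot _ ?_ ?_ ?_
  · exact h.mc.normalizer_ne_top hne (isSolvable_of_le h.mc.sol hB)
  · exact le_normalizer_of_commute fun a ha b hb => h.comm a ha b (hB hb)
  · exact le_normalizer_of_commute fun x hx b hb => mem_centralizer_iff.1 (hBS hb) x hx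

/-- (3.3.2d): an `s`-subgroup of `N_G(S)` is in `S` -/
theorem Act.le_of_isPGroup' {s : ℕ} {S X : Subgroup G} (hS : Act s A S)
    (hX : IsPGroup s X) (hXS : X ≤ normalizer (S : Set G)) : X ≤ S := by
  have _ : Fact s.Prime := ⟨hS.prime⟩
  have h1 : IsSylowIn s S (normalizer (S : Set G)) := hS.syl.of_le Subgroup.le_normalizer le_top
  obtain ⟨x, hx, h2⟩ := h1.exists_le_conjBy hX hXS
  rwa [conjBy_eq_of_mem_normalizer hx] at h2

theorem Act.le_of_isPGroup (_h : MCq A q) {s : ℕ} {S X : Subgroup G} (hS : Act s A S)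
    (hX : IsPGroup s X) (hXS : X ≤ normalizer (S : Set G)) : X ≤ S := hS.le_of_isPGroup' hX hXS

theorem conjBy_eq_of_le {S : Subgroup G} {g : G} (h : MP_5771ce_al.conjBy S g ≤ S) :
    MP_5771ce_al.conjBy S g = S :=
  Subgroup.eq_of_le_of_card_ge h (card_conjBy S g).ge

theorem Act.mem_of_conjBy_le (_h : MCq A q) {s : ℕ} {S : Subgroup G} (hS : Act s A S) {g : G}
    (hg : MP_5771ce_al.conjBy S g ≤ normalizer (S : Set G)) : g ∈ normalizer (S : Set G) := by
  rw [mem_normalizer_iff_conjBy]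
  exact conjBy_eq_of_le (hS.le_of_isPGroup' (hS.syl.isPGroup.map _) hg)

theorem Act.mem_of_inf_ne_bot (h : MCq A q) {s : ℕ} {S : Subgroup G} (hS : Act s A S) {g : G}
    (hg : S ⊓ MP_5771ce_al.conjBy S g ≠ ⊥) : g ∈ normalizer (S : Set G) := by
  refine hS.mem_of_conjBy_le h (le_trans ?_ (hS.normalizer_le h inf_le_left hg))
  refine le_normalizer_of_commute fun b hb x hx => ?_
  rw [mem_conjBy] at hb
  have h2 := mem_conjBy.1 hx.2
  have h1 := hS.comm h _ hb _ h2
  have h3 : g * (b * x) * g⁻¹ = g * (x * b) * g⁻¹ := by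
    calc g * (b * x) * g⁻¹ = g * b * g⁻¹ * (g * x * g⁻¹) := by group
      _ = g * x * g⁻¹ * (g * b * g⁻¹) := h1
      _ = g * (x * b) * g⁻¹ := by group
  exact mul_left_cancel (mul_right_cancel h3)

omit [Finite G] in
theorem Act.of_conj (_h : MCq A q) {s : ℕ} {S : Subgroup G} (hS : Act s A S) {g : G}
    (hg : MP_5771ce_al.conjBy A g ≤ normalizer (S : Set G))
    (hne : ⁅S, MP_5771ce_al.conjBy A g⁆ ≠ ⊥) : Act s (MP_5771ce_al.conjBy A g) S where
  prime := hS.prime
  ndvd := by rw [card_conjBy]; exact hS.ndvd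
  syl := hS.syl
  norm := hg
  ne := hne

omit [Finite G] in
theorem commutator_conjBy (X Y : Subgroup G) (g : G) :
    ⁅MP_5771ce_al.conjBy X g, MP_5771ce_al.conjBy Y g⁆ = MP_5771ce_al.conjBy ⁅X, Y⁆ g :=
  (map_commutator X Y _).symm

omit [Finite G] in
theorem Act.conj' {s : ℕ} {S : Subgroup G} (hS : Act s A S) (g : G) :
    Act s (MP_5771ce_al.conjBy A g) (MP_5771ce_al.conjBy S g) where
  prime := hS.prime
  ndvd := by rw [card_conjBy]; exact hS.ndvd
  syl := by
    have := hS.syl.conjBy g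
    rwa [conjBy_top] at this
  norm := by
    rw [normalizer_conjBy]
    exact conjBy_mono hS.norm g
  ne := by
    rw [commutator_conjBy]
    exact conjBy_ne_bot hS.ne g

omit [Finite G] in
theorem Act.conj (_h : MCq A q) {s : ℕ} {S : Subgroup G} (hS : Act s A S) (g : G) :
    Act s (MP_5771ce_al.conjBy A g) (MP_5771ce_al.conjBy S g) := hS.conj' g

theorem ActV.conj {s : ℕ} {S : Subgroup G} (hS : ActV q s A S) (g : G) :
    ActV q s (MP_5771ce_al.conjBy A g) (MP_5771ce_al.conjBy S g) := by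
  refine ⟨hS.1.conj' g, ?_⟩
  rw [opc_conjBy', commutator_conjBy]
  exact conjBy_ne_bot hS.2 g

/-- every conjugate of `A` normalising `S` acts by powers -/
theorem Act.pow (h : MCq A q) {s : ℕ} {S : Subgroup G} (hS : Act s A S) {g : G}
    (hg : MP_5771ce_al.conjBy A g ≤ normalizer (S : Set G)) {a : G}
    (ha : a ∈ MP_5771ce_al.conjBy A g) : ∃ k : ℕ, ∀ x ∈ S, a * x * a⁻¹ = x ^ k := by
  have _ : Fact s.Prime := ⟨hS.prime⟩
  refine exists_pow_eq hS.syl.isPGroup (hS.comm h) ?_ ?_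
  · intro hd
    apply hS.ndvd
    rw [← card_conjBy A g]
    exact hd.trans (Subgroup.orderOf_dvd_natCard _ ha)
  · intro x hx
    exact (h.mc.her.conjBy g).conj_mem_of_not_dvd hS.prime (by rw [card_conjBy]; exact hS.ndvd)
      hS.syl.isPGroup hg _ (by rwa [zpowers_le]) a ha x (mem_zpowers x)

/-- ... and fixed point freely or trivially. -/
theorem Act.fpf (h : MCq A q) {s : ℕ} {S : Subgroup G} (hS : Act s A S) {g : G}
    (hg : MP_5771ce_al.conjBy A g ≤ normalizer (S : Set G)) {a : G}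
    (ha : a ∈ MP_5771ce_al.conjBy A g) :
    (∀ x ∈ S, a * x = x * a) ∨ ∀ x ∈ S, a * x = x * a → x = 1 := by
  have _ : Fact s.Prime := ⟨hS.prime⟩
  obtain ⟨k, hk⟩ := hS.pow h hg ha
  refine fixedPointFree_of_pow hS.syl.isPGroup ?_ hk
  intro hd
  apply hS.ndvd
  rw [← card_conjBy A g]
  exact hd.trans (Subgroup.orderOf_dvd_natCard _ ha)

/-- ... centrally in `Aut(S)` ... -/
theorem Act.central (h : MCq A q) {s : ℕ} {S : Subgroup G} (hS : Act s A S) {g : G}
    (hg : MP_5771ce_al.conjBy A g ≤ normalizer (S : Set G)) {a n : G}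
    (ha : a ∈ MP_5771ce_al.conjBy A g) (hn : n ∈ normalizer (S : Set G)) :
    ⁅a, n⁆ ∈ centralizer (S : Set G) := by
  obtain ⟨k, hk⟩ := hS.pow h hg ha
  rw [mem_centralizer_iff]
  intro x hx
  have hy : n⁻¹ * x * n ∈ S := by
    have := (mem_normalizer_iff.1 (inv_mem hn) x).1 hx
    rwa [inv_inv] at this
  have hz : a⁻¹ * (n⁻¹ * x * n) * a ∈ S := by
    have := (mem_normalizer_iff.1 (inv_mem (hg ha)) _).1 hy
    rwa [inv_inv] at this
  set z := a⁻¹ * (n⁻¹ * x * n) * a with hz'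
  have h1 : z ^ k = n⁻¹ * x * n := by
    rw [← hk z hz, hz']; group
  have hw : n * z * n⁻¹ ∈ S := (mem_normalizer_iff.1 hn z).1 hz
  have h2 := hk _ hw
  rw [conj_pow, h1] at h2
  have h3 : a * (n * z * n⁻¹) * a⁻¹ = x := by rw [h2]; group
  have h4 : ⁅a, n⁆ * x * ⁅a, n⁆⁻¹ = x := by
    refine Eq.trans ?_ h3
    rw [hz', commutatorElement_def]
    group
  rw [mul_inv_eq_iff_eq_mul] at h4
  exact h4.symm

/-- `P_t ≤ N_G(A)` or `P_t` is active, for `t` not dividing `|A|` -/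
theorem MCq.sylPerm_cases (h : MCq A q) {t : ℕ} (ht : t.Prime) (htA : ¬ t ∣ Nat.card A)
    {P : Subgroup G} (hP : SylPerm t A P) : P ≤ normalizer (A : Set G) ∨ Act t A P := by
  have _ : Fact t.Prime := ⟨ht⟩
  rcases DI h.mc.her h.comm hP.isPGroup htA hP.permutes
    (h.mc.isSolvable_sup_of_isPGroup hP.isPGroup hP.permutes) with h1 | h1
  · exact Or.inl h1
  by_cases hne : ⁅P, A⁆ = ⊥
  · left
    rw [commutator_eq_bot_iff_le_centralizer] at hne
    exact le_normalizer_of_commute fun x hx a ha =>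
      (mem_centralizer_iff.1 (hne hx) a ha).symm
  · right
    refine ⟨ht, htA, ⟨le_top, hP.isPGroup, ?_⟩, h1, hne⟩
    rw [relIndex_top_right]
    exact hP.not_dvd

end act

end MP_5771ce_al
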