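import Pool.Agent.Lib.MP_5771ce_al.S3.Defs

/-!
# Section 3 (MP_5771ce_al): basic facts on abelian `A` and conjugates
-/

open Subgroup
open scoped Pointwise commutatorElement

universe u

namespace MP_5771ce_al

variable {G : Type u} [Group G]

theorem HerPermutable.conjBy {A : Subgroup G} (hA : HerPermutable A) (g : G) :
    HerPermutable (MP_5771ce_al.conjBy A g) :=
  hA.map (f := (MulAut.conj g⁻¹).toMonoidHom) (MulAut.conj g⁻¹).surjective

theorem conjBy_mem {A : Subgroup G} {a : G} (ha : a ∈ A) (g : G) :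
    g⁻¹ * a * g ∈ MP_5771ce_al.conjBy A g := by
  rw [mem_conjBy]
  simpa [mul_assoc] using ha

theorem conjBy_inv_conjBy (A : Subgroup G) (g : G) :
    MP_5771ce_al.conjBy (MP_5771ce_al.conjBy A g) g⁻¹ = A := by
  rw [← conjBy_mul, mul_inv_cancel, conjBy_one]

theorem comm_conjBy {A : Subgroup G} (h : ∀ a ∈ A, ∀ b ∈ A, a * b = b * a) (g : G) :
    ∀ a ∈ MP_5771ce_al.conjBy A g, ∀ b ∈ MP_5771ce_al.conjBy A g, a * b = b * a := by
  intro a ha b hb
  rw [mem_conjBy] at ha hb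
  have h1 := h _ ha _ hb
  have h2 : g * (a * b) * g⁻¹ = g * (b * a) * g⁻¹ := by
    calc g * (a * b) * g⁻¹ = g * a * g⁻¹ * (g * b * g⁻¹) := by group
      _ = g * b * g⁻¹ * (g * a * g⁻¹) := h1
      _ = g * (b * a) * g⁻¹ := by group
  have h3 := mul_right_cancel h2
  exact mul_left_cancel h3

theorem conjBy_ne_bot {A : Subgroup G} (h : A ≠ ⊥) (g : G) : MP_5771ce_al.conjBy A g ≠ ⊥ := by
  intro h1
  apply h
  rw [← conjBy_inv_conjBy A g, h1]
  exact Subgroup.map_bot _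

theorem MC.conjBy [Finite G] {A : Subgroup G} (h : MC A) (g : G) :
    MC (MP_5771ce_al.conjBy A g) where
  her := h.her.conjBy g
  sol := isSolvable_map h.sol _
  not_le := by
    intro h1
    apply h.not_le
    have h2 := conjBy_mono h1 g⁻¹
    rwa [conjBy_inv_conjBy, (rad_normalIn (⊤ : Subgroup G)).conjBy_eq (mem_top _)] at h2
  min := h.min

theorem MCq.conjBy [Finite G] {A : Subgroup G} {q : ℕ} (h : MCq A q) (g : G) :
    MCq (MP_5771ce_al.conjBy A g) q where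
  mc := h.mc.conjBy g
  comm := comm_conjBy h.comm g
  prime := h.prime
  dvd := by rw [card_conjBy]; exact h.dvd
  max := by rw [card_conjBy]; exact h.max

/-- for an abelian group `A` the subgroup `opc p A` consists of the `p`-elements of `A` -/
theorem mem_opc_of_abelian [Finite G] {A : Subgroup G} (hab : ∀ a ∈ A, ∀ b ∈ A, a * b = b * a)
    {p : ℕ} {x : G} : x ∈ opc p A ↔ x ∈ A ∧ ∃ k : ℕ, x ^ p ^ k = 1 := by
  constructor
  · intro hx
    refine ⟨opc_le p A hx, ?_⟩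
    obtain ⟨k, hk⟩ := opc_isPGroup p A ⟨x, hx⟩
    exact ⟨k, congrArg Subtype.val hk⟩
  · intro hx
    exact le_opc (ppart_normalIn hab (normalIn_refl A)) (ppart_isPGroup p A hab)
      (show x ∈ ppart p A hab from hx)

theorem mem_opp_of_abelian [Finite G] {A : Subgroup G} (hab : ∀ a ∈ A, ∀ b ∈ A, a * b = b * a)
    {p : ℕ} (hp : p.Prime) {x : G} : x ∈ opp p A ↔ x ∈ A ∧ ¬ p ∣ orderOf x := by
  constructor
  · intro hx
    exact ⟨opp_le p A hx, fun hd => not_dvd_card_opp hp A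
      (hd.trans (Subgroup.orderOf_dvd_natCard _ hx))⟩
  · rintro ⟨hx, hd⟩
    have h1 : NormalIn (zpowers x) A := by
      refine ⟨by rwa [zpowers_le], fun e he n hn => ?_⟩
      have h2 : n ∈ A := (show zpowers x ≤ A by rwa [zpowers_le]) hn
      rw [hab e he n h2, mul_inv_cancel_right]
      exact hn
    exact le_opp h1 (by rwa [Nat.card_zpowers]) (mem_zpowers x)

theorem opc_sup_opp_of_abelian [Finite G] {A : Subgroup G}
    (hab : ∀ a ∈ A, ∀ b ∈ A, a * b = b * a) {p : ℕ} (hp : p.Prime) : opc p A ⊔ opp p A = A := by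
  apply le_antisymm (sup_le (opc_le p A) (opp_le p A))
  intro x hx
  obtain ⟨k, m, hm, hn⟩ := Nat.exists_eq_pow_mul_and_not_dvd (orderOf_pos x).ne' p hp.ne_one
  have hc : Nat.Coprime (p ^ k) m := Nat.Coprime.pow_left k ((hp.coprime_iff_not_dvd).2 hm)
  have hb : ((p ^ k : ℕ) : ℤ) * Nat.gcdA (p ^ k) m + (m : ℤ) * Nat.gcdB (p ^ k) m = 1 := by
    rw [← Nat.gcd_eq_gcd_ab, hc]; norm_num
  have he : x = x ^ ((m : ℤ) * Nat.gcdB (p ^ k) m) * x ^ (((p ^ k : ℕ) : ℤ) * Nat.gcdA (p ^ k) m) := by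
    rw [← zpow_add, add_comm, hb, zpow_one]
  have hpow : x ^ (p ^ k * m) = 1 := by rw [← hn, pow_orderOf_eq_one]
  rw [he]
  refine mul_mem (mem_sup_left ?_) (mem_sup_right ?_)
  · rw [mem_opc_of_abelian hab]
    refine ⟨zpow_mem hx _, k, ?_⟩
    rw [← zpow_natCast, ← zpow_mul]
    have : (m : ℤ) * Nat.gcdB (p ^ k) m * ((p ^ k : ℕ) : ℤ)
        = ((p ^ k * m : ℕ) : ℤ) * Nat.gcdB (p ^ k) m := by push_cast; ring
    rw [this, zpow_mul, zpow_natCast, hpow, one_zpow]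
  · rw [mem_opp_of_abelian hab hp]
    refine ⟨zpow_mem hx _, fun hd => hm (hd.trans ?_)⟩
    apply orderOf_dvd_of_pow_eq_one
    rw [← zpow_natCast, ← zpow_mul]
    have : ((p ^ k : ℕ) : ℤ) * Nat.gcdA (p ^ k) m * (m : ℤ)
        = ((p ^ k * m : ℕ) : ℤ) * Nat.gcdA (p ^ k) m := by push_cast; ring
    rw [this, zpow_mul, zpow_natCast, hpow, one_zpow]

theorem isSylowIn_opc_of_abelian [Finite G] {A : Subgroup G}
    (hab : ∀ a ∈ A, ∀ b ∈ A, a * b = b * a) {p : ℕ} (hp : p.Prime) : IsSylowIn p (opc p A) A := by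
  have : Fact p.Prime := ⟨hp⟩
  obtain ⟨P, hP⟩ := exists_isSylowIn (p := p) A
  have h1 : P ≤ opc p A := by
    intro x hx
    rw [mem_opc_of_abelian hab]
    refine ⟨hP.le hx, ?_⟩
    obtain ⟨k, hk⟩ := hP.isPGroup ⟨x, hx⟩
    exact ⟨k, congrArg Subtype.val hk⟩
  rw [← hP.eq_of_le (opc_isPGroup p A) h1 (opc_le p A)]
  exact hP

theorem opc_eq_bot_of_not_dvd [Finite G] {A : Subgroup G} {p : ℕ} (hp : p.Prime)
    (h : ¬ p ∣ Nat.card A) : opc p A = ⊥ := by
  have : Fact p.Prime := ⟨hp⟩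
  obtain ⟨n, hn⟩ := (IsPGroup.iff_card).1 (opc_isPGroup p A)
  rw [← Subgroup.card_eq_one, hn]
  rcases Nat.eq_zero_or_pos n with h0 | h0
  · rw [h0, pow_zero]
  · exfalso
    apply h
    have h1 : Nat.card (opc p A) ∣ Nat.card A := Subgroup.card_dvd_of_le (opc_le p A)
    rw [hn] at h1
    exact (dvd_pow_self p h0.ne').trans h1

theorem le_of_opc_le_of_abelian [Finite G] {A K : Subgroup G}
    (hab : ∀ a ∈ A, ∀ b ∈ A, a * b = b * a)
    (h : ∀ p : ℕ, p.Prime → p ∣ Nat.card A → opc p A ≤ K) : A ≤ K := by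
  have hnil : Group.IsNilpotent A := by
    let _ : CommGroup A :=
      { (inferInstance : Group A) with mul_comm := fun a b => Subtype.ext (hab a a.2 b b.2) }
    exact CommGroup.isNilpotent
  refine (le_fit (normalIn_refl A) hnil).trans ?_
  rw [fit_le_iff]
  intro p hp
  by_cases hd : p ∣ Nat.card A
  · exact h p hp hd
  · rw [opc_eq_bot_of_not_dvd hp hd]; exact bot_le

theorem opc_conjBy' [Finite G] (p : ℕ) (A : Subgroup G) (g : G) :
    opc p (MP_5771ce_al.conjBy A g) = MP_5771ce_al.conjBy (opc p A) g :=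
  opc_map_of_injective p A (MulAut.conj g⁻¹).injective

theorem opp_conjBy' [Finite G] {p : ℕ} (hp : p.Prime) (A : Subgroup G) (g : G) :
    opp p (MP_5771ce_al.conjBy A g) = MP_5771ce_al.conjBy (opp p A) g :=
  opp_map_of_injective hp A (MulAut.conj g⁻¹).injective

theorem MCq.opc_ne_bot [Finite G] {A : Subgroup G} {q : ℕ} (h : MCq A q) : opc q A ≠ ⊥ := by
  intro h1
  have h2 := isSylowIn_opc_of_abelian h.comm h.prime
  rw [h1] at h2
  apply h2.not_dvd
  rw [relIndex_bot_left]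
  exact h.dvd

theorem Iplus.conjBy_iff {A : Subgroup G} {q r : ℕ} (g : G) :
    Iplus (MP_5771ce_al.conjBy A g) q r ↔ Iplus A q r := by
  constructor
  · rintro ⟨x, S, h⟩
    refine ⟨g * x, S, ?_⟩
    rwa [conjBy_mul]
  · rintro ⟨x, S, h⟩
    refine ⟨g⁻¹ * x, S, ?_⟩
    rwa [← conjBy_mul, mul_inv_cancel_left]

theorem InP.conjBy_iff {A E : Subgroup G} (g : G) :
    InP (MP_5771ce_al.conjBy A g) E ↔ InP A E := by
  constructor
  · rintro ⟨h, x, hx⟩
    exact ⟨h, g * x, by rwa [conjBy_mul]⟩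
  · rintro ⟨h, x, hx⟩
    refine ⟨h, g⁻¹ * x, ?_⟩
    rwa [← conjBy_mul, mul_inv_cancel_left]

theorem TypeT.conjBy_iff [Finite G] {A E : Subgroup G} {q : ℕ} (g : G) :
    TypeT (MP_5771ce_al.conjBy A g) q E ↔ TypeT A q E := by
  constructor
  · intro h r hr hd x hx
    have h1 := h r hr (by rwa [card_conjBy]) (g⁻¹ * x) (by
      rwa [← conjBy_mul, mul_inv_cancel_left])
    rwa [← conjBy_mul, mul_inv_cancel_left] at h1
  · intro h r hr hd x hx
    have h1 := h r hr (by rwa [card_conjBy] at hd) (g * x) (by rwa [conjBy_mul])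
    rwa [conjBy_mul] at h1

theorem Wsub_conjBy [Finite G] (A : Subgroup G) (q : ℕ) (E : Subgroup G) (g : G) :
    Wsub (MP_5771ce_al.conjBy A g) q E = Wsub A q E := by
  apply le_antisymm
  · refine iSup_le ?_
    rintro ⟨x, hx⟩
    refine le_iSup_of_le ⟨g * x, by rwa [conjBy_mul]⟩ ?_
    rw [conjBy_mul]
  · refine iSup_le ?_
    rintro ⟨x, hx⟩
    refine le_iSup_of_le ⟨g⁻¹ * x, ?_⟩ ?_
    · rwa [← conjBy_mul, mul_inv_cancel_left]
    · rw [← conjBy_mul, mul_inv_cancel_left]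

theorem le_Wsub {A E : Subgroup G} {q : ℕ} {g : G} (h : MP_5771ce_al.conjBy A g ≤ E) :
    opc q (MP_5771ce_al.conjBy A g) ≤ Wsub A q E :=
  le_iSup (fun g : {g : G // MP_5771ce_al.conjBy A g ≤ E} => opc q (MP_5771ce_al.conjBy A g.1))
    ⟨g, h⟩

theorem Wsub_mono {A E F : Subgroup G} {q : ℕ} (h : E ≤ F) : Wsub A q E ≤ Wsub A q F := by
  refine iSup_le ?_
  rintro ⟨x, hx⟩
  exact le_Wsub (hx.trans h)

theorem Wsub_le {A E : Subgroup G} {q : ℕ} {K : Subgroup G}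
    (h : ∀ g, MP_5771ce_al.conjBy A g ≤ E → opc q (MP_5771ce_al.conjBy A g) ≤ K) :
    Wsub A q E ≤ K := by
  refine iSup_le ?_
  rintro ⟨x, hx⟩
  exact h x hx

/-- Elements of `p`-power order in a join `V ⊔ ...`: `A` as an internal product of its parts. -/
theorem MCq.le_of_opc_opp [Finite G] {A K : Subgroup G} {q : ℕ} (h : MCq A q)
    (h1 : opc q A ≤ K) (h2 : opp q A ≤ K) : A ≤ K := by
  rw [← opc_sup_opp_of_abelian h.comm h.prime]
  exact sup_le h1 h2

end MP_5771ce_al
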