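import Pool.Agent.Lib.MP_5771ce_al.S3.PrimeIdx
import Pool.Agent.Lib.MP_5771ce_al.S3.Act
import Pool.Agent.Lib.MP_5771ce_al.S3.PA2

/-!
# Local analysis (3.6), (l1)-(l6)
-/

open Subgroup
open scoped Pointwise commutatorElement

universe u

namespace MP_5771ce_al

variable {G : Type u} [Group G]


/-- `{n ∈ E | [a, n] ∈ K}` for `a ∈ E` and `K` normalised by `E`. -/
def cenMod (K E : Subgroup G) (hK : E ≤ normalizer (K : Set G)) (a : G) : Subgroup G where
  carrier := {n | n ∈ E ∧ ⁅a, n⁆ ∈ K}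
  one_mem' := ⟨one_mem E, by simp⟩
  mul_mem' := by
    rintro n m ⟨hn, hn'⟩ ⟨hm, hm'⟩
    refine ⟨mul_mem hn hm, ?_⟩
    have h1 : ⁅a, n * m⁆ = ⁅a, n⁆ * (n * ⁅a, m⁆ * n⁻¹) := by
      simp only [commutatorElement_def]; group
    rw [h1]
    exact mul_mem hn' ((mem_normalizer_iff.1 (hK hn) _).1 hm')
  inv_mem' := by
    rintro n ⟨hn, hn'⟩
    refine ⟨inv_mem hn, ?_⟩
    have h1 : ⁅a, n⁻¹⁆ = n⁻¹ * ⁅a, n⁆⁻¹ * n⁻¹⁻¹ := by
      simp only [commutatorElement_def]; group
    rw [h1]
    exact (mem_normalizer_iff.1 (hK (inv_mem hn)) _).1 (inv_mem hn')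

theorem mem_cenMod {K E : Subgroup G} {hK : E ≤ normalizer (K : Set G)} {a n : G} :
    n ∈ cenMod K E hK a ↔ n ∈ E ∧ ⁅a, n⁆ ∈ K := Iff.rfl

theorem commutator_mem_comm {K : Subgroup G} {a b : G} (h : ⁅a, b⁆ ∈ K) : ⁅b, a⁆ ∈ K := by
  rw [← commutatorElement_inv]
  exact inv_mem h

/-- The index of a subgroup in a cyclic group. -/
theorem relIndex_zpowers_eq [Finite G] {F : Subgroup G} {h : G} {t : ℕ} (ht : t.Prime)
    (hF : h ∉ F) (htF : h ^ t ∈ F) : F.relIndex (zpowers h) = t := by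
  have h1 : (zpowers (h ^ t)).relIndex (zpowers h) ∣ t := by
    have hle : zpowers (h ^ t) ≤ zpowers h := by
      rw [zpowers_le]
      exact pow_mem (mem_zpowers h) t
    have h2 := card_mul_relIndex hle
    rw [Nat.card_zpowers, Nat.card_zpowers, orderOf_pow] at h2
    have h3 := Nat.div_mul_cancel (Nat.gcd_dvd_left (orderOf h) t)
    have h4 : 0 < orderOf h / (orderOf h).gcd t :=
      Nat.div_pos (Nat.gcd_le_left t (orderOf_pos h)) (Nat.gcd_pos_of_pos_left t (orderOf_pos h))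
    have h5 : (zpowers (h ^ t)).relIndex (zpowers h) = (orderOf h).gcd t :=
      Nat.eq_of_mul_eq_mul_left h4 (h2.trans h3.symm)
    rw [h5]
    exact Nat.gcd_dvd_right _ _
  have h2 : F.relIndex (zpowers h) ∣ (zpowers (h ^ t)).relIndex (zpowers h) := by
    apply Subgroup.relIndex_dvd_of_le_left
    rw [zpowers_le]
    exact htF
  rcases (Nat.dvd_prime ht).1 (h2.trans h1) with h3 | h3
  · exfalso
    rw [Subgroup.relIndex_eq_one] at h3
    exact hF (h3 (mem_zpowers h))
  · exact h3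

theorem isPGroup_zpowers {t : ℕ} {h : G} (hh : ∃ k : ℕ, h ^ t ^ k = 1) :
    IsPGroup t (zpowers h) := by
  obtain ⟨k, hk⟩ := hh
  rintro ⟨_, m, rfl⟩
  refine ⟨k, Subtype.ext ?_⟩
  show (h ^ m) ^ t ^ k = 1
  rw [← zpow_natCast, ← zpow_mul, mul_comm, zpow_mul, zpow_natCast, hk, one_zpow]

/-- Data of the local analysis. -/
structure Loc (A S : Subgroup G) (s t : ℕ) (h : G) : Prop where
  act : Act s A S
  prime : t.Prime
  ne : t ≠ s
  tel : ∃ k : ℕ, h ^ t ^ k = 1
  perm : Permutes A (zpowers h)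
  notMem : h ∉ normalizer (S : Set G)
  mem : h ^ t ∈ normalizer (S : Set G)

theorem normalizer_le_normalizer_centralizer' (S : Subgroup G) :
    normalizer (S : Set G) ≤ normalizer ((centralizer (S : Set G) : Subgroup G) : Set G) := by
  intro e he
  rw [mem_normalizer_iff]
  intro c
  constructor
  · exact fun hc => conj_mem_centralizer he hc
  · intro hc
    have h1 := conj_mem_centralizer (inv_mem he) hc
    have h2 : e⁻¹ * (e * c * e⁻¹) * e⁻¹⁻¹ = c := by group
    rwa [h2] at h1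

theorem Loc.h_mem {A : Subgroup G} {h : G} : h ∈ A ⊔ zpowers h := mem_sup_right (mem_zpowers h)

theorem Act.S_ne_bot {s : ℕ} {A S : Subgroup G} (hS : Act s A S) : S ≠ ⊥ := by
  rintro rfl
  exact hS.ne (Subgroup.commutator_bot_left A)

section loc
variable [Finite G] {A S : Subgroup G} {q s t : ℕ} {h : G}

theorem Loc.sup_ne_top (hm : MCq A q) (hl : Loc A S s t h) : A ⊔ zpowers h ≠ ⊤ := by
  have _ : Fact t.Prime := ⟨hl.prime⟩
  exact hm.mc.sup_ne_top_of_isPGroup (isPGroup_zpowers hl.tel) hl.perm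

theorem Loc.solvable (hm : MCq A q) (hl : Loc A S s t h) :
    Group.IsSolvable (A ⊔ zpowers h : Subgroup G) := by
  have _ : Fact t.Prime := ⟨hl.prime⟩
  exact hm.mc.isSolvable_sup_of_isPGroup (isPGroup_zpowers hl.tel) hl.perm

/-- (l1) -/
theorem Loc.l1 (hm : MCq A q) (hl : Loc A S s t h) {Z : Subgroup G}
    (hZ : NormalIn Z (A ⊔ zpowers h)) (hZS : Z ≤ centralizer (S : Set G)) : Z = ⊥ := by
  by_contra hne
  have hs : Group.IsSolvable Z := isSolvable_of_le (hl.solvable hm) hZ.1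
  have hSZ : S ≤ normalizer (Z : Set G) := by
    intro x hx
    rw [mem_normalizer_iff]
    intro z
    constructor
    · intro hz
      have h1 : x * z = z * x := Subgroup.mem_centralizer_iff.1 (hZS hz) x hx
      rw [h1, mul_inv_cancel_right]
      exact hz
    · intro hz
      have h1 : x * (x * z * x⁻¹) = x * z * x⁻¹ * x := Subgroup.mem_centralizer_iff.1 (hZS hz) x hx
      have h2 : x * z * x⁻¹ = z := by
        have : x * (x * z * x⁻¹) = x * z := by rw [h1]; group
        exact mul_left_cancel this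
      rw [h2] at hz
      exact hz
  have h1 := hl.act.le_normalizer hm (hm.mc.normalizer_ne_top hne hs)
    (le_sup_left.trans hZ.le_normalizer) (by
      rw [inf_eq_right.2 hSZ]
      exact hl.act.S_ne_bot)
  exact hl.notMem (h1 (hZ.le_normalizer Loc.h_mem))

/-- (l1)-(l4): the core `K` of `A⟨h^t⟩` in `A⟨h⟩`. -/
theorem Loc.exists_core (hm : MCq A q) (hl : Loc A S s t h) : ∃ K : Subgroup G,
    NormalIn K (A ⊔ zpowers h) ∧ K ≤ normalizer (S : Set G) ∧
    (∀ N, NormalIn N (A ⊔ zpowers h) → N ≤ normalizer (S : Set G) → N ≤ K) ∧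
    (∀ Z, NormalIn Z (A ⊔ zpowers h) → Z ≤ centralizer (S : Set G) → Z = ⊥) ∧
    (∀ x ∈ K, ∀ y ∈ K, x * y = y * x) ∧
    h ^ t ∈ K ∧ opc t A ≤ K ∧
    (∀ N, NormalIn N (A ⊔ zpowers h) → K ≤ N → N ≠ K → h ∈ N) ∧
    (∀ a ∈ A, a ∉ K → ⁅a, h⁆ ∈ K ⊔ zpowers h ∧ ⁅a, h⁆ ∉ K) ∧
    NormalIn (K ⊔ zpowers h) (A ⊔ zpowers h) ∧
    (∀ c ∈ K, c * h = h * c → ∀ a ∈ A, a * c = c * a) ∧
    (t = 2 → A ≤ K) ∧
    (∀ p : ℕ, p.Prime → ∀ B ≤ A, (∀ b ∈ B, b ^ p = 1) → K.relIndex B ∣ p) := by
  have _ : Fact t.Prime := ⟨hl.prime⟩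
  set E := A ⊔ zpowers h with hE
  set M := normalizer (S : Set G) with hM
  set F := E ⊓ M with hF
  have hAE : A ≤ E := le_sup_left
  have hhE : h ∈ E := Loc.h_mem
  have hAF : A ≤ F := le_inf hAE hl.act.norm
  have hsol := hl.solvable hm
  -- the index
  have hperm : Permutes F (zpowers h) := by
    rw [permutes_iff]
    intro f hf b hb
    have h1 : f * b ∈ zpowers h ⊔ A := by
      rw [sup_comm]
      exact mul_mem hf.1 (mem_sup_right hb)
    obtain ⟨b', hb', a', ha', e⟩ := hl.perm.symm.mem_sup.1 h1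
    exact ⟨b', hb', a', hAF ha', e.symm⟩
  have hsup : F ⊔ zpowers h = E :=
    le_antisymm (sup_le inf_le_left le_sup_right) (sup_le_sup_right hAF _)
  have htE : h ^ t ∈ F := Subgroup.mem_inf.2 ⟨pow_mem hhE t, hl.mem⟩
  have hFi : F.relIndex E = t := by
    have h1 := hperm.relIndex_sup
    rw [hsup] at h1
    rw [h1]
    exact relIndex_zpowers_eq hl.prime (fun hh => hl.notMem hh.2) htE
  obtain ⟨K, N, hKE, hKF, hKmax, hNE, hKN, hNF, hNt, hNc, hNmin, hKi, hKp⟩ :=
    relative_prime_index hsol inf_le_left hFi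
  have hKM : K ≤ M := hKF.trans inf_le_right
  have hhN : h ∈ N := hNt h hhE hl.tel
  have hhK : h ∉ K := fun hh => hl.notMem (hKM hh)
  -- `N = K ⟨h⟩`
  have hNeq : N = K ⊔ zpowers h := by
    apply le_antisymm
    · have hle : K ⊔ zpowers h ≤ N := sup_le hKN (by rw [zpowers_le]; exact hhN)
      have h1 := Subgroup.relIndex_mul_relIndex K (K ⊔ zpowers h) N le_sup_left hle
      rw [hKi] at h1
      rcases (Nat.dvd_prime hl.prime).1 (Dvd.intro _ h1) with h2 | h2
      · exfalso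
        rw [Subgroup.relIndex_eq_one] at h2
        exact hhK (h2 (mem_sup_right (mem_zpowers h)))
      · rw [h2] at h1
        have h3 : (K ⊔ zpowers h).relIndex N = 1 :=
          Nat.eq_of_mul_eq_mul_left hl.prime.pos (h1.trans (mul_one t).symm)
        exact Subgroup.relIndex_eq_one.1 h3
    · exact sup_le hKN (by rw [zpowers_le]; exact hhN)
  have hl1 : ∀ Z, NormalIn Z E → Z ≤ centralizer (S : Set G) → Z = ⊥ :=
    fun Z hZ hZS => hl.l1 hm hZ hZS
  have hconj1 : MP_5771ce_al.conjBy A 1 = A := conjBy_one A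
  have hcentral : ∀ a ∈ A, ∀ n ∈ M, ⁅a, n⁆ ∈ centralizer (S : Set G) := by
    intro a ha n hn
    exact hl.act.central hm (g := 1) (by rw [hconj1]; exact hl.act.norm) (by rw [hconj1]; exact ha)
      hn
  have hMC : M ≤ normalizer ((centralizer (S : Set G) : Subgroup G) : Set G) :=
    normalizer_le_normalizer_centralizer' S
  -- (l2)
  have hKab : ∀ x ∈ K, ∀ y ∈ K, x * y = y * x := by
    have hFel : ∀ f ∈ F, ∃ a ∈ A, ∃ b ∈ F ⊓ zpowers h, a * b = f := by
      intro f hf
      have h1 : F = A ⊔ (F ⊓ zpowers h) := hl.perm.eq_sup_inf hAF inf_le_left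
      have h2 : f ∈ A ⊔ (F ⊓ zpowers h) := by rw [← h1]; exact hf
      exact (hl.perm.inf_right hAF).mem_sup.1 h2
    have hcomm : ∀ x ∈ F, ∀ y ∈ F, ⁅x, y⁆ ∈ centralizer (S : Set G) := by
      intro x hx y hy
      obtain ⟨a', ha', b', hb', rfl⟩ := hFel y hy
      have h1 : a' ∈ cenMod (centralizer (S : Set G)) M hMC x :=
        ⟨(hAF ha').2, commutator_mem_comm (hcentral a' ha' x hx.2)⟩
      have h2 : b' ∈ cenMod (centralizer (S : Set G)) M hMC x := by
        refine ⟨hb'.1.2, commutator_mem_comm ?_⟩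
        obtain ⟨a, ha, b, hb, rfl⟩ := hFel x hx
        have h3 : a ∈ cenMod (centralizer (S : Set G)) M hMC b' :=
          ⟨(hAF ha).2, commutator_mem_comm (hcentral a ha b' hb'.1.2)⟩
        have h4 : b ∈ cenMod (centralizer (S : Set G)) M hMC b' := by
          refine ⟨hb.1.2, ?_⟩
          obtain ⟨i, hi⟩ := hb.2
          obtain ⟨j, hj⟩ := hb'.2
          have h5 : ⁅b', b⁆ = 1 := by
            rw [commutatorElement_eq_one_iff_mul_comm, ← hi, ← hj]
            exact (Commute.refl h).zpow_zpow j i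
          rw [h5]
          exact one_mem _
        exact (mul_mem h3 h4).2
      exact (mul_mem h1 h2).2
    have hle : ⁅K, K⁆ ≤ centralizer (S : Set G) := by
      rw [Subgroup.commutator_le]
      intro x hx y hy
      exact hcomm x (hKF hx) y (hKF hy)
    have h1 := hl1 ⁅K, K⁆ (hKE.commutator hKE) hle
    intro x hx y hy
    have h2 : ⁅x, y⁆ ∈ ⁅K, K⁆ := Subgroup.commutator_mem_commutator hx hy
    rw [h1, Subgroup.mem_bot, commutatorElement_eq_one_iff_mul_comm] at h2
    exact h2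
  refine ⟨K, hKE, hKM, ?_, hl1, hKab, ?_, ?_, ?_, ?_, ?_, ?_, ?_, ?_⟩
  · intro L hL hLM
    exact hKmax L hL (le_inf hL.1 hLM)
  · exact hNF _ (pow_mem hhN t) htE
  · intro x hx
    have hxA : x ∈ A := opc_le t A hx
    obtain ⟨k, hk⟩ := opc_isPGroup t A ⟨x, hx⟩
    exact hNF x (hNt x (hAE hxA) ⟨k, congrArg Subtype.val hk⟩) (hAF hxA)
  · intro L hL hKL hLK
    exact hNmin L hL hKL hLK hhN
  · intro a ha haK
    have haE : a ∈ E := hAE ha
    constructor
    · rw [← hNeq, commutatorElement_def]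
      exact mul_mem (hNE.2 a haE h hhN) (inv_mem hhN)
    · intro hc
      apply haK
      apply hNF a _ (hAF ha)
      apply hNc a haE
      intro n hn
      have h1 : N ≤ cenMod K E hKE.le_normalizer a := by
        rw [hNeq]
        apply sup_le
        · intro k hk
          refine ⟨hKE.1 hk, ?_⟩
          rw [commutatorElement_def]
          exact mul_mem (hKE.2 a haE k hk) (inv_mem hk)
        · rw [zpowers_le]
          exact ⟨hhE, hc⟩
      exact (h1 hn).2
  · rw [← hNeq]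
    exact hNE
  · -- (l4)
    intro c hc hch a ha
    set C := K ⊓ (E ⊓ centralizer (N : Set G)) with hC
    have hCE : NormalIn C E := hKE.inf (hNE.inf_centralizer)
    have hcC : c ∈ C := by
      refine Subgroup.mem_inf.2 ⟨hc, Subgroup.mem_inf.2 ⟨hKE.1 hc, ?_⟩⟩
      rw [hNeq, Subgroup.mem_centralizer_iff]
      have h1 : K ⊔ zpowers h ≤ centralizer ({c} : Set G) := by
        apply sup_le
        · intro k hk
          rw [Subgroup.mem_centralizer_singleton_iff]
          exact hKab k hk c hc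
        · rw [zpowers_le, Subgroup.mem_centralizer_singleton_iff]
          exact hch.symm
      intro n hn
      exact Subgroup.mem_centralizer_singleton_iff.1 (h1 hn)
    have hCh : ∀ z ∈ C, h * z = z * h := by
      intro z hz
      exact Subgroup.mem_centralizer_iff.1 hz.2.2 h hhN
    have hAC : A ≤ normalizer (C : Set G) := hAE.trans hCE.le_normalizer
    have hZC : ⁅C, A⁆ ≤ C := le_normalizer_iff_commutator_le_left.1 hAC
    have hZA : A ≤ normalizer ((⁅C, A⁆ : Subgroup G) : Set G) :=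
      le_normalizer_commutator hAC le_normalizer
    have hZh : h ∈ normalizer ((⁅C, A⁆ : Subgroup G) : Set G) := by
      rw [mem_normalizer_iff]
      intro z
      constructor
      · intro hz
        rw [hCh z (hZC hz), mul_inv_cancel_right]
        exact hz
      · intro hz
        have h1 := hCh _ (hZC hz)
        have h2 : h * z * h⁻¹ = z := by
          have : h * (h * z * h⁻¹) = h * z := by rw [h1]; group
          exact mul_left_cancel this
        rw [h2] at hz
        exact hz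
    have hZ : NormalIn ⁅C, A⁆ E :=
      normalIn_of_le_normalizer (hZC.trans (hCE.1)) (sup_le hZA (by rw [zpowers_le]; exact hZh))
    have hZS : ⁅C, A⁆ ≤ centralizer (S : Set G) := by
      rw [Subgroup.commutator_le]
      intro z hz b hb
      exact commutator_mem_comm (hcentral b hb z (hKM hz.1))
    have h1 := hl1 _ hZ hZS
    have h2 : ⁅c, a⁆ ∈ ⁅C, A⁆ := Subgroup.commutator_mem_commutator hcC ha
    rw [h1, Subgroup.mem_bot, commutatorElement_eq_one_iff_mul_comm] at h2
    exact h2.symm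
  · -- `t = 2`
    intro ht2 a ha
    apply hNF a _ (hAF ha)
    apply hNc a (hAE ha)
    intro n hn
    by_cases hnK : n ∈ K
    · rw [commutatorElement_def]
      exact mul_mem (hKE.2 a (hAE ha) n hnK) (inv_mem hnK)
    · have h1 : a * n * a⁻¹ ∈ N := hNE.2 a (hAE ha) n hn
      have h2 : a * n * a⁻¹ ∉ K := by
        intro h3
        apply hnK
        have := hKE.2 a⁻¹ (inv_mem (hAE ha)) _ h3
        have h4 : a⁻¹ * (a * n * a⁻¹) * a⁻¹⁻¹ = n := by group
        rwa [h4] at this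
      have hi : (K.subgroupOf N).index = 2 := by rw [← ht2]; exact hKi
      have h3 := (Subgroup.mul_mem_iff_of_index_two hi (a := (⟨a * n * a⁻¹, h1⟩ : N))
        (b := ⟨n, hn⟩⁻¹)).2 (by simp [Subgroup.mem_subgroupOf, h2, hnK])
      exact h3
  · intro p hp B hBA hB
    exact hKp p hp B (hBA.trans hAF) hB

end loc

/-- The elements acting on `S` as power maps. -/
def powSub [Finite G] (S : Subgroup G) : Subgroup G where
  carrier := {b | ∃ k : ℕ, ∀ x ∈ S, b * x * b⁻¹ = x ^ k}
  one_mem' := ⟨1, fun x _ => by simp⟩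
  mul_mem' := by
    rintro b c ⟨k, hk⟩ ⟨l, hl⟩
    refine ⟨k * l, fun x hx => ?_⟩
    calc b * c * x * (b * c)⁻¹ = b * (c * x * c⁻¹) * b⁻¹ := by group
      _ = b * x ^ l * b⁻¹ := by rw [hl x hx]
      _ = (b * x * b⁻¹) ^ l := (conj_pow).symm
      _ = x ^ (k * l) := by rw [hk x hx, pow_mul]
  inv_mem' := by
    rintro b ⟨k, hk⟩
    have hpow : ∀ n : ℕ, ∃ k : ℕ, ∀ x ∈ S, b ^ n * x * (b ^ n)⁻¹ = x ^ k := by
      intro n
      induction n with
      | zero => exact ⟨1, fun x _ => by simp⟩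
      | succ n ih =>
        obtain ⟨l, hl⟩ := ih
        refine ⟨l * k, fun x hx => ?_⟩
        calc b ^ (n + 1) * x * (b ^ (n + 1))⁻¹ = b ^ n * (b * x * b⁻¹) * (b ^ n)⁻¹ := by
              rw [pow_succ]; group
          _ = b ^ n * x ^ k * (b ^ n)⁻¹ := by rw [hk x hx]
          _ = (b ^ n * x * (b ^ n)⁻¹) ^ k := (conj_pow).symm
          _ = x ^ (l * k) := by rw [hl x hx, pow_mul]
    have h1 : b⁻¹ = b ^ (orderOf b - 1) := by
      rw [inv_eq_iff_mul_eq_one, ← pow_succ', Nat.sub_add_cancel (orderOf_pos b),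
        pow_orderOf_eq_one]
    show ∃ k : ℕ, ∀ x ∈ S, b⁻¹ * x * b⁻¹⁻¹ = x ^ k
    rw [h1]
    exact hpow _

theorem mem_powSub_conjBy [Finite G] {S : Subgroup G} {b h : G}
    (hb : h * b * h⁻¹ ∈ powSub S) : b ∈ powSub (conjBy S h) := by
  obtain ⟨k, hk⟩ := hb
  refine ⟨k, fun y hy => ?_⟩
  have h1 := hk _ (mem_conjBy.1 hy)
  have h2 : h * b * h⁻¹ * (h * y * h⁻¹) * (h * b * h⁻¹)⁻¹ = h * (b * y * b⁻¹) * h⁻¹ := by group
  rw [h2, conj_pow] at h1
  exact mul_left_cancel (mul_right_cancel h1)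

theorem card_le_of_relIndex [Finite G] {B X Y : Subgroup G} {m n : ℕ} (h1 : X.relIndex B ≤ m)
    (h2 : Y.relIndex B ≤ n) (h : B ⊓ (X ⊓ Y) = ⊥) : Nat.card B ≤ m * n := by
  have h3 : Nat.card B = (X ⊓ Y).relIndex B := by
    rw [← Subgroup.inf_relIndex_left, h, Subgroup.relIndex_bot_left]
  rw [h3]
  exact (Subgroup.relIndex_inf_le (H := X) (K := Y) (L := B)).trans (Nat.mul_le_mul h1 h2)

/-- `S ≤ N_G(Z)` if `S` centralises `Z`. -/
theorem le_normalizer_of_le_centralizer {S Z : Subgroup G} (h : Z ≤ centralizer (S : Set G)) :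
    S ≤ normalizer (Z : Set G) := by
  intro x hx
  rw [mem_normalizer_iff]
  intro z
  constructor
  · intro hz
    have h1 : x * z = z * x := Subgroup.mem_centralizer_iff.1 (h hz) x hx
    rw [h1, mul_inv_cancel_right]
    exact hz
  · intro hz
    have h1 : x * (x * z * x⁻¹) = x * z * x⁻¹ * x := Subgroup.mem_centralizer_iff.1 (h hz) x hx
    have h2 : x * z * x⁻¹ = z := by
      have : x * (x * z * x⁻¹) = x * z := by rw [h1]; group
      exact mul_left_cancel this
    rw [h2] at hz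
    exact hz

section loc
variable [Finite G] {A S : Subgroup G} {q s t : ℕ} {h : G}

/-- (l5) -/
theorem Loc.l5 (hm : MCq A q) (hl : Loc A S s t h) {Z : Subgroup G} (hs : Group.IsSolvable Z)
    (hA : A ≤ normalizer (Z : Set G)) (hZS : Z ≤ centralizer (S : Set G))
    (hZS' : Z ≤ centralizer (MP_5771ce_al.conjBy S h : Set G)) : Z = ⊥ := by
  by_contra hne
  have h1 : normalizer (Z : Set G) ≤ normalizer (S : Set G) := by
    apply hl.act.le_normalizer hm (hm.mc.normalizer_ne_top hne hs) hA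
    rw [inf_eq_right.2 (le_normalizer_of_le_centralizer hZS)]
    exact hl.act.S_ne_bot
  exact hl.notMem (hl.act.mem_of_conjBy_le hm
    ((le_normalizer_of_le_centralizer hZS').trans h1))

/-- (l6) if `A ≤ K` then every exponent-`p` subgroup of the group generated by the conjugates of
`O_p(A)` under `⟨h⟩` has order at most `p²`. -/
theorem Loc.card_le (hm : MCq A q) (hl : Loc A S s t h) {K : Subgroup G}
    (hK : NormalIn K (A ⊔ zpowers h)) (hKS : K ≤ normalizer (S : Set G)) (hAK : A ≤ K)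
    (hKc : ∀ x ∈ K, ∀ y ∈ K, x * y = y * x) {p : ℕ} (hp : p.Prime) {B : Subgroup G}
    (hB : B ≤ ⨆ i : ℤ, opc p (MP_5771ce_al.conjBy A (h ^ i))) (hexp : ∀ b ∈ B, b ^ p = 1) :
    Nat.card B ≤ p ^ 2 := by
  have _ : Fact s.Prime := ⟨hl.act.prime⟩
  have hhi : ∀ i : ℤ, h ^ i ∈ A ⊔ zpowers h := fun i => zpow_mem Loc.h_mem i
  have hAi : ∀ i : ℤ, MP_5771ce_al.conjBy A (h ^ i) ≤ K := by
    intro i
    rw [← hK.conjBy_eq (hhi i)]
    exact conjBy_mono hAK _
  have hpow : ∀ i : ℤ, MP_5771ce_al.conjBy A (h ^ i) ≤ powSub S := by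
    intro i a ha
    exact hl.act.pow hm ((hAi i).trans hKS) ha
  have hpow' : ∀ i : ℤ, MP_5771ce_al.conjBy A (h ^ i) ≤ powSub (MP_5771ce_al.conjBy S h) := by
    intro i a ha
    apply mem_powSub_conjBy
    apply hpow (i - 1)
    rw [mem_conjBy] at ha ⊢
    have : h ^ (i - 1) * (h * a * h⁻¹) * (h ^ (i - 1))⁻¹ = h ^ i * a * (h ^ i)⁻¹ := by
      rw [zpow_sub_one]; group
    rw [this]
    exact ha
  have hBK : B ≤ K := hB.trans (iSup_le fun i => (opc_le p _).trans (hAi i))
  have hBS : B ≤ powSub S := hB.trans (iSup_le fun i => (opc_le p _).trans (hpow i))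
  have hBS' : B ≤ powSub (MP_5771ce_al.conjBy S h) :=
    hB.trans (iSup_le fun i => (opc_le p _).trans (hpow' i))
  have hBab : ∀ a ∈ B, ∀ b ∈ B, a * b = b * a := fun a ha b hb => hKc a (hBK ha) b (hBK hb)
  by_cases hpA : p ∣ Nat.card A
  · have hps : p ≠ s := by
      rintro rfl
      exact hl.act.ndvd hpA
    have hBp : IsPGroup p B := fun b => ⟨1, Subtype.ext (by simpa using hexp b.1 b.2)⟩
    have _ : Fact p.Prime := ⟨hp⟩
    have hsB : ¬ s ∣ Nat.card B := by
      obtain ⟨n, hn⟩ := IsPGroup.iff_card.1 hBp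
      rw [hn]
      intro hd
      exact hps ((Nat.prime_dvd_prime_iff_eq hl.act.prime hp).1
        (hl.act.prime.dvd_of_dvd_pow hd)).symm
    have h1 := relIndex_dvd_of_pow hp hl.act.syl.isPGroup hBab hexp hsB hBS
    have h2 := relIndex_dvd_of_pow hp (hl.act.syl.isPGroup.map
      (MulAut.conj h⁻¹).toMonoidHom : IsPGroup s (MP_5771ce_al.conjBy S h)) hBab hexp hsB hBS'
    rw [Subgroup.inf_relIndex_left] at h1 h2
    rw [pow_two]
    refine card_le_of_relIndex (Nat.le_of_dvd hp.pos h1) (Nat.le_of_dvd hp.pos h2) ?_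
    apply hl.l5 hm
    · have : Group.IsSolvable B := isSolvable_of_isPGroup hBp
      exact isSolvable_of_le this inf_le_left
    · apply le_normalizer_of_le_centralizer
      intro z hz
      rw [Subgroup.mem_centralizer_iff]
      intro a ha
      exact hKc a (hAK ha) z (hBK hz.1)
    · exact inf_le_right.trans inf_le_left
    · exact inf_le_right.trans inf_le_right
  · have h1 : opc p A = ⊥ := by
      by_contra hne
      apply hpA
      have _ : Fact p.Prime := ⟨hp⟩
      have hn : Nontrivial (opc p A) := (Subgroup.nontrivial_iff_ne_bot _).2 hne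
      rcases (opc_isPGroup p A).card_eq_or_dvd with h3 | h3
      · exact absurd h3 Finite.one_lt_card.ne'
      · exact h3.trans (Subgroup.card_dvd_of_le (opc_le p A))
    have h2 : B = ⊥ := by
      rw [eq_bot_iff]
      refine hB.trans (iSup_le fun i => ?_)
      rw [opc_conjBy, h1]
      intro x hx
      rw [mem_conjBy, Subgroup.mem_bot] at hx
      rw [Subgroup.mem_bot]
      have : x = (h ^ i)⁻¹ * (h ^ i * x * (h ^ i)⁻¹) * h ^ i := by group
      rw [this, hx]; group
    rw [h2, Subgroup.card_bot]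
    exact Nat.one_le_pow _ _ hp.pos

end loc

end MP_5771ce_al
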