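import Pool.Agent.Lib.MP_5771ce_al.S3.Rank
import Pool.Agent.Lib.MP_5771ce_al.S3.Loc
import Pool.Agent.Lib.MP_5771ce_al.S3.Basic3
import Pool.Agent.Lib.MP_5771ce_al.LibJ

/-!
# Section 3.7: Theorem EX

`A` abelian with `|Ω₁(A₂)| = 4`, a `3`-element `x` of `N_G(A₂)` permuting the three involutions of
`A`, and `P_s ≤ N_G(A₂)` for all odd primes `s` dividing `|A|`: contradiction.
-/

open Subgroup
open scoped Pointwise commutatorElement

universe u

namespace MP_5771ce_al

namespace EXAux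

variable {G : Type u} [Group G]

theorem le_normalizer_of_conj {H K : Subgroup G} (h : ∀ g ∈ H, ∀ y ∈ K, g * y * g⁻¹ ∈ K) :
    H ≤ normalizer (K : Set G) := by
  intro g hg
  rw [mem_normalizer_iff]
  intro y
  refine ⟨h g hg y, fun hy => ?_⟩
  have := h g⁻¹ (inv_mem hg) _ hy
  convert this using 1
  group

theorem mem_normalizer_of_conj [Finite G] {K : Subgroup G} {g : G}
    (h : ∀ y ∈ K, g * y * g⁻¹ ∈ K) : g ∈ normalizer (K : Set G) := by
  have h1 : K.map (MulAut.conj g).toMonoidHom ≤ K := by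
    rintro _ ⟨y, hy, rfl⟩
    exact h y hy
  have h2 : K.map (MulAut.conj g).toMonoidHom = K :=
    eq_of_le_of_card_ge h1 (card_map_conj K g).ge
  rw [mem_normalizer_iff]
  intro y
  refine ⟨h y, fun hy => ?_⟩
  have hy' : g * y * g⁻¹ ∈ K.map (MulAut.conj g).toMonoidHom := by rw [h2]; exact hy
  obtain ⟨z, hz, e⟩ := hy'
  have : z = y := by
    have e' : g * z * g⁻¹ = g * y * g⁻¹ := e
    exact mul_left_cancel (mul_right_cancel e')
  rwa [← this]

theorem mem_normalizer_conj {N : Subgroup G} {x n : G} (hx : x ∈ normalizer N) (hn : n ∈ N) :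
    x * n * x⁻¹ ∈ N := (mem_normalizer_iff.1 hx n).1 hn

/-- A `p`-group normalising a nontrivial `p`-group centralises a nontrivial element. -/
theorem exists_fixed [Finite G] {p : ℕ} [Fact p.Prime] {N W : Subgroup G} (hN : IsPGroup p N)
    (hd : p ∣ Nat.card W) (hn : N ≤ normalizer (W : Set G)) :
    ∃ z ∈ W, z ≠ 1 ∧ N ≤ centralizer {z} := by
  let act : MulAction N W :=
    { smul := fun x w => ⟨(x : G) * w * (x : G)⁻¹, EXAux.mem_normalizer_conj (hn x.2) w.2⟩
      one_smul := by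
        intro w
        apply Subtype.ext
        change ((1 : N) : G) * w * ((1 : N) : G)⁻¹ = w
        simp
      mul_smul := by
        intro x y w
        apply Subtype.ext
        change ((x * y : N) : G) * w * ((x * y : N) : G)⁻¹ =
          (x : G) * ((y : G) * w * (y : G)⁻¹) * (x : G)⁻¹
        push_cast
        group }
  have h1 : (1 : W) ∈ MulAction.fixedPoints N W := by
    intro x
    apply Subtype.ext
    change (x : G) * ((1 : W) : G) * (x : G)⁻¹ = ((1 : W) : G)
    simp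
  obtain ⟨b, hb, hne⟩ := hN.exists_fixed_point_of_prime_dvd_card_of_fixed_point W hd h1
  refine ⟨b, b.2, fun h => hne (Subtype.ext h.symm), ?_⟩
  intro x hx
  rw [mem_centralizer_singleton_iff]
  have h2 : (x : G) * b * x⁻¹ = b := congrArg Subtype.val (hb ⟨x, hx⟩)
  calc x * b = x * b * x⁻¹ * x := by group
    _ = b * x := by rw [h2]

theorem mem_conjBy' {B : Subgroup G} {x y : G} : y ∈ conjBy B x⁻¹ ↔ x⁻¹ * y * x ∈ B := by
  rw [mem_conjBy, inv_inv]

theorem conj_mem_conjBy' {B : Subgroup G} {x y : G} (h : y ∈ B) : x * y * x⁻¹ ∈ conjBy B x⁻¹ := by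
  rw [mem_conjBy']
  convert h using 1
  group

/-- `N_G(x S x⁻¹) = x N_G(S) x⁻¹` -/
theorem normalizer_conjBy (S : Subgroup G) (x : G) :
    normalizer (conjBy S x : Set G) = conjBy (normalizer (S : Set G)) x := by
  ext g
  rw [mem_conjBy, mem_normalizer_iff, mem_normalizer_iff]
  constructor
  · intro h y
    have := h (x⁻¹ * y * x)
    rw [mem_conjBy, mem_conjBy] at this
    have e1 : x * (x⁻¹ * y * x) * x⁻¹ = y := by group
    have e2 : x * (g * (x⁻¹ * y * x) * g⁻¹) * x⁻¹ = x * g * x⁻¹ * y * (x * g * x⁻¹)⁻¹ := by group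
    rwa [e1, e2] at this
  · intro h y
    rw [mem_conjBy, mem_conjBy, h]
    have e2 : x * g * x⁻¹ * (x * y * x⁻¹) * (x * g * x⁻¹)⁻¹ = x * (g * y * g⁻¹) * x⁻¹ := by group
    rw [e2]

theorem index_normalizer_conjBy (S : Subgroup G) (x : G) :
    (normalizer (conjBy S x : Set G)).index = (normalizer (S : Set G)).index := by
  rw [normalizer_conjBy]
  exact index_map_equiv _ (MulAut.conj x⁻¹)

/-- The elements of order at most two of an abelian group `A`. -/
def om2 (A : Subgroup G) (hab : ∀ a ∈ A, ∀ b ∈ A, a * b = b * a) : Subgroup G where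
  carrier := {a | a ∈ A ∧ a ^ 2 = 1}
  mul_mem' := by
    rintro a b ⟨ha, ha2⟩ ⟨hb, hb2⟩
    have hc : Commute a b := hab a ha b hb
    exact ⟨mul_mem ha hb, by rw [hc.mul_pow, ha2, hb2, one_mul]⟩
  one_mem' := ⟨one_mem _, one_pow _⟩
  inv_mem' := by
    rintro a ⟨ha, ha2⟩
    exact ⟨inv_mem ha, by rw [inv_pow, ha2, inv_one]⟩

end EXAux


open EXAux

/-- Theorem EX. -/
theorem MCq.EX {G : Type u} [Group G] [Finite G] {A : Subgroup G} {q : ℕ} (h : MCq A q) {x : G}
    (hx3 : ∃ k : ℕ, x ^ 3 ^ k = 1) (hxn : x ∈ normalizer (opc 2 A : Set G)) {t : G}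
    (ht : t ∈ A) (ht2 : t ^ 2 = 1) (hxt : x * t ≠ t * x)
    (hodd : ∀ s : ℕ, s.Prime → s ≠ 2 → s ∣ Nat.card A → ∀ P : Subgroup G, SylPerm s A P →
      P ≤ normalizer (opc 2 A : Set G)) : False := by
  classical
  obtain ⟨k₀, hk₀⟩ := hx3
  have F2 : Fact (Nat.Prime 2) := ⟨Nat.prime_two⟩
  have hmc := h.mc
  set W : Subgroup G := om2 A h.comm with hWdef
  have hWA : W ≤ A := fun a ha => ha.1
  have hW2 : ∀ a ∈ W, a ^ 2 = 1 := fun a ha => ha.2
  have hWab : ∀ a ∈ W, ∀ b ∈ W, a * b = b * a := fun a ha b hb => h.comm a (hWA ha) b (hWA hb)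
  have hWinv : ∀ a ∈ W, a * a = 1 := fun a ha => by rw [← pow_two]; exact hW2 a ha
  have hmem : ∀ a ∈ A, ∀ g : G, g * a * g⁻¹ ∈ A → a ∈ W → g * a * g⁻¹ ∈ W := by
    intro a _ g hg ha
    refine ⟨hg, ?_⟩
    rw [conj_pow, hW2 a ha]
    simp
  have hW2A : W ≤ opc 2 A := fun a ha =>
    (mem_opc_of_abelian h.comm).2 ⟨ha.1, 1, by simpa using ha.2⟩
  have hnW : normalizer (opc 2 A : Set G) ≤ normalizer (W : Set G) :=
    EXAux.le_normalizer_of_conj fun g hg y hy =>
      hmem y (hWA hy) g (opc_le 2 A (EXAux.mem_normalizer_conj hg (hW2A hy))) hy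
  have hnAW : normalizer (A : Set G) ≤ normalizer (W : Set G) :=
    EXAux.le_normalizer_of_conj fun g hg y hy =>
      hmem y (hWA hy) g (EXAux.mem_normalizer_conj hg (hWA hy)) hy
  have hxW : ∀ y ∈ W, x * y * x⁻¹ ∈ W := fun y hy => EXAux.mem_normalizer_conj (hnW hxn) hy
  have htW : t ∈ W := ⟨ht, ht2⟩
  have hWne : W ≠ ⊥ := by
    intro he
    have h1 : t ∈ W := htW
    rw [he, mem_bot] at h1
    subst h1
    exact hxt (by simp)
  -- (0)
  have odd0 : ∀ s : ℕ, s.Prime → s ≠ 2 → ∀ P : Subgroup G, SylPerm s A P →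
      P ≤ normalizer (W : Set G) ∨ Act s A P := by
    intro s hs hs2 P hP
    by_cases hd : s ∣ Nat.card A
    · exact Or.inl ((hodd s hs hs2 hd P hP).trans hnW)
    · rcases h.sylPerm_cases hs hd hP with h1 | h1
      · exact Or.inl (h1.trans hnAW)
      · exact Or.inr h1
  -- (1)
  obtain ⟨s₀, S₀, hS₀, hS₀W⟩ : ∃ (s : ℕ) (S : Subgroup G), Act s A S ∧
      ¬ W ≤ centralizer (S : Set G) := by
    by_contra hcon
    push Not at hcon
    obtain ⟨P₂, hP₂⟩ := hmc.her.exists_sylPerm 2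
    have hWr : W ≤ rad (A ⊔ P₂) := hWA.trans (hmc.le_rad le_sup_left
      (hmc.sup_ne_top_of_isPGroup hP₂.isPGroup hP₂.permutes))
    obtain ⟨s, hs, hK⟩ := hmc.K hWne (normalIn_of_le_normalizer le_normalizer le_rfl :
      NormalIn W (normalizer (W : Set G))) hWr
    have hsF : Fact s.Prime := ⟨hs⟩
    by_cases hs2 : s = 2
    · subst hs2
      exact (hK P₂ hP₂).2 le_sup_right
    · obtain ⟨P, hP⟩ := hmc.her.exists_sylPerm s
      apply (hK P hP).1
      rcases odd0 s hs hs2 P hP with h1 | h1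
      · exact h1
      · refine le_trans ?_ (centralizer_le_normalizer (W : Set G))
        intro y hy
        rw [mem_centralizer_iff]
        intro a ha
        exact ((mem_centralizer_iff.1 (hcon s P h1 ha)) y hy).symm
  have h4le : Nat.card W ≤ 4 := Act.rank h hS₀ Nat.prime_two hWA hW2
  have ht1 : t ≠ 1 := by
    rintro rfl
    exact hxt (by simp)
  set t₁ : G := x * t * x⁻¹ with ht₁
  have ht₁W : t₁ ∈ W := hxW t htW
  have ht₁1 : t₁ ≠ 1 := by
    intro he
    apply ht1
    have : t = x⁻¹ * t₁ * x := by rw [ht₁]; group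
    rw [this, he]
    group
  have ht₁t : t₁ ≠ t := by
    intro he
    apply hxt
    have : x * t = t₁ * x := by rw [ht₁]; group
    rw [this, he]
  have hm1 : t * t₁ ≠ 1 := by
    intro he
    apply ht₁t
    have h1 := hWinv t htW
    exact mul_left_cancel (he.trans h1.symm)
  have hm2 : t * t₁ ≠ t := fun he => ht₁1 (mul_left_cancel (he.trans (mul_one t).symm))
  have hm3 : t * t₁ ≠ t₁ := fun he => ht1 (mul_right_cancel (he.trans (one_mul t₁).symm))
  have hcardW : Nat.card W = (W : Set G).ncard := rfl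
  have hcard4 : Nat.card W = 4 := by
    apply le_antisymm h4le
    have hs : (({1, t, t₁, t * t₁} : Finset G) : Set G) ⊆ (W : Set G) := by
      intro z hz
      simp only [Finset.coe_insert, Finset.coe_singleton, Set.mem_insert_iff,
        Set.mem_singleton_iff] at hz
      rcases hz with rfl | rfl | rfl | rfl
      · exact one_mem W
      · exact htW
      · exact ht₁W
      · exact mul_mem htW ht₁W
    have h1 := Set.ncard_le_ncard hs (Set.toFinite _)
    rw [Set.ncard_coe_finset] at h1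
    rw [hcardW]
    refine le_trans ?_ h1
    rw [Finset.card_insert_of_notMem, Finset.card_insert_of_notMem, Finset.card_insert_of_notMem,
      Finset.card_singleton]
    · simpa using hm3.symm
    · simp only [Finset.mem_insert, Finset.mem_singleton]
      push Not
      exact ⟨ht₁t.symm, hm2.symm⟩
    · simp only [Finset.mem_insert, Finset.mem_singleton]
      push Not
      exact ⟨ht1.symm, ht₁1.symm, hm1.symm⟩
  have hall : ∀ z ∈ W, z = 1 ∨ z = t ∨ z = t₁ ∨ z = t * t₁ := by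
    intro z hz
    by_contra hcon
    push Not at hcon
    obtain ⟨z1, z2, z3, z4⟩ := hcon
    have hs : (({z, 1, t, t₁, t * t₁} : Finset G) : Set G) ⊆ (W : Set G) := by
      intro y hy
      simp only [Finset.coe_insert, Finset.coe_singleton, Set.mem_insert_iff,
        Set.mem_singleton_iff] at hy
      rcases hy with rfl | rfl | rfl | rfl | rfl
      · exact hz
      · exact one_mem W
      · exact htW
      · exact ht₁W
      · exact mul_mem htW ht₁W
    have h1 := Set.ncard_le_ncard hs (Set.toFinite _)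
    rw [Set.ncard_coe_finset, ← hcardW, hcard4] at h1
    rw [Finset.card_insert_of_notMem, Finset.card_insert_of_notMem, Finset.card_insert_of_notMem,
      Finset.card_insert_of_notMem, Finset.card_singleton] at h1
    · omega
    · simpa using hm3.symm
    · simp only [Finset.mem_insert, Finset.mem_singleton]
      push Not
      exact ⟨ht₁t.symm, hm2.symm⟩
    · simp only [Finset.mem_insert, Finset.mem_singleton]
      push Not
      exact ⟨ht1.symm, ht₁1.symm, hm1.symm⟩
    · simp only [Finset.mem_insert, Finset.mem_singleton]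
      push Not
      exact ⟨z1, z2, z3, z4⟩
  -- `x` maps `t₁` to `t t₁`
  have ht₂ : x * t₁ * x⁻¹ = t * t₁ := by
    rcases hall _ (hxW t₁ ht₁W) with he | he | he | he
    · exfalso
      apply ht₁1
      have : t₁ = x⁻¹ * (x * t₁ * x⁻¹) * x := by group
      rw [this, he]
      group
    · exfalso
      have hc : Commute (x ^ 2) t := by
        change x ^ 2 * t = t * x ^ 2
        calc x ^ 2 * t = x * (x * t * x⁻¹) * x⁻¹ * x ^ 2 := by
              rw [pow_two]
              group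
          _ = t * x ^ 2 := by rw [← ht₁, he]
      obtain ⟨m, hm⟩ : Odd (3 ^ k₀) := Odd.pow (by decide)
      have h1 : x * (x ^ 2) ^ m = 1 := by
        rw [← pow_mul, ← pow_succ', ← hm]
        exact hk₀
      have h2 : x = ((x ^ 2) ^ m)⁻¹ := eq_inv_of_mul_eq_one_left h1
      have h3 : Commute x t := by
        rw [h2]
        exact (hc.pow_left m).inv_left
      exact hxt h3
    · exfalso
      apply ht₁t
      have h1 : x * t₁ * x⁻¹ = x * t * x⁻¹ := by rw [he]
      exact mul_left_cancel (mul_right_cancel h1)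
    · exact he
  have ht₃ : x * (t * t₁) * x⁻¹ = t := by
    have h1 : x * (t * t₁) * x⁻¹ = x * t * x⁻¹ * (x * t₁ * x⁻¹) := by group
    rw [h1, ← ht₁, ht₂, ← mul_assoc, hWab t₁ ht₁W t htW, mul_assoc, hWinv t₁ ht₁W, mul_one]
  have trans : ∀ Pr : G → Prop, (∀ z ∈ W, z ≠ 1 → Pr z → Pr (x * z * x⁻¹)) →
      (∃ z ∈ W, z ≠ 1 ∧ Pr z) → ∀ z ∈ W, z ≠ 1 → Pr z := by
    rintro Pr hstep ⟨z₁, hz₁, hz₁1, hP⟩
    have s1 : Pr t → Pr t₁ := fun hh => hstep t htW ht1 hh
    have s2 : Pr t₁ → Pr (t * t₁) := fun hh => ht₂ ▸ hstep t₁ ht₁W ht₁1 hh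
    have s3 : Pr (t * t₁) → Pr t := fun hh => by
      have := hstep _ (mul_mem htW ht₁W) hm1 hh
      rwa [ht₃] at this
    have s0 : Pr t := by
      rcases hall z₁ hz₁ with he | he | he | he
      · exact absurd he hz₁1
      · rwa [he] at hP
      · rw [he] at hP
        exact s3 (s2 hP)
      · rw [he] at hP
        exact s3 hP
    intro z hz hz1
    rcases hall z hz with rfl | rfl | rfl | rfl
    · exact absurd rfl hz1
    · exact s0
    · exact s1 s0
    · exact s2 (s1 s0)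
  -- (2)
  have hfix : ∀ (s : ℕ) (S : Subgroup G), Act s A S → ∃ z ∈ W, z ≠ 1 ∧
      z ∈ centralizer (S : Set G) := by
    intro s S hS
    have hsF : Fact s.Prime := ⟨hS.prime⟩
    have h1 := relIndex_dvd_of_pow (S := S) (B := W) (s := s) Nat.prime_two hS.syl.isPGroup hWab hW2
      (fun hd => hS.ndvd (hd.trans (card_dvd_of_le hWA))) (fun a ha =>
        Act.pow h hS (g := 1) (by rw [conjBy_one]; exact hS.norm) (by
          rw [conjBy_one]; exact hWA ha))
    have h2 := card_mul_relIndex (inf_le_left : W ⊓ centralizer (S : Set G) ≤ W)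
    rw [hcard4] at h2
    have h3 := Nat.le_of_dvd (by norm_num) h1
    have h4 : W ⊓ centralizer (S : Set G) ≠ ⊥ := by
      intro he
      rw [he, card_bot] at h2
      rw [he] at h3
      omega
    obtain ⟨z, hz, hz1⟩ := (bot_or_exists_ne_one (W ⊓ centralizer (S : Set G))).resolve_left h4
    exact ⟨z, hz.1, hz1, hz.2⟩
  have hcen : ∀ (s : ℕ) (S : Subgroup G), Act s A S → ∀ z ∈ W, z ≠ 1 →
      z ∈ centralizer (S : Set G) → centralizer {z} ≤ normalizer (S : Set G) := by
    intro s S hS z hz hz1 hzS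
    have h1 := Act.normalizer_le_of_centralizes h hS (B := zpowers z)
      (zpowers_le.2 (hWA hz)) (fun he => hz1 (zpowers_eq_bot.1 he)) (zpowers_le.2 hzS)
    refine le_trans ?_ h1
    apply EXAux.le_normalizer_of_conj
    intro g hg y hy
    obtain ⟨n, rfl⟩ := mem_zpowers_iff.1 hy
    have h2 : Commute g z := mem_centralizer_singleton_iff.1 hg
    have h3 : g * z ^ n * g⁻¹ = z ^ n := by
      rw [(h2.zpow_right n).eq]
      group
    rw [h3]
    exact zpow_mem (mem_zpowers z) n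
  set m₀ := (normalizer (S₀ : Set G)).index with hm₀
  have hgood : ∀ z ∈ W, z ≠ 1 → ∃ S : Subgroup G, Act s₀ A S ∧ z ∈ centralizer (S : Set G) ∧
      ¬ W ≤ centralizer (S : Set G) ∧ (normalizer (S : Set G)).index = m₀ := by
    apply trans (fun z => ∃ S : Subgroup G, Act s₀ A S ∧ z ∈ centralizer (S : Set G) ∧
      ¬ W ≤ centralizer (S : Set G) ∧ (normalizer (S : Set G)).index = m₀)
    · rintro z hz hz1 ⟨S, hS, hzS, hSW, hidx⟩
      have hcz := hcen s₀ S hS z hz hz1 hzS
      have hnS : normalizer (MP_5771ce_al.conjBy S x⁻¹ : Set G) = MP_5771ce_al.conjBy (normalizer (S : Set G)) x⁻¹ :=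
        normalizer_conjBy S x⁻¹
      have hzS' : x * z * x⁻¹ ∈ centralizer ((MP_5771ce_al.conjBy S x⁻¹ : Subgroup G) : Set G) := by
        rw [mem_centralizer_iff]
        intro y hy
        have h1 := (mem_centralizer_iff.1 hzS) _ (mem_conjBy'.1 hy)
        calc y * (x * z * x⁻¹) = x * (x⁻¹ * y * x * z) * x⁻¹ := by group
          _ = x * (z * (x⁻¹ * y * x)) * x⁻¹ := by rw [h1]
          _ = x * z * x⁻¹ * y := by group
      have hW' : ¬ W ≤ centralizer ((MP_5771ce_al.conjBy S x⁻¹ : Subgroup G) : Set G) := by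
        intro hle
        apply hSW
        intro a ha
        rw [mem_centralizer_iff]
        intro y hy
        have h1 := (mem_centralizer_iff.1 (hle (hxW a ha))) _ (conj_mem_conjBy' (x := x) hy)
        have h2 : x * y * x⁻¹ * (x * a * x⁻¹) = x * (y * a) * x⁻¹ := by group
        have h3 : x * a * x⁻¹ * (x * y * x⁻¹) = x * (a * y) * x⁻¹ := by group
        rw [h2, h3] at h1
        exact mul_left_cancel (mul_right_cancel h1)
      refine ⟨MP_5771ce_al.conjBy S x⁻¹, ⟨hS.prime, hS.ndvd, ?_, ?_, ?_⟩, hzS', hW', ?_⟩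
      · have h1 := hS.syl.conjBy x⁻¹
        have h2 : MP_5771ce_al.conjBy (⊤ : Subgroup G) x⁻¹ = ⊤ := conjBy_eq_self (mem_top _)
        rwa [h2] at h1
      · intro a ha
        rw [hnS, mem_conjBy']
        apply hcz
        rw [mem_centralizer_singleton_iff]
        have h1 := h.comm a ha _ (hWA (hxW z hz))
        calc x⁻¹ * a * x * z = x⁻¹ * (a * (x * z * x⁻¹)) * x := by group
          _ = x⁻¹ * (x * z * x⁻¹ * a) * x := by rw [h1]
          _ = z * (x⁻¹ * a * x) := by group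
      · intro he
        rw [commutator_eq_bot_iff_le_centralizer] at he
        apply hW'
        intro a ha
        rw [mem_centralizer_iff]
        intro y hy
        exact ((mem_centralizer_iff.1 (he hy)) a (hWA ha)).symm
      · rw [index_normalizer_conjBy, hidx]
    · obtain ⟨z, hz, hz1, hzS⟩ := hfix s₀ S₀ hS₀
      exact ⟨z, hz, hz1, S₀, hS₀, hzS, hS₀W, rfl⟩
  -- (4)
  have h2m : 2 ∣ m₀ := by
    have hS₀t : normalizer (S₀ : Set G) ≠ ⊤ := (Act.isCoatom h hS₀).1
    obtain ⟨s, hs, hs1, hs2⟩ := hmc.exists_prime hWne (normalIn_of_le_normalizer le_normalizer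
      le_rfl : NormalIn W (normalizer (W : Set G))) (hWA.trans (hmc.le_rad hS₀.norm hS₀t))
    by_cases hs2' : s = 2
    · subst hs2'
      exact hs2
    · exfalso
      have hsF : Fact s.Prime := ⟨hs⟩
      obtain ⟨P, hP⟩ := hmc.her.exists_sylPerm s
      rcases odd0 s hs hs2' P hP with h1 | h1
      · exact hP.not_dvd (hs1.trans (index_dvd_of_le h1))
      · obtain ⟨z, hz, hz1, hzP⟩ := hfix s P h1
        obtain ⟨S, hS, hzS, -, hidx⟩ := hgood z hz hz1
        have h2 : P ≤ normalizer (S : Set G) := by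
          refine le_trans ?_ (hcen s₀ S hS z hz hz1 hzS)
          intro y hy
          rw [mem_centralizer_singleton_iff]
          exact (mem_centralizer_iff.1 hzP) y hy
        have hs3 : s ∣ (normalizer (S : Set G)).index := by
          rw [hidx]
          exact hs2
        exact hP.not_dvd (hs3.trans (index_dvd_of_le h2))
  -- the `2`-group `N = P ∩ N_G(W)` centralises some `z₀`
  obtain ⟨P, hP⟩ := hmc.her.exists_sylPerm 2
  obtain ⟨z₀, hz₀, hz₀1, hNz⟩ := exists_fixed (p := 2) (N := P ⊓ normalizer (W : Set G)) (W := W)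
    (hP.isPGroup.to_le inf_le_left) (by rw [hcard4]; norm_num) inf_le_right
  obtain ⟨S, hS, hzS, -, hidx⟩ := hgood z₀ hz₀ hz₀1
  have hNS : P ⊓ normalizer (W : Set G) ≤ normalizer (S : Set G) :=
    hNz.trans (hcen s₀ S hS z₀ hz₀ hz₀1 hzS)
  have hPS : ¬ P ≤ normalizer (S : Set G) := by
    intro hle
    apply hP.not_dvd
    rw [← hidx] at h2m
    exact h2m.trans (index_dvd_of_le hle)
  -- `g ∈ P - N_G(S)` with `g² ∈ N_G(S)`
  obtain ⟨g, hg, hgS, hg2⟩ : ∃ g ∈ P, g ∉ normalizer (S : Set G) ∧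
      g ^ 2 ∈ normalizer (S : Set G) := by
    obtain ⟨y, hy, hyS⟩ := Set.not_subset.1 hPS
    obtain ⟨k, hk⟩ := hP.isPGroup ⟨y, hy⟩
    have hk' : y ^ 2 ^ k = 1 := congrArg Subtype.val hk
    have hex : ∃ i, y ^ 2 ^ i ∈ normalizer (S : Set G) := ⟨k, by rw [hk']; exact one_mem _⟩
    have hne : Nat.find hex ≠ 0 := by
      intro h0
      have := Nat.find_spec hex
      rw [h0, pow_zero, pow_one] at this
      exact hyS this
    obtain ⟨i, hi⟩ := Nat.exists_eq_succ_of_ne_zero hne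
    refine ⟨y ^ 2 ^ i, pow_mem hy _, Nat.find_min hex (by omega), ?_⟩
    rw [← pow_mul, ← pow_succ, ← Nat.succ_eq_add_one, ← hi]
    exact Nat.find_spec hex
  apply hgS
  apply hNS
  refine ⟨hg, ?_⟩
  -- local analysis
  have h2A : 2 ∣ Nat.card A := by
    have h1 : Nat.card W ∣ Nat.card A := card_dvd_of_le hWA
    rw [hcard4] at h1
    exact (by norm_num : 2 ∣ 4).trans h1
  have hl : Loc A S s₀ 2 g := by
    refine ⟨hS, Nat.prime_two, ?_, ?_, ?_, hgS, hg2⟩
    · rintro rfl
      exact hS.ndvd h2A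
    · obtain ⟨k, hk⟩ := hP.isPGroup ⟨g, hg⟩
      exact ⟨k, congrArg Subtype.val hk⟩
    · exact hP.permutes_of_le hmc.her (zpowers_le.2 hg)
  obtain ⟨K, hK, hKS, -, -, hKc, -, -, -, -, -, -, hAK, -⟩ := hl.exists_core h
  have hAK := hAK rfl
  set W' : Subgroup G := W.map (MulAut.conj g).toMonoidHom with hW'
  have hgK : ∀ y ∈ K, g * y * g⁻¹ ∈ K := fun y hy =>
    hK.2 g (mem_sup_right (mem_zpowers g)) y hy
  have hW'K : W' ≤ K := by
    rintro _ ⟨a, ha, rfl⟩
    exact hgK a (hAK (hWA ha))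
  have hel : ElemAb 2 (W ⊔ W') := by
    apply ElemAb.sup ⟨hWab, hW2⟩
    · exact ElemAb.map (p := 2) ⟨hWab, hW2⟩ _
    · intro a ha b hb
      exact hKc a (hAK (hWA ha)) b (hW'K hb)
  have hle : W ⊔ W' ≤ ⨆ i : ℤ, opc 2 (MP_5771ce_al.conjBy A (g ^ i)) := by
    apply sup_le
    · refine le_trans ?_ (le_iSup (fun i : ℤ => opc 2 (MP_5771ce_al.conjBy A (g ^ i))) 0)
      rw [zpow_zero, conjBy_one]
      exact hW2A
    · refine le_trans ?_ (le_iSup (fun i : ℤ => opc 2 (MP_5771ce_al.conjBy A (g ^ i))) (-1))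
      have hab' : ∀ a ∈ MP_5771ce_al.conjBy A (g ^ (-1 : ℤ)), ∀ b ∈ MP_5771ce_al.conjBy A (g ^ (-1 : ℤ)), a * b = b * a := by
        intro a ha b hb
        have h1 := h.comm _ (mem_conjBy.1 ha) _ (mem_conjBy.1 hb)
        have h2 : g ^ (-1 : ℤ) * a * (g ^ (-1 : ℤ))⁻¹ * (g ^ (-1 : ℤ) * b * (g ^ (-1 : ℤ))⁻¹) =
          g ^ (-1 : ℤ) * (a * b) * (g ^ (-1 : ℤ))⁻¹ := by group
        have h3 : g ^ (-1 : ℤ) * b * (g ^ (-1 : ℤ))⁻¹ * (g ^ (-1 : ℤ) * a * (g ^ (-1 : ℤ))⁻¹) =
          g ^ (-1 : ℤ) * (b * a) * (g ^ (-1 : ℤ))⁻¹ := by group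
        rw [h2, h3] at h1
        exact mul_left_cancel (mul_right_cancel h1)
      rintro _ ⟨a, ha, rfl⟩
      rw [mem_opc_of_abelian hab']
      change g * a * g⁻¹ ∈ _ ∧ ∃ k, (g * a * g⁻¹) ^ 2 ^ k = 1
      refine ⟨?_, 1, ?_⟩
      · rw [mem_conjBy]
        have h1 : g ^ (-1 : ℤ) * (g * a * g⁻¹) * (g ^ (-1 : ℤ))⁻¹ = a := by group
        rw [h1]
        exact hWA ha
      · rw [pow_one, conj_pow, hW2 a ha]
        simp
  have hc4 := hl.card_le h hK hKS hAK hKc Nat.prime_two hle hel.2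
  have heq : W = W ⊔ W' := eq_of_le_of_card_ge le_sup_left (by rw [hcard4]; exact hc4)
  apply EXAux.mem_normalizer_of_conj
  intro y hy
  rw [heq]
  exact mem_sup_right ⟨y, hy, rfl⟩

end MP_5771ce_al
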