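import Pool.Agent.Lib.MP_5771ce_al.S3.Basic3
import Pool.Agent.Lib.MP_5771ce_al.LibCoprime
import Pool.Agent.Lib.MP_5771ce_al.LibFit

/-!
# Section 3, module SMALL (3.8.1) : an `l`-element acting on an abelian `p`-group of rank two
-/

open Subgroup
open scoped Pointwise commutatorElement

universe u

namespace MP_5771ce_al

variable {G : Type u} [Group G]

/-- number of fixed points -/
theorem SmallAux.card_modEq {l : ℕ} [Fact l.Prime] {W X : Subgroup G} [Finite G]
    (hX : IsPGroup l X) (hXW : X ≤ normalizer (W : Set G)) :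
    Nat.card W ≡ Nat.card (W ⊓ centralizer (X : Set G) : Subgroup G) [MOD l] := by
  let act : MulAction X W :=
    { smul := fun x w => ⟨(x : G) * w * (x : G)⁻¹, mem_normalizer_conj (hXW x.2) w.2⟩
      one_smul := by
        intro w
        apply Subtype.ext
        change ((1 : X) : G) * w * ((1 : X) : G)⁻¹ = w
        simp
      mul_smul := by
        intro x y w
        apply Subtype.ext
        change ((x * y : X) : G) * w * ((x * y : X) : G)⁻¹ =
          (x : G) * ((y : G) * w * (y : G)⁻¹) * (x : G)⁻¹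
        push_cast
        group }
  have hmod := hX.card_modEq_card_fixedPoints W
  have hone : Nat.card (MulAction.fixedPoints X W) =
      Nat.card (W ⊓ centralizer (X : Set G) : Subgroup G) := by
    apply Nat.card_congr
    refine ⟨fun w => ⟨(w.1 : G), mem_inf.2 ⟨w.1.2, ?_⟩⟩, fun w => ⟨⟨w.1, (mem_inf.1 w.2).1⟩, ?_⟩,
      fun w => rfl, fun w => rfl⟩
    · rw [mem_centralizer_iff]
      intro x hx
      have h1 : x * (w.1 : G) * x⁻¹ = w.1 := congrArg Subtype.val (w.2 ⟨x, hx⟩)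
      calc x * (w.1 : G) = x * (w.1 : G) * x⁻¹ * x := by group
        _ = w.1 * x := by rw [h1]
    · intro x
      apply Subtype.ext
      change (x : G) * (w : G) * (x : G)⁻¹ = w
      have h2 := mem_centralizer_iff.1 (mem_inf.1 w.2).2 x.1 x.2
      rw [h2]
      group
  rw [hone] at hmod
  exact hmod

theorem SmallAux.isPGroup_zpowers {l : ℕ} {y : G} (hy : ∃ k : ℕ, y ^ l ^ k = 1) :
    IsPGroup l (zpowers y) := by
  obtain ⟨k, hk⟩ := hy
  rintro ⟨x, hx⟩
  obtain ⟨i, rfl⟩ := mem_zpowers_iff.1 hx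
  refine ⟨k, Subtype.ext ?_⟩
  change (y ^ i) ^ l ^ k = 1
  rw [← zpow_natCast, ← zpow_mul, mul_comm, zpow_mul, zpow_natCast, hk, one_zpow]

/-- pure group theory: an `l`-element acting on an abelian `p`-group of rank at most 2, `l > p` -/
theorem small_action [Finite G] {T : Subgroup G} {p l : ℕ} (hp : p.Prime) (hl : l.Prime)
    (hpl : p < l) (hT : IsPGroup p T) (hab : ∀ a ∈ T, ∀ b ∈ T, a * b = b * a)
    (hrank : ∀ B ≤ T, (∀ b ∈ B, b ^ p = 1) → Nat.card B ≤ p ^ 2) {y : G}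
    (hy : ∃ k : ℕ, y ^ l ^ k = 1) (hyn : y ∈ normalizer (T : Set G))
    (hne : ∃ a ∈ T, a * y ≠ y * a) :
    p = 2 ∧ l = 3 ∧ (∃ t ∈ T, t ^ 2 = 1 ∧ y * t ≠ t * y) ∧
      ∀ B ≤ T, y ∈ normalizer (B : Set G) → B.relIndex T ≠ 2 := by
  have _ : Fact p.Prime := ⟨hp⟩
  have _ : Fact l.Prime := ⟨hl⟩
  have hX : IsPGroup l (zpowers y) := SmallAux.isPGroup_zpowers hy
  have hXT : zpowers y ≤ normalizer (T : Set G) := by rwa [zpowers_le]
  have hlT : ∀ {W : Subgroup G}, W ≤ T → ¬ l ∣ Nat.card W := by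
    intro W hW hd
    obtain ⟨n, hn⟩ := IsPGroup.iff_card.1 (hT.to_le hW)
    rw [hn] at hd
    have := (Nat.prime_dvd_prime_iff_eq hl hp).1 (hl.dvd_of_dvd_pow hd)
    omega
  -- elements of `T` centralised by `y`
  have hcen : ∀ {x : G}, x ∈ centralizer (zpowers y : Set G) ↔ y * x = x * y := by
    intro x
    rw [mem_centralizer_iff]
    constructor
    · intro h
      exact h y (mem_zpowers y)
    · rintro h z hz
      obtain ⟨i, rfl⟩ := mem_zpowers_iff.1 hz
      have hc : Commute y x := h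
      exact (hc.zpow_left i).eq
  -- `Ω`
  set Ω := omegaAb p T hab with hΩdef
  have hΩ : ∀ x, x ∈ Ω ↔ x ∈ T ∧ x ^ p = 1 := fun x => Iff.rfl
  have hΩT : Ω ≤ T := fun x hx => ((hΩ x).1 hx).1
  have hΩy : y ∈ normalizer (Ω : Set G) := by
    rw [mem_normalizer_iff]
    intro x
    rw [hΩ, hΩ, conj_pow, conj_eq_one_iff]
    exact and_congr_left fun _ => mem_normalizer_iff.1 hyn x
  have hXΩ : zpowers y ≤ normalizer (Ω : Set G) := by rwa [zpowers_le]
  have hΩcard : Nat.card Ω ≤ p ^ 2 := hrank Ω hΩT fun b hb => ((hΩ b).1 hb).2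
  have hΩp : IsPGroup p Ω := hT.to_le hΩT
  -- `y` acts non trivially on `Ω`
  have hne1 : ⁅T, zpowers y⁆ ≠ ⊥ := by
    intro h
    obtain ⟨a, ha, hay⟩ := hne
    apply hay
    rw [commutator_eq_bot_iff_le_centralizer] at h
    exact (hcen.1 (h ha)).symm
  have hneΩ : ∃ t ∈ T, t ^ p = 1 ∧ y * t ≠ t * y := by
    by_contra hcon
    push Not at hcon
    apply hne1
    apply commutator_eq_bot_of_omega hX hXT (hlT le_rfl) hab
    intro v hv hvo
    rw [hcen]
    apply hcon v hv
    obtain ⟨k, hk⟩ := hT ⟨v, hv⟩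
    have hk' : v ^ p ^ k = 1 := congrArg Subtype.val hk
    have hd := orderOf_dvd_of_pow_eq_one hk'
    have h1 := (Nat.prime_dvd_prime_iff_eq hvo hp).1 (hvo.dvd_of_dvd_pow hd)
    rw [← h1, pow_orderOf_eq_one]
  obtain ⟨t, htT, htp, hty⟩ := hneΩ
  -- count
  set D := Ω ⊓ centralizer (zpowers y : Set G) with hD
  have hmod : Nat.card Ω ≡ Nat.card D [MOD l] := SmallAux.card_modEq hX hXΩ
  obtain ⟨j, hj⟩ := IsPGroup.iff_card.1 hΩp
  obtain ⟨i, hi⟩ := IsPGroup.iff_card.1 (hΩp.to_le (inf_le_left : D ≤ Ω))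
  have hDΩ : D < Ω := by
    refine lt_of_le_of_ne inf_le_left ?_
    intro h
    have : t ∈ D := by rw [h]; exact (hΩ t).2 ⟨htT, htp⟩
    exact hty (hcen.1 (mem_inf.1 this).2)
  have hlt : Nat.card D < Nat.card Ω := card_lt_of_lt hDΩ
  rw [hi, hj] at hlt hmod
  rw [hj] at hΩcard
  have hij : i < j := (Nat.pow_lt_pow_iff_right hp.one_lt).1 hlt
  have hj2 : j ≤ 2 := (Nat.pow_le_pow_iff_right hp.one_lt).1 hΩcard
  have hlp : ¬ l ∣ p - 1 := by
    intro h
    have := Nat.le_of_dvd (by have := hp.two_le; omega) h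
    omega
  have hcase : i = 0 ∧ j = 2 := by
    have hj' : j = 1 ∨ j = 2 := by omega
    rcases hj' with rfl | rfl
    · exfalso
      have : i = 0 := by omega
      subst this
      rw [pow_zero, pow_one] at hmod
      exact hlp ((Nat.modEq_iff_dvd' hp.one_lt.le).1 hmod.symm)
    · have : i = 0 ∨ i = 1 := by omega
      rcases this with rfl | rfl
      · exact ⟨rfl, rfl⟩
      · exfalso
        rw [pow_one] at hmod
        have h1 := (Nat.modEq_iff_dvd' (Nat.le_self_pow two_ne_zero p)).1 hmod.symm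
        have h2 : p ^ 2 - p = p * (p - 1) := by
          rw [Nat.mul_sub_one, sq]
        rw [h2] at h1
        rcases (Nat.Prime.dvd_mul hl).1 h1 with h3 | h3
        · have := (Nat.prime_dvd_prime_iff_eq hl hp).1 h3
          omega
        · exact hlp h3
  obtain ⟨rfl, rfl⟩ := hcase
  have hlp1 : l = p + 1 := by
    rw [pow_zero] at hmod
    have h1 := (Nat.modEq_iff_dvd' (Nat.one_le_pow _ _ hp.pos)).1 hmod.symm
    have h2 : p ^ 2 - 1 = (p + 1) * (p - 1) := by
      have := Nat.sq_sub_sq p 1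
      rwa [one_pow] at this
    rw [h2] at h1
    rcases (Nat.Prime.dvd_mul hl).1 h1 with h3 | h3
    · have := Nat.le_of_dvd (by omega) h3
      omega
    · exact absurd h3 hlp
  have hp2 : p = 2 := by
    rcases hp.eq_two_or_odd' with h | h
    · exact h
    · exfalso
      rcases hl.eq_two_or_odd' with h' | h'
      · have := hp.two_le
        omega
      · rw [hlp1] at h'
        rw [Nat.odd_add_one] at h'
        exact h' h
  have hl3 : l = 3 := by omega
  refine ⟨hp2, hl3, ⟨t, htT, by rw [← hp2]; exact htp, hty⟩, ?_⟩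
  -- `C_T(y) = 1`
  have hDbot : D = ⊥ := by
    rw [pow_zero] at hi
    exact Subgroup.card_eq_one.1 hi
  have hCT : T ⊓ centralizer (zpowers y : Set G) = ⊥ := by
    rw [eq_bot_iff]
    intro v hv
    rw [mem_inf] at hv
    rw [mem_bot]
    by_contra hv1
    obtain ⟨k, hk⟩ := hT ⟨v, hv.1⟩
    have hk' : v ^ p ^ k = 1 := congrArg Subtype.val hk
    have hex : ∃ k, v ^ p ^ k = 1 := ⟨k, hk'⟩
    classical
    have hne0 : Nat.find hex ≠ 0 := by
      intro h0
      have := Nat.find_spec hex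
      rw [h0, pow_zero, pow_one] at this
      exact hv1 this
    obtain ⟨m, hm⟩ := Nat.exists_eq_succ_of_ne_zero hne0
    have h1 : v ^ p ^ m ≠ 1 := Nat.find_min hex (by omega)
    have h2 : v ^ p ^ m ∈ D := by
      refine mem_inf.2 ⟨(hΩ _).2 ⟨pow_mem hv.1 _, ?_⟩, pow_mem hv.2 _⟩
      rw [← pow_mul, ← pow_succ, ← Nat.succ_eq_add_one, ← hm]
      exact Nat.find_spec hex
    rw [hDbot, mem_bot] at h2
    exact h1 h2
  have hTX : ⁅T, zpowers y⁆ = T := by
    have := sup_centralizer_eq hX hXT (hlT le_rfl)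
    rwa [hCT, sup_bot_eq] at this
  intro B hBT hyB hB2
  have hBX : zpowers y ≤ normalizer (B : Set G) := by rwa [zpowers_le]
  have hTB : T ≤ B := by
    rw [← hTX, commutator_le]
    intro a ha x hx
    have hxa : x * a⁻¹ * x⁻¹ ∈ T := mem_normalizer_conj (hXT hx) (inv_mem ha)
    have hidx : (B.subgroupOf T).index = 2 := hB2
    have h1 := Subgroup.mul_mem_iff_of_index_two hidx (a := ⟨a, ha⟩) (b := ⟨x * a⁻¹ * x⁻¹, hxa⟩)
    simp only [mem_subgroupOf, MulMemClass.mk_mul_mk] at h1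
    have h2 : ⁅a, x⁆ = a * (x * a⁻¹ * x⁻¹) := by
      rw [commutatorElement_def]
      group
    rw [h2, h1]
    have h3 : x * a⁻¹ * x⁻¹ ∈ B ↔ a⁻¹ ∈ B := (mem_normalizer_iff.1 (hBX hx) a⁻¹).symm
    rw [h3, inv_mem_iff]
  rw [Subgroup.relIndex_eq_one.2 hTB] at hB2
  omega

end MP_5771ce_al
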