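import Pool.Agent.Lib.MP_5771ce_al.S3.RankM
import Pool.Agent.Lib.MP_5771ce_al.S3.EX
import Pool.Agent.Lib.MP_5771ce_al.S3.Small

/-!
# Section 3 of `MP_5771ce_al`: (R2a), statement 3.8.4
-/

open Subgroup
open scoped Pointwise commutatorElement

universe u

namespace MP_5771ce_al

variable {G : Type u} [Group G]



/-- (R2a) -/
theorem MCq.R2a [Finite G] {A : Subgroup G} {q : ℕ} (h : MCq A q) {r : ℕ} (hr : Iplus A q r)
    {R₁ : Subgroup G} (hR : IsPGroup r R₁) (hp : Permutes A R₁) :
    A ≤ normalizer (R₁ : Set G) := by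
  have hrp := hr.prime
  have := Fact.mk hrp
  rcases DI h.mc.her h.comm hR (hr.not_dvd h) hp (h.mc.isSolvable_sup_of_isPGroup hR hp)
    with h1 | h1
  · by_cases hc : ∀ y ∈ R₁, ∀ a ∈ A, a * y = y * a
    · refine le_normalizer_of_conj_mem fun a ha y hy => ?_
      rw [hc y hy a ha, mul_inv_cancel_right]
      exact hy
    · exfalso
      push Not at hc
      obtain ⟨y, hy, a₀, ha₀, hay₀⟩ := hc
      obtain ⟨p, hpp, hpA, hnp⟩ : ∃ p : ℕ, p.Prime ∧ p ∣ Nat.card A ∧
          ¬ opc p A ≤ centralizer ({y} : Set G) := by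
        by_contra hcon
        push Not at hcon
        have h2 := le_of_opc_le_of_abelian h.comm hcon
        exact hay₀ ((mem_centralizer_singleton_iff.1 (h2 ha₀)))
      have hne : ∃ a ∈ opc p A, a * y ≠ y * a := by
        by_contra hcon
        push Not at hcon
        exact hnp fun a ha => mem_centralizer_singleton_iff.2 (hcon a ha)
      have hpq : p ≤ q := h.max p hpp hpA
      have hqr : q < r := hr.lt h
      have hyn : y ∈ normalizer (opc p A : Set G) := normalizer_le_normalizer_opc p A (h1 hy)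
      have hy' : ∃ k : ℕ, y ^ r ^ k = 1 := by
        obtain ⟨k, hk⟩ := hR ⟨y, hy⟩
        exact ⟨k, by simpa using congrArg Subtype.val hk⟩
      obtain ⟨hp2, hr3, ⟨t, ht, ht2, hyt⟩, -⟩ := small_action hpp hrp (lt_of_le_of_lt hpq hqr)
        (opc_isPGroup p A) (fun a ha b hb => h.comm a (opc_le p A ha) b (opc_le p A hb))
        (fun B hB hexp => h.rank hpp (hB.trans (opc_le p A)) hexp) hy' hyn hne
      subst hp2 hr3
      refine h.EX hy' hyn (opc_le 2 A ht) ht2 hyt fun s hs hs2 hsA => ?_
      have h3 := h.max s hs hsA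
      have h4 := hs.two_le
      omega
  · exact h1

end MP_5771ce_al
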