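import Pool.Agent.Lib.MP_5771ce_al.S3.Loc
import Pool.Agent.Lib.MP_5771ce_al.S4.Small

/-!
# (3.6): the Sylow subgroups of `A` have rank at most two
-/

open Subgroup
open scoped Pointwise commutatorElement

universe u

namespace MP_5771ce_al

variable {G : Type u} [Group G]


section rank
variable [Finite G] {A S : Subgroup G} {q s t : ℕ} {h : G}

theorem Act.relIndex_le (hm : MCq A q) (hS : Act s A S) {p : ℕ} (hp : p.Prime) {B : Subgroup G}
    (hB : B ≤ A) (hexp : ∀ b ∈ B, b ^ p = 1) : (centralizer (S : Set G)).relIndex B ≤ p := by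
  have _ : Fact s.Prime := ⟨hS.prime⟩
  have h1 := relIndex_dvd_of_pow hp hS.syl.isPGroup
    (fun a ha b hb => hm.comm a (hB ha) b (hB hb)) hexp
    (fun hd => hS.ndvd (hd.trans (Subgroup.card_dvd_of_le hB)))
    (fun a ha => hS.pow hm (g := 1) (by rw [conjBy_one]; exact hS.norm)
      (by rw [conjBy_one]; exact hB ha))
  rw [Subgroup.inf_relIndex_left] at h1
  exact Nat.le_of_dvd hp.pos h1

omit [Finite G] in
/-- Elements of `A⟨h⟩ ∩ N_G(S)` are in `A⟨h^t⟩`. -/
theorem Loc.exists_zpow (hl : Loc A S s t h) {x : G} (hx : x ∈ A ⊔ zpowers h)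
    (hxS : x ∈ normalizer (S : Set G)) : ∃ n : ℤ, x * (h ^ t) ^ n ∈ A := by
  obtain ⟨a, ha, b, ⟨i, rfl⟩, rfl⟩ := hl.perm.mem_sup.1 hx
  have hi : h ^ i ∈ normalizer (S : Set G) :=
    (Subgroup.mul_mem_cancel_left _ (hl.act.norm ha)).1 hxS
  have hd : (t : ℤ) ∣ i := by
    by_contra hnd
    apply hl.notMem
    have hc : IsCoprime (t : ℤ) i :=
      (Nat.prime_iff_prime_int.1 hl.prime).coprime_iff_not_dvd.2 hnd
    obtain ⟨u, v, huv⟩ := hc
    have h1 : h = (h ^ t) ^ u * (h ^ i) ^ v := by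
      rw [← zpow_natCast, ← zpow_mul, ← zpow_mul, ← zpow_add, mul_comm (t : ℤ), mul_comm i, huv,
        zpow_one]
    rw [h1]
    exact mul_mem (zpow_mem hl.mem u) (zpow_mem hi v)
  obtain ⟨j, rfl⟩ := hd
  refine ⟨-j, ?_⟩
  have h2 : a * h ^ ((t : ℤ) * j) * (h ^ t) ^ (-j) = a := by
    rw [← zpow_natCast, ← zpow_mul, mul_assoc, ← zpow_add]
    have : (t : ℤ) * j + (t : ℤ) * -j = 0 := by ring
    rw [this, zpow_zero, mul_one]
  show a * h ^ ((t : ℤ) * j) * (h ^ t) ^ (-j) ∈ A
  rw [h2]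
  exact ha

omit [Finite G] in
/-- Exponent `p` subgroups of an abelian group `K` with `K/(K ∩ A)` cyclic. -/
theorem relIndex_dvd_of_cyclic {K A B : Subgroup G} {c : G} {p : ℕ}
    (hp : p.Prime) (hK : ∀ x ∈ K, ∀ y ∈ K, x * y = y * x) (hc : c ∈ K)
    (hcyc : ∀ x ∈ K, ∃ n : ℤ, x * c ^ n ∈ A) (hBK : B ≤ K) (hB : ∀ b ∈ B, b ^ p = 1) :
    A.relIndex B ≤ p := by
  classical
  -- work in the quotient `K ⧸ (A ⊓ K)`
  have hKc : ∀ x y : K, x * y = y * x := fun x y => Subtype.ext (hK x x.2 y y.2)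
  have hn : (A.subgroupOf K).Normal := ⟨fun n hn g => by
    rw [hKc g n, mul_inv_cancel_right]; exact hn⟩
  let π : K →* K ⧸ (A.subgroupOf K) := QuotientGroup.mk' _
  have hgen : ∀ y : K ⧸ (A.subgroupOf K), y ∈ zpowers (π ⟨c, hc⟩) := by
    intro y
    obtain ⟨x, rfl⟩ := QuotientGroup.mk'_surjective _ y
    obtain ⟨n, hn'⟩ := hcyc x x.2
    refine ⟨-n, ?_⟩
    have h1 : π (x * ⟨c, hc⟩ ^ n) = 1 := (QuotientGroup.eq_one_iff _).2 hn'
    rw [map_mul, map_zpow] at h1
    show π ⟨c, hc⟩ ^ (-n) = π x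
    rw [zpow_neg]
    exact (eq_inv_of_mul_eq_one_left h1).symm
  have hcy : IsCyclic (K ⧸ (A.subgroupOf K)) := ⟨⟨_, hgen⟩⟩
  have hB1 : ∀ y ∈ (B.subgroupOf K).map π, y ^ p = 1 := by
    rintro _ ⟨b, hb, rfl⟩
    rw [← map_pow]
    have : b ^ p = 1 := Subtype.ext (hB b hb)
    rw [this, map_one]
  have h2 : A.relIndex B = Nat.card ((B.subgroupOf K).map π) := by
    have h3 := Subgroup.relIndex_ker (f := π) (K := B.subgroupOf K)
    rw [← h3, QuotientGroup.ker_mk']
    rw [← Subgroup.relIndex_map_map_of_injective _ _ K.subtype_injective,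
      map_subtype_subgroupOf hBK, Subgroup.subgroupOf_map_subtype, ← Subgroup.inf_relIndex_right,
      ← Subgroup.inf_relIndex_right (A ⊓ K) B, inf_assoc, inf_eq_right.2 hBK]
  rw [h2]
  have hcb : IsCyclic ((B.subgroupOf K).map π) := inferInstance
  obtain ⟨g, hg⟩ := IsCyclic.exists_generator (α := (B.subgroupOf K).map π)
  have h4 : Nat.card ((B.subgroupOf K).map π) = orderOf g :=
    (orderOf_eq_card_of_forall_mem_zpowers hg).symm
  rw [h4]
  apply Nat.le_of_dvd hp.pos
  rw [orderOf_dvd_iff_pow_eq_one]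
  exact Subtype.ext (hB1 g.1 g.2)

/-- Case `t ≠ p` of (3.6). -/
theorem Loc.rank_ne (hm : MCq A q) (hl : Loc A S s t h) {p : ℕ} (hp : p.Prime) (htp : t ≠ p)
    {Ω : Subgroup G} (hΩ : ∀ x, x ∈ Ω ↔ x ∈ A ∧ x ^ p = 1) : Nat.card Ω ≤ p ^ 2 := by
  have _ : Fact t.Prime := ⟨hl.prime⟩
  have _ : Fact p.Prime := ⟨hp⟩
  obtain ⟨K, hKE, hKS, hKmax, hl1, hKc, hhK, hAtK, hKmin, hKa, hKh, hKl4, hK2, hKp⟩ :=
    hl.exists_core hm
  by_contra hgt
  push Not at hgt
  have hΩA : Ω ≤ A := fun x hx => ((hΩ x).1 hx).1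
  have hΩp : ∀ x ∈ Ω, x ^ p = 1 := fun x hx => ((hΩ x).1 hx).2
  set E := A ⊔ zpowers h with hE
  have hhE : h ∈ E := Loc.h_mem
  -- `Ω' = Ω₁(O_p(K)) ≤ A`
  set Ω' := omegaAb p K hKc with hΩ'
  have hΩ'E : NormalIn Ω' E := omegaAb_normalIn hKc hKE
  have hΩ'A : Ω' ≤ A := by
    obtain ⟨n, hn⟩ := IsPGroup.iff_card.1 (isPGroup_zpowers hl.tel)
    have hi : A.relIndex E ∣ t ^ n := by
      rw [hE, hl.perm.relIndex_sup, ← hn]
      exact Subgroup.relIndex_dvd_card _ _
    apply le_of_coprime_index hl.prime le_sup_left hi hΩ'E.1 hΩ'E.le_normalizer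
    intro hd
    obtain ⟨m, hm'⟩ := IsPGroup.iff_card.1 (omegaAb_isPGroup p K hKc)
    rw [← hΩ'] at hm'
    rw [hm'] at hd
    exact htp ((Nat.prime_dvd_prime_iff_eq hl.prime hp).1 (hl.prime.dvd_of_dvd_pow hd))
  by_cases hAK : A ≤ K
  · -- `Ω = Ω'`
    have hΩeq : Ω = Ω' := by
      ext x
      rw [hΩ x]
      constructor
      · rintro ⟨hx, hx'⟩
        exact ⟨hAK hx, hx'⟩
      · rintro ⟨hx, hx'⟩
        exact ⟨hΩ'A ⟨hx, hx'⟩, hx'⟩
    have h1 := hl.act.relIndex_le hm hp hΩA hΩp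
    have h2 : (centralizer (MP_5771ce_al.conjBy S h : Set G)).relIndex Ω ≤ p := by
      have h3 : (centralizer (MP_5771ce_al.conjBy S h : Set G)).relIndex Ω =
          (centralizer (S : Set G)).relIndex Ω := by
        have h4 : MP_5771ce_al.conjBy Ω h = Ω := by rw [hΩeq]; exact hΩ'E.conjBy_eq hhE
        have h5 : centralizer (MP_5771ce_al.conjBy S h : Set G) =
            MP_5771ce_al.conjBy (centralizer (S : Set G)) h := by
          ext x
          rw [mem_conjBy, Subgroup.mem_centralizer_iff, Subgroup.mem_centralizer_iff]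
          constructor
          · intro hx y hy
            have h6 := hx (h⁻¹ * y * h) (mem_conjBy.2 (by
              have : h * (h⁻¹ * y * h) * h⁻¹ = y := by group
              rw [this]; exact hy))
            have h7 : y * (h * x * h⁻¹) = h * (h⁻¹ * y * h * x) * h⁻¹ := by group
            rw [h7, h6]; group
          · intro hx y hy
            have h6 := hx _ (mem_conjBy.1 hy)
            have h7 : y * x = h⁻¹ * (h * y * h⁻¹ * (h * x * h⁻¹)) * h := by group
            rw [h7, h6]; group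
        rw [h5]
        conv_lhs => rw [← h4]
        exact Subgroup.relIndex_map_map_of_injective _ _ (MulAut.conj h⁻¹).injective
      rw [h3]
      exact h1
    apply absurd (card_le_of_relIndex h1 h2 ?_)
    · rw [← pow_two]
      exact not_le.2 hgt
    · apply hl.l5 hm
      · have : Group.IsSolvable A := hm.mc.sol
        exact isSolvable_of_le this (inf_le_left.trans hΩA)
      · apply le_normalizer_of_le_centralizer
        intro z hz
        rw [Subgroup.mem_centralizer_iff]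
        intro a ha
        exact hm.comm a ha z (hΩA hz.1)
      · exact inf_le_right.trans inf_le_left
      · exact inf_le_right.trans inf_le_right
  · -- some `a ∈ A ∖ K`
    obtain ⟨a, haA, haK⟩ := SetLike.not_le_iff_exists.1 hAK
    have h1 : h ∈ E ⊓ centralizer (Ω' : Set G) := by
      apply hKmin _ hΩ'E.inf_centralizer
      · intro k hk
        refine Subgroup.mem_inf.2 ⟨hKE.1 hk, ?_⟩
        rw [Subgroup.mem_centralizer_iff]
        intro x hx
        exact hKc x hx.1 k hk
      · intro he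
        apply haK
        rw [← he]
        refine Subgroup.mem_inf.2 ⟨mem_sup_left haA, ?_⟩
        rw [Subgroup.mem_centralizer_iff]
        intro x hx
        exact hm.comm x (hΩ'A hx) a haA
    -- `X = Ω ∩ K ∩ C(S)`
    set X := Ω ⊓ (K ⊓ centralizer (S : Set G)) with hX
    have hXne : X ≠ ⊥ := by
      intro hX0
      have h2 := card_le_of_relIndex (Nat.le_of_dvd hp.pos (hKp p hp Ω hΩA hΩp))
        (hl.act.relIndex_le hm hp hΩA hΩp) hX0
      rw [← pow_two] at h2
      omega
    have h2 := hl.act.normalizer_le_of_centralizes hm (B := X) (inf_le_left.trans hΩA) hXne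
      (inf_le_right.trans inf_le_right)
    apply hl.notMem
    apply h2
    have h3 : zpowers h ≤ normalizer (X : Set G) := by
      apply le_normalizer_of_le_centralizer
      intro x hx
      rw [Subgroup.mem_centralizer_iff]
      rintro _ ⟨i, rfl⟩
      have h4 : Commute h x := by
        have := Subgroup.mem_centralizer_iff.1 h1.2 x ⟨hx.2.1, hΩp x hx.1⟩
        exact this.symm
      exact (h4.zpow_left i).eq
    exact h3 (mem_zpowers h)

/-- Case `t = p` of (3.6). -/
theorem Loc.rank_eq (hm : MCq A q) (hl : Loc A S s t h)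
    {Ω : Subgroup G} (hΩ : ∀ x, x ∈ Ω ↔ x ∈ A ∧ x ^ t = 1) : Nat.card Ω ≤ t ^ 2 := by
  have hp := hl.prime
  have _ : Fact t.Prime := ⟨hl.prime⟩
  obtain ⟨K, hKE, hKS, hKmax, hl1, hKc, hhK, hAtK, hKmin, hKa, hKh, hKl4, hK2, hKp⟩ :=
    hl.exists_core hm
  have hΩA : Ω ≤ A := fun x hx => ((hΩ x).1 hx).1
  have hΩp : ∀ x ∈ Ω, x ^ t = 1 := fun x hx => ((hΩ x).1 hx).2
  have hΩt : Ω ≤ opc t A := by
    apply le_opc
    · refine ⟨hΩA, fun e he n hn => ?_⟩
      rw [hm.comm e he n (hΩA hn), mul_inv_cancel_right]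
      exact hn
    · exact fun b => ⟨1, Subtype.ext (by simpa using hΩp b.1 b.2)⟩
  by_cases hAK : A ≤ K
  · apply hl.card_le hm hKE hKS hAK hKc hl.prime _ hΩp
    refine le_trans ?_ (le_iSup _ (0 : ℤ))
    rw [zpow_zero, conjBy_one]
    exact hΩt
  by_contra hgt
  push Not at hgt
  obtain ⟨a, haA, haK⟩ := SetLike.not_le_iff_exists.1 hAK
  set E := A ⊔ zpowers h with hE
  have hhE : h ∈ E := Loc.h_mem
  set Ω' := omegaAb t K hKc with hΩ'
  have hΩ'E : NormalIn Ω' E := omegaAb_normalIn hKc hKE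
  have hΩ'K : Ω' ≤ K := fun x hx => hx.1
  have hΩΩ' : Ω ≤ Ω' := fun x hx => ⟨hAtK (hΩt hx), hΩp x hx⟩
  have hΩ'Ω : ∀ x ∈ Ω', x ∈ A → x ∈ Ω := fun x hx hxA => (hΩ x).2 ⟨hxA, hx.2⟩
  -- the index of `Ω` in `Ω'`
  have hi1 : A.relIndex Ω' ≤ t := by
    apply relIndex_dvd_of_cyclic hp hKc hhK _ hΩ'K (fun b hb => hb.2)
    intro x hx
    exact hl.exists_zpow (hKE.1 hx) (hKS hx)
  have hhM := hl.notMem
  have hcontra : ¬ h ∈ centralizer (Ω' : Set G) := by
    intro hc
    set X := Ω ⊓ centralizer (S : Set G) with hX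
    have hXne : X ≠ ⊥ := by
      intro hX0
      have h2 := hl.act.relIndex_le hm hp hΩA hΩp
      rw [← Subgroup.inf_relIndex_right, inf_comm, ← hX, hX0, Subgroup.relIndex_bot_left] at h2
      have h3 : t ^ 2 ≤ t := hgt.le.trans h2
      rw [pow_two] at h3
      have := hp.two_le
      nlinarith
    have h2 := hl.act.normalizer_le_of_centralizes hm (B := X) (inf_le_left.trans hΩA) hXne
      inf_le_right
    apply hhM
    apply h2
    have h3 : zpowers h ≤ normalizer (X : Set G) := by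
      apply le_normalizer_of_le_centralizer
      intro x hx
      rw [Subgroup.mem_centralizer_iff]
      rintro _ ⟨i, rfl⟩
      have h4 : Commute h x := by
        have := Subgroup.mem_centralizer_iff.1 hc x (hΩΩ' hx.1)
        exact this.symm
      exact (h4.zpow_left i).eq
    exact h3 (mem_zpowers h)
  have haC : ¬ a ∈ centralizer (Ω' : Set G) := by
    intro ha
    apply hcontra
    have h1 : h ∈ E ⊓ centralizer (Ω' : Set G) := by
      apply hKmin _ hΩ'E.inf_centralizer
      · intro k hk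
        refine Subgroup.mem_inf.2 ⟨hKE.1 hk, ?_⟩
        rw [Subgroup.mem_centralizer_iff]
        intro x hx
        exact hKc x hx.1 k hk
      · intro he
        apply haK
        rw [← he]
        exact Subgroup.mem_inf.2 ⟨mem_sup_left haA, ha⟩
    exact h1.2
  -- `C_{Ω'}(a) = Ω`, both of index `t`
  have hΩC : Ω ≤ Ω' ⊓ centralizer ({a} : Set G) := by
    refine le_inf hΩΩ' fun x hx => ?_
    rw [Subgroup.mem_centralizer_singleton_iff]
    exact hm.comm x (hΩA hx) a haA
  have hAΩ' : A ⊓ Ω' = Ω := le_antisymm (fun x hx => hΩ'Ω x hx.2 hx.1) (le_inf hΩA hΩΩ')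
  have hi2 : Ω.relIndex Ω' ≤ t := by
    rw [← hAΩ', Subgroup.inf_relIndex_right]
    exact hi1
  have hΩ'p : IsPGroup t Ω' := omegaAb_isPGroup t K hKc
  have hi3 : (Ω' ⊓ centralizer ({a} : Set G)).relIndex Ω' ≠ 1 := by
    intro h1
    rw [Subgroup.relIndex_eq_one] at h1
    apply haC
    rw [Subgroup.mem_centralizer_iff]
    intro x hx
    exact Subgroup.mem_centralizer_singleton_iff.1 (h1 hx).2
  have hcardΩ' := IsPGroup.iff_card.1 hΩ'p
  have hrel : Ω.relIndex (Ω' ⊓ centralizer ({a} : Set G)) *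
      (Ω' ⊓ centralizer ({a} : Set G)).relIndex Ω' = Ω.relIndex Ω' :=
    Subgroup.relIndex_mul_relIndex _ _ _ hΩC inf_le_left
  have hi4 : t ≤ (Ω' ⊓ centralizer ({a} : Set G)).relIndex Ω' := by
    obtain ⟨n, hn⟩ := hcardΩ'
    have h1 : (Ω' ⊓ centralizer ({a} : Set G)).relIndex Ω' ∣ t ^ n := by
      rw [← hn]
      exact Subgroup.relIndex_dvd_card _ _
    obtain ⟨k, -, hk⟩ := (Nat.dvd_prime_pow hp).1 h1
    rw [hk]
    have hk0 : k ≠ 0 := by
      rintro rfl
      exact hi3 hk
    calc t = t ^ 1 := (pow_one t).symm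
      _ ≤ t ^ k := Nat.pow_le_pow_right hp.pos (Nat.one_le_iff_ne_zero.2 hk0)
  have hi5 : Ω' ⊓ centralizer ({a} : Set G) = Ω := by
    have h1 : Ω.relIndex (Ω' ⊓ centralizer ({a} : Set G)) = 1 := by
      have h2 : 0 < Ω.relIndex (Ω' ⊓ centralizer ({a} : Set G)) :=
        Nat.pos_of_ne_zero (by unfold Subgroup.relIndex; exact Subgroup.index_ne_zero_of_finite)
      by_contra hne
      have h3 : 2 ≤ Ω.relIndex (Ω' ⊓ centralizer ({a} : Set G)) := by omega
      have := hp.pos
      nlinarith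
    exact le_antisymm (Subgroup.relIndex_eq_one.1 h1) hΩC
  have hi6 : Ω.relIndex Ω' = t := by
    apply le_antisymm hi2
    rw [← hi5]
    exact hi4
  have hcard1 : Nat.card Ω * t = Nat.card Ω' := by
    rw [← hi6]
    exact card_mul_relIndex hΩΩ'
  -- `X = Ω' ∩ C(a) ∩ C(hah⁻¹)`
  set X := Ω' ⊓ (centralizer ({a} : Set G) ⊓ centralizer ({h * a * h⁻¹} : Set G)) with hX
  have hi7 : (centralizer ({a} : Set G)).relIndex Ω' = t := by
    rw [← Subgroup.inf_relIndex_right, inf_comm, hi5, hi6]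
  have hi8 : (centralizer ({h * a * h⁻¹} : Set G)).relIndex Ω' = t := by
    have h4 : MP_5771ce_al.conjBy Ω' h⁻¹ = Ω' := hΩ'E.conjBy_eq (inv_mem hhE)
    have h5 : centralizer ({h * a * h⁻¹} : Set G) =
        MP_5771ce_al.conjBy (centralizer ({a} : Set G)) h⁻¹ := by
      ext x
      rw [mem_conjBy, Subgroup.mem_centralizer_singleton_iff,
        Subgroup.mem_centralizer_singleton_iff]
      constructor
      · intro hx
        have h7 : h⁻¹ * x * h⁻¹⁻¹ * a = h⁻¹ * (x * (h * a * h⁻¹)) * h := by group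
        rw [h7, hx]; group
      · intro hx
        have h7 : x * (h * a * h⁻¹) = h * (h⁻¹ * x * h⁻¹⁻¹ * a) * h⁻¹ := by group
        rw [h7, hx]; group
    rw [h5]
    conv_lhs => rw [← h4]
    rw [← hi7]
    exact Subgroup.relIndex_map_map_of_injective _ _ (MulAut.conj h⁻¹⁻¹).injective
  have hi9 : Nat.card Ω' ≤ t * t * Nat.card X := by
    have h1 := Subgroup.relIndex_inf_le (H := centralizer ({a} : Set G))
      (K := centralizer ({h * a * h⁻¹} : Set G)) (L := Ω')
    rw [hi7, hi8, ← Subgroup.inf_relIndex_right, inf_comm, ← hX] at h1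
    have h2 := card_mul_relIndex (inf_le_left : X ≤ Ω')
    rw [← h2, mul_comm]
    exact Nat.mul_le_mul_right _ h1
  have hXcard : t < Nat.card X := by
    have h1 : t ^ 2 * t < t * t * Nat.card X :=
      (Nat.mul_lt_mul_of_pos_right hgt hp.pos).trans_le (hcard1.le.trans hi9)
    rw [pow_two] at h1
    exact Nat.lt_of_mul_lt_mul_left h1
  -- `h` centralises `X`
  have hgK := hKa a haA haK
  have hhX : ∀ x ∈ X, x * h = h * x := by
    intro x hx
    have h1 : ⁅a, h⁆ ∈ centralizer ({x} : Set G) := by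
      have h2 : a ∈ centralizer ({x} : Set G) := by
        rw [Subgroup.mem_centralizer_singleton_iff]
        exact (Subgroup.mem_centralizer_singleton_iff.1 hx.2.1).symm
      have h3 : h * a * h⁻¹ ∈ centralizer ({x} : Set G) := by
        rw [Subgroup.mem_centralizer_singleton_iff]
        exact (Subgroup.mem_centralizer_singleton_iff.1 hx.2.2).symm
      have h4 : ⁅a, h⁆ = a * (h * a * h⁻¹)⁻¹ := by rw [commutatorElement_def]; group
      rw [h4]
      exact mul_mem h2 (inv_mem h3)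
    -- `h ∈ K ⟨[a, h]⟩`
    have h5 : K ⊔ zpowers ⁅a, h⁆ ≤ K ⊔ zpowers h :=
      sup_le le_sup_left (by rw [zpowers_le]; exact hgK.1)
    have hKK : h ∉ K := fun hh => hhM (hKS hh)
    have hKperm : Permutes K (zpowers h) := permutes_of_le_normalizer
      ((le_sup_right : zpowers h ≤ E).trans hKE.le_normalizer)
    have h6 : K.relIndex (K ⊔ zpowers h) = t := by
      rw [hKperm.relIndex_sup]
      exact relIndex_zpowers_eq hp hKK hhK
    have h7 := Subgroup.relIndex_mul_relIndex K (K ⊔ zpowers ⁅a, h⁆) (K ⊔ zpowers h)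
      le_sup_left h5
    rw [h6] at h7
    have h8 : (K ⊔ zpowers ⁅a, h⁆).relIndex (K ⊔ zpowers h) = 1 := by
      rcases (Nat.dvd_prime hp).1 (Dvd.intro _ h7) with h9 | h9
      · exfalso
        rw [Subgroup.relIndex_eq_one] at h9
        exact hgK.2 (h9 (mem_sup_right (mem_zpowers _)))
      · rw [h9] at h7
        exact Nat.eq_of_mul_eq_mul_left hp.pos (h7.trans (mul_one t).symm)
    rw [Subgroup.relIndex_eq_one] at h8
    have h9 : K ⊔ zpowers ⁅a, h⁆ ≤ centralizer ({x} : Set G) := by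
      apply sup_le
      · intro k hk
        rw [Subgroup.mem_centralizer_singleton_iff]
        exact hKc k hk x (hΩ'K hx.1)
      · rw [zpowers_le]
        exact h1
    exact (Subgroup.mem_centralizer_singleton_iff.1
      (h9 (h8 (mem_sup_right (mem_zpowers h))))).symm
  have hAX : ∀ x ∈ X, ∀ b ∈ A, b * x = x * b := fun x hx => hKl4 x (hΩ'K hx.1) (hhX x hx)
  have hXΩ : X ≤ Ω := by
    rw [← hi5]
    exact inf_le_inf_left _ inf_le_left
  -- `X ∩ C(S) = 1`
  have h1 : X ⊓ centralizer (S : Set G) = ⊥ := by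
    apply hl1 _ _ inf_le_right
    refine normalIn_of_le_normalizer (inf_le_left.trans ((hXΩ.trans hΩA).trans le_sup_left)) ?_
    apply le_normalizer_of_le_centralizer
    intro z hz
    rw [Subgroup.mem_centralizer_iff]
    have h2 : E ≤ centralizer ({z} : Set G) := by
      apply sup_le
      · intro b hb
        rw [Subgroup.mem_centralizer_singleton_iff]
        exact hAX z hz.1 b hb
      · rw [zpowers_le, Subgroup.mem_centralizer_singleton_iff]
        exact (hhX z hz.1).symm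
    intro e he
    exact Subgroup.mem_centralizer_singleton_iff.1 (h2 he)
  have h2 := hl.act.relIndex_le hm hp (hXΩ.trans hΩA) (fun x hx => hΩp x (hXΩ hx))
  rw [← Subgroup.inf_relIndex_right, inf_comm, h1, Subgroup.relIndex_bot_left] at h2
  omega

/-- (3.6), given an active Sylow subgroup. -/
theorem Act.rank (hm : MCq A q) (hS : Act s A S) {p : ℕ} (hp : p.Prime)
    {B : Subgroup G} (hB : B ≤ A) (hexp : ∀ b ∈ B, b ^ p = 1) : Nat.card B ≤ p ^ 2 := by
  by_contra hgt
  push Not at hgt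
  set Ω := omegaAb p A hm.comm with hΩ'
  have hΩ : ∀ x, x ∈ Ω ↔ x ∈ A ∧ x ^ p = 1 := fun x => Iff.rfl
  have hΩA : Ω ≤ A := fun x hx => hx.1
  have hΩp : ∀ x ∈ Ω, x ^ p = 1 := fun x hx => hx.2
  have hBΩ : B ≤ Ω := fun x hx => ⟨hB hx, hexp x hx⟩
  have hcard : p ^ 2 < Nat.card Ω := hgt.trans_le (Subgroup.card_le_of_le hBΩ)
  -- all active Sylow subgroups have the same normaliser
  have key : ∀ (s s' : ℕ) (S S' : Subgroup G), Act s A S → Act s' A S' →
      normalizer (S' : Set G) ≤ normalizer (S : Set G) := by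
    intro s s' S S' hS hS'
    have hne : Ω ⊓ (centralizer (S : Set G) ⊓ centralizer (S' : Set G)) ≠ ⊥ := by
      intro h0
      have h1 := card_le_of_relIndex (hS.relIndex_le hm hp hΩA hΩp)
        (hS'.relIndex_le hm hp hΩA hΩp) h0
      rw [← pow_two] at h1
      omega
    have h1 := hS'.normalizer_le_of_centralizes hm (inf_le_left.trans hΩA) hne
      (inf_le_right.trans inf_le_right)
    have h2 : S ≤ normalizer (S' : Set G) :=
      (le_normalizer_of_le_centralizer (inf_le_right.trans inf_le_left)).trans h1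
    apply hS.le_normalizer hm (hS'.isCoatom hm).1 hS'.norm
    rw [inf_eq_right.2 h2]
    exact hS.S_ne_bot
  have hNA : normalizer (A : Set G) ≤ normalizer (S : Set G) := by
    intro g hg
    have h1 := hS.conj hm g
    rw [conjBy_eq_of_mem_normalizer hg] at h1
    apply hS.mem_of_conjBy_le hm
    exact Subgroup.le_normalizer.trans (key _ _ _ _ hS h1)
  have hall : ∀ (t : ℕ), t.Prime → ∀ P : Subgroup G, SylPerm t A P →
      P ≤ normalizer (S : Set G) := by
    intro t ht P hP
    have _ : Fact t.Prime := ⟨ht⟩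
    by_cases htA : t ∣ Nat.card A
    · by_contra hle
      obtain ⟨y, hyP, hyS⟩ := SetLike.not_le_iff_exists.1 hle
      obtain ⟨k, hk⟩ := hP.isPGroup ⟨y, hyP⟩
      have hk' : y ^ t ^ k = 1 := congrArg Subtype.val hk
      have hex : ∃ i, y ^ t ^ i ∈ normalizer (S : Set G) := ⟨k, by rw [hk']; exact one_mem _⟩
      classical
      have hne : Nat.find hex ≠ 0 := by
        intro h0
        have := Nat.find_spec hex
        rw [h0, pow_zero, pow_one] at this
        exact hyS this
      obtain ⟨i, hi⟩ := Nat.exists_eq_succ_of_ne_zero hne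
      have hl : Loc A S s t (y ^ t ^ i) := by
        refine ⟨hS, ht, ?_, ?_, ?_, Nat.find_min hex (by omega), ?_⟩
        · rintro rfl
          exact hS.ndvd htA
        · refine ⟨k, ?_⟩
          rw [← pow_mul, mul_comm, pow_mul, hk', one_pow]
        · apply hm.mc.her.permutes_of_isPGroup hP.isPGroup hP.permutes
          rw [zpowers_le]
          exact pow_mem hyP _
        · have := Nat.find_spec hex
          rw [hi, Nat.succ_eq_add_one, pow_succ, pow_mul] at this
          exact this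
      by_cases htp : t = p
      · subst htp
        exact absurd (hl.rank_eq hm hΩ) (by omega)
      · exact absurd (hl.rank_ne hm hp htp hΩ) (by omega)
    · rcases hm.sylPerm_cases ht htA hP with h1 | h1
      · exact h1.trans hNA
      · exact Subgroup.le_normalizer.trans (key _ _ _ _ hS h1)
  apply (hS.isCoatom hm).1
  rw [← Subgroup.index_eq_one]
  by_contra hne
  obtain ⟨t, ht, hd⟩ := Nat.exists_prime_and_dvd hne
  have _ : Fact t.Prime := ⟨ht⟩
  obtain ⟨P, hP⟩ := hm.mc.her.exists_sylPerm t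
  exact hP.not_dvd (hd.trans (Subgroup.index_dvd_of_le (hall t ht P hP)))

end rank

end MP_5771ce_al
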