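import Pool.Agent.Lib.MP_5771ce_al.S3.TypeT
import Pool.Agent.Lib.MP_5771ce_al.S3.Rank

/-!
# Section 3 (MP_5771ce_al): rank (3.6), final form
-/

open Subgroup
open scoped Pointwise commutatorElement

universe u

namespace MP_5771ce_al

variable {G : Type u} [Group G]

theorem MCq.exists_actV [Finite G] {A : Subgroup G} {q : ℕ} (h : MCq A q) :
    ∃ r S, Iplus A q r ∧ ActV q r A S := by
  obtain ⟨r, g, S, hS⟩ := h.exists_Iplus
  have h1 := hS.conj g⁻¹
  rw [conjBy_inv_conjBy] at h1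
  exact ⟨r, _, ⟨g, S, hS⟩, h1⟩

/-- (3.6) -/
theorem MCq.rank [Finite G] {A : Subgroup G} {q : ℕ} (h : MCq A q) {p : ℕ} (hp : p.Prime)
    {B : Subgroup G} (hB : B ≤ A) (hexp : ∀ b ∈ B, b ^ p = 1) : Nat.card B ≤ p ^ 2 := by
  obtain ⟨r, S, -, hS⟩ := h.exists_actV
  exact Act.rank h hS.1 hp hB hexp

end MP_5771ce_al
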