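import Pool.Agent.Lib.MP_5771ce_al.S3.R2bCore
import Pool.Agent.Lib.MP_5771ce_al.S3.RankM

/-!
# Section 3 (MP_5771ce_al): (R2b) (3.8.3)
-/

open Subgroup
open scoped Pointwise commutatorElement

universe u

namespace MP_5771ce_al

/-- (3.8.3) -/
theorem MCq.R2b {G : Type u} [Group G] [Finite G] {A : Subgroup G} {q : ℕ} (h : MCq A q)
    {X : Subgroup G} (hX : IsPGroup q X) (hp : Permutes A X)
    (hV : opc q A ≤ X) : A ≤ normalizer (X : Set G) :=
  h.R2b_of_rank (fun _ hpp _ hB hexp => h.rank hpp hB hexp) hX hp hV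

end MP_5771ce_al
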