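import Pool.Agent.Lib.MP_5771ce_al.S3.MixCore
import Pool.Agent.Lib.MP_5771ce_al.S3.R2A
import Pool.Agent.Lib.MP_5771ce_al.S3.R2b

/-!
# (3.10) and (3.12), final form
-/

open Subgroup
open scoped Pointwise commutatorElement

universe u

namespace MP_5771ce_al

variable {G : Type u} [Group G] [Finite G] {A : Subgroup G} {q : ℕ}

theorem r2bProp : R2bProp G := fun _ _ h _ hX hp hV => h.R2b hX hp hV

theorem r2aProp : R2aProp G := fun _ _ h _ hr _ hR hp => h.R2a hr hR hp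

/-- (3.10 b) -/
theorem MCq.mix (h : MCq A q) {r : ℕ} (hr : Iplus A q r) {R : Subgroup G}
    (hR : IsSylowIn r R ⊤) (hAR : A ≤ normalizer (R : Set G)) (hc : ⁅R, opc q A⁆ = ⊥) :
    normalizer (opc q A : Set G) ≤ normalizer (R : Set G) :=
  h.mix_of r2bProp hr hR hAR hc

/-- (3.10 c) -/
theorem MCq.mix_unique (h : MCq A q) {r s : ℕ} (hr : Iplus A q r) (hs : Iplus A q s)
    {R S : Subgroup G} (hR : IsSylowIn r R ⊤) (hAR : A ≤ normalizer (R : Set G))
    (hc : ⁅R, opc q A⁆ = ⊥) (hS : IsSylowIn s S ⊤) (hAS : A ≤ normalizer (S : Set G))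
    (hcS : ⁅S, opc q A⁆ = ⊥) : normalizer (R : Set G) = normalizer (S : Set G) :=
  h.mix_unique_of r2bProp hr hs hR hAR hc hS hAS hcS

/-- (3.12) -/
theorem MCq.typeT_mixed (h : MCq A q) {E : Subgroup G} (hE : InP A E) (hT : TypeT A q E)
    {r : ℕ} (hr : Iplus A q r) (hd : r ∣ Nat.card E) :
    ∃ R : Subgroup G, IsSylowIn r R ⊤ ∧ E ≤ normalizer (R : Set G) ∧
      ∀ g, MP_5771ce_al.conjBy A g ≤ E → ⁅R, opc q (MP_5771ce_al.conjBy A g)⁆ = ⊥ :=
  h.typeT_mixed_of r2bProp r2aProp hE hT hr hd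

end MP_5771ce_al
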