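import Pool.Agent.Lib.MP_5771ce_al.S3.MRDef
import Pool.Agent.Lib.MP_5771ce_al.S3.Mix

/-!
# Section 3 (3.14 d), case BETA
-/

open Subgroup
open scoped Pointwise commutatorElement

universe u

namespace MP_5771ce_al

variable {G : Type u} [Group G]

private theorem beta_commute_of_bot {X Y : Subgroup G} (h : ⁅X, Y⁆ = ⊥) {x y : G} (hx : x ∈ X)
    (hy : y ∈ Y) : x * y = y * x := by
  have h1 : ⁅x, y⁆ ∈ ⁅X, Y⁆ := commutator_mem_commutator hx hy
  rw [h, Subgroup.mem_bot, commutatorElement_eq_one_iff_mul_comm] at h1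
  exact h1

private theorem beta_bot_of_commute {X Y : Subgroup G} (h : ∀ x ∈ X, ∀ y ∈ Y, x * y = y * x) :
    ⁅X, Y⁆ = ⊥ := by
  rw [eq_bot_iff, commutator_le]
  intro x hx y hy
  rw [Subgroup.mem_bot, commutatorElement_eq_one_iff_mul_comm]
  exact h x hx y hy

variable [Finite G] {A : Subgroup G} {q : ℕ}

/-- If `S` is active for some conjugate of `A`, a conjugate `A'` normalises `S` and `O_q(A')`
centralises a nontrivial element of `S`, then it centralises `S`. -/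
theorem MCq.centralizes_of_one (h : MCq A q) {s : ℕ} {S : Subgroup G} {g₂ g : G}
    (hact : Act s (MP_5771ce_al.conjBy A g₂) S)
    (hg : MP_5771ce_al.conjBy A g ≤ normalizer (S : Set G)) {x : G} (hx : x ∈ S) (hx1 : x ≠ 1)
    {K : Subgroup G} (hK : K ≤ MP_5771ce_al.conjBy A g) (hc : ∀ v ∈ K, v * x = x * v) :
    ⁅S, K⁆ = ⊥ := by
  apply beta_bot_of_commute
  intro y hy v hv
  have hcj : MP_5771ce_al.conjBy (MP_5771ce_al.conjBy A g₂) (g₂⁻¹ * g) =
      MP_5771ce_al.conjBy A g := by rw [← conjBy_mul, mul_inv_cancel_left]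
  have hf := hact.fpf (h.conjBy g₂) (g := g₂⁻¹ * g) (a := v) (by rw [hcj]; exact hg)
    (by rw [hcj]; exact hK hv)
  rcases hf with hf | hf
  · exact (hf y hy).symm
  · exact absurd (hf x hx (hc v hv)) hx1

/-- (3.14 d) case BETA -/
theorem MRdata.beta (h : MCq A q) {M D H : Subgroup G} (hM : MRdata A q M D H) {s : ℕ}
    (hs : Iplus A q s) (hd : s ∣ Nat.card (centralizer (Wsub A q H : Set G))) :
    ∃ S : Subgroup G, IsSylowIn s S ⊤ ∧ H ≤ normalizer (S : Set G) ∧ normalizer (S : Set G) ≠ M ∧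
      ∀ g, MP_5771ce_al.conjBy A g ≤ H → ⁅S, opc q (MP_5771ce_al.conjBy A g)⁆ = ⊥ := by
  have hsp : s.Prime := hs.prime
  have : Fact s.Prime := ⟨hsp⟩
  have : Fact q.Prime := ⟨h.prime⟩
  set W := Wsub A q H with hW
  set E₁ : Subgroup G := normalizer (W : Set G) with hE₁
  obtain ⟨hHt, a, ha⟩ := hM.H_in
  have h₁ : MCq (MP_5771ce_al.conjBy A a) q := h.conjBy a
  have hHE : H ≤ E₁ := (Wsub_normalIn A q H).le_normalizer
  -- a Sylow subgroup of `E₁` permuting with `A₁`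
  obtain ⟨T, hT, hTp⟩ := h₁.mc.her.exists_isSylowIn_permutes (ha.trans hHE) s
  set C : Subgroup G := centralizer (W : Set G) with hC
  have hCE : C ≤ E₁ := Subgroup.centralizer_le_normalizer (W : Set G)
  have hCn : NormalIn C E₁ := by
    refine ⟨hCE, fun e he c hc => ?_⟩
    exact conj_mem_centralizer he hc
  have hS₁ : IsSylowIn s (T ⊓ C) C := hT.inf_normal hCn
  set S₁ := T ⊓ C with hS₁def
  have hS₁ne : S₁ ≠ ⊥ := by
    intro h0
    apply hS₁.not_dvd
    rw [h0, relIndex_bot_left]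
    exact hd
  have hS₁p : Permutes (MP_5771ce_al.conjBy A a) S₁ :=
    h₁.mc.her.permutes_of_isPGroup hT.isPGroup hTp inf_le_left
  have hAS₁ := h₁.R2a ((Iplus.conjBy_iff a).2 hs) hS₁.isPGroup hS₁p
  obtain ⟨S, hS, hS₁S⟩ := exists_isSylowIn_ge (E := ⊤) hS₁.isPGroup le_top
  obtain ⟨g₂, hact, hactV⟩ := hs.exists_actV h hS
  have hNle : normalizer (S₁ : Set G) ≤ normalizer (S : Set G) :=
    hact.normalizer_le (h.conjBy g₂) hS₁S hS₁ne
  obtain ⟨x, hxS₁, hx1⟩ : ∃ x ∈ S₁, x ≠ 1 := by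
    by_contra hcon
    push Not at hcon
    exact hS₁ne ((Subgroup.eq_bot_iff_forall S₁).2 hcon)
  have hWc : ∀ g, MP_5771ce_al.conjBy A g ≤ H → ∀ v ∈ opc q (MP_5771ce_al.conjBy A g),
      v * (x : G) = x * v := by
    intro g hg v hv
    have hvW : v ∈ W := le_Wsub hg hv
    have hxC : (x : G) ∈ C := (show S₁ ≤ C from inf_le_right) hxS₁
    exact (Subgroup.mem_centralizer_iff.1 hxC v hvW)
  have hA₁S : MP_5771ce_al.conjBy A a ≤ normalizer (S : Set G) := hAS₁.trans hNle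
  have hcS : ⁅S, opc q (MP_5771ce_al.conjBy A a)⁆ = ⊥ :=
    h.centralizes_of_one hact hA₁S (hS₁S hxS₁) hx1 (opc_le _ _) (hWc a ha)
  have hmix := h₁.mix ((Iplus.conjBy_iff a).2 hs) hS hA₁S hcS
  -- `C ≤ N_G(S)`
  have hCS : C ≤ normalizer (S : Set G) := by
    refine le_trans ?_ hmix
    refine le_trans ?_ (Subgroup.centralizer_le_normalizer _)
    exact Subgroup.centralizer_le (le_Wsub ha)
  have hES : E₁ ≤ normalizer (S : Set G) := by
    intro e he
    obtain ⟨n, hn, y, hy, rfl⟩ := hS₁.frattini hCn he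
    exact mul_mem (hCS hn) (hNle hy.2)
  have hall : ∀ g, MP_5771ce_al.conjBy A g ≤ H → ⁅S, opc q (MP_5771ce_al.conjBy A g)⁆ = ⊥ :=
    fun g hg => h.centralizes_of_one hact (hg.trans (hHE.trans hES)) (hS₁S hxS₁) hx1
      (opc_le _ _) (hWc g hg)
  refine ⟨S, hS, hHE.trans hES, fun hSM => ?_, hall⟩
  -- `N_G(S) ≠ M`
  obtain ⟨m, hm, hmH⟩ := hM.conj g₂ (by rw [← hSM]; exact hact.norm)
  have h3 := hall _ hmH
  apply hactV
  rw [conjBy_mul, opc_conjBy', ← conjBy_eq_of_mem_normalizer (N := S) (x := m)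
    (by rw [hSM]; exact hm), commutator_conjBy] at h3
  by_contra hne
  exact conjBy_ne_bot hne m h3

end MP_5771ce_al
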