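import Pool.Agent.Lib.MP_5771ce_al.Iso
import Pool.Agent.Lib.MP_5771ce_al.LibSylow
import Pool.Agent.Lib.MP_5771ce_al.LibAxB

/-!
# Section 3 of the chain `GROUP` (MP_5771ce_al): definitions, `A` abelian

`MCq A q`: `(G, A)` is a minimal counterexample, `A` is abelian and `q` is the largest prime divisor
of `|A|`. `V = opc q A` is the Sylow `q`-subgroup of `A`, `Y = opp q A` its complement.
-/

open Subgroup
open scoped Pointwise commutatorElement

universe u

namespace MP_5771ce_al

variable {G : Type u} [Group G]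

/-- Standing hypotheses of section 3. -/
structure MCq (A : Subgroup G) (q : ℕ) : Prop where
  mc : MC A
  comm : ∀ a ∈ A, ∀ b ∈ A, a * b = b * a
  prime : q.Prime
  dvd : q ∣ Nat.card A
  max : ∀ p : ℕ, p.Prime → p ∣ Nat.card A → p ≤ q

/-- `S` is an active Sylow `s`-subgroup for `A`: `s` does not divide `|A|`, `S` is a Sylow
`s`-subgroup of `G` normalised and not centralised by `A`. -/
structure Act (s : ℕ) (A S : Subgroup G) : Prop where
  prime : s.Prime
  ndvd : ¬ s ∣ Nat.card A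
  syl : IsSylowIn s S ⊤
  norm : A ≤ normalizer (S : Set G)
  ne : ⁅S, A⁆ ≠ ⊥

/-- `S` is active for `A` and not centralised by `V = O_q(A)`. -/
def ActV (q s : ℕ) (A S : Subgroup G) : Prop := Act s A S ∧ ⁅S, opc q A⁆ ≠ ⊥

/-- The primes `r` of `I⁺`. -/
def Iplus (A : Subgroup G) (q r : ℕ) : Prop := ∃ (g : G) (S : Subgroup G), ActV q r (conjBy A g) S

/-- `E` is a proper subgroup containing a conjugate of `A`. -/
def InP (A E : Subgroup G) : Prop := E ≠ ⊤ ∧ ∃ g, conjBy A g ≤ E

/-- `E` is of type T: for all primes `r` not dividing `|A|` and all conjugates `A' ≤ E` of `A`,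
`O_q(A')` centralises `O_r(E)`. -/
def TypeT (A : Subgroup G) (q : ℕ) (E : Subgroup G) : Prop :=
  ∀ r : ℕ, r.Prime → ¬ r ∣ Nat.card A → ∀ g, conjBy A g ≤ E → ⁅opc r E, opc q (conjBy A g)⁆ = ⊥

/-- The subgroup `W_E` generated by the `O_q(A')`, `A' ≤ E` conjugate to `A`. -/
def Wsub (A : Subgroup G) (q : ℕ) (E : Subgroup G) : Subgroup G :=
  ⨆ g : {g : G // conjBy A g ≤ E}, opc q (conjBy A g.1)

/-- Case T1: `Y = O_{q'}(A)` centralises all `q`-subgroups containing `V` and permuting with `A`. -/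
def CaseT1 (A : Subgroup G) (q : ℕ) : Prop :=
  ∀ X : Subgroup G, IsPGroup q X → Permutes A X → opc q A ≤ X → ⁅X, opp q A⁆ = ⊥

end MP_5771ce_al
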