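import Pool.Agent.Lib.MP_5771ce_al.S3.Basic3
import Pool.Agent.Lib.MP_5771ce_al.S3.PA2
import Pool.Agent.Lib.MP_5771ce_al.LibAxB
import Pool.Agent.Lib.MP_5771ce_al.LibCoprime

/-!
# Section 3.8.2 of `MP_5771ce_al`: (F2)
-/

open Subgroup
open scoped Pointwise commutatorElement

universe u

namespace MP_5771ce_al

variable {G : Type u} [Group G]

/-- An element of order prime to `s` acting on an `s`-group, leaving all cyclic subgroups
invariant, acts trivially or without fixed points. -/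
theorem centralizes_or_fpf [Finite G] {R : Subgroup G} {s : ℕ} [Fact s.Prime]
    (hR : IsPGroup s R) {a : G} (ha : ¬ s ∣ orderOf a)
    (hinv : ∀ x ∈ R, a * x * a⁻¹ ∈ zpowers x) :
    (∀ x ∈ R, a * x = x * a) ∨ ∀ x ∈ R, a * x = x * a → x = 1 := by
  have hs : s.Prime := Fact.out
  have hinv1 : ∀ Y ≤ R, ∀ n : ℕ, ∀ y ∈ Y, a ^ n * y * (a ^ n)⁻¹ ∈ Y := by
    intro Y hY n
    induction n with
    | zero => intro y hy; simpa using hy
    | succ n ih =>
      intro y hy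
      have h1 : a ^ (n + 1) * y * (a ^ (n + 1))⁻¹ = a * (a ^ n * y * (a ^ n)⁻¹) * a⁻¹ := by
        rw [pow_succ']; group
      rw [h1]
      have h2 := ih y hy
      exact (zpowers_le.2 h2) (hinv _ (hY h2))
  have hinv2 : ∀ Y ≤ R, ∀ b ∈ zpowers a, ∀ y ∈ Y, b * y * b⁻¹ ∈ Y := by
    intro Y hY b hb y hy
    obtain ⟨n, rfl⟩ := (mem_powers_iff_mem_zpowers.2 hb)
    exact hinv1 Y hY n y hy
  obtain ⟨k₀, hk₀⟩ := exists_uniform_mod hR hinv2 (mem_zpowers a)
  by_contra hcon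
  push Not at hcon
  obtain ⟨⟨y, hy, hya⟩, x, hx, hxa, hx1⟩ := hcon
  apply hya
  obtain ⟨k', hk', e'⟩ := hk₀ x hx
  have h1 : x ^ k' = x ^ 1 := by
    rw [← e', hxa, mul_inv_cancel_right, pow_one]
  have h2 : s ∣ orderOf x := by
    obtain ⟨n, hn⟩ := IsPGroup.iff_orderOf.1 hR ⟨x, hx⟩
    rw [orderOf_mk] at hn
    rw [hn]
    apply dvd_pow_self
    rintro rfl
    rw [pow_zero, orderOf_eq_one_iff] at hn
    exact hx1 hn
  rw [pow_eq_pow_iff_modEq] at h1
  obtain ⟨k, hk, e⟩ := hk₀ y hy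
  have h3 : k ≡ 1 [MOD s] := hk.trans (hk'.symm.trans (h1.of_dvd h2))
  obtain ⟨N, hN⟩ := IsPGroup.iff_card.1 hR
  obtain ⟨i, hi⟩ := exists_pow_mul_eq_self hs ha N
  have h4 := conj_pow_eq_of_pow e (i * s ^ N)
  rw [hi] at h4
  have h2 : (s : ℤ) ∣ (k : ℤ) - 1 := (Int.natCast_modEq_iff.2 h3).symm.dvd
  have h3 : ((s : ℤ) ^ (N + 1)) ∣ (k : ℤ) ^ s ^ N - 1 ^ s ^ N :=
    dvd_sub_pow_of_dvd_sub h2 N
  have h5 : (k : ℤ) ^ s ^ N ≡ 1 ^ s ^ N [ZMOD ((s : ℤ) ^ (N + 1))] :=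
    (Int.modEq_iff_dvd.2 h3).symm
  have h5 : (k ^ s ^ N) ^ i ≡ (1 ^ s ^ N) ^ i [MOD s ^ (N + 1)] := by
    apply Nat.ModEq.pow
    exact Int.natCast_modEq_iff.1 (by exact_mod_cast h5)
  have h6 : orderOf y ∣ s ^ (N + 1) := by
    apply orderOf_dvd_of_pow_eq_one
    rw [pow_succ, pow_mul, ← hN]
    have h7 : (⟨y, hy⟩ : R) ^ Nat.card R = 1 := pow_card_eq_one'
    have h8 : y ^ Nat.card R = 1 := congrArg Subtype.val h7
    rw [h8, one_pow]
  have h7 : a * y * a⁻¹ = y := by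
    rw [h4]
    conv_rhs => rw [← pow_one y]
    rw [pow_eq_pow_iff_modEq, mul_comm i, pow_mul]
    have h8 := h5.of_dvd h6
    rwa [one_pow, one_pow] at h8
  calc a * y = a * y * a⁻¹ * a := by group
    _ = y * a := by rw [h7]

/-- The same modulo a normal subgroup `V`. -/
theorem centralizes_or_fpf_mod [Finite G] {N V : Subgroup G} {s : ℕ} [Fact s.Prime]
    (hN : IsPGroup s N) (hVN : V ≤ N) (hnV : N ≤ normalizer (V : Set G)) {a : G}
    (haV : a ∈ normalizer (V : Set G)) (ha : ¬ s ∣ orderOf a)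
    (hinv : ∀ Y ≤ N, V ≤ Y → ∀ y ∈ Y, a * y * a⁻¹ ∈ Y) :
    (∀ x ∈ N, ⁅a, x⁆ ∈ V) ∨ ∀ x ∈ N, ⁅a, x⁆ ∈ V → x ∈ V := by
  set E : Subgroup G := normalizer (V : Set G) with hE
  let V' : Subgroup E := V.subgroupOf E
  have hV' : V'.Normal := normal_in_normalizer
  let π : E →* E ⧸ V' := QuotientGroup.mk' V'
  have hfin : Finite (E ⧸ V') := inferInstance
  have hπ : ∀ x y : E, π x = π y ↔ (x : G)⁻¹ * (y : G) ∈ V := by
    intro x y
    rw [QuotientGroup.mk'_apply, QuotientGroup.mk'_apply, QuotientGroup.eq, mem_subgroupOf]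
    rfl
  let R : Subgroup (E ⧸ V') := (N.subgroupOf E).map π
  have hR : IsPGroup s R := (hN.comap_of_injective E.subtype E.subtype_injective).map π
  have hR' : ∀ x : G, (hx : x ∈ N) → π ⟨x, hnV hx⟩ ∈ R := fun x hx =>
    mem_map_of_mem π (mem_subgroupOf.2 hx)
  have hord : ¬ s ∣ orderOf (π ⟨a, haV⟩) := by
    intro h
    apply ha
    have h1 : orderOf (π ⟨a, haV⟩) ∣ orderOf (⟨a, haV⟩ : E) := orderOf_map_dvd π _
    rw [orderOf_mk] at h1
    exact h.trans h1
  have key : ∀ x : G, (hx : x ∈ E) →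
      (π ⟨a, haV⟩ * π ⟨x, hx⟩ = π ⟨x, hx⟩ * π ⟨a, haV⟩ ↔ ⁅a, x⁆ ∈ V) := by
    intro x hx
    rw [← map_mul, ← map_mul, hπ]
    have h1 : (((⟨a, haV⟩ * ⟨x, hx⟩ : E) : G))⁻¹ * ((⟨x, hx⟩ * ⟨a, haV⟩ : E) : G)
        = (a * x)⁻¹ * (x * a) := rfl
    rw [h1]
    have h2 : ⁅a, x⁆ = (x * a) * ((a * x)⁻¹ * (x * a))⁻¹ * (x * a)⁻¹ := by
      rw [commutatorElement_def]; group
    have hxa : x * a ∈ E := mul_mem hx haV
    rw [h2]
    constructor
    · intro h
      exact (mem_normalizer_iff.1 hxa _).1 (inv_mem h)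
    · intro h
      exact inv_mem_iff.1 ((mem_normalizer_iff.1 hxa _).2 h)
  have hinv' : ∀ x ∈ R, π ⟨a, haV⟩ * x * (π ⟨a, haV⟩)⁻¹ ∈ zpowers x := by
    rintro _ ⟨⟨x, hxE⟩, hx, rfl⟩
    rw [SetLike.mem_coe, mem_subgroupOf] at hx
    have hx : x ∈ N := hx
    have hYN : V ⊔ zpowers x ≤ N := sup_le hVN (zpowers_le.2 hx)
    have h1 := hinv (V ⊔ zpowers x) hYN le_sup_left x (mem_sup_right (mem_zpowers x))
    rw [mem_sup_of_le_normalizer (zpowers_le.2 hxE)] at h1
    obtain ⟨_, ⟨m, rfl⟩, n, hn, e⟩ := h1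
    refine ⟨m, ?_⟩
    simp only at e ⊢
    rw [← map_zpow, ← map_inv, ← map_mul, ← map_mul, hπ]
    have h2 : (((⟨x, hxE⟩ : E) ^ m : E) : G)⁻¹ *
        ((⟨a, haV⟩ * ⟨x, hxE⟩ * (⟨a, haV⟩)⁻¹ : E) : G) = (x ^ m)⁻¹ * (a * x * a⁻¹) := rfl
    rw [h2, ← e]
    simpa using hn
  rcases centralizes_or_fpf hR hord hinv' with h | h
  · left
    intro x hx
    exact (key x (hnV hx)).1 (h _ (hR' x hx))
  · right
    intro x hx hxa
    have h1 := h _ (hR' x hx) ((key x (hnV hx)).2 hxa)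
    rw [← map_one π, hπ] at h1
    have h2 : (((⟨x, hnV hx⟩ : E) : G))⁻¹ * ((1 : E) : G) = x⁻¹ := by simp
    rw [h2] at h1
    exact inv_mem_iff.1 h1

section small
variable [Finite G] {A : Subgroup G} {q : ℕ}

theorem MCq.inf_le_opc (h : MCq A q) {X : Subgroup G} (hX : IsPGroup q X) :
    A ⊓ X ≤ opc q A := by
  intro x hx
  rw [mem_opc_of_abelian h.comm]
  obtain ⟨k, hk⟩ := hX ⟨x, hx.2⟩
  exact ⟨hx.1, k, congrArg Subtype.val hk⟩

/-- All subgroups between `V` and `X` are `A`-invariant. -/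
theorem MCq.invariant (h : MCq A q) {X : Subgroup G} (hX : IsPGroup q X)
    (hAX : A ≤ normalizer (X : Set G)) {Y : Subgroup G} (hYX : Y ≤ X)
    (hVY : opc q A ≤ Y) : ∀ a ∈ A, ∀ y ∈ Y, a * y * a⁻¹ ∈ Y := by
  have _ : Fact q.Prime := ⟨h.prime⟩
  have hAN : ∀ a ∈ A, ∀ n ∈ X, a * n * a⁻¹ ∈ X := fun a ha n hn =>
    (mem_normalizer_iff.1 (hAX ha) n).1 hn
  have hp : Permutes A Y :=
    h.mc.her.permutes_of_isPGroup hX (permutes_of_conj_mem hAN) hYX
  exact conj_mem_of_permutes hp hYX ((h.inf_le_opc hX).trans hVY) hAN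

theorem MCq.not_dvd_orderOf (h : MCq A q) {p : ℕ} (hp : p.Prime) (hpq : p ≠ q)
    {a : G} (ha : a ∈ opc p A) : ¬ q ∣ orderOf a := by
  intro hd
  obtain ⟨-, k, hk⟩ := (mem_opc_of_abelian h.comm).1 ha
  have h1 := hd.trans (orderOf_dvd_of_pow_eq_one hk)
  exact hpq ((Nat.prime_dvd_prime_iff_eq h.prime hp).1 (h.prime.dvd_of_dvd_pow h1)).symm

/-- If `a ∈ A_p` fixes a nontrivial coset `xV`, `x ∈ N_X(V)`, then `a` centralises `X`. -/
theorem MCq.centralizes_of_mod (h : MCq A q) {X : Subgroup G} (hX : IsPGroup q X)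
    (hAX : A ≤ normalizer (X : Set G)) (hV : opc q A ≤ X) {p : ℕ} (hp : p.Prime) (hpq : p ≠ q)
    {a : G} (ha : a ∈ opc p A) {x : G} (hx : x ∈ X) (hxn : x ∈ normalizer (opc q A : Set G))
    (hxV : x ∉ opc q A) (hax : ⁅a, x⁆ ∈ opc q A) : ∀ y ∈ X, a * y = y * a := by
  have _ : Fact q.Prime := ⟨h.prime⟩
  have _ : Fact p.Prime := ⟨hp⟩
  set V := opc q A with hVdef
  have haA : a ∈ A := opc_le p A ha
  have hVA : V ≤ A := opc_le q A
  have hVn : V ≤ normalizer (V : Set G) := le_normalizer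
  set N : Subgroup G := X ⊓ normalizer (V : Set G) with hN
  have haV : A ≤ normalizer (V : Set G) := by
    intro b hb
    rw [mem_normalizer_iff]
    intro v
    constructor
    · intro hv
      rw [h.comm b hb v (hVA hv), mul_inv_cancel_right]
      exact hv
    · intro hv
      have h1 := h.comm b hb _ (hVA hv)
      have h2 : b * (b * v * b⁻¹) = b * v := by rw [h1]; group
      have h3 : b * v * b⁻¹ = v := mul_left_cancel h2
      rwa [h3] at hv
  have hNp : IsPGroup q N := hX.to_le inf_le_left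
  rcases centralizes_or_fpf_mod hNp (le_inf hV hVn) inf_le_right (haV haA)
      (h.not_dvd_orderOf hp hpq ha) (fun Y hY hVY y hy =>
        h.invariant hX hAX (hY.trans inf_le_left) hVY a haA y hy) with h1 | h1
  · -- `[N, a] ≤ V`, `[V, a] = 1`
    have hZ : IsPGroup p (zpowers a) := by
      obtain ⟨-, k, hk⟩ := (mem_opc_of_abelian h.comm).1 ha
      rintro ⟨_, m, rfl⟩
      refine ⟨k, Subtype.ext ?_⟩
      change (a ^ m) ^ p ^ k = 1
      rw [← zpow_natCast, ← zpow_mul, mul_comm, zpow_mul, zpow_natCast, hk, one_zpow]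
    have hpd : ∀ W : Subgroup G, IsPGroup q W → ¬ p ∣ Nat.card W := by
      intro W hW hd
      obtain ⟨n, hn⟩ := IsPGroup.iff_card.1 hW
      rw [hn] at hd
      exact hpq ((Nat.prime_dvd_prime_iff_eq hp h.prime).1 (hp.dvd_of_dvd_pow hd))
    have hZN : zpowers a ≤ normalizer (N : Set G) := by
      rw [zpowers_le]
      have hinvN := h.invariant hX hAX (Y := N) inf_le_left (le_inf hV hVn)
      exact (le_normalizer_of_conj_mem hinvN) haA
    have h2 : ⁅N, zpowers a⁆ ≤ V := by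
      rw [commutator_le]
      rintro y hy _ ⟨m, rfl⟩
      -- `a` centralises `y` modulo `V`
      have hyE : y ∈ normalizer (V : Set G) := hy.2
      have h3 : ∀ m : ℕ, ⁅y, a ^ m⁆ ∈ V := by
        intro m
        induction m with
        | zero => simp
        | succ m ih =>
          have h4 : ⁅y, a ^ (m + 1)⁆ = ⁅y, a⁆ * (a * ⁅y, a ^ m⁆ * a⁻¹) := by
            rw [pow_succ', commutatorElement_def, commutatorElement_def,
              commutatorElement_def]
            group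
          rw [h4]
          refine mul_mem ?_ ((mem_normalizer_iff.1 (haV haA) _).1 ih)
          rw [← commutatorElement_inv]
          exact inv_mem (h1 y hy)
      have h5 : a ^ m ∈ zpowers a := ⟨m, rfl⟩
      rw [← mem_powers_iff_mem_zpowers] at h5
      obtain ⟨j, hj⟩ := h5
      simp only at hj ⊢
      rw [← hj]
      exact h3 j
    have h3 : ⁅V, zpowers a⁆ = ⊥ := by
      rw [commutator_eq_bot_iff_le_centralizer]
      intro v hv
      rw [mem_centralizer_iff]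
      rintro _ ⟨m, rfl⟩
      exact h.comm _ (zpow_mem haA m) v (hVA hv)
    have h4 : ⁅N, zpowers a⁆ = ⊥ := commutator_eq_bot_of_series hZ hZN (hpd N hNp) h2 h3
    have h5 : ⁅X, zpowers a⁆ = ⊥ := by
      refine axb (p := q) (q := p) (Ne.symm hpq) hX (hX.to_le hV) hZ (hV.trans le_normalizer)
        (zpowers_le.2 (hAX haA)) h3 ?_
      rw [eq_bot_iff, ← h4]
      refine commutator_mono (le_inf inf_le_left ?_) le_rfl
      exact inf_le_right.trans (centralizer_le_normalizer (V : Set G))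
    intro y hy
    rw [commutator_eq_bot_iff_le_centralizer] at h5
    exact (mem_centralizer_iff.1 (h5 hy)) a (mem_zpowers a)
  · exact absurd (h1 x ⟨hx, hxn⟩ hax) hxV

/-- (F2) -/
theorem MCq.F2 (h : MCq A q) {X : Subgroup G} (hX : IsPGroup q X)
    (hAX : A ≤ normalizer (X : Set G)) (hV : opc q A ≤ X) {p : ℕ} (hp : p.Prime) (hpq : p ≠ q)
    {a : G} (ha : a ∈ opc p A) :
    (∀ x ∈ X, a * x = x * a) ∨ ∀ x ∈ X, a * x = x * a → x ∈ opc q A := by
  have _ : Fact q.Prime := ⟨h.prime⟩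
  by_cases hex : ∃ x ∈ X, x ∈ normalizer (opc q A : Set G) ∧ x ∉ opc q A ∧ ⁅a, x⁆ ∈ opc q A
  · obtain ⟨x, hx, hxn, hxV, hax⟩ := hex
    exact Or.inl (h.centralizes_of_mod hX hAX hV hp hpq ha hx hxn hxV hax)
  right
  push Not at hex
  -- `C = C_X(a) ≥ V`
  set C : Subgroup G := X ⊓ centralizer {a} with hC
  have hVC : opc q A ≤ C := by
    refine le_inf hV fun v hv => ?_
    rw [mem_centralizer_singleton_iff]
    exact h.comm v (opc_le q A hv) a (opc_le p A ha)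
  intro x hx hxa
  have hxC : x ∈ C := mem_inf.2 ⟨hx, by rw [mem_centralizer_singleton_iff]; exact hxa.symm⟩
  by_contra hxV
  have hlt : opc q A < C := lt_of_le_of_ne hVC fun he => hxV (he ▸ hxC)
  obtain ⟨-, y, hy, hyV⟩ := SetLike.lt_iff_le_and_exists.1
    (lt_inf_normalizer_of_lt (hX.to_le inf_le_left) hlt)
  apply hex y hy.1.1 hy.2 hyV
  have h1 : y * a = a * y := (mem_centralizer_singleton_iff.1 hy.1.2)
  have h2 : ⁅a, y⁆ = 1 := by rw [commutatorElement_eq_one_iff_mul_comm, h1]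
  rw [h2]
  exact one_mem _

/-- (F2), `q = 3`: `|A_2 : C_{A_2}(X)| ≤ 2` -/
theorem MCq.F2_index (h : MCq A 3) {X : Subgroup G} (hX : IsPGroup 3 X)
    (hAX : A ≤ normalizer (X : Set G)) (hV : opc 3 A ≤ X) :
    (opc 2 A ⊓ centralizer (X : Set G)).relIndex (opc 2 A) ≤ 2 := by
  have _ : Fact (Nat.Prime 3) := ⟨Nat.prime_three⟩
  have h2 : Nat.Prime 2 := Nat.prime_two
  by_cases hc : opc 2 A ≤ centralizer (X : Set G)
  · rw [inf_eq_left.2 hc, relIndex_self]
    norm_num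
  obtain ⟨a, ha, hac⟩ := SetLike.not_le_iff_exists.1 hc
  set V := opc 3 A with hVdef
  have hVA : V ≤ A := opc_le 3 A
  have haV : A ≤ normalizer (V : Set G) := by
    intro b hb
    rw [mem_normalizer_iff]
    intro v
    constructor
    · intro hv
      rw [h.comm b hb v (hVA hv), mul_inv_cancel_right]
      exact hv
    · intro hv
      have h1 := h.comm b hb _ (hVA hv)
      have h2 : b * (b * v * b⁻¹) = b * v := by rw [h1]; group
      have h3 : b * v * b⁻¹ = v := mul_left_cancel h2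
      rwa [h3] at hv
  -- `V < X`
  have hVX : V < X := by
    refine lt_of_le_of_ne hV fun he => hac ?_
    rw [mem_centralizer_iff]
    intro x hx
    rw [SetLike.mem_coe, ← he] at hx
    exact h.comm x (hVA hx) a (opc_le 2 A ha)
  obtain ⟨-, x₀, hx₀, hx₀V⟩ := SetLike.lt_iff_le_and_exists.1 (lt_inf_normalizer_of_lt hX hVX)
  -- an element of order `3` modulo `V`
  obtain ⟨x, hx, hxV, hx3⟩ : ∃ x ∈ X ⊓ normalizer (V : Set G), x ∉ V ∧ x ^ 3 ∈ V := by
    have hex : ∃ n : ℕ, x₀ ^ 3 ^ n ∈ V := by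
      obtain ⟨k, hk⟩ := hX ⟨x₀, hx₀.1⟩
      refine ⟨k, ?_⟩
      have : x₀ ^ 3 ^ k = 1 := congrArg Subtype.val hk
      rw [this]
      exact one_mem _
    classical
    have h3 := Nat.find_spec hex
    have h4 : Nat.find hex ≠ 0 := by
      intro h0
      rw [h0, pow_zero, pow_one] at h3
      exact hx₀V h3
    obtain ⟨n, hn⟩ := Nat.exists_eq_succ_of_ne_zero h4
    refine ⟨x₀ ^ 3 ^ n, pow_mem hx₀ _, ?_, ?_⟩
    · exact Nat.find_min hex (by rw [hn]; exact Nat.lt_succ_self n)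
    · rw [← pow_mul, ← pow_succ]
      rw [hn] at h3
      exact h3
  -- key: if `b ∈ A_2` does not centralise `X` then `b x b⁻¹ ∈ x⁻¹ V`
  have key : ∀ b ∈ opc 2 A, b ∉ centralizer (X : Set G) → x * (b * x * b⁻¹) ∈ V := by
    intro b hb hbc
    have hbA : b ∈ A := opc_le 2 A hb
    have h1 := h.invariant hX hAX (Y := V ⊔ zpowers x) (sup_le hV (zpowers_le.2 hx.1))
      le_sup_left b hbA x (mem_sup_right (mem_zpowers x))
    rw [mem_sup_of_le_normalizer (zpowers_le.2 hx.2)] at h1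
    obtain ⟨_, ⟨m, rfl⟩, n, hn, e⟩ := h1
    simp only at e
    -- reduce `m` modulo `3`
    have hxm : ∀ j : ℤ, x ^ (3 * j) ∈ V := by
      intro j
      rw [zpow_mul]
      apply zpow_mem
      exact_mod_cast hx3
    have hm : m % 3 = 0 ∨ m % 3 = 1 ∨ m % 3 = 2 := by omega
    have hmd := Int.emod_add_mul_ediv m 3
    rcases hm with hm | hm | hm
    · exfalso
      apply hxV
      have h3 : b * x * b⁻¹ ∈ V := by
        rw [← e, ← hmd, hm, zero_add]
        exact mul_mem (hxm _) hn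
      exact (mem_normalizer_iff.1 (haV hbA) x).2 h3
    · exfalso
      apply hbc
      have h3 : ⁅b, x⁆ ∈ V := by
        rw [commutatorElement_def, ← e, ← hmd, hm, zpow_add, zpow_one]
        have h4 : x * x ^ (3 * (m / 3)) * n * x⁻¹ = x * (x ^ (3 * (m / 3)) * n) * x⁻¹ := by
          group
        rw [h4]
        exact (mem_normalizer_iff.1 hx.2 _).1 (mul_mem (hxm _) hn)
      rw [mem_centralizer_iff]
      intro y hy
      exact (h.centralizes_of_mod hX hAX hV h2 (by norm_num) hb hx.1 hx.2 hxV h3 y hy).symm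
    · rw [← e, ← hmd, hm, ← mul_assoc, ← zpow_one_add]
      have h4 : (1 + (2 + 3 * (m / 3)) : ℤ) = 3 * (1 + m / 3) := by ring
      rw [h4]
      exact mul_mem (hxm _) hn
  -- the product of two elements outside of the kernel is in the kernel
  have key2 : ∀ b ∈ opc 2 A, b ∉ centralizer (X : Set G) → b * a ∈ centralizer (X : Set G) := by
    intro b hb hbc
    have hbA : b ∈ A := opc_le 2 A hb
    have h3 : ⁅b * a, x⁆ ∈ V := by
      have h4 : ⁅b * a, x⁆ = (x * (b * x * b⁻¹))⁻¹ *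
          (x * (b * (x * (a * x * a⁻¹)) * b⁻¹) * x⁻¹) := by
        group
      rw [h4]
      refine mul_mem (inv_mem (key b hb hbc)) ((mem_normalizer_iff.1 hx.2 _).1 ?_)
      exact (mem_normalizer_iff.1 (haV hbA) _).1 (key a ha hac)
    rw [mem_centralizer_iff]
    intro y hy
    exact (h.centralizes_of_mod hX hAX hV h2 (by norm_num) (mul_mem hb ha) hx.1 hx.2 hxV h3
      y hy).symm
  refine le_of_eq ?_
  rw [relIndex, index_eq_two_iff]
  refine ⟨⟨a, ha⟩, fun b => ?_⟩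
  rw [mem_subgroupOf, mem_subgroupOf]
  by_cases hb : (b : G) ∈ centralizer (X : Set G)
  · refine Or.inr ⟨⟨b.2, hb⟩, fun h3 => hac ?_⟩
    have h4 : (b : G)⁻¹ * ((b : G) * a) ∈ centralizer (X : Set G) :=
      mul_mem (inv_mem hb) h3.2
    simpa using h4
  · exact Or.inl ⟨⟨mul_mem b.2 ha, key2 b b.2 hb⟩, fun h3 => hb h3.2⟩

end small

end MP_5771ce_al
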