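import Pool.Agent.Lib.MP_5771ce_al.S3.Basic3
import Pool.Agent.Lib.MP_5771ce_al.S3.Act
import Pool.Agent.Lib.MP_5771ce_al.S3.F2
import Pool.Agent.Lib.MP_5771ce_al.S3.R2b
import Pool.Agent.Lib.MP_5771ce_al.LemQ
import Pool.Agent.Lib.MP_5771ce_al.LibFit

/-!
# Section 3 of `MP_5771ce_al`: the dichotomy 3.9
-/

open Subgroup
open scoped Pointwise commutatorElement

universe u

namespace MP_5771ce_al

variable {G : Type u} [Group G]

theorem dich_opp_conjBy_le [Finite G] (q : ℕ) (A : Subgroup G) (g : G) :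
    opp q (MP_5771ce_al.conjBy A g) ≤ MP_5771ce_al.conjBy (opp q A) g := by
  refine sSup_le fun N hN => ?_
  have h1 : NormalIn (MP_5771ce_al.conjBy N g⁻¹) A := by
    have := hN.1.conjBy g⁻¹
    rwa [conjBy_inv_conjBy] at this
  have h2 : MP_5771ce_al.conjBy N g⁻¹ ≤ opp q A :=
    le_sSup ⟨h1, by rw [card_conjBy]; exact hN.2⟩
  have h3 := conjBy_mono h2 g
  rwa [← conjBy_mul, inv_mul_cancel, conjBy_one] at h3

theorem CaseT1.conjBy [Finite G] {A : Subgroup G} {q : ℕ} (h : CaseT1 A q) (g : G) :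
    CaseT1 (MP_5771ce_al.conjBy A g) q := by
  intro X hX hp hV
  have h1 : Permutes A (MP_5771ce_al.conjBy X g⁻¹) := by
    have := permutes_conj hp g⁻¹
    rwa [conjBy_inv_conjBy] at this
  have h2 : opc q A ≤ MP_5771ce_al.conjBy X g⁻¹ := by
    have := conjBy_mono hV g⁻¹
    rwa [opc_conjBy, conjBy_inv_conjBy] at this
  have h3 : IsPGroup q (MP_5771ce_al.conjBy X g⁻¹) := hX.map _
  have h4 := h _ h3 h1 h2
  have h5 : ⁅X, opp q (MP_5771ce_al.conjBy A g)⁆ ≤
      MP_5771ce_al.conjBy ⁅MP_5771ce_al.conjBy X g⁻¹, opp q A⁆ g := by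
    rw [← commutator_conjBy, ← conjBy_mul, inv_mul_cancel, conjBy_one]
    exact commutator_mono le_rfl (dich_opp_conjBy_le q A g)
  rw [h4] at h5
  rw [eq_bot_iff]
  refine h5.trans ?_
  intro x hx
  rw [mem_conjBy, mem_bot] at hx
  rw [mem_bot]
  have : x = g⁻¹ * (g * x * g⁻¹) * g := by group
  rw [this, hx]; group

theorem dich_norm_inf {A X N : Subgroup G} (hAX : A ≤ normalizer (X : Set G)) (hAN : A ≤ N) :
    A ≤ normalizer ((X ⊓ N : Subgroup G) : Set G) :=
  le_normalizer_of_conj_mem fun _ hb _ hx =>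
    mem_inf.2 ⟨mem_normalizer_conj (hAX hb) (mem_inf.1 hx).1,
      N.mul_mem (N.mul_mem (hAN hb) (mem_inf.1 hx).2) (N.inv_mem (hAN hb))⟩

section t2

variable [Finite G] {A : Subgroup G} {q : ℕ}

/-- `[X,⟨a⟩] ≤ O_q(E)` for a `q`-group `X ≤ E` normalised by `A`, `a` a `p`-element of `A` -/
theorem dich_comm_le (h : MCq A q) {p : ℕ} (hp : p.Prime) (hpq : p ≠ q) {a : G}
    (ha : a ∈ opc p A) {X : Subgroup G} (hX : IsPGroup q X) (hAX : A ≤ normalizer (X : Set G))
    {E : Subgroup G} (hAE : A ≤ E) (hE : E ≠ ⊤) (hXE : X ≤ E) :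
    ⁅X, zpowers a⁆ ≤ opc q E := by
  have := Fact.mk hp
  have := Fact.mk h.prime
  have haA : a ∈ A := opc_le p A ha
  have hza : zpowers a ≤ A := by rwa [zpowers_le]
  have hzn : zpowers a ≤ normalizer (X : Set G) := hza.trans hAX
  have hpa : IsPGroup p (zpowers a) := (opc_isPGroup p A).to_le (by rwa [zpowers_le])
  have hnd : ¬ p ∣ Nat.card X := not_dvd_card_of_isPGroup hp h.prime hpq.symm hX
  have hcc := commutator_commutator_eq hpa hzn hnd
  have hZX : ⁅X, zpowers a⁆ ≤ X := by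
    rw [commutator_le]
    intro x hx y hy
    rw [commutatorElement_def]
    have h1 := mem_normalizer_conj (hzn hy) (inv_mem hx)
    have h2 : x * y * x⁻¹ * y⁻¹ = x * (y * x⁻¹ * y⁻¹) := by group
    rw [h2]
    exact mul_mem hx h1
  have hAz : A ≤ normalizer (zpowers a : Set G) := by
    refine le_normalizer_of_conj_mem fun b hb x hx => ?_
    rw [h.comm b hb x (hza hx), mul_inv_cancel_right]
    exact hx
  have hAZ : A ≤ normalizer ((⁅X, zpowers a⁆ : Subgroup G) : Set G) :=
    le_normalizer_commutator hAX hAz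
  refine h.mc.lemmaP hAE hE (hZX.trans hXE) (hX.to_le hZX) (conj_mem_of_le_normalizer hAZ) ?_
  conv_lhs => rw [← hcc]
  exact commutator_mono le_rfl hza

/-- `a` does not centralise `O_q(N_G(V))`, and `C_X(a) = V` for all `X` -/
theorem dich_exists (h : MCq A q) (hT : ¬ CaseT1 A q) : ∃ p : ℕ, p.Prime ∧ p ≠ q ∧
    ∃ a ∈ opc p A, ∀ X : Subgroup G, IsPGroup q X → Permutes A X → opc q A ≤ X →
      ∀ x ∈ X, a * x = x * a → x ∈ opc q A := by
  have hq := h.prime
  have := Fact.mk hq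
  unfold CaseT1 at hT
  push Not at hT
  obtain ⟨X₀, hX₀, hp₀, hV₀, hne₀⟩ := hT
  have hAX₀ := h.R2b hX₀ hp₀ hV₀
  -- find p and a
  obtain ⟨p, hpp, hpq, a, ha, hac⟩ : ∃ p : ℕ, p.Prime ∧ p ≠ q ∧ ∃ a ∈ opc p A,
      ¬ ∀ x ∈ X₀, a * x = x * a := by
    by_contra hcon
    push Not at hcon
    apply hne₀
    rw [commutator_comm, commutator_eq_bot_iff_le_centralizer]
    have hab : ∀ a ∈ opp q A, ∀ b ∈ opp q A, a * b = b * a :=
      fun a ha b hb => h.comm a (opp_le q A ha) b (opp_le q A hb)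
    refine le_of_opc_le_of_abelian hab fun p hp hpd a ha => ?_
    have hpq : p ≠ q := by
      rintro rfl
      exact not_dvd_card_opp hp A hpd
    have ha' : a ∈ opc p A := opc_mono_normal (opp_normalIn hq A) p ha
    rw [mem_centralizer_iff]
    intro x hx
    exact (hcon p hp hpq a ha' x hx).symm
  refine ⟨p, hpp, hpq, a, ha, ?_⟩
  have := Fact.mk hpp
  have haA : a ∈ A := opc_le p A ha
  -- `V` and its normalizer
  have hVne := h.opc_ne_bot
  have hVs : Group.IsSolvable (opc q A) := isSolvable_of_isPGroup (opc_isPGroup q A)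
  have hNt : normalizer (opc q A : Set G) ≠ ⊤ := h.mc.normalizer_ne_top hVne hVs
  have hAN : A ≤ normalizer (opc q A : Set G) := (opc_normalIn q A).le_normalizer
  have hVO : opc q A ≤ opc q (normalizer (opc q A : Set G)) :=
    le_opc (normalIn_of_le_normalizer le_normalizer le_rfl) (opc_isPGroup q A)
  have hAO : A ≤ normalizer (opc q (normalizer (opc q A : Set G)) : Set G) :=
    hAN.trans (opc_normalIn q _).le_normalizer
  -- `a` moves something in `N_{X₀}(V)`
  have hcX₀ : ∀ x ∈ X₀, a * x = x * a → x ∈ opc q A :=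
    (h.F2 hX₀ hAX₀ hV₀ hpp hpq ha).resolve_left hac
  have hlt : opc q A < X₀ := by
    refine lt_of_le_of_ne hV₀ fun he => hac fun x hx => ?_
    rw [← he] at hx
    exact h.comm a haA x (opc_le q A hx)
  have hlt2 := lt_inf_normalizer_of_lt hX₀ hlt
  obtain ⟨x₁, hx₁, hx₁V⟩ := SetLike.exists_of_lt hlt2
  have hnc : ¬ ∀ x ∈ opc q (normalizer (opc q A : Set G)), a * x = x * a := by
    intro hcO
    -- Z = [N_{X₀}(V), a] is in O and centralised by a
    have hX₁ : IsPGroup q (X₀ ⊓ normalizer (opc q A : Set G) : Subgroup G) :=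
      hX₀.to_le inf_le_left
    have hAX₁ : A ≤ normalizer ((X₀ ⊓ normalizer (opc q A : Set G) : Subgroup G) : Set G) :=
      dich_norm_inf hAX₀ hAN
    have hZ := dich_comm_le h hpp hpq ha hX₁ hAX₁ hAN hNt inf_le_right
    have hpa : IsPGroup p (zpowers a) := (opc_isPGroup p A).to_le (by rwa [zpowers_le])
    have hzA : zpowers a ≤ A := by rwa [zpowers_le]
    have hnd := not_dvd_card_of_isPGroup hpp hq hpq.symm hX₁
    have hcc := commutator_commutator_eq hpa (hzA.trans hAX₁) hnd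
    have hZ0 : ⁅⁅(X₀ ⊓ normalizer (opc q A : Set G) : Subgroup G), zpowers a⁆, zpowers a⁆ = ⊥ := by
      rw [commutator_eq_bot_iff_le_centralizer]
      intro z hz
      rw [mem_centralizer_iff]
      rintro _ ⟨k, rfl⟩
      exact ((Commute.zpow_left (show Commute a z from hcO z (hZ hz))) k).eq
    rw [hcc] at hZ0
    apply hx₁V
    refine hcX₀ x₁ hx₁.1 ?_
    have h5 := commute_of_commutator_eq_bot hZ0 x₁ hx₁ a (mem_zpowers a)
    exact h5.symm
  have hcO : ∀ x ∈ opc q (normalizer (opc q A : Set G)), a * x = x * a → x ∈ opc q A :=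
    (h.F2 (opc_isPGroup q _) hAO hVO hpp hpq ha).resolve_left hnc
  intro X hX hp hV
  have hAX := h.R2b hX hp hV
  rcases h.F2 hX hAX hV hpp hpq ha with h1 | h1
  · -- a centralises X, then X = V
    intro x hx _
    by_contra hxV
    have hlt : opc q A < X := lt_of_le_of_ne hV (by rintro he; rw [← he] at hx; exact hxV hx)
    have hlt2 := lt_inf_normalizer_of_lt hX hlt
    obtain ⟨x₂, hx₂, hx₂V⟩ := SetLike.exists_of_lt hlt2
    -- the group N_X(V) O
    have hn : (X ⊓ normalizer (opc q A : Set G) : Subgroup G) ≤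
        normalizer (opc q (normalizer (opc q A : Set G)) : Set G) :=
      inf_le_right.trans (opc_normalIn q _).le_normalizer
    have hXN : IsPGroup q (X ⊓ normalizer (opc q A : Set G) : Subgroup G) := hX.to_le inf_le_left
    have hW : IsPGroup q (opc q (normalizer (opc q A : Set G)) ⊔
        (X ⊓ normalizer (opc q A : Set G)) : Subgroup G) := by
      rw [sup_comm]
      exact hXN.to_sup_of_normal_right' (opc_isPGroup q _) hn
    have hAXN : A ≤ normalizer ((X ⊓ normalizer (opc q A : Set G) : Subgroup G) : Set G) :=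
      dich_norm_inf hAX hAN
    have hAW : A ≤ normalizer ((opc q (normalizer (opc q A : Set G)) ⊔
        (X ⊓ normalizer (opc q A : Set G)) : Subgroup G) : Set G) := by
      refine le_normalizer_of_conj_mem fun b hb x hx => ?_
      rw [mem_sup_of_le_normalizer' hn] at hx
      obtain ⟨o, ho, y, hy, rfl⟩ := hx
      have h6 : b * (o * y) * b⁻¹ = (b * o * b⁻¹) * (b * y * b⁻¹) := by group
      rw [h6]
      exact mul_mem (mem_sup_left (mem_normalizer_conj (hAO hb) ho))
        (mem_sup_right (mem_normalizer_conj (hAXN hb) hy))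
    rcases h.F2 hW hAW (hVO.trans le_sup_left) hpp hpq ha with h7 | h7
    · exact hnc fun x hx => h7 x (mem_sup_left hx)
    · exact hx₂V (h7 x₂ (mem_sup_right hx₂) (h1 x₂ hx₂.1))
  · exact h1

/-- (T2) -/
theorem MCq.caseT2 (h : MCq A q) (hT : ¬ CaseT1 A q) {X : Subgroup G} (hX : IsPGroup q X)
    (hp : Permutes A X) (hV : opc q A ≤ X) {Q : Subgroup G}
    (hQ : IsSylowIn q Q (normalizer (X : Set G))) : NormalIn Q (normalizer (X : Set G)) := by
  have hq := h.prime
  have := Fact.mk hq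
  obtain ⟨p, hpp, hpq, a, ha, hall⟩ := dich_exists h hT
  have := Fact.mk hpp
  have hAX := h.R2b hX hp hV
  have hXne : X ≠ ⊥ := fun he => h.opc_ne_bot (le_bot_iff.1 (he ▸ hV))
  have hEt : normalizer (X : Set G) ≠ ⊤ :=
    h.mc.normalizer_ne_top hXne (isSolvable_of_isPGroup hX)
  obtain ⟨P, hP, hAP⟩ := h.mc.her.exists_isSylowIn_permutes hAX q
  have hXO : X ≤ opc q (normalizer (X : Set G)) :=
    le_opc (normalIn_of_le_normalizer le_normalizer le_rfl) hX
  have hVP : opc q A ≤ P := hV.trans (hXO.trans hP.opc_le)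
  have hAPn := h.R2b hP.isPGroup hAP hVP
  have hc := hall P hP.isPGroup hAP hVP
  have hZ := dich_comm_le h hpp hpq ha hP.isPGroup hAPn hAX hEt hP.le
  have hpa : IsPGroup p (zpowers a) := (opc_isPGroup p A).to_le (by rwa [zpowers_le])
  have hzA : zpowers a ≤ A := by rw [zpowers_le]; exact opc_le p A ha
  have hnd := not_dvd_card_of_isPGroup hpp hq hpq.symm hP.isPGroup
  have hsup := sup_centralizer_eq hpa (hzA.trans hAPn) hnd
  have hPO : P ≤ opc q (normalizer (X : Set G)) := by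
    rw [← hsup]
    refine sup_le hZ fun x hx => ?_
    refine hXO (hV (hc x hx.1 ?_))
    exact (mem_centralizer_iff.1 hx.2 a (mem_zpowers a))
  have hPeq : P = opc q (normalizer (X : Set G)) := le_antisymm hPO hP.opc_le
  obtain ⟨x, hx, hxQ⟩ := hP.exists_conjBy_eq hQ
  have hn := opc_normalIn q (normalizer (X : Set G))
  rw [← hPeq] at hn
  rw [← hxQ, hn.conjBy_eq hx]
  exact hn

end t2

end MP_5771ce_al
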