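import Pool.Agent.Lib.MP_5771ce_al.S3.MRD
import Pool.Agent.Lib.MP_5771ce_al.S3.R2b
import Pool.Agent.Lib.MP_5771ce_al.S3.Beta

/-!
# Section 3 (3.14): the structure `M_R = D H`
-/

open Subgroup
open scoped Pointwise commutatorElement

universe u

namespace MP_5771ce_al

variable {G : Type u} [Group G] [Finite G] {A : Subgroup G} {q : ℕ}

/-- (3.14) -/
theorem MCq.exists_MRdata (h : MCq A q) {r : ℕ} (hr : Iplus A q r) {R : Subgroup G}
    (hR : IsSylowIn r R ⊤) : ∃ D H, MRdata A q (normalizer (R : Set G)) D H := by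
  have hqp : q.Prime := h.prime
  have : Fact q.Prime := ⟨hqp⟩
  obtain ⟨g₀, hact₀, hV₀⟩ := hr.exists_actV h hR
  set M : Subgroup G := normalizer (R : Set G) with hMdef
  have hM : IsCoatom M := hact₀.isCoatom (h.conjBy g₀)
  set D := DM A q M with hD
  have hDM : D ≤ M := DM_le
  have hDn : NormalIn D M := DM_normalIn
  have hnorm : (D.subgroupOf M).Normal := hDn.subgroupOf_normal
  set f := QuotientGroup.mk' (D.subgroupOf M) with hf
  have hfs : Function.Surjective f := QuotientGroup.mk'_surjective _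
  set N : Subgroup M := (opc q (⊤ : Subgroup (M ⧸ D.subgroupOf M))).comap f with hN
  have hNn : N.Normal := by
    have : (opc q (⊤ : Subgroup (M ⧸ D.subgroupOf M))).Normal :=
      normalIn_top.1 (opc_normalIn q ⊤)
    exact this.comap f
  obtain ⟨P₀, hP₀⟩ := exists_isSylowIn (p := q) N
  have hP₀f : P₀.map f = opc q (⊤ : Subgroup (M ⧸ D.subgroupOf M)) := by
    have h1 := hP₀.map f
    rw [hN, Subgroup.map_comap_eq_self_of_surjective hfs] at h1
    exact h1.eq_of_le (opc_isPGroup q ⊤) h1.le le_rfl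
  set Pq : Subgroup G := N.map M.subtype with hPq
  set P : Subgroup G := P₀.map M.subtype with hP
  have hPS : IsSylowIn q P Pq := hP₀.map M.subtype
  have hPqM : Pq ≤ M := Subgroup.map_subtype_le N
  have hPM : P ≤ M := Subgroup.map_subtype_le P₀
  have hPqn : NormalIn Pq M := by
    refine ⟨hPqM, ?_⟩
    rintro m hm _ ⟨x, hx, rfl⟩
    exact ⟨⟨m, hm⟩ * x * ⟨m, hm⟩⁻¹, hNn.conj_mem x hx ⟨m, hm⟩, rfl⟩
  have hDPq : D ≤ Pq := by
    intro d hd
    refine ⟨⟨d, hDM hd⟩, ?_, rfl⟩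
    rw [SetLike.mem_coe, hN, Subgroup.mem_comap]
    have : f ⟨d, hDM hd⟩ = 1 := by
      rw [← MonoidHom.mem_ker, hf, QuotientGroup.ker_mk']
      exact Subgroup.mem_subgroupOf.2 hd
    rw [this]
    exact one_mem _
  have hPD : P ≤ normalizer (D : Set G) := hPM.trans hDn.le_normalizer
  -- `Pq = D P`
  have hmul : ∀ x ∈ Pq, ∃ d ∈ D, ∃ p ∈ P, x = d * p := by
    rintro _ ⟨x, hx, rfl⟩
    have h1 : f x ∈ P₀.map f := by
      rw [hP₀f]
      exact hx
    obtain ⟨p, hp, hpx⟩ := h1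
    have h2 : x * p⁻¹ ∈ D.subgroupOf M := by
      rw [← QuotientGroup.ker_mk' (D.subgroupOf M), ← hf, MonoidHom.mem_ker, map_mul, map_inv,
        hpx, mul_inv_cancel]
    refine ⟨(x : G) * (p : G)⁻¹, Subgroup.mem_subgroupOf.1 h2, p, ⟨p, hp, rfl⟩, ?_⟩
    simp
  have hmul' : ∀ x ∈ Pq, ∃ p ∈ P, ∃ d ∈ D, x = p * d := by
    intro x hx
    obtain ⟨d, hd, p, hp, e⟩ := hmul x⁻¹ (inv_mem hx)
    refine ⟨p⁻¹, inv_mem hp, d⁻¹, inv_mem hd, ?_⟩
    rw [← mul_inv_rev, ← e, inv_inv]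
  -- (a)
  have hVPq : ∀ g, MP_5771ce_al.conjBy A g ≤ M → opc q (MP_5771ce_al.conjBy A g) ≤ Pq :=
    fun g hg => h.opc_le_comap hM hg
  have hcommD : ∀ x ∈ D, ∀ y ∈ D, x * y = y * x := DM_comm h
  have hqD : ¬ q ∣ Nat.card D := by
    intro hd
    obtain ⟨S, hS⟩ := DM_prime h hqp hd
    exact hS.1.not_dvd h h.dvd
  have hPDb : ∀ x ∈ P, x ∈ D → x = 1 := fun x hx hx' =>
    DIAux.eq_one_of_not_dvd hqp hPS.isPGroup hqD hx hx'
  -- (b)
  have hcent : ∀ x ∈ D, (∀ p ∈ P, x * p = p * x) → x = 1 := by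
    intro x hx hxP
    by_contra hx1
    have ho : orderOf x ≠ 1 := by rwa [Ne, orderOf_eq_one_iff]
    obtain ⟨s, hs, hsx⟩ := Nat.exists_prime_and_dvd ho
    have : Fact s.Prime := ⟨hs⟩
    obtain ⟨S, hS⟩ := DM_prime h hs (hsx.trans (Subgroup.orderOf_dvd_natCard _ hx))
    obtain ⟨y, hyz, hyo⟩ : ∃ y ∈ zpowers x, orderOf y = s := by
      obtain ⟨k, hk⟩ := hsx
      have hk0 : k ≠ 0 := by
        rintro rfl
        rw [mul_zero] at hk
        exact (orderOf_pos x).ne' hk
      refine ⟨x ^ k, Subgroup.pow_mem _ (mem_zpowers x) k, ?_⟩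
      rw [orderOf_pow' x hk0, hk, Nat.gcd_eq_right (Dvd.intro_left s rfl), Nat.mul_div_cancel]
      exact Nat.pos_of_ne_zero hk0
    have hyD : y ∈ D := (zpowers_le.2 hx) hyz
    have hy1 : y ≠ 1 := by
      rintro rfl
      rw [orderOf_one] at hyo
      exact hs.one_lt.ne hyo
    have hyP : ∀ p ∈ P, y * p = p * y := by
      intro p hp
      obtain ⟨n, rfl⟩ := mem_zpowers_iff.1 hyz
      exact ((show Commute x p from hxP p hp).zpow_left n).eq
    obtain ⟨g₂, hact₂, hV₂⟩ := hS.1.exists_actV h hS.2.1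
    have hyS : y ∈ S := by
      have h1 : zpowers y ≤ S := hact₂.le_of_isPGroup'
        (IsPGroup.of_card (n := 1) (by rw [Nat.card_zpowers, hyo, pow_one]))
        (by rw [zpowers_le, hS.2.2]; exact hDM hyD)
      exact h1 (mem_zpowers y)
    have hA₂M : MP_5771ce_al.conjBy A g₂ ≤ M := by
      rw [← hS.2.2]; exact hact₂.norm
    obtain ⟨z, hz, hVz⟩ := hPS.exists_le_conjBy (opc_isPGroup q _) (hVPq g₂ hA₂M)
    obtain ⟨p, hp, d, hd, rfl⟩ := hmul' z hz
    apply hV₂
    refine h.centralizes_of_one hact₂ hact₂.norm hyS hy1 (opc_le _ _) ?_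
    intro v hv
    have h1 := hVz hv
    rw [conjBy_mul, conjBy_eq_self hp, mem_conjBy] at h1
    have h2 := hyP _ h1
    have h3 := hcommD d hd y hyD
    have h4 : v = d⁻¹ * (d * v * d⁻¹) * d := by group
    have h5 : Commute y d := h3.symm
    have h6 : Commute y (d * v * d⁻¹) := h2
    rw [h4]
    exact ((h5.inv_right.mul_right h6).mul_right h5).symm.eq
  set H : Subgroup G := M ⊓ normalizer (P : Set G) with hH
  have hHM : H ≤ M := inf_le_left
  have hPH : P ≤ H := le_inf hPM le_normalizer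
  have hDH : ∀ x ∈ D, x ∈ H → x = 1 := by
    intro x hx hxH
    apply hcent x hx
    intro p hp
    have h1 : x * p * x⁻¹ * p⁻¹ ∈ P :=
      P.mul_mem ((Subgroup.mem_normalizer_iff.1 hxH.2 p).1 hp) (P.inv_mem hp)
    have h2 : x * p * x⁻¹ * p⁻¹ ∈ D := by
      have h3 := hDn.2 p (hPM hp) x⁻¹ (inv_mem hx)
      have e : x * p * x⁻¹ * p⁻¹ = x * (p * x⁻¹ * p⁻¹) := by group
      rw [e]
      exact D.mul_mem hx h3
    have h3 := hPDb _ h1 h2
    have h4 := congrArg (fun t => t * p * x) h3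
    simpa [mul_assoc] using h4
  have hsup : D ⊔ H = M := by
    refine le_antisymm (sup_le hDM hHM) ?_
    intro m hm
    obtain ⟨n, hn, x, hx, rfl⟩ := hPS.frattini hPqn hm
    obtain ⟨d, hd, p, hp, rfl⟩ := hmul n hn
    exact mul_mem (mul_mem (mem_sup_left hd) (mem_sup_right (hPH hp))) (mem_sup_right hx)
  have hcop : (Nat.card D).Coprime (Nat.card H) := by
    by_contra hnc
    obtain ⟨s, hs, h1, h2⟩ := Nat.Prime.not_coprime_iff_dvd.1 hnc
    apply DM_hall h hs h1
    have h3 : D.relIndex M = Nat.card H := by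
      have h4 := (permutes_of_le_normalizer (hHM.trans hDn.le_normalizer) :
        Permutes D H).relIndex_sup
      rw [hsup] at h4
      rw [h4]
      have h5 : D ⊓ H = ⊥ := by
        rw [eq_bot_iff]
        rintro x ⟨hx, hx'⟩
        rw [Subgroup.mem_bot]
        exact hDH x hx hx'
      rw [← inf_relIndex_right, h5, relIndex_bot_left]
    rw [h3]
    exact h2
  -- (c)
  have hconj : ∀ g, MP_5771ce_al.conjBy A g ≤ M →
      ∃ m ∈ M, MP_5771ce_al.conjBy A (g * m) ≤ H := by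
    intro g hg
    have h₁ : MCq (MP_5771ce_al.conjBy A g) q := h.conjBy g
    obtain ⟨Q₁, hQ₁, hQp⟩ := h₁.mc.her.exists_isSylowIn_permutes hg q
    have hVQ : opc q (MP_5771ce_al.conjBy A g) ≤ Q₁ :=
      (hQ₁.inf_of_permutes hg hQp).opc_le.trans inf_le_right
    have hn₁ := h₁.R2b hQ₁.isPGroup hQp hVQ
    have hQ₂ : IsSylowIn q (Q₁ ⊓ Pq) Pq := hQ₁.inf_normal hPqn
    obtain ⟨y, hy, hyP⟩ := hQ₂.exists_conjBy_eq hPS
    have hn₂ : MP_5771ce_al.conjBy A g ≤ normalizer ((Q₁ ⊓ Pq : Subgroup G) : Set G) := by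
      intro a ha
      have h1 := hn₁ ha
      have h2 := hPqn.le_normalizer (hg ha)
      rw [Subgroup.mem_normalizer_iff] at h1 h2 ⊢
      intro x
      rw [Subgroup.mem_inf, Subgroup.mem_inf, h1 x, h2 x]
    refine ⟨y, hPqM hy, le_inf ?_ ?_⟩
    · rw [conjBy_mul]
      have := conjBy_mono hg y
      rwa [conjBy_eq_self (hPqM hy)] at this
    · rw [conjBy_mul, ← hyP, normalizer_conjBy]
      exact conjBy_mono hn₂ y
  have hPqH : ∀ x ∈ Pq, x ∈ H → x ∈ P := by
    intro x hx hxH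
    obtain ⟨d, hd, p, hp, rfl⟩ := hmul x hx
    have h1 : d ∈ H := by
      have := H.mul_mem hxH (H.inv_mem (hPH hp))
      simpa [mul_assoc] using this
    rw [hDH d hd h1, one_mul]
    exact hp
  refine ⟨D, H, ?_⟩
  exact
    { coatom := hM
      D_normal := hDn
      D_comm := hcommD
      D_ne := by
        have h1 : SylN A q M r R := ⟨hr, hR, rfl⟩
        exact ne_bot_of_le_ne_bot hact₀.ne_bot h1.le_DM
      H_le := hHM
      sup := hsup
      cop := hcop
      syl := by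
        intro s hs hd
        obtain ⟨S, hS⟩ := DM_prime h hs hd
        exact ⟨hS.1, S, hS.le_DM, hS.2.1, hS.2.2⟩
      all := fun s S h1 h2 h3 => SylN.le_DM ⟨h1, h2, h3⟩
      H_in := by
        obtain ⟨m, _, hm⟩ := hconj g₀ hact₀.norm
        refine ⟨?_, _, hm⟩
        intro ht
        apply hM.1
        rw [eq_top_iff, ← ht]
        exact hHM
      H_typeT := by
        intro t ht htA g hg
        rw [eq_bot_iff, commutator_le]
        intro x hx v hv
        rw [Subgroup.mem_bot]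
        have hvP : v ∈ P := hPqH v (hVPq g (hg.trans hHM) hv) (hg (opc_le _ _ hv))
        have hxH : x ∈ H := opc_le t H hx
        have h1 : ⁅x, v⁆ ∈ P := by
          rw [commutatorElement_def]
          exact P.mul_mem ((Subgroup.mem_normalizer_iff.1 hxH.2 v).1 hvP) (P.inv_mem hvP)
        have h2 : ⁅x, v⁆ ∈ opc t H := by
          rw [commutatorElement_def]
          have h3 := (opc_normalIn t H).2 v (hPH hvP) x⁻¹ (inv_mem hx)
          have e : x * v * x⁻¹ * v⁻¹ = x * (v * x⁻¹ * v⁻¹) := by group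
          rw [e]
          exact mul_mem hx h3
        refine DIAux.eq_bot_of_coprime hqp ht ?_ hPS.isPGroup (opc_isPGroup t H) h1 h2
        rintro rfl
        exact htA h.dvd
      conj := hconj }

end MP_5771ce_al
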