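import Pool.Agent.Lib.MP_5771ce_al.S3.MixCore
import Pool.Agent.Lib.MP_5771ce_al.S3.R2b
import Pool.Agent.Lib.MP_5771ce_al.S3.R2A
import Pool.Agent.Lib.MP_5771ce_al.S3.Dich

/-!
# Section 3 (MP_5771ce_al), module ROOT: 3.11 and 3.13
-/

open Subgroup
open scoped Pointwise commutatorElement

universe u

namespace MP_5771ce_al

variable {G : Type u} [Group G]

/-! ### Auxiliary facts -/

private theorem root_r2bProp [Finite G] : R2bProp G :=
  fun _ _ h _ hX hp hV => h.R2b hX hp hV

/-- A `p`-subgroup and an `r`-subgroup, `p ≠ r`, meet trivially. -/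
private theorem inf_eq_bot_of_ne [Finite G] {p r : ℕ} (hp : p.Prime) (hr : r.Prime) (hne : p ≠ r)
    {P R : Subgroup G} (hP : IsPGroup p P) (hR : IsPGroup r R) : P ⊓ R = ⊥ := by
  have := Fact.mk hp
  have := Fact.mk hr
  exact (IsPGroup.disjoint_of_ne p r hne P R hP hR).eq_bot

private theorem commutator_opc_eq_bot [Finite G] {p r : ℕ} (hp : p.Prime) (hr : r.Prime)
    (hne : p ≠ r) (E : Subgroup G) : ⁅opc p E, opc r E⁆ = ⊥ := by
  rw [eq_bot_iff, ← inf_eq_bot_of_ne hp hr hne (opc_isPGroup p E) (opc_isPGroup r E)]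
  refine le_inf ?_ ?_
  · exact le_normalizer_iff_commutator_le_left.1
      ((opc_le r E).trans (opc_normalIn p E).le_normalizer)
  · exact le_normalizer_iff_commutator_le_right.1
      ((opc_le p E).trans (opc_normalIn r E).le_normalizer)

private theorem root_normalizer_conjBy (K : Subgroup G) (y : G) :
    normalizer ((conjBy K y : Subgroup G) : Set G) = conjBy (normalizer (K : Set G)) y := by
  ext x
  rw [mem_conjBy, mem_normalizer_iff, mem_normalizer_iff]
  constructor
  · intro hx z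
    have := hx (y⁻¹ * z * y)
    rw [mem_conjBy, mem_conjBy] at this
    have e1 : y * (y⁻¹ * z * y) * y⁻¹ = z := by group
    have e2 : y * (x * (y⁻¹ * z * y) * x⁻¹) * y⁻¹ = y * x * y⁻¹ * z * (y * x * y⁻¹)⁻¹ := by group
    rwa [e1, e2] at this
  · intro hx z
    rw [mem_conjBy, mem_conjBy]
    have := hx (y * z * y⁻¹)
    have e2 : y * x * y⁻¹ * (y * z * y⁻¹) * (y * x * y⁻¹)⁻¹ = y * (x * z * x⁻¹) * y⁻¹ := by group
    rwa [e2] at this

private theorem centralizer_conjBy (K : Subgroup G) (y : G) :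
    centralizer ((conjBy K y : Subgroup G) : Set G) = conjBy (centralizer (K : Set G)) y := by
  ext x
  rw [mem_conjBy, mem_centralizer_iff, mem_centralizer_iff]
  constructor
  · intro hx k hk
    have := hx (y⁻¹ * k * y) (mem_conjBy.2 (by
      have : y * (y⁻¹ * k * y) * y⁻¹ = k := by group
      rwa [this]))
    calc k * (y * x * y⁻¹) = y * ((y⁻¹ * k * y) * x) * y⁻¹ := by group
      _ = y * (x * (y⁻¹ * k * y)) * y⁻¹ := by rw [this]
      _ = y * x * y⁻¹ * k := by group
  · intro hx k hk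
    have := hx _ (mem_conjBy.1 hk)
    calc k * x = y⁻¹ * ((y * k * y⁻¹) * (y * x * y⁻¹)) * y := by group
      _ = y⁻¹ * ((y * x * y⁻¹) * (y * k * y⁻¹)) * y := by rw [this]
      _ = x * k := by group

/-- A Sylow `q`-subgroup `Q` of `E` with `N_G(Q) ≤ E` is a Sylow `q`-subgroup of `G`. -/
private theorem isSylowIn_top_of_normalizer_le [Finite G] {q : ℕ} [Fact q.Prime]
    {Q E : Subgroup G} (hQ : IsSylowIn q Q E) (hN : normalizer (Q : Set G) ≤ E) :
    IsSylowIn q Q ⊤ := by
  obtain ⟨P, hP, hQP⟩ := exists_isSylowIn_ge hQ.isPGroup (le_top : Q ≤ ⊤)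
  rcases hQP.eq_or_lt with rfl | hlt
  · exact hP
  · exfalso
    have h1 := lt_inf_normalizer_of_lt hP.isPGroup hlt
    have h2 := hQ.eq_of_le (hP.isPGroup.to_inf_left (K := normalizer (Q : Set G))) h1.le
      (inf_le_right.trans hN)
    exact h1.ne h2

/-- A conjugate of `A` by an element of `E` permutes with `Q ≤ E`. -/
private theorem exists_permutes_in [Finite G] {A E Q : Subgroup G} (hA : HerPermutable A)
    (hAE : A ≤ E) (hQ : Q ≤ E) : ∃ m ∈ E, Permutes (conjBy A m) Q := by
  obtain ⟨x, hx, hp⟩ := hA E hAE Q hQ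
  refine ⟨x⁻¹, inv_mem hx, ?_⟩
  have := permutes_conj hp x⁻¹
  rwa [← conjBy_mul Q, mul_inv_cancel, conjBy_one] at this

section main

variable [Finite G] {A : Subgroup G} {q : ℕ}

/-- `V ≤ Q` if `A` permutes with the Sylow `q`-subgroup `Q` of `E ≥ A`. -/
private theorem opc_le_of_permutes (h : MCq A q) {Q E : Subgroup G} (hQ : IsSylowIn q Q E)
    (hAE : A ≤ E) (hp : Permutes A Q) : opc q A ≤ Q := by
  have := Fact.mk h.prime
  have h1 := (h.permutes_opc hQ.isPGroup hp).2.1
  have h2 := hQ.eq_of_le h1 le_sup_right (sup_le ((opc_le q A).trans hAE) hQ.le)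
  rw [h2]
  exact le_sup_left

/-- 3.11.2 -/
private theorem root_aux (h : MCq A q) {Q Z : Subgroup G} (hQ : IsSylowIn q Q ⊤) (hZQ : Z ≤ Q)
    (hZn : normalizer (Q : Set G) ≤ normalizer (Z : Set G))
    (hZ : ∀ g, Permutes (conjBy A g) Q → opc q (conjBy A g) ≤ Z) {r : ℕ} (hr : Iplus A q r) :
    ¬ r ∣ Nat.card (normalizer (Z : Set G)) := by
  intro hd
  have := Fact.mk h.prime
  have := Fact.mk hr.prime
  have hrq : r ≠ q := (hr.lt h).ne'
  set H := normalizer (Z : Set G) with hH
  obtain ⟨g0, -, hg0⟩ := exists_permutes_in h.mc.her (le_top : A ≤ ⊤) (le_top : Q ≤ ⊤)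
  set B := conjBy A g0 with hB0
  have hB : MCq B q := h.conjBy g0
  have hZQp : IsPGroup q Z := hQ.isPGroup.to_le hZQ
  have hBZ : opc q B ≤ Z := hZ g0 hg0
  have hBQ : B ≤ normalizer (Q : Set G) := hB.R2b hQ.isPGroup hg0 (hBZ.trans hZQ)
  have hBH : B ≤ H := hBQ.trans hZn
  have hZH : NormalIn Z H := normalIn_of_le_normalizer le_normalizer le_rfl
  have hZO : Z ≤ opc q H := le_opc hZH hZQp
  have hrB : Iplus B q r := (Iplus.conjBy_iff g0).2 hr
  have hZ1 : Z ≠ ⊥ := ne_bot_of_le_ne_bot hB.opc_ne_bot hBZ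
  have hHtop : H ≠ ⊤ := hB.mc.normalizer_ne_top hZ1 (isSolvable_of_isPGroup hZQp)
  obtain ⟨R1, hR1, hp1⟩ := hB.mc.her.exists_isSylowIn_permutes hBH r
  have hR1ne : R1 ≠ ⊥ := by
    rintro rfl
    apply hR1.not_dvd
    rwa [relIndex_bot_left]
  have hBR1 : B ≤ normalizer (R1 : Set G) := hB.R2a hrB hR1.isPGroup hp1
  -- Step A
  have hA1 : ⁅R1, opc q B⁆ = ⊥ := by
    by_contra hne
    obtain ⟨-, S, hS0, hS⟩ := hB.Iplus_of_ne hr.prime (hrB.not_dvd hB) hR1.isPGroup hBR1 hne
    have h1 : R1 ≤ H ⊓ S := le_inf hR1.le hS0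
    have h2 : H ≤ normalizer (S : Set G) :=
      Act.le_normalizer hB hS.1 hHtop hBH (ne_bot_of_le_ne_bot hR1ne h1)
    have h3 : NormalIn (H ⊓ S) H := normalIn_of_le_normalizer inf_le_left
      (fun x hx => by
        rw [mem_normalizer_iff]
        intro y
        have hx2 := mem_normalizer_iff.1 (h2 hx) y
        have hx3 : y ∈ H ↔ x * y * x⁻¹ ∈ H := by
          constructor
          · intro hy
            exact mul_mem (mul_mem hx hy) (inv_mem hx)
          · intro hy
            have := mul_mem (mul_mem (inv_mem hx) hy) hx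
            simpa [mul_assoc] using this
        rw [mem_inf, mem_inf, hx2, hx3])
    have h4 : R1 ≤ opc r H :=
      h1.trans (le_opc h3 (hS.1.syl.isPGroup.to_inf_right))
    apply hne
    rw [eq_bot_iff, ← commutator_opc_eq_bot hr.prime h.prime hrq H]
    exact commutator_mono h4 (hBZ.trans hZO)
  -- Step B
  obtain ⟨R, hR, hR1R⟩ := exists_isSylowIn_ge hR1.isPGroup (le_top : R1 ≤ ⊤)
  obtain ⟨g1, hact⟩ := hrB.exists_actV hB hR
  set C := conjBy B g1 with hC0
  have hC : MCq C q := hB.conjBy g1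
  have hNR : normalizer (R1 : Set G) ≤ normalizer (R : Set G) :=
    Act.normalizer_le hC hact.1 hR1R hR1ne
  have hBR : B ≤ normalizer (R : Set G) := hBR1.trans hNR
  have hfix : ∀ (g : G), conjBy C g ≤ normalizer (R : Set G) → ∀ a ∈ conjBy C g,
      (∀ x ∈ R1, a * x = x * a) → ∀ x ∈ R, a * x = x * a := by
    intro g hg a ha hax
    rcases Act.fpf hC hact.1 hg ha with h1 | h1
    · exact h1
    · exfalso
      apply hR1ne
      rw [eq_bot_iff]
      intro x hx
      rw [mem_bot]
      exact h1 x (hR1R hx) (hax x hx)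
  have hCB : conjBy C g1⁻¹ = B := conjBy_inv_conjBy B g1
  have hBcR : ⁅R, opc q B⁆ = ⊥ := by
    rw [commutator_eq_bot_iff_le_centralizer]
    intro x hx
    rw [mem_centralizer_iff]
    intro a ha
    have hcomm := commute_of_commutator_eq_bot hA1
    refine hfix g1⁻¹ (by rw [hCB]; exact hBR) a (by rw [hCB]; exact opc_le q B ha) ?_ x hx
    intro y hy
    exact (hcomm y hy a ha).symm
  have hmix : normalizer (opc q B : Set G) ≤ normalizer (R : Set G) := hB.mix_of root_r2bProp hrB hR hBR hBcR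
  -- Step C
  set O := opc q H with hO
  have hOR1 : ⁅O, R1⁆ = ⊥ := by
    have hHO : H ≤ normalizer (O : Set G) := (opc_normalIn q H).le_normalizer
    refine axb hrq.symm (V := O) (B := opc q B) (X := R1) (opc_isPGroup q H)
      (opc_isPGroup q B) hR1.isPGroup (((opc_le q B).trans hBH).trans hHO) (hR1.le.trans hHO)
      (by rw [commutator_comm]; exact hA1) ?_
    rw [eq_bot_iff, ← inf_eq_bot_of_ne h.prime hr.prime hrq.symm (opc_isPGroup q H) hR.isPGroup]
    refine le_inf ?_ ?_
    · exact (commutator_mono inf_le_left le_rfl).trans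
        (le_normalizer_iff_commutator_le_left.1 (hR1.le.trans hHO))
    · refine (commutator_mono (inf_le_right.trans
        ((centralizer_le_normalizer _).trans hmix)) hR1R).trans ?_
      exact le_normalizer_iff_commutator_le_right.1 le_rfl
  -- Step D
  have hHR : H ≤ normalizer (R : Set G) := by
    intro e he
    have hCn : NormalIn (H ⊓ centralizer (O : Set G)) H := (opc_normalIn q H).inf_centralizer
    have hR1C : R1 ≤ H ⊓ centralizer (O : Set G) := by
      refine le_inf hR1.le ?_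
      rw [← commutator_eq_bot_iff_le_centralizer, commutator_comm]
      exact hOR1
    obtain ⟨n, hn, x, hx, rfl⟩ := (hR1.of_le hR1C inf_le_left).frattini hCn he
    refine mul_mem (hmix ?_) (hNR hx.2)
    apply centralizer_le_normalizer
    exact centralizer_le (hBZ.trans hZO) hn.2
  -- Step E
  have hQR : Q ≤ normalizer (R : Set G) := (le_normalizer.trans hZn).trans hHR
  obtain ⟨m, hm, hperm⟩ := exists_permutes_in hC.mc.her hact.1.norm hQR
  have hCm : conjBy C m = conjBy A (g0 * g1 * m) := by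
    rw [conjBy_mul, conjBy_mul]
  have h1 : opc q (conjBy C m) ≤ Z := by
    rw [hCm]
    apply hZ
    rw [← hCm]
    exact hperm
  apply hact.2
  rw [commutator_eq_bot_iff_le_centralizer]
  intro x hx
  rw [mem_centralizer_iff]
  intro a ha
  -- conjugate by `m`
  have ha' : m⁻¹ * a * m ∈ opc q (conjBy C m) := by
    rw [opc_conjBy, mem_conjBy]
    have : m * (m⁻¹ * a * m) * m⁻¹ = a := by group
    rwa [this]
  have hx' : m⁻¹ * x * m ∈ R := by
    have := (mem_normalizer_iff.1 (inv_mem hm) x).1 hx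
    rwa [inv_inv] at this
  have hCmR : conjBy C m ≤ normalizer (R : Set G) := by
    intro y hy
    rw [mem_conjBy] at hy
    have := mul_mem (mul_mem (inv_mem hm) (hact.1.norm hy)) hm
    simpa [mul_assoc] using this
  have hcomm := commute_of_commutator_eq_bot hOR1
  have h2 := hfix m hCmR (m⁻¹ * a * m) (opc_le q _ ha')
    (fun y hy => hcomm _ (hZO (h1 ha')) y hy) (m⁻¹ * x * m) hx'
  have h3 : m⁻¹ * (a * x) * m = m⁻¹ * (x * a) * m := by
    calc m⁻¹ * (a * x) * m = m⁻¹ * a * m * (m⁻¹ * x * m) := by group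
      _ = m⁻¹ * x * m * (m⁻¹ * a * m) := h2
      _ = m⁻¹ * (x * a) * m := by group
  exact mul_left_cancel (mul_right_cancel h3)

/-- The properties of 3.13. -/
private def RootP (A : Subgroup G) (q : ℕ) (E : Subgroup G) : Prop :=
  InP A E ∧ TypeT A q E ∧
    ∀ r, Iplus A q r → ¬ r ∣ Nat.card (centralizer (Wsub A q E : Set G))

omit [Finite G] in
private theorem RootP.of_le {E F : Subgroup G} (hE : RootP A q E) (hEF : E ≤ F) (hF : F ≠ ⊤)
    (hT : TypeT A q F) : RootP A q F := by
  obtain ⟨⟨-, g, hg⟩, -, h3⟩ := hE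
  refine ⟨⟨hF, g, hg.trans hEF⟩, hT, fun r hr hd => h3 r hr (hd.trans ?_)⟩
  exact card_dvd_of_le (centralizer_le (Wsub_mono hEF))

/-- `W(Q)`. -/
private def wQ (A : Subgroup G) (q : ℕ) (Q : Subgroup G) : Subgroup G :=
  ⨆ g : {g : G // opc q (conjBy A g) ≤ Q ∧ opp q (conjBy A g) ≤ centralizer (Q : Set G)},
    opc q (conjBy A g.1)

omit [Finite G] in
private theorem le_wQ {Q : Subgroup G} {g : G} (h1 : opc q (conjBy A g) ≤ Q)
    (h2 : opp q (conjBy A g) ≤ centralizer (Q : Set G)) : opc q (conjBy A g) ≤ wQ A q Q :=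
  le_iSup (fun g : {g : G // opc q (conjBy A g) ≤ Q ∧
    opp q (conjBy A g) ≤ centralizer (Q : Set G)} => opc q (conjBy A g.1)) ⟨g, h1, h2⟩

omit [Finite G] in
private theorem wQ_le {Q K : Subgroup G} (h : ∀ g, opc q (conjBy A g) ≤ Q →
    opp q (conjBy A g) ≤ centralizer (Q : Set G) → opc q (conjBy A g) ≤ K) : wQ A q Q ≤ K := by
  refine iSup_le ?_
  rintro ⟨g, h1, h2⟩
  exact h g h1 h2

private theorem wQ_conjBy_le (hq : q.Prime) (Q : Subgroup G) (y : G) :
    conjBy (wQ A q Q) y ≤ wQ A q (conjBy Q y) := by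
  have key : wQ A q Q ≤ conjBy (wQ A q (conjBy Q y)) y⁻¹ := by
    apply wQ_le
    intro g h1 h2
    have h3 : opc q (conjBy A (g * y)) = conjBy (opc q (conjBy A g)) y := by
      rw [conjBy_mul, opc_conjBy]
    have h4 : opp q (conjBy A (g * y)) = conjBy (opp q (conjBy A g)) y := by
      rw [conjBy_mul, opp_conjBy hq]
    have h5 : opc q (conjBy A (g * y)) ≤ wQ A q (conjBy Q y) := by
      apply le_wQ
      · rw [h3]; exact conjBy_mono h1 y
      · rw [h4, centralizer_conjBy]; exact conjBy_mono h2 y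
    rw [h3] at h5
    have h6 := conjBy_mono h5 y⁻¹
    rwa [← conjBy_mul, mul_inv_cancel, conjBy_one] at h6
  have h7 := conjBy_mono key y
  rwa [← conjBy_mul (wQ A q (conjBy Q y)), inv_mul_cancel, conjBy_one] at h7

private theorem wQ_conjBy (hq : q.Prime) (Q : Subgroup G) (y : G) :
    wQ A q (conjBy Q y) = conjBy (wQ A q Q) y := by
  apply le_antisymm _ (wQ_conjBy_le hq Q y)
  have h1 := wQ_conjBy_le (A := A) hq (conjBy Q y) y⁻¹
  rw [← conjBy_mul Q, mul_inv_cancel, conjBy_one] at h1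
  have h2 := conjBy_mono h1 y
  rwa [← conjBy_mul, inv_mul_cancel, conjBy_one] at h2

private theorem normalizer_le_normalizer_wQ (hq : q.Prime) (Q : Subgroup G) :
    normalizer (Q : Set G) ≤ normalizer (wQ A q Q : Set G) := by
  intro x hx
  rw [mem_normalizer_iff_conjBy] at hx ⊢
  rw [← wQ_conjBy hq, hx]

/-- 3.13 in case T1: a maximal `E` is the normalizer of `W(Q_E)`. -/
private theorem root_T1 (h : MCq A q) (hT1 : CaseT1 A q) {E : Subgroup G} (hE : RootP A q E)
    (hmax : ∀ F, RootP A q F → E ≤ F → F ≤ E) :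
    ∃ Q : Subgroup G, IsSylowIn q Q ⊤ ∧ E = normalizer (wQ A q Q : Set G) := by
  have := Fact.mk h.prime
  obtain ⟨⟨hEtop, g0, hg0⟩, hT, hC⟩ := id hE
  set W := Wsub A q E with hW
  have hWO : W ≤ opc q E := TypeT.Wsub_le h hEtop hT
  have hWp : IsPGroup q W := (opc_isPGroup q E).to_le hWO
  have hB : MCq (conjBy A g0) q := h.conjBy g0
  have hW1 : W ≠ ⊥ := ne_bot_of_le_ne_bot hB.opc_ne_bot (le_Wsub hg0)
  have hEE1 : E ≤ normalizer (W : Set G) := (Wsub_normalIn A q E).le_normalizer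
  have hE1top : normalizer (W : Set G) ≠ ⊤ :=
    h.mc.normalizer_ne_top hW1 (isSolvable_of_isPGroup hWp)
  have hWE1 : W ≤ opc q (normalizer (W : Set G)) :=
    le_opc (normalIn_of_le_normalizer le_normalizer le_rfl) hWp
  have hE1T : TypeT A q (normalizer (W : Set G)) := by
    intro r hr hrd g hg
    by_contra hne
    have hrq : r ≠ q := fun e => hrd (e ▸ h.dvd)
    have hBg : MCq (conjBy A g) q := h.conjBy g
    have := Fact.mk hr
    obtain ⟨hI, -⟩ := hBg.Iplus_of_ne hr (by rwa [card_conjBy]) (opc_isPGroup r _)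
      (hg.trans (opc_normalIn r _).le_normalizer) hne
    have hI' : Iplus A q r := (Iplus.conjBy_iff g).1 hI
    apply hC r hI'
    have h1 : opc r (normalizer (W : Set G)) ≤ centralizer (W : Set G) := by
      rw [← commutator_eq_bot_iff_le_centralizer, eq_bot_iff,
        ← commutator_opc_eq_bot hr h.prime hrq (normalizer (W : Set G))]
      exact commutator_mono le_rfl hWE1
    have h2 : opc r (normalizer (W : Set G)) ≠ ⊥ := by
      intro h0
      apply hne
      rw [h0]
      exact commutator_bot_left _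
    obtain ⟨n, hn⟩ := (IsPGroup.iff_card).1 (opc_isPGroup r (normalizer (W : Set G)))
    rcases Nat.eq_zero_or_pos n with rfl | hn0
    · exfalso
      apply h2
      rwa [pow_zero, card_eq_one] at hn
    · exact ((dvd_pow_self r hn0.ne').trans (hn ▸ dvd_rfl)).trans (card_dvd_of_le h1)
  have hEeq : E = normalizer (W : Set G) :=
    le_antisymm hEE1 (hmax _ (hE.of_le hEE1 hE1top hE1T) hEE1)
  obtain ⟨Q, hQ⟩ := exists_isSylowIn (p := q) E
  have hWQ : W ≤ Q := hWO.trans hQ.opc_le
  have hWeq : W = wQ A q Q := by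
    apply le_antisymm
    · apply Wsub_le
      intro g hg
      have hBg : MCq (conjBy A g) q := h.conjBy g
      obtain ⟨x, hx, hp⟩ := hBg.mc.her E hg Q hQ.le
      have hQ1 : IsSylowIn q (conjBy Q x) E := by
        have := hQ.conjBy x
        rwa [conjBy_eq_self hx] at this
      have hcomm : ⁅conjBy Q x, opp q (conjBy A g)⁆ = ⊥ :=
        (hT1.conjBy g) _ hQ1.isPGroup hp (opc_le_of_permutes hBg hQ1 hg hp)
      obtain ⟨n, hnE, hn, y, hy, he⟩ := TypeT.exists_mul h hEtop hT hg hQ (inv_mem hx)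
      have h1 : opc q (conjBy A (g * n)) = opc q (conjBy A g) := by
        rw [conjBy_mul, opc_conjBy]
        exact mem_normalizer_iff_conjBy.1 hn
      have h2 : opp q (conjBy A (g * n)) ≤ centralizer (Q : Set G) := by
        have h3 : opp q (conjBy A g) ≤ centralizer (conjBy Q x : Set G) := by
          rw [← commutator_eq_bot_iff_le_centralizer, commutator_comm]
          exact hcomm
        have h4 := conjBy_mono h3 n
        rw [← opp_conjBy h.prime, ← conjBy_mul, ← centralizer_conjBy, ← conjBy_mul] at h4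
        have h5 : x * n = y⁻¹ := by
          have : x * (n * y) = 1 := by rw [← he, mul_inv_cancel]
          rw [eq_inv_iff_mul_eq_one, mul_assoc]
          exact this
        rw [h5, conjBy_eq_self (inv_mem hy)] at h4
        exact h4
      rw [← h1]
      apply le_wQ _ h2
      rw [h1]
      exact (TypeT.opc_le h hEtop hT hg).trans hQ.opc_le
    · apply wQ_le
      intro g h1 h2
      apply le_Wsub
      have hBg : MCq (conjBy A g) q := h.conjBy g
      apply hBg.le_of_opc_opp
      · exact h1.trans hQ.le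
      · rw [hEeq]
        exact (h2.trans (centralizer_le hWQ)).trans (centralizer_le_normalizer _)
  refine ⟨Q, isSylowIn_top_of_normalizer_le hQ ?_, ?_⟩
  · rw [hEeq, hWeq]
    exact normalizer_le_normalizer_wQ h.prime Q
  · rw [← hWeq]
    exact hEeq

/-- 3.13 in case T2: a maximal `E` is the normalizer of a Sylow `q`-subgroup of `G`. -/
private theorem root_T2 (h : MCq A q) (hT1 : ¬ CaseT1 A q) {E : Subgroup G} (hE : RootP A q E)
    (hmax : ∀ F, RootP A q F → E ≤ F → F ≤ E) :
    ∃ Q : Subgroup G, IsSylowIn q Q ⊤ ∧ E = normalizer (Q : Set G) := by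
  have := Fact.mk h.prime
  obtain ⟨⟨hEtop, g0, hg0⟩, hT, hC⟩ := id hE
  have hB : MCq (conjBy A g0) q := h.conjBy g0
  have hnT1 : ¬ CaseT1 (conjBy A g0) q := by
    intro h1
    have := h1.conjBy g0⁻¹
    rw [conjBy_inv_conjBy] at this
    exact hT1 this
  set X := opc q E with hX
  have hBX : opc q (conjBy A g0) ≤ X := TypeT.opc_le h hEtop hT hg0
  have hX1 : X ≠ ⊥ := ne_bot_of_le_ne_bot hB.opc_ne_bot hBX
  have hXp : IsPGroup q X := opc_isPGroup q E
  have hEX : E ≤ normalizer (X : Set G) := (opc_normalIn q E).le_normalizer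
  have hperm : Permutes (conjBy A g0) X := (permutes_of_le_normalizer (hg0.trans hEX)).symm
  have hE1top : normalizer (X : Set G) ≠ ⊤ :=
    h.mc.normalizer_ne_top hX1 (isSolvable_of_isPGroup hXp)
  obtain ⟨Q, hQ⟩ := exists_isSylowIn (p := q) (normalizer (X : Set G))
  have hQn : NormalIn Q (normalizer (X : Set G)) := hB.caseT2 hnT1 hXp hperm hBX hQ
  have hQO : Q ≤ opc q (normalizer (X : Set G)) := le_opc hQn hQ.isPGroup
  have hE1T : TypeT A q (normalizer (X : Set G)) := by
    intro r hr hrd g hg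
    have hrq : r ≠ q := fun e => hrd (e ▸ h.dvd)
    have h1 : opc q (conjBy A g) ≤ Q := by
      obtain ⟨x, hx, h2⟩ := hQ.exists_le_conjBy (opc_isPGroup q (conjBy A g))
        ((opc_le q _).trans hg)
      rwa [hQn.conjBy_eq hx] at h2
    rw [eq_bot_iff, ← commutator_opc_eq_bot hr h.prime hrq (normalizer (X : Set G))]
    exact commutator_mono le_rfl (h1.trans hQO)
  have hEeq : E = normalizer (X : Set G) :=
    le_antisymm hEX (hmax _ (hE.of_le hEX hE1top hE1T) hEX)
  have hXQ : X = Q := by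
    apply le_antisymm
    · have := hQ.opc_le
      rwa [← hEeq] at this
    · rw [← hEeq] at hQO
      exact hQO
  refine ⟨Q, isSylowIn_top_of_normalizer_le hQ ?_, ?_⟩
  · rw [hXQ]
  · rw [← hXQ]
    exact hEeq

theorem MCq.exists_root (h : MCq A q) : ∃ H₀ : Subgroup G,
    (∀ r, Iplus A q r → ¬ r ∣ Nat.card H₀) ∧
    ∀ E, InP A E → TypeT A q E →
      (∀ r, Iplus A q r → ¬ r ∣ Nat.card (centralizer (Wsub A q E : Set G))) →
      ∃ g, E ≤ MP_5771ce_al.conjBy H₀ g := by
  classical
  have := Fact.mk h.prime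
  have hexmax : ∀ E, InP A E → TypeT A q E →
      (∀ r, Iplus A q r → ¬ r ∣ Nat.card (centralizer (Wsub A q E : Set G))) →
      ∃ F, E ≤ F ∧ RootP A q F ∧ ∀ K, RootP A q K → F ≤ K → K ≤ F := by
    intro E h1 h2 h3
    obtain ⟨F, hF, hm⟩ := (Set.toFinite {F | RootP A q F}).exists_le_maximal
      (show E ∈ {F | RootP A q F} from ⟨h1, h2, h3⟩)
    exact ⟨F, hF, hm.prop, fun K hK hFK => hm.le_of_ge hK hFK⟩
  obtain ⟨Q, hQ⟩ := exists_isSylowIn (p := q) (⊤ : Subgroup G)
  by_cases hT1 : CaseT1 A q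
  · refine ⟨normalizer (wQ A q Q : Set G), fun r hr => ?_, ?_⟩
    · refine root_aux h hQ (wQ_le fun g h1 _ => h1) (normalizer_le_normalizer_wQ h.prime Q) ?_ hr
      intro g hg
      have hBg : MCq (MP_5771ce_al.conjBy A g) q := h.conjBy g
      have h1 : opc q (MP_5771ce_al.conjBy A g) ≤ Q := opc_le_of_permutes hBg hQ le_top hg
      apply le_wQ h1
      rw [← commutator_eq_bot_iff_le_centralizer, commutator_comm]
      exact (hT1.conjBy g) _ hQ.isPGroup hg h1
    · intro E h1 h2 h3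
      obtain ⟨F, hEF, hF, hm⟩ := hexmax E h1 h2 h3
      obtain ⟨Q', hQ', hFe⟩ := root_T1 h hT1 hF hm
      obtain ⟨y, -, hy⟩ := hQ.exists_conjBy_eq hQ'
      refine ⟨y, hEF.trans ?_⟩
      rw [hFe, ← hy, wQ_conjBy h.prime, root_normalizer_conjBy]
  · refine ⟨normalizer (Q : Set G), fun r hr => ?_, ?_⟩
    · refine root_aux h hQ le_rfl le_rfl ?_ hr
      intro g hg
      exact opc_le_of_permutes (h.conjBy g) hQ le_top hg
    · intro E h1 h2 h3
      obtain ⟨F, hEF, hF, hm⟩ := hexmax E h1 h2 h3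
      obtain ⟨Q', hQ', hFe⟩ := root_T2 h hT1 hF hm
      obtain ⟨y, -, hy⟩ := hQ.exists_conjBy_eq hQ'
      refine ⟨y, hEF.trans ?_⟩
      rw [hFe, ← hy, root_normalizer_conjBy]

end main

end MP_5771ce_al
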