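import Pool.Agent.Lib.MP_5771ce_al.S3.UQ
import Pool.Agent.Lib.MP_5771ce_al.S3.Root
import Pool.Agent.Lib.MP_5771ce_al.S3.MR
import Pool.Agent.Lib.MP_5771ce_al.S3.Beta
import Pool.Agent.Lib.MP_5771ce_al.Tree

/-!
# Section 3: conclusion (3.15), instantiation of the tree theorem
-/

open Subgroup
open scoped Pointwise commutatorElement

universe u

namespace MP_5771ce_al

variable {G : Type u} [Group G]

/-! ### conjugation -/

private theorem f3_conjBy_inv (B : Subgroup G) (g : G) : conjBy (conjBy B g⁻¹) g = B := by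
  rw [← conjBy_mul, inv_mul_cancel, conjBy_one]

private theorem f3_conjBy_inv' (B : Subgroup G) (g : G) : conjBy (conjBy B g) g⁻¹ = B := by
  rw [← conjBy_mul, mul_inv_cancel, conjBy_one]

private theorem f3_conjBy_top (g : G) : conjBy (⊤ : Subgroup G) g = ⊤ := by
  ext x
  rw [mem_conjBy]
  simp

private theorem f3_conjBy_ne_top {B : Subgroup G} (h : B ≠ ⊤) (g : G) : conjBy B g ≠ ⊤ := by
  intro h1
  apply h
  rw [← f3_conjBy_inv' B g, h1, f3_conjBy_top]

private theorem f3_le_conjBy_iff {B C : Subgroup G} {g : G} :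
    B ≤ conjBy C g ↔ conjBy B g⁻¹ ≤ C := by
  constructor
  · intro h
    have := conjBy_mono h g⁻¹
    rwa [f3_conjBy_inv'] at this
  · intro h
    have := conjBy_mono h g
    rwa [f3_conjBy_inv] at this

private theorem f3_isCoatom_conjBy {B : Subgroup G} (h : IsCoatom B) (g : G) :
    IsCoatom (conjBy B g) := by
  refine ⟨f3_conjBy_ne_top h.1 g, fun C hC => ?_⟩
  have h1 : B < conjBy C g⁻¹ := by
    refine lt_of_le_of_ne ?_ ?_
    · have := conjBy_mono hC.le g⁻¹
      rwa [f3_conjBy_inv'] at this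
    · intro h2
      apply hC.ne
      rw [h2, f3_conjBy_inv]
  have h2 := h.2 _ h1
  rw [← f3_conjBy_inv C g, h2, f3_conjBy_top]

private theorem f3_normalizer_conjBy (S : Subgroup G) (g : G) :
    normalizer (conjBy S g : Set G) = conjBy (normalizer (S : Set G)) g := by
  ext x
  rw [mem_conjBy, Subgroup.mem_normalizer_iff, Subgroup.mem_normalizer_iff]
  constructor
  · intro h y
    have := h (g⁻¹ * y * g)
    rw [mem_conjBy, mem_conjBy] at this
    have e1 : g * (g⁻¹ * y * g) * g⁻¹ = y := by group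
    have e2 : g * (x * (g⁻¹ * y * g) * x⁻¹) * g⁻¹ = g * x * g⁻¹ * y * (g * x * g⁻¹)⁻¹ := by group
    rwa [e1, e2] at this
  · intro h y
    have := h (g * y * g⁻¹)
    rw [mem_conjBy, mem_conjBy]
    have e2 : g * (x * y * x⁻¹) * g⁻¹ = g * x * g⁻¹ * (g * y * g⁻¹) * (g * x * g⁻¹)⁻¹ := by group
    rwa [e2]

/-- The part of the structure of a vertex used in the tree theorem. -/
structure TreeVert (A : Subgroup G) (q : ℕ) (M D H : Subgroup G) : Prop where
  coatom : IsCoatom M
  D_le : D ≤ M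
  norm : ∀ m ∈ M, ∀ d ∈ D, m * d * m⁻¹ ∈ D
  comm : ∀ x ∈ D, ∀ y ∈ D, x * y = y * x
  ne : D ≠ ⊥
  H_le : H ≤ M
  mul : ∀ m ∈ M, ∃ d ∈ D, ∃ h ∈ H, m = d * h
  cop : (Nat.card D).Coprime (Nat.card H)
  syl : ∀ s : ℕ, s.Prime → s ∣ Nat.card D → Iplus A q s ∧
    ∃ S ≤ D, IsSylowIn s S ⊤ ∧ normalizer (S : Set G) = M

theorem MRdata.treeVert {A : Subgroup G} {q : ℕ} {M D H : Subgroup G} (h : MRdata A q M D H) :
    TreeVert A q M D H where
  coatom := h.coatom
  D_le := h.D_normal.1
  norm := fun _ hm _ hd => h.D_normal.2 _ hm _ hd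
  comm := h.D_comm
  ne := h.D_ne
  H_le := h.H_le
  mul := by
    intro m hm
    rw [← h.sup, mem_sup_of_le_normalizer' (h.H_le.trans h.D_normal.le_normalizer)] at hm
    obtain ⟨n, hn, b, hb, e⟩ := hm
    exact ⟨n, hn, b, hb, e.symm⟩
  cop := h.cop
  syl := h.syl

theorem TreeVert.conjBy {A : Subgroup G} {q : ℕ} {M D H : Subgroup G}
    (h : TreeVert A q M D H) (g : G) :
    TreeVert A q (MP_5771ce_al.conjBy M g) (MP_5771ce_al.conjBy D g)
      (MP_5771ce_al.conjBy H g) where
  coatom := f3_isCoatom_conjBy h.coatom g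
  D_le := conjBy_mono h.D_le g
  norm := by
    intro m hm d hd
    rw [mem_conjBy] at hm hd ⊢
    have := h.norm _ hm _ hd
    have e : g * (m * d * m⁻¹) * g⁻¹ = g * m * g⁻¹ * (g * d * g⁻¹) * (g * m * g⁻¹)⁻¹ := by group
    rwa [e]
  comm := comm_conjBy h.comm g
  ne := conjBy_ne_bot h.ne g
  H_le := conjBy_mono h.H_le g
  mul := by
    intro m hm
    rw [mem_conjBy] at hm
    obtain ⟨d, hd, k, hk, e⟩ := h.mul _ hm
    refine ⟨g⁻¹ * d * g, ?_, g⁻¹ * k * g, ?_, ?_⟩
    · rw [mem_conjBy]; simpa [mul_assoc] using hd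
    · rw [mem_conjBy]; simpa [mul_assoc] using hk
    · have : m = g⁻¹ * (g * m * g⁻¹) * g := by group
      rw [this, e]; group
  cop := by rw [card_conjBy, card_conjBy]; exact h.cop
  syl := by
    intro s hs hd
    rw [card_conjBy] at hd
    obtain ⟨h1, S, hS, hS1, hS2⟩ := h.syl s hs hd
    refine ⟨h1, MP_5771ce_al.conjBy S g, conjBy_mono hS g, ?_, ?_⟩
    · have := hS1.conjBy g
      rwa [f3_conjBy_top] at this
    · rw [f3_normalizer_conjBy, hS2]

/-- A maximal subgroup `N_G(R)`, `R` a Sylow `r`-subgroup, `r ∈ I⁺`. -/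
def IsMR (A : Subgroup G) (q : ℕ) (M : Subgroup G) : Prop :=
  ∃ (r : ℕ) (R : Subgroup G), Iplus A q r ∧ IsSylowIn r R ⊤ ∧ M = normalizer (R : Set G)

theorem IsMR.conjBy {A : Subgroup G} {q : ℕ} {M : Subgroup G} (h : IsMR A q M) (g : G) :
    IsMR A q (MP_5771ce_al.conjBy M g) := by
  obtain ⟨r, R, h1, h2, rfl⟩ := h
  refine ⟨r, MP_5771ce_al.conjBy R g, h1, ?_, (f3_normalizer_conjBy R g).symm⟩
  have := h2.conjBy g
  rwa [f3_conjBy_top] at this

variable [Finite G] {A : Subgroup G} {q : ℕ}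

/-- An element of prime order `s` of `M = N_G(S)` lies in the Sylow `s`-subgroup `S`. -/
private theorem f3_mem_syl {s : ℕ} [Fact s.Prime] {S : Subgroup G} (hS : IsSylowIn s S ⊤) {x : G}
    (hx : x ∈ normalizer (S : Set G)) (ho : orderOf x = s) : x ∈ S := by
  have h1 : IsSylowIn s S (normalizer (S : Set G)) := hS.of_le le_normalizer le_top
  have h2 : IsPGroup s (zpowers x) :=
    IsPGroup.of_card (n := 1) (by rw [Nat.card_zpowers, ho, pow_one])
  obtain ⟨y, hy, h3⟩ := h1.exists_le_conjBy h2 (zpowers_le.2 hx)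
  rw [conjBy_eq_of_mem_normalizer hy] at h3
  exact h3 (mem_zpowers x)

omit [Finite G] in
private theorem f3_mem_normalizer_zpowers {d x : G} (hdx : d * x = x * d) :
    d ∈ normalizer (zpowers x : Set G) := by
  rw [Subgroup.mem_normalizer_iff]
  intro t
  constructor
  · intro ht
    obtain ⟨n, rfl⟩ := mem_zpowers_iff.1 ht
    have h5 : Commute d (x ^ n) := (show Commute d x from hdx).zpow_right n
    rw [h5.eq, mul_inv_cancel_right]
    exact ht
  · intro ht
    obtain ⟨n, hn⟩ := mem_zpowers_iff.1 ht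
    have h5 : Commute d (x ^ n) := (show Commute d x from hdx).zpow_right n
    have h6 : t = x ^ n := by
      have : t = d⁻¹ * (x ^ n) * d := by rw [hn]; group
      rw [this, mul_assoc, ← h5.eq]; group
    rw [h6]
    exact Subgroup.zpow_mem _ (mem_zpowers x) n

/-- `N_G(S)` is self-normalising for a Sylow subgroup `S`. -/
private theorem f3_self_normalizing {s : ℕ} [Fact s.Prime] {S : Subgroup G}
    (hS : IsSylowIn s S ⊤) {g : G}
    (hg : conjBy (normalizer (S : Set G)) g = normalizer (S : Set G)) :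
    g ∈ normalizer (S : Set G) := by
  have h1 : IsSylowIn s S (normalizer (S : Set G)) := hS.of_le le_normalizer le_top
  have h2 : IsSylowIn s (conjBy S g) (normalizer (S : Set G)) := by
    have := h1.conjBy g
    rwa [hg] at this
  obtain ⟨y, hy, h3⟩ := h1.exists_conjBy_eq h2
  rw [conjBy_eq_of_mem_normalizer hy] at h3
  exact mem_normalizer_iff_conjBy.2 h3.symm

/-- Every local subgroup lies in a maximal subgroup containing a conjugate of `A`. -/
theorem MCq.exists_coatom_of_local (h : MCq A q) {p : ℕ} (hp : p.Prime) {X : Subgroup G}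
    (hX : IsPGroup p X) (hX1 : X ≠ ⊥) :
    ∃ E : Subgroup G, IsCoatom E ∧ InP A E ∧ normalizer (X : Set G) ≤ E := by
  have : Fact p.Prime := ⟨hp⟩
  obtain ⟨x, _, hx⟩ := h.mc.her ⊤ le_top (normalizer (X : Set G)) le_top
  have hXs : Group.IsSolvable X := isSolvable_of_isPGroup hX
  have hA' : MC (MP_5771ce_al.conjBy A x⁻¹) := h.mc.conjBy x⁻¹
  have hperm : Permutes (MP_5771ce_al.conjBy A x⁻¹) (normalizer (X : Set G)) := by
    have := permutes_conj hx x⁻¹
    rwa [← conjBy_mul, mul_inv_cancel, conjBy_one] at this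
  have hne := hA'.sup_ne_top hperm (W := X)
    (normalIn_of_le_normalizer le_normalizer le_rfl) hXs hX1
  obtain ⟨E, hE, hle⟩ := (eq_top_or_exists_le_coatom
    (MP_5771ce_al.conjBy A x⁻¹ ⊔ normalizer (X : Set G))).resolve_left hne
  exact ⟨E, hE, ⟨hE.1, x⁻¹, le_sup_left.trans hle⟩, le_sup_right.trans hle⟩

/-- A maximal subgroup in `P` is one of the `M_R` or is contained in a conjugate of the root. -/
theorem MCq.coatom_cases (h : MCq A q) {H₀ : Subgroup G}
    (hroot : ∀ E, InP A E → TypeT A q E →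
      (∀ r, Iplus A q r → ¬ r ∣ Nat.card (centralizer (Wsub A q E : Set G))) →
      ∃ g, E ≤ MP_5771ce_al.conjBy H₀ g)
    {E : Subgroup G} (hE : IsCoatom E) (hP : InP A E) :
    IsMR A q E ∨ ∃ g, E ≤ MP_5771ce_al.conjBy H₀ g := by
  by_cases hT : TypeT A q E
  swap
  · left
    obtain ⟨r, R, h1, h2, h3⟩ := h.isCoatom_cases hE hT
    exact ⟨r, R, h1, h2, h3⟩
  by_cases hr : ∃ r, Iplus A q r ∧ r ∣ Nat.card E
  · left
    obtain ⟨r, hr, hd⟩ := hr
    obtain ⟨R, hR, hle, _⟩ := h.typeT_mixed hP hT hr hd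
    refine ⟨r, R, hr, hR, ?_⟩
    obtain ⟨g, hact, _⟩ := hr.exists_actV h hR
    have hne : normalizer (R : Set G) ≠ ⊤ := (hact.isCoatom (h.conjBy g)).1
    rcases hE.le_iff.1 hle with h1 | h1
    · exact absurd h1 hne
    · exact h1.symm
  · right
    push Not at hr
    obtain ⟨g, hg⟩ := hP.2
    have hW1 : Wsub A q E ≠ ⊥ :=
      ne_bot_of_le_ne_bot ((h.conjBy g).opc_ne_bot) (le_Wsub hg)
    have hWp : IsPGroup q (Wsub A q E) := (opc_isPGroup q E).to_le (hT.Wsub_le h hE.1)
    have : Fact q.Prime := ⟨h.prime⟩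
    have hWs : Group.IsSolvable (Wsub A q E) := isSolvable_of_isPGroup hWp
    have hN : normalizer (Wsub A q E : Set G) = E := by
      rcases hE.le_iff.1 (Wsub_normalIn A q E).le_normalizer with h1 | h1
      · exact absurd h1 (h.mc.normalizer_ne_top hW1 hWs)
      · exact h1
    apply hroot E hP hT
    intro r hr' hd
    apply hr r hr'
    have hle : centralizer (Wsub A q E : Set G) ≤ E :=
      (Subgroup.centralizer_le_normalizer (Wsub A q E : Set G)).trans hN.le
    exact hd.trans (Subgroup.card_dvd_of_le hle)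

/-- (3.14 e): in case BETA the maximal subgroup `N_G(S)` is of case ALPHA. -/
theorem MCq.beta_parent (h : MCq A q) {H₀ : Subgroup G}
    (hroot : ∀ E, InP A E → TypeT A q E →
      (∀ r, Iplus A q r → ¬ r ∣ Nat.card (centralizer (Wsub A q E : Set G))) →
      ∃ g, E ≤ MP_5771ce_al.conjBy H₀ g)
    {M D H : Subgroup G} (hM : MRdata A q M D H) (hn : ¬ ∃ g, H ≤ MP_5771ce_al.conjBy H₀ g) :
    ∃ S' : Subgroup G, IsMR A q S' ∧ H ≤ S' ∧
      ∀ (g : G) (D' H' : Subgroup G), MRdata A q (MP_5771ce_al.conjBy S' g) D' H' →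
        ∃ g, H' ≤ MP_5771ce_al.conjBy H₀ g := by
  have h1 : ¬ ∀ r, Iplus A q r → ¬ r ∣ Nat.card (centralizer (Wsub A q H : Set G)) :=
    fun h0 => hn (hroot H hM.H_in hM.H_typeT h0)
  push Not at h1
  obtain ⟨s, hs, hd⟩ := h1
  obtain ⟨S, hS, hHS, hne, hc⟩ := hM.beta h hs hd
  refine ⟨normalizer (S : Set G), ⟨s, S, hs, hS, rfl⟩, hHS, fun g D' H' hM' => ?_⟩
  by_contra hn'
  have h2 : ¬ ∀ r, Iplus A q r → ¬ r ∣ Nat.card (centralizer (Wsub A q H' : Set G)) :=
    fun h0 => hn' (hroot H' hM'.H_in hM'.H_typeT h0)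
  push Not at h2
  obtain ⟨t, ht, hdt⟩ := h2
  obtain ⟨T, hT, hHT, hneT, hcT⟩ := hM'.beta h ht hdt
  -- a conjugate `A₁ ≤ H`
  obtain ⟨_, a, ha⟩ := hM.H_in
  have ha1 : MP_5771ce_al.conjBy A (a * g) ≤ MP_5771ce_al.conjBy (normalizer (S : Set G)) g := by
    rw [conjBy_mul]
    exact conjBy_mono (ha.trans hHS) g
  obtain ⟨m, hm, hmH⟩ := hM'.conj (a * g) ha1
  have hMm : MP_5771ce_al.conjBy (MP_5771ce_al.conjBy (normalizer (S : Set G)) g) m =
      MP_5771ce_al.conjBy (normalizer (S : Set G)) g := conjBy_eq_self hm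
  apply hneT
  -- `S₁ = S^(g m)`
  have hS₁ : IsSylowIn s (MP_5771ce_al.conjBy S (g * m)) ⊤ := by
    have := hS.conjBy (g * m)
    rwa [f3_conjBy_top] at this
  have hN₁ : normalizer (MP_5771ce_al.conjBy S (g * m) : Set G) =
      MP_5771ce_al.conjBy (normalizer (S : Set G)) g := by
    rw [f3_normalizer_conjBy, conjBy_mul, hMm]
  have hA₂ : MCq (MP_5771ce_al.conjBy A (a * g * m)) q := h.conjBy _
  have hcS : ⁅MP_5771ce_al.conjBy S (g * m), opc q (MP_5771ce_al.conjBy A (a * g * m))⁆ = ⊥ := by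
    have h3 := hc a ha
    have h4 : MP_5771ce_al.conjBy ⁅S, opc q (MP_5771ce_al.conjBy A a)⁆ (g * m) = ⊥ := by
      rw [h3]; exact Subgroup.map_bot _
    unfold MP_5771ce_al.conjBy at h4 ⊢
    rw [Subgroup.map_commutator] at h4
    have h5 : opc q (Subgroup.map (MulAut.conj (a * g * m)⁻¹).toMonoidHom A) =
        Subgroup.map (MulAut.conj (g * m)⁻¹).toMonoidHom
          (opc q (Subgroup.map (MulAut.conj a⁻¹).toMonoidHom A)) := by
      have h6 := opc_conjBy' q (MP_5771ce_al.conjBy A a) (g * m)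
      rw [← conjBy_mul, ← mul_assoc] at h6
      exact h6
    rw [h5]
    exact h4
  have h7 := hA₂.mix_unique ((Iplus.conjBy_iff _).2 hs) ((Iplus.conjBy_iff _).2 ht) hS₁
    (by
      rw [hN₁]
      have h8 := conjBy_mono ha1 m
      rwa [hMm, ← conjBy_mul] at h8) hcS hT (hmH.trans hHT) (hcT _ hmH)
  rw [← h7, hN₁]

/-- **Section 3**: there is no minimal counterexample with `A` abelian. -/
theorem MCq.false (h : MCq A q) : False := by
  classical
  obtain ⟨H₀, hH₀, hroot⟩ := h.exists_root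
  -- classes of the `M_R`
  let κs : Setoid {M : Subgroup G // IsMR A q M} :=
    { r := fun M M' => ∃ g, MP_5771ce_al.conjBy M.1 g = M'.1
      iseqv := {
        refl := fun M => ⟨1, conjBy_one _⟩
        symm := by
          rintro M M' ⟨g, hg⟩
          exact ⟨g⁻¹, by rw [← hg, f3_conjBy_inv']⟩
        trans := by
          rintro M M' M'' ⟨g, hg⟩ ⟨k, hk⟩
          exact ⟨g * k, by rw [conjBy_mul, hg, hk]⟩ } }
  let κ := Quotient κs
  have hfin : Finite κ := inferInstance
  -- the chosen representatives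
  have hdata : ∀ c : κ, ∃ D H, MRdata A q (Quotient.out c).1 D H := by
    intro c
    obtain ⟨r, R, h1, h2, h3⟩ := (Quotient.out c).2
    rw [h3]
    exact h.exists_MRdata h1 h2
  choose D₁ H₁ hMR using hdata
  -- ALPHA and BETA
  let α : κ → Prop := fun c => ∃ g, H₁ c ≤ MP_5771ce_al.conjBy H₀ g
  have hβ : ∀ c, ¬ α c → ∃ c' : κ, α c' ∧
      ∃ y, H₁ c ≤ MP_5771ce_al.conjBy (Quotient.out c').1 y := by
    intro c hc
    obtain ⟨S', hS', hle, hall⟩ := h.beta_parent hroot (hMR c) hc
    have hrel : κs.r (Quotient.out (Quotient.mk κs ⟨S', hS'⟩)) ⟨S', hS'⟩ :=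
      Quotient.exact (Quotient.out_eq (Quotient.mk κs ⟨S', hS'⟩))
    obtain ⟨g, hg⟩ := hrel
    change MP_5771ce_al.conjBy _ g = S' at hg
    have hg' : MP_5771ce_al.conjBy S' g⁻¹ = (Quotient.out (Quotient.mk κs ⟨S', hS'⟩)).1 := by
      have := congrArg (fun B => MP_5771ce_al.conjBy B g⁻¹) hg
      rw [f3_conjBy_inv'] at this
      exact this.symm
    have h9 := hMR (Quotient.mk κs ⟨S', hS'⟩)
    refine ⟨Quotient.mk κs ⟨S', hS'⟩, hall g⁻¹ (D₁ (Quotient.mk κs ⟨S', hS'⟩))
      (H₁ (Quotient.mk κs ⟨S', hS'⟩)) ?_, g, hle.trans hg.ge⟩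
    rw [← hg'] at h9
    exact h9
  choose gα hgα using fun (c : κ) (hc : α c) => hc
  choose pc hpc y hy using hβ
  -- conjugating elements, parents, ranks
  let γ₀ : κ → G := fun c => if hc : α c then gα c hc else 1
  let γ : κ → G := fun c => if hc : α c then gα c hc else γ₀ (pc c hc) * y c hc
  let M : Option κ → Subgroup G := fun i => i.elim H₀
    fun c => MP_5771ce_al.conjBy (Quotient.out c).1 (γ c)⁻¹
  let D : Option κ → Subgroup G := fun i => i.elim ⊥
    fun c => MP_5771ce_al.conjBy (D₁ c) (γ c)⁻¹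
  let H : Option κ → Subgroup G := fun i => i.elim ⊥
    fun c => MP_5771ce_al.conjBy (H₁ c) (γ c)⁻¹
  let par : Option κ → Option κ := fun i => i.elim none
    fun c => if hc : α c then none else some (pc c hc)
  let rk : Option κ → ℕ := fun i => i.elim 0 fun c => if α c then 1 else 2
  have hV : ∀ c, TreeVert A q (M (some c)) (D (some c)) (H (some c)) := fun c =>
    (hMR c).treeVert.conjBy _
  have hIMR : ∀ c, IsMR A q (M (some c)) := fun c => (Quotient.out c).2.conjBy _
  have hHpar : ∀ c, H (some c) ≤ M (par (some c)) := by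
    intro c
    by_cases hc : α c
    · have h1 : par (some c) = none := by simp [par, hc]
      have h2 : γ c = gα c hc := by simp [γ, hc]
      rw [h1]
      change MP_5771ce_al.conjBy (H₁ c) (γ c)⁻¹ ≤ H₀
      rw [← f3_le_conjBy_iff, h2]
      exact hgα c hc
    · have h1 : par (some c) = some (pc c hc) := by simp [par, hc]
      have h2 : γ c = γ₀ (pc c hc) * y c hc := by simp [γ, hc]
      have h3 : γ (pc c hc) = γ₀ (pc c hc) := by simp [γ, γ₀, hpc c hc]
      rw [h1]
      change MP_5771ce_al.conjBy (H₁ c) (γ c)⁻¹ ≤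
        MP_5771ce_al.conjBy (Quotient.out (pc c hc)).1 (γ (pc c hc))⁻¹
      rw [h3, ← f3_le_conjBy_iff, ← conjBy_mul, h2, inv_mul_cancel_left]
      exact hy c hc
  -- `M_R` up to conjugacy
  have hclass : ∀ E, IsMR A q E → ∃ c g, E = MP_5771ce_al.conjBy (M (some c)) g := by
    intro E hE
    have hrel : κs.r (Quotient.out (Quotient.mk κs ⟨E, hE⟩)) ⟨E, hE⟩ :=
      Quotient.exact (Quotient.out_eq (Quotient.mk κs ⟨E, hE⟩))
    obtain ⟨g, hg⟩ := hrel
    refine ⟨Quotient.mk κs ⟨E, hE⟩, γ (Quotient.mk κs ⟨E, hE⟩) * g, ?_⟩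
    change E = MP_5771ce_al.conjBy (MP_5771ce_al.conjBy _ (γ _)⁻¹) (γ _ * g)
    rw [← conjBy_mul, inv_mul_cancel_left]
    exact hg.symm
  have hinj : ∀ c c' g g', MP_5771ce_al.conjBy (M (some c)) g =
      MP_5771ce_al.conjBy (M (some c')) g' → c = c' := by
    intro c c' g g' he
    rw [← Quotient.out_eq c, ← Quotient.out_eq c']
    apply Quotient.sound
    change ∃ k, MP_5771ce_al.conjBy (Quotient.out c).1 k = (Quotient.out c').1
    change MP_5771ce_al.conjBy (MP_5771ce_al.conjBy (Quotient.out c).1 (γ c)⁻¹) g =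
      MP_5771ce_al.conjBy (MP_5771ce_al.conjBy (Quotient.out c').1 (γ c')⁻¹) g' at he
    rw [← conjBy_mul, ← conjBy_mul] at he
    refine ⟨(γ c)⁻¹ * g * ((γ c')⁻¹ * g')⁻¹, ?_⟩
    rw [conjBy_mul, he, f3_conjBy_inv']
  have hconj : ∀ (K : Subgroup G) (g z : G), g⁻¹ * z * g ∈ K ↔ z ∈ MP_5771ce_al.conjBy K g⁻¹ := by
    intro K g z
    rw [mem_conjBy, inv_inv]
  have hnone : ∀ i : Option κ, i ≠ none → ∃ c, i = some c := by
    intro i hi
    cases i with
    | none => exact absurd rfl hi
    | some c => exact ⟨c, rfl⟩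
  have hIdvd : ∀ s, Iplus A q s → s ∣ Nat.card G := by
    intro s hs
    have hsp : s.Prime := hs.prime
    have : Fact s.Prime := ⟨hsp⟩
    obtain ⟨S, hS⟩ := exists_isSylowIn (p := s) (⊤ : Subgroup G)
    obtain ⟨g, hact, _⟩ := hs.exists_actV h hS
    have hSne : S ≠ ⊥ := by
      rintro rfl
      exact hact.ne (by rw [commutator_bot_left])
    obtain ⟨k, hk⟩ := (IsPGroup.iff_card).1 hS.isPGroup
    have hk0 : k ≠ 0 := by
      rintro rfl
      rw [pow_zero, Subgroup.card_eq_one] at hk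
      exact hSne hk
    refine (dvd_pow_self s hk0).trans ?_
    rw [← hk]
    exact Subgroup.card_subgroup_dvd_card S
  -- the tree hypotheses
  have T : TreeHyp M D H none par rk :=
    { rk_par := by
        intro i hi
        obtain ⟨c, rfl⟩ := hnone i hi
        by_cases hc : α c
        · simp [par, rk, hc]
        · simp [par, rk, hc, hpc c hc]
      D_le := by
        intro i hi
        obtain ⟨c, rfl⟩ := hnone i hi
        exact (hV c).D_le
      H_le := by
        intro i hi
        obtain ⟨c, rfl⟩ := hnone i hi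
        exact (hV c).H_le
      mul := by
        intro i hi
        obtain ⟨c, rfl⟩ := hnone i hi
        exact (hV c).mul
      norm := by
        intro i hi
        obtain ⟨c, rfl⟩ := hnone i hi
        exact (hV c).norm
      comm := by
        intro i hi
        obtain ⟨c, rfl⟩ := hnone i hi
        exact (hV c).comm
      cop := by
        intro i hi
        obtain ⟨c, rfl⟩ := hnone i hi
        exact (hV c).cop
      H_par := by
        intro i hi
        obtain ⟨c, rfl⟩ := hnone i hi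
        exact hHpar c
      loc := by
        intro p hp X hX hX1
        obtain ⟨E, hE, hP, hle⟩ := h.exists_coatom_of_local hp hX hX1
        rcases h.coatom_cases hroot hE hP with h1 | ⟨g, hg⟩
        · obtain ⟨c, g, hg⟩ := hclass E h1
          refine ⟨some c, g⁻¹, fun z hz => ?_⟩
          rw [hconj, inv_inv, ← hg]
          exact hle hz
        · refine ⟨none, g⁻¹, fun z hz => ?_⟩
          rw [hconj, inv_inv]
          exact hg (hle hz)
      ne := by
        intro i hi
        obtain ⟨c, rfl⟩ := hnone i hi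
        exact (hV c).ne
      cop_root := by
        intro i hi
        obtain ⟨c, rfl⟩ := hnone i hi
        by_contra hnc
        obtain ⟨s, hs, h1, h2⟩ := Nat.Prime.not_coprime_iff_dvd.1 hnc
        exact hH₀ s ((hV c).syl s hs h1).1 h2
      hall := by
        intro i hi x hx hd
        obtain ⟨c, rfl⟩ := hnone i hi
        have : Fact (orderOf x).Prime := ⟨hx⟩
        obtain ⟨_, S, hSD, hS, _⟩ := (hV c).syl _ hx hd
        obtain ⟨g, _, hg⟩ := hS.exists_le_conjBy (X := zpowers x)
          (IsPGroup.of_card (n := 1) (by rw [Nat.card_zpowers, pow_one])) le_top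
        refine ⟨some c, hi, g⁻¹, ?_⟩
        rw [hconj, inv_inv]
        exact conjBy_mono hSD g (hg (mem_zpowers x))
      uq := by
        intro x hx i g hloc j hj k hxk d hd1 hdk hdx
        obtain ⟨c, rfl⟩ := hnone j hj
        rw [hconj] at hxk hdk
        have hVk : TreeVert A q (MP_5771ce_al.conjBy (M (some c)) k⁻¹)
          (MP_5771ce_al.conjBy (D (some c)) k⁻¹) (MP_5771ce_al.conjBy (H (some c)) k⁻¹) :=
          (hV c).conjBy _
        -- a power of prime order of `d`
        have ho : orderOf d ≠ 1 := by rwa [Ne, orderOf_eq_one_iff]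
        obtain ⟨s, hs, hsd⟩ := Nat.exists_prime_and_dvd ho
        have : Fact s.Prime := ⟨hs⟩
        obtain ⟨d', hd'z, hd'o⟩ := exists_prime_power_mem hsd
        have hd'D : d' ∈ MP_5771ce_al.conjBy (D (some c)) k⁻¹ := (zpowers_le.2 hdk) hd'z
        have hd'1 : d' ≠ 1 := by
          rintro rfl
          rw [orderOf_one] at hd'o
          exact hs.one_lt.ne hd'o
        have hd'x : d' * x = x * d' := by
          obtain ⟨n, rfl⟩ := mem_zpowers_iff.1 hd'z
          exact ((show Commute d x from hdx).zpow_left n).eq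
        have hsD : s ∣ Nat.card (MP_5771ce_al.conjBy (D (some c)) k⁻¹ : Subgroup G) := by
          rw [← hd'o]
          exact Subgroup.orderOf_dvd_natCard _ hd'D
        obtain ⟨hsI, S, hSD, hS, hSM⟩ := hVk.syl s hs hsD
        have hd'S : d' ∈ S := f3_mem_syl hS (by rw [hSM]; exact hVk.D_le hd'D) hd'o
        have hE : ∀ z ∈ normalizer (zpowers x : Set G), z ∈ MP_5771ce_al.conjBy (M i) g⁻¹ :=
          fun z hz => (hconj _ _ _).1 (hloc z hz)
        have hd'E : d' ∈ MP_5771ce_al.conjBy (M i) g⁻¹ :=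
          hE _ (f3_mem_normalizer_zpowers hd'x)
        cases i with
        | none =>
          exfalso
          apply hH₀ s hsI
          have h1 : orderOf d' ∣ Nat.card (MP_5771ce_al.conjBy H₀ g⁻¹ : Subgroup G) :=
            Subgroup.orderOf_dvd_natCard _ hd'E
          rwa [hd'o, card_conjBy] at h1
        | some c' =>
          have hEc : IsCoatom (MP_5771ce_al.conjBy (M (some c')) g⁻¹) :=
            ((hV c').conjBy _).coatom
          have hEP : InP A (MP_5771ce_al.conjBy (M (some c')) g⁻¹) := by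
            refine ⟨hEc.1, ?_⟩
            obtain ⟨_, a, ha⟩ := (hMR c').H_in
            refine ⟨a * ((γ c')⁻¹ * g⁻¹), ?_⟩
            change _ ≤ MP_5771ce_al.conjBy (MP_5771ce_al.conjBy (Quotient.out c').1 (γ c')⁻¹) g⁻¹
            rw [conjBy_mul, ← conjBy_mul (Quotient.out c').1]
            exact conjBy_mono (ha.trans (hMR c').H_le) _
          have huq := h.uq hEP hE hsI hS (by rw [hSM]; exact hxk) hd'S hd'1 hd'x
          rw [hSM] at huq
          have heq : MP_5771ce_al.conjBy (M (some c')) g⁻¹ =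
              MP_5771ce_al.conjBy (M (some c)) k⁻¹ := by
            rcases hEc.le_iff.1 huq with h1 | h1
            · exact absurd h1 hVk.coatom.1
            · exact h1.symm
          have hcc := hinj _ _ _ _ heq
          subst hcc
          refine ⟨rfl, ?_⟩
          obtain ⟨r, R, hr, hR, hRM⟩ := hIMR c'
          have : Fact r.Prime := ⟨hr.prime⟩
          rw [hRM] at heq ⊢
          apply f3_self_normalizing hR
          have h2 := congrArg (fun B => MP_5771ce_al.conjBy B k) heq
          rw [f3_conjBy_inv, ← conjBy_mul] at h2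
          exact h2
      ne_top := by
        intro i
        cases i with
        | none =>
          intro ht
          obtain ⟨r, hr⟩ := h.exists_Iplus
          apply hH₀ r hr
          change H₀ = ⊤ at ht
          rw [ht, Subgroup.card_top]
          exact hIdvd r hr
        | some c => exact (hV c).coatom.1 }
  exact T.false

theorem not_MC_of_comm {A : Subgroup G} (h : MC A)
    (hab : ∀ a ∈ A, ∀ b ∈ A, a * b = b * a) : False := by
  have hne : Nat.card A ≠ 1 := by
    rw [Ne, Subgroup.card_eq_one]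
    exact h.ne_bot
  have hfin : (Nat.card A).primeFactors.Nonempty := by
    rw [Nat.nonempty_primeFactors]
    have : 0 < Nat.card A := Nat.card_pos
    omega
  obtain ⟨q, hq, hmax⟩ := Finset.exists_max_image _ id hfin
  rw [Nat.mem_primeFactors] at hq
  refine MCq.false (A := A) (q := q) ⟨h, hab, hq.1, hq.2.1, fun p hp hd => ?_⟩
  exact hmax p (Nat.mem_primeFactors.2 ⟨hp, hd, hq.2.2⟩)

end MP_5771ce_al
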