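import Pool.Agent.Lib.MP_5771ce_al.S3.Act

/-!
# Section 3 (MP_5771ce_al): Lemma T (3.4)
-/

open Subgroup
open scoped Pointwise commutatorElement

universe u

namespace MP_5771ce_al

variable {G : Type u} [Group G]

/-- `A` permutes with a Sylow `s`-subgroup of a group `N` it normalises, `s ∤ |A|` -/
theorem HerPermutable.exists_sylow_of_le_normalizer [Finite G] {A : Subgroup G}
    (hA : HerPermutable A) {N : Subgroup G}
    (hn : A ≤ normalizer (N : Set G)) {s : ℕ} (hs : s.Prime) (hsA : ¬ s ∣ Nat.card A) :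
    ∃ T, IsSylowIn s T N ∧ Permutes A T := by
  have _ : Fact s.Prime := ⟨hs⟩
  have hp : Permutes N A := permutes_of_le_normalizer hn
  obtain ⟨T, hT, hAT⟩ := hA.exists_isSylowIn_permutes (le_sup_left : A ≤ A ⊔ N) s
  obtain ⟨T₀, hT₀⟩ := exists_isSylowIn (p := s) N
  have hN : NormalIn N (A ⊔ N) :=
    normalIn_of_le_normalizer le_sup_right (sup_le hn Subgroup.le_normalizer)
  have h1 : IsSylowIn s T₀ (A ⊔ N) := by
    refine ⟨hT₀.le.trans le_sup_right, hT₀.isPGroup, ?_⟩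
    rw [← relIndex_mul_relIndex T₀ N (A ⊔ N) hT₀.le le_sup_right]
    intro hd
    rcases (Nat.Prime.dvd_mul hs).1 hd with h2 | h2
    · exact hT₀.not_dvd h2
    · apply hsA
      rw [sup_comm, hp.relIndex_sup] at h2
      exact h2.trans (relIndex_dvd_card _ _)
  obtain ⟨x, hx, h2⟩ := h1.exists_conjBy_eq hT
  have h3 : T ≤ N := by
    rw [← h2, ← hN.conjBy_eq hx]
    exact conjBy_mono hT₀.le x
  exact ⟨T, hT.of_le h3 le_sup_right, hAT⟩

/-- a subgroup containing `D` and a Sylow subgroup -/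
theorem eq_sup_of_relIndex {s : ℕ} (hs : s.Prime) {D T N : Subgroup G} {k : ℕ} (hDN : D ≤ N)
    (hk : D.relIndex N = s ^ k) (hT : IsSylowIn s T N) : D ⊔ T = N := by
  apply le_antisymm (sup_le hDN hT.le)
  rw [← relIndex_eq_one]
  have h1 : (D ⊔ T).relIndex N ∣ s ^ k := by
    rw [← hk, ← relIndex_mul_relIndex D (D ⊔ T) N le_sup_left (sup_le hDN hT.le)]
    exact dvd_mul_left _ _
  have h2 : (D ⊔ T).relIndex N ∣ T.relIndex N := by
    rw [← relIndex_mul_relIndex T (D ⊔ T) N le_sup_right (sup_le hDN hT.le)]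
    exact dvd_mul_left _ _
  refine Nat.eq_one_of_dvd_coprimes (Nat.Coprime.pow_left k ?_) h1 h2
  exact (Nat.Prime.coprime_iff_not_dvd hs).2 hT.not_dvd

theorem inf_eq_bot_of_primes {s t : ℕ} (hs : s.Prime) (ht : t.Prime) (hst : s ≠ t)
    {S T : Subgroup G} (hS : IsPGroup s S) (hT : IsPGroup t T) : S ⊓ T = ⊥ := by
  have _ : Fact s.Prime := ⟨hs⟩
  have _ : Fact t.Prime := ⟨ht⟩
  rw [← disjoint_iff]
  exact IsPGroup.disjoint_of_ne s t hst S T hS hT

/-- An element of `q`-power order acting on an `r`-group `Y`, `r < q`, leaving a normal subgroup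
of index `r` invariant, acts trivially on the factor. -/
theorem conj_mul_inv_mem_of_index {Y : Subgroup G} [Finite G] {K : Subgroup Y} [hK : K.Normal]
    {r q : ℕ} (hr : r.Prime) (hq : q.Prime) (hrq : r < q) (hi : K.index = r) {v : G}
    (hv : ∃ k : ℕ, v ^ q ^ k = 1) (hY : ∀ y ∈ Y, v * y * v⁻¹ ∈ Y) (hY' : ∀ y ∈ Y, v⁻¹ * y * v ∈ Y)
    (hKv : ∀ y ∈ K.map Y.subtype, v * y * v⁻¹ ∈ K.map Y.subtype)
    (hKv' : ∀ y ∈ K.map Y.subtype, v⁻¹ * y * v ∈ K.map Y.subtype) {y : G} (hy : y ∈ Y) :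
    y⁻¹ * (v * y * v⁻¹) ∈ K.map Y.subtype := by
  set φ : Y ≃* Y := conjEquiv v hY hY' with hφ
  have hφc : ∀ y : Y, ((φ y : Y) : G) = v * y * v⁻¹ := fun y => rfl
  have hmem : ∀ y : Y, y ∈ K ↔ (y : G) ∈ K.map Y.subtype := by
    intro y
    constructor
    · intro h; exact ⟨y, h, rfl⟩
    · rintro ⟨z, hz, e⟩
      have : z = y := Subtype.ext e
      rwa [← this]
  have hKφ : K.map (φ : Y →* Y) = K := by
    apply le_antisymm
    · rintro _ ⟨z, hz, rfl⟩
      rw [hmem]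
      exact hKv _ ((hmem z).1 hz)
    · intro z hz
      refine ⟨φ.symm z, ?_, by simp⟩
      show φ.symm z ∈ K
      rw [hmem]
      have : ((φ.symm z : Y) : G) = v⁻¹ * z * v := rfl
      rw [this]
      exact hKv' _ ((hmem z).1 hz)
  set ψ : MulAut (Y ⧸ K) := QuotientGroup.congr K K φ hKφ with hψ
  have hψc : ∀ z : Y, ψ (QuotientGroup.mk z) = QuotientGroup.mk (φ z) := fun z => rfl
  have hpow : ∀ (n : ℕ) (z : Y), ∃ w : Y, (w : G) = v ^ n * z * (v ^ n)⁻¹ ∧
      (ψ ^ n) (QuotientGroup.mk z) = QuotientGroup.mk w := by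
    intro n
    induction n with
    | zero => intro z; exact ⟨z, by simp, rfl⟩
    | succ n ih =>
      intro z
      obtain ⟨w, hw, e⟩ := ih z
      refine ⟨φ w, ?_, ?_⟩
      · rw [hφc, hw, pow_succ']; group
      · rw [pow_succ', MulAut.mul_apply, e, hψc]
  obtain ⟨k, hk⟩ := hv
  have h1 : ψ ^ q ^ k = 1 := by
    ext z
    obtain ⟨z, rfl⟩ := QuotientGroup.mk_surjective z
    obtain ⟨w, hw, e⟩ := hpow (q ^ k) z
    rw [e, MulAut.one_apply]
    congr 1
    apply Subtype.ext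
    rw [hw, hk]
    simp
  have _ : Fact r.Prime := ⟨hr⟩
  have hcyc : IsCyclic (Y ⧸ K) := isCyclic_of_prime_card (p := r) hi
  have h2 : Nat.card (MulAut (Y ⧸ K)) = r - 1 := by
    rw [IsCyclic.card_mulAut]
    have : Nat.card (Y ⧸ K) = r := hi
    rw [this, Nat.totient_prime hr]
  have h3 : orderOf ψ ∣ r - 1 := by rw [← h2]; exact orderOf_dvd_natCard _
  have h4 : ¬ q ∣ r - 1 := by
    intro hd
    have h5 := Nat.le_of_dvd (Nat.sub_pos_of_lt hr.one_lt) hd
    omega
  have h5 : ψ = 1 := by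
    rw [← orderOf_eq_one_iff]
    exact Nat.eq_one_of_dvd_coprimes
      (Nat.Coprime.pow_left k ((Nat.Prime.coprime_iff_not_dvd hq).2 h4))
      (orderOf_dvd_of_pow_eq_one h1) h3
  have h6 : (QuotientGroup.mk (⟨y, hy⟩ : Y) : Y ⧸ K) = QuotientGroup.mk (φ ⟨y, hy⟩) := by
    rw [← hψc, h5, MulAut.one_apply]
  rw [QuotientGroup.eq] at h6
  exact ⟨_, h6, rfl⟩

theorem commutator_eq_bot_of_chain [Finite G] {N B V : Subgroup G} {r q : ℕ} (hr : r.Prime)
    (hq : q.Prime) (hrq : r < q) (hN : IsPGroup r N) (hV : IsPGroup q V) (hBN : B ≤ N)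
    (hinv : ∀ Y, B ≤ Y → Y ≤ N → V ≤ normalizer (Y : Set G)) (hB : ⁅B, V⁆ = ⊥) :
    ⁅N, V⁆ = ⊥ := by
  have _ : Fact r.Prime := ⟨hr⟩
  have _ : Fact q.Prime := ⟨hq⟩
  have key : ∀ n : ℕ, ∀ Y : Subgroup G, Nat.card Y = n → B ≤ Y → Y ≤ N → ⁅Y, V⁆ = ⊥ := by
    intro n
    induction n using Nat.strong_induction_on with
    | _ n ih =>
    intro Y hYn hBY hYN
    rcases eq_or_lt_of_le hBY with h1 | h1
    · rw [← h1]; exact hB
    have hYp : IsPGroup r Y := hN.to_le hYN
    have h2 : B.subgroupOf Y ≠ ⊤ := by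
      intro h2
      exact h1.not_ge (subgroupOf_eq_top.1 h2)
    obtain ⟨K, hK, hBK⟩ := (eq_top_or_exists_le_coatom (B.subgroupOf Y)).resolve_left h2
    have hKn : K.Normal := normal_of_coatom_of_pgroup hYp hK
    have hKi : K.index = r := index_coatom_of_pgroup hYp hK
    set Y₀ := K.map Y.subtype with hY₀
    have hY₀Y : Y₀ ≤ Y := map_subtype_le _
    have hBY₀ : B ≤ Y₀ := by
      rw [← map_subtype_subgroupOf hBY]
      exact map_mono hBK
    have hcard : Nat.card Y₀ < n := by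
      have h3 : Nat.card Y₀ = Nat.card K :=
        (Nat.card_congr (K.equivMapOfInjective _ Y.subtype_injective).toEquiv).symm
      rw [h3, ← hYn, ← K.card_mul_index, hKi]
      have h4 : 0 < Nat.card K := Nat.card_pos
      nlinarith [hr.two_le]
    have h3 := ih _ hcard Y₀ rfl hBY₀ (hY₀Y.trans hYN)
    have hVY := hinv Y hBY hYN
    have hVY₀ := hinv Y₀ hBY₀ (hY₀Y.trans hYN)
    have hqY : ¬ q ∣ Nat.card Y := not_dvd_card_of_isPGroup hq hr hrq.ne hYp
    refine commutator_eq_bot_of_series hV hVY hqY ?_ h3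
    rw [commutator_le]
    intro y hy v hv
    have h4 : y⁻¹ * (v * y * v⁻¹) ∈ Y₀ := by
      obtain ⟨k, hk⟩ := hV ⟨v, hv⟩
      refine conj_mul_inv_mem_of_index hr hq hrq hKi ⟨k, congrArg Subtype.val hk⟩
        (fun z hz => (mem_normalizer_iff.1 (hVY hv) z).1 hz)
        (fun z hz => by
          have := (mem_normalizer_iff.1 (inv_mem (hVY hv)) z).1 hz
          rwa [inv_inv] at this)
        (fun z hz => (mem_normalizer_iff.1 (hVY₀ hv) z).1 hz)
        (fun z hz => by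
          have := (mem_normalizer_iff.1 (inv_mem (hVY₀ hv)) z).1 hz
          rwa [inv_inv] at this) hy
    -- `Y₀` is normal in `Y`
    have hYY₀ : ∀ z ∈ Y₀, y * z * y⁻¹ ∈ Y₀ := by
      rintro _ ⟨z, hz, rfl⟩
      exact ⟨⟨y, hy⟩ * z * ⟨y, hy⟩⁻¹, hKn.conj_mem z hz _, rfl⟩
    have h5 := hYY₀ _ (inv_mem h4)
    have h6 : ⁅y, v⁆ = y * (y⁻¹ * (v * y * v⁻¹))⁻¹ * y⁻¹ := by
      rw [commutatorElement_def]; group
    rw [h6]
    exact h5
  exact key _ N rfl hBN le_rfl

theorem isSolvable_sup_of_le_rad [Finite G] {A T : Subgroup G} (hA : A ≤ rad ⊤)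
    (hT : Group.IsSolvable T) : Group.IsSolvable (A ⊔ T : Subgroup G) := by
  have hradn : (rad (⊤ : Subgroup G)).Normal := normalIn_top.1 (rad_normalIn ⊤)
  have h1 : Group.IsSolvable (rad (⊤ : Subgroup G) ⊔ T : Subgroup G) :=
    isSolvable_sup (rad_isSolvable ⊤) hT (by
      rw [normalizer_eq_top_iff.2 hradn]; exact le_top)
  exact isSolvable_of_le h1 (sup_le_sup_right hA T)

theorem lemmaT_top [Finite G] {A : Subgroup G} (hA : HerPermutable A)
    (hab : ∀ a ∈ A, ∀ b ∈ A, a * b = b * a) (hrad : A ≤ rad ⊤) {q : ℕ}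
    (hq : q.Prime) (hmax : ∀ p : ℕ, p.Prime → p ∣ Nat.card A → p ≤ q)
    (hc : ∀ s : ℕ, s.Prime → ¬ s ∣ Nat.card A → ∀ S : Subgroup G, IsPGroup s S →
      A ≤ normalizer (S : Set G) → ⁅S, opc q A⁆ = ⊥) :
    opc q A ≤ opc q ⊤ := by
  have _ : Fact q.Prime := ⟨hq⟩
  have hOn : (opc q (⊤ : Subgroup G)).Normal := normalIn_top.1 (opc_normalIn q ⊤)
  set O := opc q (⊤ : Subgroup G) with hO
  set f := QuotientGroup.mk' O with hf
  have hfs : Function.Surjective f := QuotientGroup.mk'_surjective O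
  have hker : f.ker = O := QuotientGroup.ker_mk' O
  suffices h1 : (opc q A).map f = ⊥ by
    rw [Subgroup.map_eq_bot_iff, hker] at h1
    exact h1
  rw [← le_bot_iff, ← (opc_quotient_opc q : opc q (⊤ : Subgroup (G ⧸ O)) = ⊥)]
  have hVp : IsPGroup q ((opc q A).map f) := (opc_isPGroup q A).map f
  have hAr' : A.map f ≤ rad ⊤ := by
    refine (Subgroup.map_mono hrad).trans ((map_rad_le ⊤ f).trans ?_)
    rw [Subgroup.map_top_of_surjective f hfs]
  have hVA : (opc q A).map f ≤ A.map f := map_mono (opc_le q A)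
  refine le_opc_top_of_centralizes hVp (hVA.trans hAr') ?_
  intro r hr
  have _ : Fact r.Prime := ⟨hr⟩
  have hNn : (opc r (⊤ : Subgroup (G ⧸ O))).Normal := normalIn_top.1 (opc_normalIn r ⊤)
  have hNp : IsPGroup r (opc r (⊤ : Subgroup (G ⧸ O))) := opc_isPGroup r ⊤
  by_cases hrq : r = q
  · subst hrq
    intro x _ n hn
    have h2 : n ∈ (⊥ : Subgroup (G ⧸ O)) := by
      rw [← (opc_quotient_opc r : opc r (⊤ : Subgroup (G ⧸ O)) = ⊥)]
      exact hn
    rw [mem_bot] at h2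
    rw [h2]; simp
  suffices h2 : ⁅opc r (⊤ : Subgroup (G ⧸ O)), (opc q A).map f⁆ = ⊥ by
    intro x hx n hn
    rw [commutator_eq_bot_iff_le_centralizer] at h2
    exact mem_centralizer_iff.1 (h2 hn) x hx
  by_cases hrA : r ∣ Nat.card A
  · -- `r < q`
    have hlt : r < q := lt_of_le_of_ne (hmax r hr hrA) hrq
    have hAh : HerPermutable (A.map f) := hA.map hfs
    have hAN : ∀ a ∈ A.map f, ∀ n ∈ opc r (⊤ : Subgroup (G ⧸ O)),
        a * n * a⁻¹ ∈ opc r (⊤ : Subgroup (G ⧸ O)) := fun a _ n hn => hNn.conj_mem n hn a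
    refine commutator_eq_bot_of_chain (B := A.map f ⊓ opc r ⊤) hr hq hlt hNp hVp inf_le_right ?_ ?_
    · intro Y hBY hYN
      refine hVA.trans (le_normalizer_of_conj_mem ?_)
      exact conj_mem_of_permutes (hAh.permutes_of_le_opc le_top hYN) hYN hBY hAN
    · rw [commutator_eq_bot_iff_le_centralizer]
      rintro x ⟨hx, -⟩
      obtain ⟨a, ha, rfl⟩ := hx
      rw [mem_centralizer_iff]
      rintro _ ⟨b, hb, rfl⟩
      rw [← map_mul, ← map_mul, hab b (opc_le q A hb) a ha]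
  · -- `r ∤ |A|`
    set N := (opc r (⊤ : Subgroup (G ⧸ O))).comap f with hN
    have hNN : N.Normal := hNn.comap f
    have hAN : A ≤ normalizer (N : Set G) := by
      rw [normalizer_eq_top_iff.2 hNN]; exact le_top
    obtain ⟨T, hTN, hAT⟩ := hA.exists_sylow_of_le_normalizer hAN hr hrA
    obtain ⟨k, hk⟩ := IsPGroup.iff_card.1 hNp
    have hON : O ≤ N := by
      intro x hx
      rw [hN, mem_comap]
      have h3 : f x = 1 := by rwa [← MonoidHom.mem_ker, hker]
      rw [h3]; exact one_mem _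
    have hrel : O.relIndex N = r ^ k := by
      have h3 := relIndex_ker f (K := N)
      rw [hker, hN, map_comap_eq_self_of_surjective hfs, hk] at h3
      exact h3
    have hsup : O ⊔ T = N := eq_sup_of_relIndex hr hON hrel hTN
    have hcom : ⁅T, opc q A⁆ ≤ O := by
      rcases DI hA hab hTN.isPGroup hrA hAT (isSolvable_sup_of_le_rad hrad
        (isSolvable_of_isPGroup hTN.isPGroup)) with h3 | h3
      · have h4 : ⁅T, opc q A⁆ ≤ opc q A := le_normalizer_iff_commutator_le_right.1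
          (h3.trans (normalizer_le_normalizer_opc q A))
        have h5 : ⁅T, opc q A⁆ ≤ N := by
          refine (commutator_mono hTN.le le_rfl).trans ?_
          exact le_normalizer_iff_commutator_le_left.1 ((opc_le q A).trans hAN)
        have h6 : (⁅T, opc q A⁆).map f ≤ (opc q A).map f ⊓ opc r ⊤ := by
          refine le_inf (map_mono h4) ?_
          rw [map_le_iff_le_comap]
          exact h5
        rw [inf_eq_bot_of_primes hq hr (Ne.symm hrq) hVp hNp, le_bot_iff,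
          Subgroup.map_eq_bot_iff, hker] at h6
        exact h6
      · rw [hc r hr hrA T hTN.isPGroup h3]
        exact bot_le
    rw [← le_bot_iff, commutator_le]
    rintro n hn _ ⟨v, hv, rfl⟩
    obtain ⟨n, rfl⟩ := hfs n
    have hnN : n ∈ O ⊔ T := by rw [hsup]; exact hn
    have hOT : Permutes O T := permutes_of_le_normalizer (by
      rw [normalizer_eq_top_iff.2 hOn]; exact le_top)
    obtain ⟨o, ho, t, ht, rfl⟩ := hOT.mem_sup.1 hnN
    have h3 : f o = 1 := by rwa [← MonoidHom.mem_ker, hker]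
    rw [map_mul, h3, one_mul, ← map_commutatorElement, mem_bot, ← MonoidHom.mem_ker, hker]
    exact hcom (commutator_mem_commutator ht hv)

/-- Lemma T -/
theorem lemmaT [Finite G] {A E : Subgroup G} (hA : HerPermutable A)
    (hab : ∀ a ∈ A, ∀ b ∈ A, a * b = b * a) (hAE : A ≤ E) (hrad : A ≤ rad E) {q : ℕ}
    (hq : q.Prime) (hmax : ∀ p : ℕ, p.Prime → p ∣ Nat.card A → p ≤ q)
    (hc : ∀ s : ℕ, s.Prime → ¬ s ∣ Nat.card A → ∀ S : Subgroup G, S ≤ E → IsPGroup s S →
      A ≤ normalizer (S : Set G) → ⁅S, opc q A⁆ = ⊥) :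
    opc q A ≤ opc q E := by
  have hcard : Nat.card (A.subgroupOf E) = Nat.card A :=
    Nat.card_congr (subgroupOfEquivOfLe hAE).toEquiv
  have h1 : opc q (A.subgroupOf E) ≤ opc q ⊤ := by
    refine lemmaT_top (hA.subgroupOf hAE) ?_ ((le_rad_iff_subgroupOf hAE).1 hrad) hq ?_ ?_
    · intro a ha b hb
      exact Subtype.ext (hab _ ha _ hb)
    · intro p hp hd
      exact hmax p hp (hcard ▸ hd)
    · intro s hs hsA S hS hAS
      rw [hcard] at hsA
      have h2 := hc s hs hsA (S.map E.subtype) (map_subtype_le _) (hS.map _) (by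
        apply le_normalizer_of_conj_mem
        rintro a ha _ ⟨x, hx, rfl⟩
        exact ⟨⟨a, hAE ha⟩ * x * ⟨a, hAE ha⟩⁻¹,
          conj_mem_of_le_normalizer hAS ⟨a, hAE ha⟩ ha x hx, rfl⟩)
      rw [opc_subgroupOf q hAE]
      rw [← map_subtype_subgroupOf ((opc_le q A).trans hAE), ← map_commutator,
        Subgroup.map_eq_bot_iff_of_injective _ E.subtype_injective] at h2
      exact h2
  have h2 := map_mono (f := E.subtype) h1
  rw [← opc_eq_map_top, opc_subgroupOf q hAE, map_subtype_subgroupOf ((opc_le q A).trans hAE)] at h2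
  exact h2

end MP_5771ce_al
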