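import Pool.Agent.Lib.MP_5771ce_al.S3.Act

/-!
# Section 3 (3.14): the structure of the maximal subgroups `M_R`, definition
-/

open Subgroup
open scoped Pointwise commutatorElement

universe u

namespace MP_5771ce_al

variable {G : Type u} [Group G]

/-- Structure of `M = N_G(R)`, `r ∈ I⁺`: `M = D H`. -/
structure MRdata (A : Subgroup G) (q : ℕ) (M D H : Subgroup G) : Prop where
  coatom : IsCoatom M
  D_normal : NormalIn D M
  D_comm : ∀ x ∈ D, ∀ y ∈ D, x * y = y * x
  D_ne : D ≠ ⊥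
  H_le : H ≤ M
  sup : D ⊔ H = M
  cop : (Nat.card D).Coprime (Nat.card H)
  /-- the primes of `D` are in `I⁺`, their Sylow subgroups in `G` are in `D` and have normalizer `M` -/
  syl : ∀ s : ℕ, s.Prime → s ∣ Nat.card D → Iplus A q s ∧
    ∃ S ≤ D, IsSylowIn s S ⊤ ∧ normalizer (S : Set G) = M
  /-- all Sylow subgroups `S` with normalizer `M` for primes in `I⁺` are in `D` -/
  all : ∀ (s : ℕ) (S : Subgroup G), Iplus A q s → IsSylowIn s S ⊤ →
    normalizer (S : Set G) = M → S ≤ D
  H_in : InP A H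
  H_typeT : TypeT A q H
  conj : ∀ g, MP_5771ce_al.conjBy A g ≤ M → ∃ m ∈ M, MP_5771ce_al.conjBy A (g * m) ≤ H

end MP_5771ce_al
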