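import Pool.Agent.Lib.MP_5771ce_al.S3.LemT

/-!
# Section 3 (MP_5771ce_al): the primes of `I⁺` and type T (3.5)
-/

open Subgroup
open scoped Pointwise commutatorElement

universe u

namespace MP_5771ce_al

variable {G : Type u} [Group G]

theorem ne_bot_of_commutator_ne {X Y : Subgroup G} (h : ⁅X, Y⁆ ≠ ⊥) : X ≠ ⊥ := by
  rintro rfl
  apply h
  rw [commutator_eq_bot_iff_le_centralizer]
  exact bot_le

theorem commutator_ne_bot_mono {X Y X' Y' : Subgroup G} (hX : X ≤ X') (hY : Y ≤ Y')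
    (h : ⁅X, Y⁆ ≠ ⊥) : ⁅X', Y'⁆ ≠ ⊥ := by
  intro h1
  apply h
  rw [← le_bot_iff, ← h1]
  exact commutator_mono hX hY

theorem le_of_isPGroup_of_index [Finite G] {A S X : Subgroup G} {s q : ℕ} (hs : s.Prime)
    (hq : q.Prime) (hqs : q ≠ s) (hS : IsPGroup s S) (hp : Permutes A S) (hX : IsPGroup q X)
    (hXL : X ≤ A ⊔ S) (hn : A ≤ normalizer (X : Set G)) : X ≤ A := by
  have _ : Fact s.Prime := ⟨hs⟩
  have _ : Fact q.Prime := ⟨hq⟩
  rw [← relIndex_eq_one]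
  obtain ⟨m, hm⟩ := IsPGroup.iff_card.1 hX
  obtain ⟨n, hn'⟩ := IsPGroup.iff_card.1 hS
  have h1 : A.relIndex X ∣ q ^ m := by
    rw [← hm]; exact relIndex_dvd_card _ _
  have h2 : A.relIndex X ∣ s ^ n := by
    have h3 : A.relIndex (A ⊔ X) ∣ A.relIndex (A ⊔ S) := by
      rw [← relIndex_mul_relIndex A (A ⊔ X) (A ⊔ S) le_sup_left (sup_le le_sup_left hXL)]
      exact dvd_mul_right _ _
    rw [(permutes_of_le_normalizer_right hn).relIndex_sup, hp.relIndex_sup] at h3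
    refine h3.trans ?_
    rw [← hn']; exact relIndex_dvd_card _ _
  exact Nat.eq_one_of_dvd_coprimes
    (Nat.Coprime.pow m n ((Nat.coprime_primes hq hs).2 hqs)) h1 h2

section typeT

variable [Finite G] {A : Subgroup G} {q : ℕ}

theorem MCq.le_opc_of_isPGroup (h : MCq A q) {X : Subgroup G} (hX : IsPGroup q X) (hXA : X ≤ A) :
    X ≤ opc q A := by
  intro x hx
  rw [mem_opc_of_abelian h.comm]
  obtain ⟨k, hk⟩ := hX ⟨x, hx⟩
  exact ⟨hXA hx, k, congrArg Subtype.val hk⟩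

omit [Finite G] in
theorem Iplus.prime {r : ℕ} (hr : Iplus A q r) : r.Prime := by
  obtain ⟨g, S, hS⟩ := hr
  exact hS.1.prime

omit [Finite G] in
theorem Iplus.not_dvd (_h : MCq A q) {r : ℕ} (hr : Iplus A q r) : ¬ r ∣ Nat.card A := by
  obtain ⟨g, S, hS⟩ := hr
  have := hS.1.ndvd
  rwa [card_conjBy] at this

/-- every Sylow `r`-subgroup, `r ∈ I⁺`, is active for some conjugate of `A` (with `O_q`) -/
theorem Iplus.exists_actV (_h : MCq A q) {r : ℕ} (hr : Iplus A q r) {R : Subgroup G}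
    (hR : IsSylowIn r R ⊤) : ∃ g, ActV q r (MP_5771ce_al.conjBy A g) R := by
  obtain ⟨g, S, hS⟩ := hr
  have _ : Fact r.Prime := ⟨hS.1.prime⟩
  obtain ⟨x, -, e⟩ := hS.1.syl.exists_conjBy_eq hR
  refine ⟨g * x, ?_⟩
  rw [conjBy_mul, ← e]
  exact hS.conj x

theorem Iplus.lt (h : MCq A q) {r : ℕ} (hr : Iplus A q r) : q < r := by
  obtain ⟨g, S, hS⟩ := hr
  have h1 := h.conjBy g
  have hqr : q ≠ r := by
    rintro rfl
    exact hS.1.ndvd h1.dvd
  by_contra hlt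
  have hlt2 : r < q := lt_of_le_of_ne (not_lt.1 hlt) hqr.symm
  apply hS.2
  refine commutator_eq_bot_of_chain (B := ⊥) hS.1.prime h.prime hlt2 hS.1.syl.isPGroup
    (opc_isPGroup q _) bot_le ?_ ?_
  · intro Y _ hY
    refine (opc_le q _).trans (le_normalizer_of_conj_mem ?_)
    exact h1.mc.her.conj_mem_of_not_dvd hS.1.prime hS.1.ndvd hS.1.syl.isPGroup hS.1.norm Y hY
  · rw [commutator_eq_bot_iff_le_centralizer]
    exact bot_le

/-- an `A`-invariant `s`-group not centralised by `V` makes `s` a prime of `I⁺` -/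
theorem MCq.Iplus_of_ne (h : MCq A q) {s : ℕ} (hs : s.Prime) (hsA : ¬ s ∣ Nat.card A)
    {S₀ : Subgroup G} (hS₀ : IsPGroup s S₀) (hn : A ≤ normalizer (S₀ : Set G))
    (hne : ⁅S₀, opc q A⁆ ≠ ⊥) : Iplus A q s ∧ ∃ S, S₀ ≤ S ∧ ActV q s A S := by
  obtain ⟨S, hS, hact⟩ := h.exists_act hs hsA hS₀ hn
    (commutator_ne_bot_mono le_rfl (opc_le q A) hne)
  have h1 : ActV q s A S := ⟨hact, commutator_ne_bot_mono hS le_rfl hne⟩
  refine ⟨⟨1, S, ?_⟩, S, hS, h1⟩
  rwa [conjBy_one]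

theorem MCq.exists_Iplus (h : MCq A q) : ∃ r, Iplus A q r := by
  by_contra hno
  push Not at hno
  have _ : Fact q.Prime := ⟨h.prime⟩
  have hc : ∀ s : ℕ, s.Prime → ¬ s ∣ Nat.card A → ∀ S : Subgroup G, IsPGroup s S →
      A ≤ normalizer (S : Set G) → ⁅S, opc q A⁆ = ⊥ := by
    intro s hs hsA S hS hn
    by_contra hne
    exact hno s (h.Iplus_of_ne hs hsA hS hn hne).1
  obtain ⟨Q, hQ⟩ := h.mc.her.exists_sylPerm q
  have hV : opc q A ≤ rad (A ⊔ Q) :=
    (opc_le q A).trans (h.mc.le_rad le_sup_left (h.mc.sup_ne_top_of_isPGroup hQ.isPGroup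
      hQ.permutes))
  obtain ⟨s, hs, hK⟩ := h.mc.K (U₁ := normalizer (opc q A : Set G)) (U₂ := A ⊔ Q) h.opc_ne_bot
    (normalIn_of_le_normalizer Subgroup.le_normalizer le_rfl) hV
  have _ : Fact s.Prime := ⟨hs⟩
  by_cases hsq : s = q
  · subst hsq
    exact (hK Q hQ).2 le_sup_right
  obtain ⟨P, hP⟩ := h.mc.her.exists_sylPerm s
  apply (hK P hP).1
  have hL : A ⊔ P ≠ ⊤ := h.mc.sup_ne_top_of_isPGroup hP.isPGroup hP.permutes
  have h1 : opc q A ≤ opc q (A ⊔ P) := lemmaT h.mc.her h.comm le_sup_left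
    (h.mc.le_rad le_sup_left hL) h.prime h.max (fun s hs hsA S _ => hc s hs hsA S)
  have h2 : A ⊔ P ≤ normalizer (opc q (A ⊔ P) : Set G) := (opc_normalIn q _).le_normalizer
  have h3 : opc q (A ⊔ P) ≤ A := le_of_isPGroup_of_index hs h.prime (Ne.symm hsq) hP.isPGroup
    hP.permutes (opc_isPGroup q _) (opc_le q _) (le_sup_left.trans h2)
  have h4 : opc q A = opc q (A ⊔ P) :=
    le_antisymm h1 (h.le_opc_of_isPGroup (opc_isPGroup q _) h3)
  rw [h4]
  exact le_sup_right.trans h2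

/-- (3.5.2) a maximal subgroup in `P` not of type T is the normalizer of a Sylow `r`-subgroup,
`r ∈ I⁺` -/
theorem MCq.isCoatom_cases (h : MCq A q) {E : Subgroup G} (hE : IsCoatom E)
    (hT : ¬ TypeT A q E) : ∃ (r : ℕ) (R : Subgroup G), Iplus A q r ∧ IsSylowIn r R ⊤ ∧
      E = normalizer (R : Set G) := by
  unfold TypeT at hT
  push Not at hT
  obtain ⟨r, hr, hrA, g, hg, hne⟩ := hT
  have h1 := h.conjBy g
  have h2 : MP_5771ce_al.conjBy A g ≤ normalizer (opc r E : Set G) :=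
    hg.trans (opc_normalIn r E).le_normalizer
  obtain ⟨h3, S, h4, h5⟩ := h1.Iplus_of_ne hr (by rwa [card_conjBy]) (opc_isPGroup r E) h2 hne
  have h6 : E ⊓ S ≠ ⊥ := by
    intro h7
    apply ne_bot_of_commutator_ne hne
    rw [← le_bot_iff, ← h7]
    exact le_inf (opc_le r E) h4
  have h7 := h5.1.le_normalizer h1 hE.1 hg h6
  refine ⟨r, S, (Iplus.conjBy_iff g).1 h3, h5.1.syl, ?_⟩
  by_contra h8
  exact (h5.1.isCoatom h1).1 (hE.2 _ (lt_of_le_of_ne h7 h8))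

/-- (3.5.3) -/
theorem TypeT.opc_le (h : MCq A q) {E : Subgroup G} (hE : E ≠ ⊤) (hT : TypeT A q E) {g : G}
    (hg : MP_5771ce_al.conjBy A g ≤ E) : opc q (MP_5771ce_al.conjBy A g) ≤ opc q E := by
  have h1 := h.conjBy g
  refine lemmaT h1.mc.her h1.comm hg (h1.mc.le_rad hg hE) h.prime h1.max ?_
  intro s hs hsA S hSE hS hn
  by_contra hne
  have _ : Fact s.Prime := ⟨hs⟩
  have hI := isoPair_of_ne h1.mc.her h1.comm hs hsA hS hn
    (commutator_ne_bot_mono le_rfl (MP_5771ce_al.opc_le q _) hne)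
  have h2 : S ≤ opc s E := h1.mc.lemmaP hg hE hSE hS hI.norm hI.comm
  rw [card_conjBy] at hsA
  exact commutator_ne_bot_mono h2 le_rfl hne (hT s hs hsA g hg)

theorem TypeT.Wsub_le (h : MCq A q) {E : Subgroup G} (hE : E ≠ ⊤) (hT : TypeT A q E) :
    Wsub A q E ≤ opc q E :=
  MP_5771ce_al.Wsub_le fun _ hg => hT.opc_le h hE hg

theorem Wsub_normalIn (A : Subgroup G) (q : ℕ) (E : Subgroup G) : NormalIn (Wsub A q E) E := by
  have h1 : ∀ e ∈ E, MP_5771ce_al.conjBy (Wsub A q E) e ≤ Wsub A q E := by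
    intro e he
    have h2 : MP_5771ce_al.conjBy (Wsub A q E) e =
        ⨆ g : {g : G // MP_5771ce_al.conjBy A g ≤ E},
          MP_5771ce_al.conjBy (opc q (MP_5771ce_al.conjBy A g.1)) e := by
      unfold Wsub
      exact Subgroup.map_iSup _ _
    rw [h2]
    refine iSup_le ?_
    rintro ⟨g, hg⟩
    rw [← opc_conjBy', ← conjBy_mul]
    apply le_Wsub
    have h3 := conjBy_mono hg e
    rw [conjBy_eq_self he, ← conjBy_mul] at h3
    exact h3
  refine ⟨MP_5771ce_al.Wsub_le fun g hg => (MP_5771ce_al.opc_le q _).trans hg, ?_⟩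
  intro e he n hn
  have h2 := h1 e⁻¹ (inv_mem he)
  apply h2
  rw [mem_conjBy, inv_inv]
  have h3 : e⁻¹ * (e * n * e⁻¹) * e = n := by group
  rw [h3]
  exact hn

/-- (3.5.3), second part: `E = N_E(V') Q` for every Sylow `q`-subgroup `Q` of `E`. -/
theorem TypeT.exists_mul (h : MCq A q) {E : Subgroup G} (hE : E ≠ ⊤) (hT : TypeT A q E) {g : G}
    (hg : MP_5771ce_al.conjBy A g ≤ E) {Q : Subgroup G} (hQ : IsSylowIn q Q E) {e : G}
    (he : e ∈ E) : ∃ n ∈ E, n ∈ normalizer (opc q (MP_5771ce_al.conjBy A g) : Set G) ∧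
      ∃ y ∈ Q, e = n * y := by
  have h1 := h.conjBy g
  have _ : Fact q.Prime := ⟨h.prime⟩
  set A' := MP_5771ce_al.conjBy A g with hA'
  set N := E ⊓ normalizer (opc q A' : Set G) with hN
  have hcop : Nat.Coprime (N.subgroupOf E).index (Q.subgroupOf E).index := by
    rw [Nat.coprime_iff_gcd_eq_one]
    by_contra hne
    obtain ⟨s, hs, hd⟩ := Nat.exists_prime_and_dvd hne
    have _ : Fact s.Prime := ⟨hs⟩
    have hd1 : s ∣ N.relIndex E := hd.trans (Nat.gcd_dvd_left _ _)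
    have hd2 : s ∣ Q.relIndex E := hd.trans (Nat.gcd_dvd_right _ _)
    have hsq : s ≠ q := by
      rintro rfl
      exact hQ.not_dvd hd2
    obtain ⟨S, hS, hperm⟩ := h1.mc.her.exists_isSylowIn_permutes hg s
    have hLE : A' ⊔ S ≤ E := sup_le hg hS.le
    have h2 : A' ⊔ S ≤ normalizer ((opc q E ⊓ (A' ⊔ S) : Subgroup G) : Set G) :=
      ((opc_normalIn q E).inf_of_le hLE).le_normalizer
    have h3 : opc q E ⊓ (A' ⊔ S) ≤ A' := le_of_isPGroup_of_index hs h.prime hsq.symm hS.isPGroup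
      hperm ((opc_isPGroup q E).to_le inf_le_left) inf_le_right (le_sup_left.trans h2)
    have h4 : opc q A' = opc q E ⊓ (A' ⊔ S) := le_antisymm
      (le_inf (hT.opc_le h hE hg) ((MP_5771ce_al.opc_le q A').trans le_sup_left))
      (h1.le_opc_of_isPGroup ((opc_isPGroup q E).to_le inf_le_left) h3)
    have h5 : S ≤ N := le_inf hS.le (by rw [h4]; exact le_sup_right.trans h2)
    apply hS.not_dvd
    rw [← relIndex_mul_relIndex S N E h5 inf_le_left]
    exact dvd_mul_of_dvd_right hd1 _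
  obtain ⟨u, hu, m, hm, hum⟩ := mul_eq_of_coprime hcop ⟨e, he⟩
  refine ⟨u, u.2, (mem_subgroupOf.1 hu).2, m, mem_subgroupOf.1 hm, ?_⟩
  rw [← Subgroup.coe_mul, hum]

end typeT

end MP_5771ce_al
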