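import Pool.Agent.Lib.MP_5771ce_al.S3.MRa
import Pool.Agent.Lib.MP_5771ce_al.S3.MRDef
import Pool.Agent.Lib.MP_5771ce_al.S3.TypeT

/-!
# Section 3 (3.14): the abelian Hall subgroup `D` of `M_R`
-/

open Subgroup
open scoped Pointwise commutatorElement

universe u

namespace MP_5771ce_al

variable {G : Type u} [Group G]

/-- The Sylow subgroups (for primes in `I⁺`) with normalizer `M`. -/
def SylN (A : Subgroup G) (q : ℕ) (M : Subgroup G) (s : ℕ) (S : Subgroup G) : Prop :=
  Iplus A q s ∧ IsSylowIn s S ⊤ ∧ normalizer (S : Set G) = M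

/-- `D*(M)`. -/
def DM (A : Subgroup G) (q : ℕ) (M : Subgroup G) : Subgroup G :=
  sSup {S | ∃ s, SylN A q M s S}

theorem SylN.le_DM {A M S : Subgroup G} {q s : ℕ} (h : SylN A q M s S) : S ≤ DM A q M :=
  le_sSup ⟨s, h⟩

theorem SylN.le {A M S : Subgroup G} {q s : ℕ} (h : SylN A q M s S) : S ≤ M := by
  rw [← h.2.2]; exact le_normalizer

variable [Finite G] {A M : Subgroup G} {q : ℕ}

theorem SylN.commute (h : MCq A q) {S S' : Subgroup G} {s s' : ℕ} (hS : SylN A q M s S)
    (hS' : SylN A q M s' S') : ∀ x ∈ S, ∀ y ∈ S', x * y = y * x := by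
  have hsp : s.Prime := hS.1.prime
  have hsp' : s'.Prime := hS'.1.prime
  have : Fact s.Prime := ⟨hsp⟩
  have : Fact s'.Prime := ⟨hsp'⟩
  obtain ⟨g, hact, _⟩ := hS.1.exists_actV h hS.2.1
  intro x hx y hy
  have hyM : y ∈ normalizer (S : Set G) := by rw [hS.2.2]; exact hS'.le hy
  have hxM : x ∈ normalizer (S' : Set G) := by rw [hS'.2.2]; exact hS.le hx
  by_cases hss : s = s'
  · subst hss
    have h1 : S' ≤ S := hact.le_of_isPGroup' hS'.2.1.isPGroup (by
      rw [hS.2.2]; exact hS'.le)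
    exact hact.comm (h.conjBy g) x hx y (h1 hy)
  · have h1 : x * y * x⁻¹ * y⁻¹ ∈ S := by
      have h2 := (Subgroup.mem_normalizer_iff.1 hyM x⁻¹).1 (S.inv_mem hx)
      have e : x * y * x⁻¹ * y⁻¹ = x * (y * x⁻¹ * y⁻¹) := by group
      rw [e]
      exact S.mul_mem hx h2
    have h2 : x * y * x⁻¹ * y⁻¹ ∈ S' :=
      S'.mul_mem ((Subgroup.mem_normalizer_iff.1 hxM y).1 hy) (S'.inv_mem hy)
    have h3 : x * y * x⁻¹ * y⁻¹ = 1 := by
      obtain ⟨a, ha⟩ := (IsPGroup.iff_orderOf.1 hS.2.1.isPGroup) ⟨_, h1⟩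
      obtain ⟨b, hb⟩ := (IsPGroup.iff_orderOf.1 hS'.2.1.isPGroup) ⟨_, h2⟩
      rw [← Subgroup.orderOf_coe] at ha hb
      have h4 : s ^ a = s' ^ b := by
        rw [← ha, ← hb]
      rw [← orderOf_eq_one_iff]
      change orderOf (x * y * x⁻¹ * y⁻¹) = 1
      rcases Nat.eq_zero_or_pos a with h0 | h0
      · rw [h0, pow_zero] at ha
        exact ha
      · exfalso
        apply hss
        have h5 : s ∣ s' ^ b := h4 ▸ dvd_pow_self s h0.ne'
        exact (Nat.prime_dvd_prime_iff_eq hsp hsp').1 (hsp.dvd_of_dvd_pow h5)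
    have h4 := congrArg (fun t => t * y * x) h3
    simpa [mul_assoc] using h4

theorem DM_comm (h : MCq A q) : ∀ x ∈ DM A q M, ∀ y ∈ DM A q M, x * y = y * x := by
  have h1 : DM A q M ≤ centralizer (DM A q M : Set G) := by
    refine sSup_le ?_
    rintro S ⟨s, hS⟩
    rw [Subgroup.le_centralizer_iff]
    refine sSup_le ?_
    rintro S' ⟨s', hS'⟩
    intro y hy
    rw [Subgroup.mem_centralizer_iff]
    intro x hx
    exact hS.commute h hS' x hx y hy
  intro x hx y hy
  exact (Subgroup.mem_centralizer_iff.1 (h1 hx) y hy).symm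

omit [Finite G] in
theorem DM_le : DM A q M ≤ M := by
  refine sSup_le ?_
  rintro S ⟨s, hS⟩
  exact hS.le

omit [Finite G] in
theorem DM_normalIn : NormalIn (DM A q M) M := by
  refine ⟨DM_le, fun m hm d hd => ?_⟩
  have h1 : DM A q M ≤ (DM A q M).comap (MulAut.conj m).toMonoidHom := by
    refine sSup_le ?_
    rintro S ⟨s, hS⟩ x hx
    rw [Subgroup.mem_comap]
    apply hS.le_DM
    have hmN : m ∈ normalizer (S : Set G) := by rw [hS.2.2]; exact hm
    exact (Subgroup.mem_normalizer_iff.1 hmN x).1 hx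
  exact h1 hd

theorem DM_prime (h : MCq A q) {s : ℕ} (hs : s.Prime) (hd : s ∣ Nat.card (DM A q M)) :
    ∃ S, SylN A q M s S := by
  have : Fact s.Prime := ⟨hs⟩
  let K : Subgroup G :=
    { carrier := {x | x ∈ DM A q M ∧ ∀ t : ℕ, t.Prime → t ∣ orderOf x → ∃ S, SylN A q M t S}
      mul_mem' := by
        rintro x y ⟨hx, hx'⟩ ⟨hy, hy'⟩
        refine ⟨mul_mem hx hy, fun t ht hd => ?_⟩
        have h1 : orderOf (x * y) ∣ orderOf x * orderOf y :=
          (Commute.orderOf_mul_dvd_mul_orderOf (DM_comm h x hx y hy))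
        rcases (Nat.Prime.dvd_mul ht).1 (hd.trans h1) with h2 | h2
        · exact hx' t ht h2
        · exact hy' t ht h2
      one_mem' := by
        refine ⟨one_mem _, fun t ht hd => ?_⟩
        rw [orderOf_one] at hd
        exact absurd (Nat.dvd_one.1 hd) ht.one_lt.ne'
      inv_mem' := by
        rintro x ⟨hx, hx'⟩
        refine ⟨inv_mem hx, fun t ht hd => ?_⟩
        rw [orderOf_inv] at hd
        exact hx' t ht hd }
  have h1 : DM A q M ≤ K := by
    refine sSup_le ?_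
    rintro S ⟨s', hS⟩ x hx
    refine ⟨hS.le_DM hx, fun t ht hd => ?_⟩
    have hsp' : s'.Prime := hS.1.prime
    have : Fact s'.Prime := ⟨hsp'⟩
    obtain ⟨a, ha⟩ := (IsPGroup.iff_orderOf.1 hS.2.1.isPGroup) ⟨x, hx⟩
    rw [← Subgroup.orderOf_coe] at ha
    change orderOf x = _ at ha
    rw [ha] at hd
    have := (Nat.prime_dvd_prime_iff_eq ht hsp').1 (ht.dvd_of_dvd_pow hd)
    exact ⟨S, this ▸ hS⟩
  obtain ⟨x, hx⟩ := exists_prime_orderOf_dvd_card' s hd
  rw [← Subgroup.orderOf_coe] at hx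
  exact (h1 x.2).2 s hs (by rw [hx])

theorem DM_hall (h : MCq A q) {s : ℕ} (hs : s.Prime) (hd : s ∣ Nat.card (DM A q M)) :
    ¬ s ∣ (DM A q M).relIndex M := by
  obtain ⟨S, hS⟩ := DM_prime h hs hd
  intro h1
  apply hS.2.1.not_dvd
  rw [← relIndex_mul_relIndex S M ⊤ hS.le le_top,
    ← relIndex_mul_relIndex S (DM A q M) M hS.le_DM DM_le]
  exact (h1.mul_left _).mul_right _

theorem DM_coprime (h : MCq A q) : (Nat.card (DM A q M)).Coprime (Nat.card A) := by
  by_contra hnc
  obtain ⟨s, hs, h1, h2⟩ := Nat.Prime.not_coprime_iff_dvd.1 hnc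
  obtain ⟨S, hS⟩ := DM_prime h hs h1
  exact hS.1.not_dvd h h2

/-- (3.14 a) -/
theorem MCq.opc_le_comap (h : MCq A q) (hM : IsCoatom M) {g : G}
    (hg : MP_5771ce_al.conjBy A g ≤ M) [hn : ((DM A q M).subgroupOf M).Normal] :
    opc q (MP_5771ce_al.conjBy A g) ≤
      ((opc q (⊤ : Subgroup (M ⧸ (DM A q M).subgroupOf M))).comap
        (QuotientGroup.mk' ((DM A q M).subgroupOf M))).map M.subtype := by
  set A₁ := MP_5771ce_al.conjBy A g with hA₁
  have h₁ : MCq A₁ q := h.conjBy g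
  have hcA : Nat.card (A₁.subgroupOf M) = Nat.card A₁ :=
    Nat.card_congr (subgroupOfEquivOfLe hg).toEquiv
  have hcD : Nat.card ((DM A q M).subgroupOf M) = Nat.card (DM A q M) :=
    Nat.card_congr (subgroupOfEquivOfLe DM_le).toEquiv
  have key := map_opc_le_opc_quotient (G := M) (A := A₁.subgroupOf M)
    (D := (DM A q M).subgroupOf M) (q := q) (h₁.mc.her.subgroupOf hg)
    (fun a ha b hb => Subtype.ext (h₁.comm a ha b hb))
    ((le_rad_iff_subgroupOf hg).1 (h₁.mc.le_rad hg hM.1)) h.prime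
    (fun p hp hd => h₁.max p hp (hcA ▸ hd))
    (by
      rw [hcD, hcA, hA₁, card_conjBy]
      exact DM_coprime h)
    (fun s hs hd => by
      rw [hcD] at hd
      exact DM_hall h hs hd)
    (by
      intro s hs hsA hsD T hT hnT
      rw [hcA] at hsA
      rw [hcD] at hsD
      by_contra hne
      have : Fact s.Prime := ⟨hs⟩
      apply hsD
      set T₁ := T.map M.subtype with hT₁
      have hT₁p : IsPGroup s T₁ := hT.map _
      have hn₁ : A₁ ≤ normalizer (T₁ : Set G) := by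
        have key1 : ∀ a ∈ A₁, ∀ t ∈ T₁, a * t * a⁻¹ ∈ T₁ := by
          rintro a ha _ ⟨t, ht, rfl⟩
          have h1 := (Subgroup.mem_normalizer_iff.1 (hnT (Subgroup.mem_subgroupOf.2
            (show ((⟨a, hg ha⟩ : M) : G) ∈ A₁ from ha))) t).1 ht
          exact ⟨_, h1, rfl⟩
        intro a ha
        rw [Subgroup.mem_normalizer_iff]
        intro t
        refine ⟨key1 a ha t, fun ht => ?_⟩
        have := key1 a⁻¹ (inv_mem ha) _ ht
        simpa [mul_assoc] using this
      have hne₁ : ⁅T₁, opc q A₁⁆ ≠ ⊥ := by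
        intro h0
        apply hne
        have h1 : (⁅T, opc q (A₁.subgroupOf M)⁆).map M.subtype = ⊥ := by
          rw [map_commutator, opc_subgroupOf q hg, subgroupOf_map_subtype,
            inf_of_le_left ((opc_le q A₁).trans hg)]
          exact h0
        exact (Subgroup.map_eq_bot_iff_of_injective _ M.subtype_injective).1 h1
      obtain ⟨hI, S, hTS, hact, _⟩ := h₁.Iplus_of_ne hs hsA hT₁p hn₁ hne₁
      have hT₁ne : T₁ ≠ ⊥ := by
        intro h0
        apply hne₁
        rw [h0, commutator_bot_left]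
      have hMS : M ≤ normalizer (S : Set G) := by
        refine hact.le_normalizer h₁ hM.1 hg ?_
        refine ne_bot_of_le_ne_bot hT₁ne (le_inf ?_ hTS)
        rw [hT₁]
        exact Subgroup.map_subtype_le T
      have hSN : SylN A q M s S := by
        refine ⟨(Iplus.conjBy_iff g).1 hI, hact.syl, ?_⟩
        rcases hM.le_iff.1 hMS with h1 | h1
        · exact absurd h1 (hact.isCoatom h₁).1
        · exact h1
      obtain ⟨k, hk⟩ := (IsPGroup.iff_card).1 hact.syl.isPGroup
      have hk0 : k ≠ 0 := by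
        rintro rfl
        rw [pow_zero, Subgroup.card_eq_one] at hk
        exact hact.ne_bot hk
      have h2 : s ∣ Nat.card S := by rw [hk]; exact dvd_pow_self s hk0
      exact h2.trans (Subgroup.card_dvd_of_le hSN.le_DM))
  intro v hv
  have hvM : v ∈ M := hg (opc_le q A₁ hv)
  refine ⟨⟨v, hvM⟩, ?_, rfl⟩
  rw [SetLike.mem_coe, Subgroup.mem_comap]
  apply key
  refine Subgroup.mem_map_of_mem _ ?_
  rw [opc_subgroupOf q hg]
  exact Subgroup.mem_subgroupOf.2 hv

end MP_5771ce_al
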