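import Pool.Agent.Lib.MP_5771ce_al.S3.Act
import Pool.Agent.Lib.MP_5771ce_al.S3.LemT

/-!
# Section 3 (3.14 a, b): the structure of `M_R`
-/

open Subgroup
open scoped Pointwise commutatorElement

universe u

namespace MP_5771ce_al

variable {G : Type u} [Group G]

/-- (3.14 a), abstract form: lemma T modulo an abelian Hall subgroup `D`. -/
theorem map_opc_le_opc_quotient [Finite G] {A D : Subgroup G} [hD : D.Normal]
    (hA : HerPermutable A) (hab : ∀ a ∈ A, ∀ b ∈ A, a * b = b * a) (hrad : A ≤ rad ⊤) {q : ℕ}
    (hq : q.Prime) (hmax : ∀ p : ℕ, p.Prime → p ∣ Nat.card A → p ≤ q)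
    (hcop : (Nat.card D).Coprime (Nat.card A))
    (hHall : ∀ s : ℕ, s.Prime → s ∣ Nat.card D → ¬ s ∣ D.index)
    (hc : ∀ s : ℕ, s.Prime → ¬ s ∣ Nat.card A → ¬ s ∣ Nat.card D → ∀ T : Subgroup G,
      IsPGroup s T → A ≤ normalizer (T : Set G) → ⁅T, opc q A⁆ = ⊥) :
    (opc q A).map (QuotientGroup.mk' D) ≤ opc q ⊤ := by
  set f := QuotientGroup.mk' D with hf
  have hfs : Function.Surjective f := QuotientGroup.mk'_surjective D
  have hker : ∀ x, f x = 1 ↔ x ∈ D := by
    intro x
    rw [← MonoidHom.mem_ker, hf, QuotientGroup.ker_mk']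
  have hAD : ∀ x ∈ A, x ∈ D → x = 1 := by
    intro x hx hx'
    have h1 : orderOf x ∣ Nat.card A := Subgroup.orderOf_dvd_natCard _ hx
    have h2 : orderOf x ∣ Nat.card D := Subgroup.orderOf_dvd_natCard _ hx'
    have h3 := Nat.dvd_gcd h2 h1
    rw [(hcop : Nat.gcd _ _ = 1)] at h3
    exact orderOf_eq_one_iff.1 (Nat.dvd_one.1 h3)
  have hord : ∀ a ∈ A, orderOf (f a) = orderOf a := by
    intro a ha
    apply Nat.dvd_antisymm (orderOf_map_dvd f a)
    apply orderOf_dvd_of_pow_eq_one
    apply hAD _ (A.pow_mem ha _)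
    rw [← hker, map_pow, pow_orderOf_eq_one]
  have habq : ∀ a ∈ A.map f, ∀ b ∈ A.map f, a * b = b * a := by
    rintro _ ⟨a, ha, rfl⟩ _ ⟨b, hb, rfl⟩
    rw [← map_mul, hab a ha b hb, map_mul]
  have hcardA : ∀ s : ℕ, s.Prime → (s ∣ Nat.card (A.map f) ↔ s ∣ Nat.card A) := by
    intro s hs
    have : Fact s.Prime := ⟨hs⟩
    constructor
    · intro h
      exact h.trans (Subgroup.card_dvd_of_surjective (f.subgroupMap A) (f.subgroupMap_surjective A))
    · intro h
      obtain ⟨a, ha⟩ := exists_prime_orderOf_dvd_card' s h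
      rw [← Subgroup.orderOf_coe, ← hord _ a.2] at ha
      rw [← ha]
      exact Subgroup.orderOf_dvd_natCard _ (Subgroup.mem_map_of_mem f a.2)
  have hmain : opc q (A.map f) ≤ opc q ⊤ := by
    have hA' : HerPermutable (A.map f) := hA.map hfs
    refine lemmaT (G := G ⧸ D) (A := A.map f) (E := ⊤) (q := q) hA' habq le_top ?_ hq ?_ ?_
    · refine (Subgroup.map_mono hrad).trans ((map_rad_le ⊤ f).trans ?_)
      rw [Subgroup.map_top_of_surjective f hfs]
    · intro p hp hd
      exact hmax p hp ((hcardA p hp).1 hd)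
    · intro s hs hsA S' _ hS' hnS'
      have : Fact s.Prime := ⟨hs⟩
      have hsA' : ¬ s ∣ Nat.card A := fun h => hsA ((hcardA s hs).2 h)
      by_cases hsD : s ∣ Nat.card D
      · -- no `s`-elements in the quotient
        have h1 : Nat.card S' ∣ D.index := Subgroup.card_subgroup_dvd_card S'
        obtain ⟨k, hk⟩ := (IsPGroup.iff_card).1 hS'
        have hk0 : k = 0 := by
          by_contra hk0
          exact hHall s hs hsD ((dvd_pow_self s hk0).trans (hk ▸ h1))
        rw [hk0, pow_zero, Subgroup.card_eq_one] at hk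
        rw [hk, commutator_bot_left]
      · set N : Subgroup G := S'.comap f with hN
        have hAN : A ≤ normalizer (N : Set G) := by
          intro a ha
          rw [Subgroup.mem_normalizer_iff]
          intro n
          rw [hN, Subgroup.mem_comap, Subgroup.mem_comap, map_mul, map_mul, map_inv]
          exact Subgroup.mem_normalizer_iff.1 (hnS' (Subgroup.mem_map_of_mem f ha)) (f n)
        obtain ⟨T₀, hT₀⟩ := exists_isSylowIn (p := s) N
        obtain ⟨x, hx, hxp⟩ := hA (A ⊔ N) le_sup_left T₀ (hT₀.le.trans le_sup_right)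
        have hxN : x ∈ normalizer (N : Set G) := (sup_le hAN le_normalizer) hx
        set T := conjBy T₀ x with hT
        have hTN : IsSylowIn s T N := by
          have := hT₀.conjBy x
          rwa [conjBy_eq_of_mem_normalizer hxN] at this
        have hANb : ∀ z ∈ A, z ∈ N → z = 1 := by
          intro z hz hzN
          obtain ⟨k, hk⟩ := hS' ⟨f z, hzN⟩
          have hk' : f z ^ s ^ k = 1 := congrArg Subtype.val hk
          rw [← map_pow, hker] at hk'
          have h1 : z ^ s ^ k = 1 := hAD _ (A.pow_mem hz _) hk'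
          have h2 : orderOf z ∣ s ^ k := orderOf_dvd_of_pow_eq_one h1
          obtain ⟨j, -, hj⟩ := (Nat.dvd_prime_pow hs).1 h2
          rcases Nat.eq_zero_or_pos j with rfl | hj0
          · rw [pow_zero] at hj
            exact orderOf_eq_one_iff.1 hj
          · exfalso
            apply hsA'
            have h3 : orderOf z ∣ Nat.card A := Subgroup.orderOf_dvd_natCard _ hz
            rw [hj] at h3
            exact (dvd_pow_self s hj0.ne').trans h3
        have hsol : Group.IsSolvable (A ⊔ T : Subgroup G) := by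
          refine isSolvable_of_le_rad_sup (E := A ⊔ T) (B := T)
            (isSolvable_of_isPGroup hTN.isPGroup) le_sup_right ?_
          exact sup_le (le_sup_of_le_left (le_rad_of_le hrad le_sup_left le_top)) le_sup_right
        have hTV : ∀ t ∈ T, ∀ v ∈ opc q A, t * v = v * t := by
          rcases DI hA hab hTN.isPGroup hsA' hxp hsol with h1 | h1
          · intro t ht v hv
            have hvA := opc_le q A hv
            have h2 : t * v * t⁻¹ * v⁻¹ ∈ A :=
              A.mul_mem ((Subgroup.mem_normalizer_iff.1 (h1 ht) v).1 hvA) (A.inv_mem hvA)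
            have h3 : t * v * t⁻¹ * v⁻¹ ∈ N := by
              have h4 := (Subgroup.mem_normalizer_iff.1 (hAN hvA) t⁻¹).1
                (N.inv_mem (hTN.le ht))
              have h5 := N.mul_mem (hTN.le ht) h4
              have e : t * v * t⁻¹ * v⁻¹ = t * (v * t⁻¹ * v⁻¹) := by group
              rwa [e]
            have h6 := hANb _ h2 h3
            have h7 : t * v = 1 * v * t := by
              rw [← h6]; group
            rwa [one_mul] at h7
          · intro t ht v hv
            have h2 := hc s hs hsA' hsD T hTN.isPGroup h1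
            have h3 : ⁅t, v⁆ ∈ ⁅T, opc q A⁆ := commutator_mem_commutator ht hv
            rw [h2, Subgroup.mem_bot, commutatorElement_eq_one_iff_mul_comm] at h3
            exact h3
        have hTS : T.map f = S' := by
          have h1 := hTN.map f
          rw [hN, Subgroup.map_comap_eq_self_of_surjective hfs] at h1
          exact h1.eq_of_le hS' h1.le le_rfl
        rw [eq_bot_iff, commutator_le]
        intro y' hy' v' hv'
        rw [Subgroup.mem_bot, commutatorElement_eq_one_iff_mul_comm]
        rw [← hTS] at hy'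
        obtain ⟨t, ht, rfl⟩ := hy'
        obtain ⟨⟨v, hv, rfl⟩, k, hk⟩ := (mem_opc_of_abelian habq).1 hv'
        have hv1 : v ^ q ^ k = 1 := by
          apply hAD _ (A.pow_mem hv _)
          rw [← hker, map_pow]
          exact hk
        rw [← map_mul, ← map_mul, hTV t ht v ((mem_opc_of_abelian hab).2 ⟨hv, k, hv1⟩)]
  exact (map_opc_le q A f).trans hmain

end MP_5771ce_al
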