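import Pool.Agent.Lib.MP_5771ce_al.S3.TypeT

/-!
# (3.10) and (3.12): the mixed case
-/

open Subgroup
open scoped Pointwise commutatorElement

universe u

namespace MP_5771ce_al

variable {G : Type u} [Group G]

private theorem comm_iff {X Y : Subgroup G} :
    ⁅X, Y⁆ = ⊥ ↔ ∀ x ∈ X, ∀ y ∈ Y, x * y = y * x := by
  rw [Subgroup.commutator_eq_bot_iff_le_centralizer]
  constructor
  · intro h x hx y hy
    exact ((Subgroup.mem_centralizer_iff.1 (h hx)) y hy).symm
  · intro h x hx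
    exact Subgroup.mem_centralizer_iff.2 fun y hy => (h x hx y hy).symm

private theorem centralizer_le_normalizer' (X : Subgroup G) :
    centralizer (X : Set G) ≤ normalizer (X : Set G) := by
  intro c hc
  rw [Subgroup.mem_normalizer_iff]
  intro x
  rw [Subgroup.mem_centralizer_iff] at hc
  constructor
  · intro hx
    have h1 := hc x hx
    have : c * x * c⁻¹ = x := by rw [← h1]; group
    rw [this]; exact hx
  · intro hx
    have h1 := hc _ hx
    have : c * x * c⁻¹ * c = c * (c * x * c⁻¹) := h1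
    have h2 : x = c * x * c⁻¹ := by
      have h3 : c * x = c * (c * x * c⁻¹) := by rw [← this]; group
      exact mul_left_cancel h3
    rw [h2]; exact hx

/-- The statement of (3.8.3) for the group `G`. -/
def R2bProp (G : Type u) [Group G] : Prop :=
  ∀ (A : Subgroup G) (q : ℕ), MCq A q → ∀ X : Subgroup G, IsPGroup q X → Permutes A X →
    opc q A ≤ X → A ≤ normalizer (X : Set G)

/-- The statement of (3.8.4) for the group `G`. -/
def R2aProp (G : Type u) [Group G] : Prop :=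
  ∀ (A : Subgroup G) (q : ℕ), MCq A q → ∀ (r : ℕ), Iplus A q r → ∀ R₁ : Subgroup G,
    IsPGroup r R₁ → Permutes A R₁ → A ≤ normalizer (R₁ : Set G)

section mix
variable {A : Subgroup G} {q : ℕ}

private theorem centralizes_sub {X Y : Subgroup G} (h : ⁅X, Y⁆ = ⊥) :
    X ≤ normalizer (Y : Set G) := by
  refine le_trans ?_ (centralizer_le_normalizer' _)
  exact Subgroup.commutator_eq_bot_iff_le_centralizer.1 h

private theorem Act.inf_ne_bot {s : ℕ} {S E : Subgroup G} (hS : Act s A S) (h : S ≤ E) :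
    E ⊓ S ≠ ⊥ := by
  rw [inf_eq_right.2 h]; exact Act.ne_bot hS

variable [Finite G]

private theorem Act.normalizer_ne_top (h : MCq A q) {s : ℕ} {S : Subgroup G} (hS : Act s A S) :
    normalizer (S : Set G) ≠ ⊤ := by
  have : Fact s.Prime := ⟨hS.prime⟩
  exact h.mc.normalizer_ne_top (Act.ne_bot hS) (isSolvable_of_isPGroup hS.syl.isPGroup)

/-- `A ∩ P = O_q(A)` for a Sylow subgroup `P` of `E ≥ A` permuting with `A`. -/
private theorem inf_eq_opc (h : MCq A q) {P E : Subgroup G} (hP : IsSylowIn q P E) (hA : A ≤ E)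
    (hp : Permutes A P) : A ⊓ P = opc q A := by
  have : Fact q.Prime := ⟨h.prime⟩
  apply le_antisymm
  · refine le_opc ⟨inf_le_left, ?_⟩ (hP.isPGroup.to_le inf_le_right)
    intro e he n hn
    have : e * n * e⁻¹ = n := by rw [h.comm e he n hn.1]; group
    rw [this]; exact hn
  · exact (hP.inf_of_permutes hA hp).opc_le

/-- (3.10), main step: a conjugate of `A` active on `R` and normalising `O_q(A)`. -/
theorem MCq.mix_aux_of (hb : R2bProp G) (h : MCq A q) {r : ℕ} (hr : Iplus A q r) {R : Subgroup G}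
    (hR : IsSylowIn r R ⊤) (hAR : A ≤ normalizer (R : Set G)) (hc : ⁅R, opc q A⁆ = ⊥) :
    ∃ x, ActV q r (MP_5771ce_al.conjBy A x) R ∧
      MP_5771ce_al.conjBy A x ≤ normalizer (opc q A : Set G) := by
  have : Fact q.Prime := ⟨h.prime⟩
  obtain ⟨g, hg⟩ := Iplus.exists_actV h hr hR
  -- Sylow subgroups of `N(R)`
  obtain ⟨P, hP, hAP⟩ := h.mc.her.exists_isSylowIn_permutes hAR q
  obtain ⟨P', hP', hAP'⟩ := (h.conjBy g).mc.her.exists_isSylowIn_permutes hg.1.norm q
  obtain ⟨m, hm, hmP⟩ := hP'.exists_conjBy_eq hP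
  have hmR : MP_5771ce_al.conjBy R m = R := mem_normalizer_iff_conjBy.1 hm
  set x := g * m with hx
  have hx' : MP_5771ce_al.conjBy A x = MP_5771ce_al.conjBy (MP_5771ce_al.conjBy A g) m := conjBy_mul A g m
  have hact : ActV q r (MP_5771ce_al.conjBy A x) R := by
    rw [hx']
    refine ⟨?_, ?_⟩
    · have := Act.conj (h.conjBy g) hg.1 m
      rwa [hmR] at this
    · intro hbot
      apply hg.2
      rw [comm_iff] at hbot ⊢
      intro y hy v hv
      have h1 := hbot (m⁻¹ * y * m) (by rw [← hmR]; exact conjBy_mem hy m) (m⁻¹ * v * m)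
        (by rw [opc_conjBy]; exact conjBy_mem hv m)
      have h2 : m * (m⁻¹ * y * m * (m⁻¹ * v * m)) * m⁻¹ =
        m * (m⁻¹ * v * m * (m⁻¹ * y * m)) * m⁻¹ := by rw [h1]
      have h3 : m * (m⁻¹ * y * m * (m⁻¹ * v * m)) * m⁻¹ = y * v := by group
      have h4 : m * (m⁻¹ * v * m * (m⁻¹ * y * m)) * m⁻¹ = v * y := by group
      rw [h3, h4] at h2
      exact h2
  refine ⟨x, hact, ?_⟩
  have hq' := h.conjBy x
  have hpx : Permutes (MP_5771ce_al.conjBy A x) P := by
    rw [hx', ← hmP]; exact permutes_conj hAP' m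
  have hV1 : A ⊓ P = opc q A := inf_eq_opc h hP hAR hAP
  have hV2 : MP_5771ce_al.conjBy A x ⊓ P = opc q (MP_5771ce_al.conjBy A x) := inf_eq_opc hq' hP hact.1.norm hpx
  have hV1P : opc q A ≤ P := hV1 ▸ inf_le_right
  have hV2P : opc q (MP_5771ce_al.conjBy A x) ≤ P := hV2 ▸ inf_le_right
  -- `X = V'' V`
  have hp1 : Permutes (MP_5771ce_al.conjBy A x) (opc q A) :=
    hq'.mc.her.permutes_of_isPGroup hP.isPGroup hpx hV1P
  have hp2 : Permutes (opc q (MP_5771ce_al.conjBy A x)) (opc q A) := by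
    rw [← hV2]; exact hp1.inf_left hV1P
  set X := opc q (MP_5771ce_al.conjBy A x) ⊔ opc q A with hXdef
  have hXP : X ≤ P := sup_le hV2P hV1P
  have hXq : IsPGroup q X := hP.isPGroup.to_le hXP
  have hpX : Permutes (MP_5771ce_al.conjBy A x) X := hq'.mc.her.permutes_of_isPGroup hP.isPGroup hpx hXP
  have hnX : MP_5771ce_al.conjBy A x ≤ normalizer (X : Set G) := hb _ _ hq' _ hXq hpX le_sup_left
  -- (a) `C_{V''}(R) = 1`
  have ha : opc q (MP_5771ce_al.conjBy A x) ⊓ centralizer (R : Set G) = ⊥ := by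
    by_contra hne
    have h1 : normalizer ((opc q (MP_5771ce_al.conjBy A x) ⊓ centralizer (R : Set G) : Subgroup G) : Set G) ≤
        normalizer (R : Set G) :=
      Act.normalizer_le_of_centralizes hq' hact.1 (inf_le_left.trans (opc_le q _)) hne
        inf_le_right
    have hcomm := comm_iff.1 hc
    have h2 : MP_5771ce_al.conjBy R x ≤ centralizer (opc q (MP_5771ce_al.conjBy A x) : Set G) := by
      intro y hy
      rw [mem_conjBy] at hy
      rw [Subgroup.mem_centralizer_iff]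
      intro v hv
      rw [SetLike.mem_coe, opc_conjBy, mem_conjBy] at hv
      have h3 := hcomm _ hy _ hv
      have h4 : x⁻¹ * (x * y * x⁻¹ * (x * v * x⁻¹)) * x = x⁻¹ * (x * v * x⁻¹ * (x * y * x⁻¹)) * x := by
        rw [h3]
      have h5 : x⁻¹ * (x * y * x⁻¹ * (x * v * x⁻¹)) * x = y * v := by group
      have h6 : x⁻¹ * (x * v * x⁻¹ * (x * y * x⁻¹)) * x = v * y := by group
      rw [h5, h6] at h4
      exact h4.symm
    have h3 : centralizer (opc q (MP_5771ce_al.conjBy A x) : Set G) ≤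
        normalizer ((opc q (MP_5771ce_al.conjBy A x) ⊓ centralizer (R : Set G) : Subgroup G) : Set G) := by
      refine le_trans ?_ (centralizer_le_normalizer' _)
      intro y hy
      rw [Subgroup.mem_centralizer_iff] at hy ⊢
      intro v hv
      exact hy v hv.1
    have h4 : x ∈ normalizer (R : Set G) :=
      Act.mem_of_conjBy_le hq' hact.1 ((h2.trans h3).trans h1)
    have h5 : MP_5771ce_al.conjBy R x = R := mem_normalizer_iff_conjBy.1 h4
    apply hact.2
    rw [comm_iff]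
    intro y hy v hv
    rw [← h5] at hy
    exact ((Subgroup.mem_centralizer_iff.1 (h2 hy)) v hv).symm
  -- `C_X(R) = V`
  have hCX : X ⊓ centralizer (R : Set G) = opc q A := by
    have hVc : opc q A ≤ centralizer (R : Set G) := by
      intro v hv
      rw [Subgroup.mem_centralizer_iff]
      intro y hy
      exact comm_iff.1 hc y hy v hv
    apply le_antisymm
    · rintro y ⟨hyX, hyc⟩
      obtain ⟨a, ha', b, hb, rfl⟩ := hp2.mem_sup.1 hyX
      have : a ∈ opc q (MP_5771ce_al.conjBy A x) ⊓ centralizer (R : Set G) := by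
        refine ⟨ha', ?_⟩
        have := (centralizer (R : Set G)).mul_mem hyc ((centralizer (R : Set G)).inv_mem (hVc hb))
        simpa using this
      rw [ha, Subgroup.mem_bot] at this
      rw [this, one_mul]; exact hb
    · exact le_inf le_sup_right hVc
  rw [← hCX]
  intro a ha'
  have h1 := hnX ha'
  have h2 := hact.1.norm ha'
  rw [Subgroup.mem_normalizer_iff] at h1 ⊢
  have key : ∀ (a : G), a ∈ normalizer (R : Set G) → ∀ y, y ∈ centralizer (R : Set G) →
      a * y * a⁻¹ ∈ centralizer (R : Set G) := fun a ha y hy => conj_mem_centralizer ha hy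
  intro y
  constructor
  · rintro ⟨hy1, hy2⟩
    exact ⟨(h1 y).1 hy1, key a h2 y hy2⟩
  · rintro ⟨hy1, hy2⟩
    refine ⟨(h1 y).2 hy1, ?_⟩
    have := key a⁻¹ ((normalizer (R : Set G)).inv_mem h2) _ hy2
    have e : a⁻¹ * (a * y * a⁻¹) * a⁻¹⁻¹ = y := by group
    rwa [e] at this

theorem MCq.mix_of (hb : R2bProp G) (h : MCq A q) {r : ℕ} (hr : Iplus A q r) {R : Subgroup G}
    (hR : IsSylowIn r R ⊤) (hAR : A ≤ normalizer (R : Set G)) (hc : ⁅R, opc q A⁆ = ⊥) :
    normalizer (opc q A : Set G) ≤ normalizer (R : Set G) := by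
  have : Fact q.Prime := ⟨h.prime⟩
  obtain ⟨x, hx, hxn⟩ := h.mix_aux_of hb hr hR hAR hc
  refine Act.le_normalizer (h.conjBy x) hx.1 ?_ hxn (Act.inf_ne_bot hx.1 (centralizes_sub hc))
  exact h.mc.normalizer_ne_top h.opc_ne_bot (isSolvable_of_isPGroup (opc_isPGroup q A))

private theorem MCq.mix_le (hb : R2bProp G) (h : MCq A q) {r s : ℕ} (hr : Iplus A q r) (hs : Iplus A q s)
    {R S : Subgroup G} (hR : IsSylowIn r R ⊤) (hAR : A ≤ normalizer (R : Set G))
    (hc : ⁅R, opc q A⁆ = ⊥) (hS : IsSylowIn s S ⊤) (hAS : A ≤ normalizer (S : Set G))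
    (hcS : ⁅S, opc q A⁆ = ⊥) : normalizer (S : Set G) ≤ normalizer (R : Set G) := by
  obtain ⟨x, hx, hxn⟩ := h.mix_aux_of hb hr hR hAR hc
  obtain ⟨y, hy, -⟩ := h.mix_aux_of hb hs hS hAS hcS
  have h1 := h.mix_of hb hs hS hAS hcS
  refine Act.le_normalizer (h.conjBy x) hx.1 (Act.normalizer_ne_top (h.conjBy y) hy.1)
    (hxn.trans h1) (Act.inf_ne_bot hx.1 ((centralizes_sub hc).trans h1))

theorem MCq.mix_unique_of (hb : R2bProp G) (h : MCq A q) {r s : ℕ} (hr : Iplus A q r) (hs : Iplus A q s)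
    {R S : Subgroup G} (hR : IsSylowIn r R ⊤) (hAR : A ≤ normalizer (R : Set G))
    (hc : ⁅R, opc q A⁆ = ⊥) (hS : IsSylowIn s S ⊤) (hAS : A ≤ normalizer (S : Set G))
    (hcS : ⁅S, opc q A⁆ = ⊥) : normalizer (R : Set G) = normalizer (S : Set G) :=
  le_antisymm (h.mix_le hb hs hr hS hAS hcS hR hAR hc) (h.mix_le hb hr hs hR hAR hc hS hAS hcS)

/-- If `R` is active for some conjugate of `A` and `V ≤ A ≤ N(R)` centralises `1 ≠ R₁ ≤ R`, then it
centralises `R`. -/
private theorem centralizes_of_sub (h : MCq A q) {r : ℕ} {R R₁ : Subgroup G} {g x : G}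
    (hact : Act r (MP_5771ce_al.conjBy A g) R) (hx : MP_5771ce_al.conjBy A x ≤ normalizer (R : Set G)) (hR₁ : R₁ ≤ R)
    (hne : R₁ ≠ ⊥) {V : Subgroup G} (hV : V ≤ MP_5771ce_al.conjBy A x) (hc : ⁅R₁, V⁆ = ⊥) :
    ⁅R, V⁆ = ⊥ := by
  rw [comm_iff] at hc ⊢
  intro y hy v hv
  have e : MP_5771ce_al.conjBy A x = MP_5771ce_al.conjBy (MP_5771ce_al.conjBy A g) (g⁻¹ * x) := by
    rw [← conjBy_mul]; congr 1; group
  rcases Act.fpf (h.conjBy g) hact (g := g⁻¹ * x) (e ▸ hx) (a := v) (e ▸ hV hv) with h1 | h1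
  · exact (h1 y hy).symm
  · exfalso
    apply hne
    rw [Subgroup.eq_bot_iff_forall]
    intro z hz
    exact h1 z (hR₁ hz) (hc z hz v hv).symm

/-- (3.12) -/
theorem MCq.typeT_mixed_of (hb : R2bProp G) (ha : R2aProp G) (h : MCq A q) {E : Subgroup G} (hE : InP A E) (hT : TypeT A q E)
    {r : ℕ} (hr : Iplus A q r) (hd : r ∣ Nat.card E) :
    ∃ R : Subgroup G, IsSylowIn r R ⊤ ∧ E ≤ normalizer (R : Set G) ∧
      ∀ g, MP_5771ce_al.conjBy A g ≤ E → ⁅R, opc q (MP_5771ce_al.conjBy A g)⁆ = ⊥ := by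
  have : Fact q.Prime := ⟨h.prime⟩
  have : Fact r.Prime := ⟨hr.prime⟩
  obtain ⟨hEt, g, hg⟩ := hE
  have h1 := h.conjBy g
  have hr1 : Iplus (MP_5771ce_al.conjBy A g) q r := (Iplus.conjBy_iff g).2 hr
  obtain ⟨R₁, hR₁, hpR₁⟩ := h1.mc.her.exists_isSylowIn_permutes hg r
  have hn₁ : MP_5771ce_al.conjBy A g ≤ normalizer (R₁ : Set G) := ha _ _ h1 r hr1 R₁ hR₁.isPGroup hpR₁
  have hne₁ : R₁ ≠ ⊥ := by
    intro hb
    have h2 := hR₁.not_dvd
    rw [hb, Subgroup.relIndex_bot_left] at h2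
    exact h2 hd
  -- `[R₁, V₁] = 1`
  have hc₁ : ⁅R₁, opc q (MP_5771ce_al.conjBy A g)⁆ = ⊥ := by
    by_contra hne
    obtain ⟨-, S, hRS, hS⟩ := h1.Iplus_of_ne hr.prime (hr1.not_dvd h1) hR₁.isPGroup hn₁ hne
    have hES : E ≤ normalizer (S : Set G) := by
      refine Act.le_normalizer h1 hS.1 hEt hg ?_
      intro hb
      apply hne₁
      rw [Subgroup.eq_bot_iff_forall] at hb ⊢
      intro z hz
      exact hb z ⟨hR₁.le hz, hRS hz⟩
    have hle : R₁ ≤ opc r E := by
      have h3 : NormalIn (E ⊓ S) E := by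
        refine ⟨inf_le_left, ?_⟩
        rintro e he n ⟨hn1, hn2⟩
        exact ⟨E.mul_mem (E.mul_mem he hn1) (E.inv_mem he),
          (Subgroup.mem_normalizer_iff.1 (hES he) n).1 hn2⟩
      exact (le_inf hR₁.le hRS).trans (le_opc h3 (hS.1.syl.isPGroup.to_le inf_le_right))
    apply hne
    have h4 := hT r hr.prime (hr.not_dvd h) g hg
    rw [comm_iff] at h4 ⊢
    intro y hy v hv
    exact h4 y (hle hy) v hv
  -- the Sylow subgroup `R ≥ R₁` of `G`
  obtain ⟨R, hR, hR₁R⟩ := exists_isSylowIn_ge hR₁.isPGroup (le_top : R₁ ≤ ⊤)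
  obtain ⟨x, hx⟩ := Iplus.exists_actV h hr hR
  have hNR₁ : normalizer (R₁ : Set G) ≤ normalizer (R : Set G) :=
    Act.normalizer_le (h.conjBy x) hx.1 hR₁R hne₁
  have hAR : MP_5771ce_al.conjBy A g ≤ normalizer (R : Set G) := hn₁.trans hNR₁
  have hc : ⁅R, opc q (MP_5771ce_al.conjBy A g)⁆ = ⊥ :=
    centralizes_of_sub h hx.1 hAR hR₁R hne₁ (opc_le q _) hc₁
  have hNV : normalizer (opc q (MP_5771ce_al.conjBy A g) : Set G) ≤ normalizer (R : Set G) :=
    h1.mix_of hb hr1 hR hAR hc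
  have hqr : q ≠ r := (hr.lt h).ne
  have hVO : opc q (MP_5771ce_al.conjBy A g) ≤ opc q E := hT.opc_le h hEt hg
  -- `[O, R₁] = 1`
  have hOR : ⁅opc q E, R₁⁆ = ⊥ := by
    refine axb hqr (opc_isPGroup q E) (opc_isPGroup q (MP_5771ce_al.conjBy A g)) hR₁.isPGroup
      (hVO.trans Subgroup.le_normalizer) (hR₁.le.trans (opc_normalIn q E).le_normalizer)
      ?_ ?_
    · rw [Subgroup.commutator_comm]; exact hc₁
    · rw [eq_bot_iff]
      have h5 : ⁅opc q E ⊓ centralizer (opc q (MP_5771ce_al.conjBy A g) : Set G), R₁⁆ ≤ opc q E ⊓ R := by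
        rw [Subgroup.commutator_le]
        rintro c ⟨hc1, hc2⟩ y hy
        refine ⟨?_, ?_⟩
        · have h6 := (opc_normalIn q E).conj_mem (hR₁.le hy) ((opc q E).inv_mem hc1)
          have h7 := (opc q E).mul_mem hc1 h6
          rwa [← mul_assoc, ← mul_assoc] at h7
        · have h6 : c ∈ normalizer (R : Set G) := hNV (centralizer_le_normalizer' _ hc2)
          have h7 := (Subgroup.mem_normalizer_iff.1 h6 y).1 (hR₁R hy)
          exact R.mul_mem h7 (R.inv_mem (hR₁R hy))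
      refine h5.trans ?_
      rintro y ⟨hy1, hy2⟩
      rw [Subgroup.mem_bot]
      exact eq_one_of_coprime_groups hqr (opc_isPGroup q E) hR.isPGroup hy1 hy2
  -- Frattini
  have hEn : E ≤ normalizer (R : Set G) := by
    intro e he
    have hCn : NormalIn (E ⊓ centralizer (opc q E : Set G)) E := (opc_normalIn q E).inf_centralizer
    have hRC : R₁ ≤ E ⊓ centralizer (opc q E : Set G) := by
      refine le_inf hR₁.le ?_
      apply Subgroup.commutator_eq_bot_iff_le_centralizer.1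
      rw [Subgroup.commutator_comm]; exact hOR
    obtain ⟨n, hn, y, hy, rfl⟩ := (hR₁.of_le hRC hCn.le).frattini hCn he
    refine Subgroup.mul_mem _ ?_ (hNR₁ hy.2)
    apply hNV
    apply centralizer_le_normalizer'
    have hn2 : n ∈ centralizer (opc q E : Set G) := hn.2
    rw [Subgroup.mem_centralizer_iff] at hn2 ⊢
    intro v hv
    exact hn2 v (hVO hv)
  refine ⟨R, hR, hEn, ?_⟩
  intro g' hg'
  refine centralizes_of_sub h hx.1 (hg'.trans hEn) hR₁R hne₁ (opc_le q _) ?_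
  rw [comm_iff] at hOR ⊢
  intro y hy v hv
  exact (hOR v (hT.opc_le h hEt hg' hv) y hy).symm

end mix

end MP_5771ce_al
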