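import Pool.Agent.Lib.MP_5771ce_al.S3.Defs

/-!
# Subgroups of prime index in soluble groups (used in the local analysis (3.6), (l3))
-/

open Subgroup
open scoped Pointwise commutatorElement

universe u

namespace MP_5771ce_al

/-- A corefree subgroup `F` of prime index `t` of a soluble group `Q`: there is a normal subgroup
`N` of order `t` which contains all `t`-elements and its centraliser, and lies in every nontrivial
normal subgroup. -/
theorem corefree_prime_index {Q : Type u} [Group Q] [Finite Q] [Group.IsSolvable Q]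
    {F : Subgroup Q} {t : ℕ} [Fact t.Prime] (hi : F.index = t)
    (hc : ∀ N : Subgroup Q, N.Normal → N ≤ F → N = ⊥) :
    ∃ N : Subgroup Q, N.Normal ∧ Nat.card N = t ∧ N ⊓ F = ⊥ ∧
      (∀ x : Q, (∃ k : ℕ, x ^ t ^ k = 1) → x ∈ N) ∧
      (∀ x : Q, (∀ n ∈ N, x * n = n * x) → x ∈ N) ∧
      ∀ L : Subgroup Q, L.Normal → L ≠ ⊥ → N ≤ L := by
  have htp : t.Prime := Fact.out
  have hFt : F ≠ ⊤ := by
    intro h
    rw [h, Subgroup.index_top] at hi
    exact htp.one_lt.ne hi
  have hQ : Nontrivial Q := by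
    by_contra hn
    rw [not_nontrivial_iff_subsingleton] at hn
    apply hFt
    rw [Subgroup.eq_top_iff']
    intro x
    rw [Subsingleton.elim x 1]
    exact one_mem F
  have hco : IsCoatom F := isCoatom_of_index_prime (by rw [hi]; exact htp)
  obtain ⟨r, hr, V, -, hVn, hVne, -, hVab, -⟩ := exists_elementary_abelian
    (W := (⊤ : Subgroup Q)) (E := (⊤ : Subgroup Q)) (normalIn_refl ⊤) inferInstance
    (by intro h; exact absurd h.symm bot_ne_top)
  have hVN : V.Normal := normalIn_top.1 hVn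
  have hVF : ¬ V ≤ F := fun h => hVne (hc V hVN h)
  have hsup : V ⊔ F = ⊤ := by
    apply hco.2
    rw [lt_iff_le_and_ne]
    exact ⟨le_sup_right, fun h => hVF (h ▸ le_sup_left)⟩
  have hmul : ∀ x : Q, ∃ v ∈ V, ∃ f ∈ F, v * f = x := by
    intro x
    have hx : x ∈ V ⊔ F := by rw [hsup]; trivial
    exact (mem_sup_of_le_normalizer' (by rw [Subgroup.normalizer_eq_top_iff.2 hVN]; exact le_top)).1 hx
  -- a subgroup of `F` normalised by `F` and centralised by `V` is trivial
  have hcore : ∀ L : Subgroup Q, L ≤ F → (∀ f ∈ F, ∀ l ∈ L, f * l * f⁻¹ ∈ L) →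
      (∀ v ∈ V, ∀ l ∈ L, v * l = l * v) → L = ⊥ := by
    intro L hLF h1 h2
    apply hc L _ hLF
    refine ⟨fun l hl x => ?_⟩
    obtain ⟨v, hv, f, hf, rfl⟩ := hmul x
    have h3 := h1 f hf l hl
    have : v * f * l * (v * f)⁻¹ = v * (f * l * f⁻¹) * v⁻¹ := by group
    rw [this, h2 v hv _ h3, mul_inv_cancel_right]
    exact h3
  have hinf : V ⊓ F = ⊥ := by
    apply hcore _ inf_le_right
    · rintro f hf l ⟨hlV, hlF⟩
      exact Subgroup.mem_inf.2 ⟨hVN.conj_mem l hlV f, mul_mem (mul_mem hf hlF) (inv_mem hf)⟩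
    · rintro v hv l ⟨hlV, -⟩
      exact hVab v hv l hlV
  have hcard : Nat.card V = t := by
    have h1 : F.relIndex (F ⊔ V) = F.relIndex V := by
      have hp : Permutes F V := by
        rw [permutes_iff]
        intro f hf v hv
        exact ⟨f * v * f⁻¹, hVN.conj_mem v hv f, f, hf, by group⟩
      exact hp.relIndex_sup
    rw [sup_comm, hsup, Subgroup.relIndex_top_right, hi] at h1
    rw [h1, ← Subgroup.inf_relIndex_right, inf_comm, hinf, Subgroup.relIndex_bot_left]
  have hcen : ∀ x : Q, (∀ n ∈ V, x * n = n * x) → x ∈ V := by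
    intro x hx
    have hC : (centralizer (V : Set Q)) ⊓ F = ⊥ := by
      apply hcore _ inf_le_right
      · rintro f hf l ⟨hlV, hlF⟩
        refine Subgroup.mem_inf.2 ⟨?_, mul_mem (mul_mem hf hlF) (inv_mem hf)⟩
        have := (inferInstance : (centralizer (V : Set Q)).Normal)
        exact this.conj_mem l hlV f
      · rintro v hv l ⟨hlV, -⟩
        exact Subgroup.mem_centralizer_iff.1 hlV v hv
    obtain ⟨v, hv, f, hf, rfl⟩ := hmul x
    have hfC : f ∈ (centralizer (V : Set Q)) ⊓ F := by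
      refine Subgroup.mem_inf.2 ⟨?_, hf⟩
      rw [Subgroup.mem_centralizer_iff]
      intro n hn
      have h1 := hx n hn
      have h2 : v * (f * n) = v * (n * f) := by
        calc v * (f * n) = v * f * n := by group
          _ = n * (v * f) := h1
          _ = (n * v) * f := by group
          _ = (v * n) * f := by rw [hVab n hn v hv]
          _ = v * (n * f) := by group
      exact (mul_left_cancel h2).symm
    rw [hC, Subgroup.mem_bot] at hfC
    rw [hfC, mul_one]
    exact hv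
  refine ⟨V, hVN, hcard, hinf, ?_, hcen, ?_⟩
  · rintro x ⟨k, hk⟩
    apply hcen
    have hVp : IsPGroup t V := IsPGroup.of_card (n := 1) (by rw [hcard, pow_one])
    have hxp : IsPGroup t (zpowers x) := by
      rintro ⟨_, m, rfl⟩
      refine ⟨k, Subtype.ext ?_⟩
      show (x ^ m) ^ t ^ k = 1
      rw [← zpow_natCast, ← zpow_mul, mul_comm, zpow_mul, zpow_natCast, hk, one_zpow]
    have hlt := commutator_lt_of_pgroup hVp hxp
      (by rw [Subgroup.normalizer_eq_top_iff.2 hVN]; exact le_top) hVne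
    have hc1 : Nat.card (⁅V, zpowers x⁆ : Subgroup Q) ∣ Nat.card V :=
      Subgroup.card_dvd_of_le hlt.le
    have hc2 := card_lt_of_lt hlt
    rw [hcard] at hc1 hc2
    have hc3 : Nat.card (⁅V, zpowers x⁆ : Subgroup Q) = 1 := by
      rcases (Nat.dvd_prime htp).1 hc1 with h | h
      · exact h
      · omega
    have hbot : ⁅V, zpowers x⁆ = ⊥ := Subgroup.card_eq_one.1 hc3
    intro n hn
    have h1 : ⁅n, x⁆ ∈ ⁅V, zpowers x⁆ := Subgroup.commutator_mem_commutator hn (mem_zpowers x)
    rw [hbot, Subgroup.mem_bot, commutatorElement_eq_one_iff_mul_comm] at h1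
    exact h1.symm
  · intro L hL hLne
    have h1 : V ⊓ L ≠ ⊥ := by
      intro h
      apply hLne
      have hLV : L ≤ V := by
        intro l hl
        apply hcen
        intro n hn
        have h2 : ⁅l, n⁆ ∈ V ⊓ L := by
          refine Subgroup.mem_inf.2 ⟨?_, ?_⟩
          · rw [commutatorElement_def]
            exact mul_mem (hVN.conj_mem n hn l) (inv_mem hn)
          · rw [commutatorElement_def]
            have : l * n * l⁻¹ * n⁻¹ = l * (n * l⁻¹ * n⁻¹) := by group
            rw [this]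
            exact mul_mem hl (hL.conj_mem _ (inv_mem hl) n)
        rw [h, Subgroup.mem_bot, commutatorElement_eq_one_iff_mul_comm] at h2
        exact h2
      rw [inf_eq_right.2 hLV] at h
      exact h
    have h2 : Nat.card (V ⊓ L : Subgroup Q) = t := by
      have h3 : Nat.card (V ⊓ L : Subgroup Q) ∣ t := by
        rw [← hcard]
        exact Subgroup.card_dvd_of_le inf_le_left
      rcases (Nat.dvd_prime htp).1 h3 with h | h
      · exact absurd (Subgroup.card_eq_one.1 h) h1
      · exact h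
    have h3 : V ⊓ L = V := Subgroup.eq_of_le_of_card_ge inf_le_left (by rw [h2, hcard])
    exact inf_eq_left.1 h3

/-- A group of automorphisms of a group `N` of prime order, induced by a subgroup `B` meeting the
centraliser of `N` trivially, is cyclic; if it has exponent `p` its order divides `p`. -/
theorem card_dvd_of_faithful {Q : Type u} [Group Q] [Finite Q] {N B : Subgroup Q} {t : ℕ}
    [Fact t.Prime] (hN : Nat.card N = t) (hn : N.Normal) {p : ℕ} (hp : p.Prime)
    (hB : ∀ b ∈ B, b ^ p = 1) (hf : ∀ b ∈ B, (∀ n ∈ N, b * n = n * b) → b = 1) :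
    Nat.card B ∣ p := by
  have hNc : IsCyclic N := isCyclic_of_prime_card hN
  let φ : B →* MulAut N := (MulAut.conjNormal (H := N)).comp B.subtype
  have hφ : Function.Injective φ := by
    rw [injective_iff_map_eq_one]
    intro b hb
    apply Subtype.ext
    apply hf b.1 b.2
    intro n hn'
    have h1 : φ b ⟨n, hn'⟩ = ⟨n, hn'⟩ := by rw [hb]; rfl
    have h2 : b.1 * n * b.1⁻¹ = n := congrArg Subtype.val h1
    exact mul_inv_eq_iff_eq_mul.1 h2
  have _ : Fact (Nat.card N).Prime := ⟨by rw [hN]; exact Fact.out⟩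
  let ψ : B →* (ZMod (Nat.card N))ˣ := (IsCyclic.mulAutMulEquiv N).toMonoidHom.comp φ
  have hψ : Function.Injective ψ := (IsCyclic.mulAutMulEquiv N).injective.comp hφ
  have hBc : IsCyclic B := isCyclic_of_injective ψ hψ
  have _h := hp
  obtain ⟨g, hg⟩ := IsCyclic.exists_generator (α := B)
  have h1 : Nat.card B = orderOf g := (orderOf_eq_card_of_forall_mem_zpowers hg).symm
  rw [h1, orderOf_dvd_iff_pow_eq_one]
  apply Subtype.ext
  exact hB g.1 g.2

/-- (l3) A subgroup `F` of prime index `t` in the soluble subgroup `E`, with core `K`. -/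
theorem relative_prime_index {G : Type u} [Group G] [Finite G] {E F : Subgroup G}
    (hE : Group.IsSolvable E) (hFE : F ≤ E) {t : ℕ} [Fact t.Prime] (hi : F.relIndex E = t) :
    ∃ K N : Subgroup G, NormalIn K E ∧ K ≤ F ∧ (∀ L, NormalIn L E → L ≤ F → L ≤ K) ∧
      NormalIn N E ∧ K ≤ N ∧ (∀ x ∈ N, x ∈ F → x ∈ K) ∧
      (∀ x ∈ E, (∃ k : ℕ, x ^ t ^ k = 1) → x ∈ N) ∧
      (∀ x ∈ E, (∀ n ∈ N, ⁅x, n⁆ ∈ K) → x ∈ N) ∧
      (∀ L, NormalIn L E → K ≤ L → L ≠ K → N ≤ L) ∧
      K.relIndex N = t ∧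
      ∀ p : ℕ, p.Prime → ∀ B : Subgroup G, B ≤ F → (∀ b ∈ B, b ^ p = 1) → K.relIndex B ∣ p := by
  set F' : Subgroup E := F.subgroupOf E with hF'
  set K' : Subgroup E := F'.normalCore with hK'
  have hi' : F'.index = t := hi
  let π : E →* E ⧸ K' := QuotientGroup.mk' K'
  have hπs : Function.Surjective π := QuotientGroup.mk'_surjective K'
  have hker : π.ker = K' := QuotientGroup.ker_mk' K'
  have hK'F' : K' ≤ F' := Subgroup.normalCore_le F'
  have hFi : (F'.map π).index = t := by
    rw [Subgroup.index_map_eq F' hπs (by rw [hker]; exact hK'F'), hi']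
  have hcomap : (F'.map π).comap π = F' := by
    rw [Subgroup.comap_map_eq, hker]
    exact sup_eq_left.2 hK'F'
  obtain ⟨V, hVn, hVc, hVF, hVt, hVcen, hVmin⟩ := corefree_prime_index (F := F'.map π) hFi (by
    intro N hN hNF
    have h1 : N.comap π ≤ K' := by
      apply Subgroup.normal_le_normalCore.2
      exact (Subgroup.comap_mono hNF).trans_eq hcomap
    rw [eq_bot_iff]
    intro y hy
    obtain ⟨x, rfl⟩ := hπs y
    have h2 : x ∈ K' := h1 hy
    rw [← hker] at h2
    exact h2)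
  set K := K'.map E.subtype with hK
  set N := (V.comap π).map E.subtype with hN
  have hmemK : ∀ x (hx : x ∈ E), x ∈ K ↔ π ⟨x, hx⟩ = 1 := by
    intro x hx
    rw [hK, ← MonoidHom.mem_ker, hker]
    constructor
    · rintro ⟨y, hy, rfl⟩
      exact hy
    · intro h
      exact ⟨⟨x, hx⟩, h, rfl⟩
  have hmemN : ∀ x (hx : x ∈ E), x ∈ N ↔ π ⟨x, hx⟩ ∈ V := by
    intro x hx
    rw [hN]
    constructor
    · rintro ⟨y, hy, rfl⟩
      exact hy
    · intro h
      exact ⟨⟨x, hx⟩, h, rfl⟩
  have hKE : K ≤ E := Subgroup.map_subtype_le _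
  have hNE : N ≤ E := Subgroup.map_subtype_le _
  have hmemF : ∀ x (hx : x ∈ E), x ∈ F ↔ π ⟨x, hx⟩ ∈ F'.map π := by
    intro x hx
    have h1 : (⟨x, hx⟩ : E) ∈ (F'.map π).comap π ↔ (⟨x, hx⟩ : E) ∈ F' := by rw [hcomap]
    exact h1.symm
  have hnorm : ∀ W : Subgroup E, W.Normal → NormalIn (W.map E.subtype) E := by
    intro W hW
    refine ⟨Subgroup.map_subtype_le _, ?_⟩
    rintro e he _ ⟨w, hw, rfl⟩
    exact ⟨⟨e, he⟩ * w * ⟨e, he⟩⁻¹, hW.conj_mem w hw ⟨e, he⟩, rfl⟩
  have hKN : K ≤ N := by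
    intro x hx
    rw [hmemN x (hKE hx), (hmemK x (hKE hx)).1 hx]
    exact one_mem V
  have hNF : ∀ x ∈ N, x ∈ F → x ∈ K := by
    intro x hx hxF
    have h1 : π ⟨x, hNE hx⟩ ∈ V ⊓ F'.map π :=
      Subgroup.mem_inf.2 ⟨(hmemN x (hNE hx)).1 hx, (hmemF x (hNE hx)).1 hxF⟩
    rw [hVF, Subgroup.mem_bot] at h1
    exact (hmemK x (hNE hx)).2 h1
  refine ⟨K, N, hnorm K' inferInstance, ?_, ?_, hnorm _ (hVn.comap π), hKN, hNF, ?_, ?_, ?_, ?_, ?_⟩
  · rintro _ ⟨y, hy, rfl⟩
    exact hK'F' hy
  · intro L hL hLF x hx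
    have h1 : L.subgroupOf E ≤ K' := by
      have := hL.subgroupOf_normal
      apply Subgroup.normal_le_normalCore.2
      intro y hy
      exact hLF hy
    exact ⟨⟨x, hL.1 hx⟩, h1 hx, rfl⟩
  · rintro x hx ⟨k, hk⟩
    rw [hmemN x hx]
    apply hVt
    refine ⟨k, ?_⟩
    rw [← map_pow]
    have : (⟨x, hx⟩ : E) ^ t ^ k = 1 := Subtype.ext hk
    rw [this, map_one]
  · intro x hx h
    rw [hmemN x hx]
    apply hVcen
    intro n hn
    obtain ⟨y, rfl⟩ := hπs n
    have hyN : (y : G) ∈ N := (hmemN y y.2).2 hn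
    have h1 := h y hyN
    have h2 : ⁅x, (y : G)⁆ ∈ E := hKE h1
    have h3 : π ⁅(⟨x, hx⟩ : E), y⁆ = 1 := (hmemK _ h2).1 h1
    rw [map_commutatorElement, commutatorElement_eq_one_iff_mul_comm] at h3
    exact h3
  · intro L hL hKL hLK
    have hLn := hL.subgroupOf_normal
    have h1 : ((L.subgroupOf E).map π).Normal := hLn.map π hπs
    have h2 : (L.subgroupOf E).map π ≠ ⊥ := by
      intro h
      apply hLK
      apply le_antisymm _ hKL
      intro x hx
      rw [hmemK x (hL.1 hx)]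
      have : π ⟨x, hL.1 hx⟩ ∈ (L.subgroupOf E).map π := ⟨⟨x, hL.1 hx⟩, hx, rfl⟩
      rw [h] at this
      exact this
    have h3 := hVmin _ h1 h2
    intro x hx
    obtain ⟨y, hy, hye⟩ := h3 ((hmemN x (hNE hx)).1 hx)
    have h4 : π (y⁻¹ * ⟨x, hNE hx⟩) = 1 := by
      rw [map_mul, map_inv, hye, inv_mul_cancel]
    have h5 : ((y⁻¹ * ⟨x, hNE hx⟩ : E) : G) ∈ K := (hmemK _ (y⁻¹ * ⟨x, hNE hx⟩ : E).2).2 h4
    have h6 : x = (y : G) * ((y : G)⁻¹ * x) := by group
    rw [h6]
    exact mul_mem hy (hKL h5)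
  · -- the index of `K` in `N`
    have h1 : K.relIndex N = K'.relIndex (V.comap π) := by
      rw [hK, hN, Subgroup.relIndex_map_map_of_injective _ _ E.subtype_injective]
    have h2 : K'.relIndex (V.comap π) = (⊥ : Subgroup (E ⧸ K')).relIndex V := by
      have h3 := Subgroup.relIndex_comap (H := (⊥ : Subgroup (E ⧸ K'))) π (V.comap π)
      rw [Subgroup.map_comap_eq_self_of_surjective hπs] at h3
      rw [← h3]
      have h4 : (⊥ : Subgroup (E ⧸ K')).comap π = K' := hker
      rw [h4]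
    rw [h1, h2, Subgroup.relIndex_bot_left, hVc]
  · intro p hp B hBF hB
    have hBE : B ≤ E := hBF.trans hFE
    have h1 : Nat.card ((B.subgroupOf E).map π) ∣ p := by
      apply card_dvd_of_faithful hVc hVn hp
      · rintro _ ⟨b, hb, rfl⟩
        rw [← map_pow]
        have : b ^ p = 1 := Subtype.ext (hB b hb)
        rw [this, map_one]
      · rintro _ ⟨b, hb, rfl⟩ h
        have h2 : π b ∈ V := hVcen _ h
        have h3 : π b ∈ V ⊓ F'.map π :=
          Subgroup.mem_inf.2 ⟨h2, ⟨b, hBF hb, rfl⟩⟩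
        rw [hVF, Subgroup.mem_bot] at h3
        exact h3
    have h2 : K.relIndex B = Nat.card ((B.subgroupOf E).map π) := by
      have h3 := Subgroup.relIndex_ker (f := π) (K := B.subgroupOf E)
      rw [← h3, hker, hK]
      rw [← Subgroup.relIndex_map_map_of_injective _ _ E.subtype_injective,
        map_subtype_subgroupOf hBE]
    rw [h2]
    exact h1

end MP_5771ce_al
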