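import Pool.Agent.Lib.MP_5771ce_al.S3.DI
import Pool.Agent.Lib.MP_5771ce_al.S3.F2
import Pool.Agent.Lib.MP_5771ce_al.S3.Small
import Pool.Agent.Lib.MP_5771ce_al.S3.EX

/-!
# Section 3 of the chain `GROUP` (MP_5771ce_al): (3.8.3), module R2B, up to the bound on the rank
-/

open Subgroup
open scoped Pointwise commutatorElement

universe u

namespace MP_5771ce_al

variable {G : Type u} [Group G]


section r2b

variable [Finite G] {A : Subgroup G} {q : ℕ}

/-- A `q`-group `X` permuting with `A` and `V = O_q(A)` generate a `q`-group `VX = XV`, which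
permutes with `A`. -/
theorem MCq.permutes_opc (h : MCq A q) {X : Subgroup G} (hX : IsPGroup q X)
    (hp : Permutes A X) : Permutes (opc q A) X ∧ IsPGroup q (opc q A ⊔ X : Subgroup G) ∧
      Permutes A (opc q A ⊔ X) := by
  have hq : Fact q.Prime := ⟨h.prime⟩
  obtain ⟨P, hP, hXP⟩ := exists_isSylowIn_ge hX (le_sup_right : X ≤ A ⊔ X)
  have hVP : opc q A ≤ P := by
    obtain ⟨g, hg, h1⟩ := hP.exists_le_conjBy (opc_isPGroup q A)
      ((opc_le q A).trans le_sup_left)
    obtain ⟨x, hx, a, ha, rfl⟩ := hp.mem_sup'.1 hg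
    rw [conjBy_mul, conjBy_eq_self (hXP hx)] at h1
    have h2 := conjBy_mono h1 a⁻¹
    rwa [← conjBy_mul, mul_inv_cancel, conjBy_one,
      (opc_normalIn q A).conjBy_eq (inv_mem ha)] at h2
  have hPA : P ⊓ A = opc q A := by
    apply le_antisymm
    · intro x hx
      rw [mem_opc_of_abelian h.comm]
      refine ⟨hx.2, ?_⟩
      obtain ⟨k, hk⟩ := hP.isPGroup ⟨x, hx.1⟩
      exact ⟨k, congrArg Subtype.val hk⟩
    · exact le_inf hVP (opc_le q A)
  have hPe : P = opc q A ⊔ X := by
    have h1 := hp.eq_sup_inf' hXP hP.le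
    rwa [hPA] at h1
  have hperm : Permutes (opc q A) X := by
    have h1 := hp.inf_left hXP
    rwa [inf_comm, hPA] at h1
  refine ⟨hperm, hPe ▸ hP.isPGroup, ?_⟩
  rw [permutes_iff]
  intro a ha y hy
  obtain ⟨v, hv, x, hx, rfl⟩ := hperm.mem_sup.1 hy
  obtain ⟨x', hx', a', ha', e⟩ := permutes_iff.1 hp (a * v) (mul_mem ha (opc_le q A hv)) x hx
  exact ⟨x', mem_sup_right hx', a', ha', by rw [← e]; group⟩

private theorem opc_le_opc_sup {X : Subgroup G} (hX : IsPGroup q X) (hp : Permutes A X)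
    (hV : opc q A ≤ X) : opc q A ≤ opc q (A ⊔ X) := by
  have hXL : X ≤ A ⊔ X := le_sup_right
  have hN : NormalIn (((X.subgroupOf (A ⊔ X)).normalCore).map (A ⊔ X).subtype) (A ⊔ X) := by
    refine ⟨map_subtype_le _, ?_⟩
    rintro e he _ ⟨n, hn, rfl⟩
    exact ⟨_, (normalCore_normal (X.subgroupOf (A ⊔ X))).conj_mem n hn ⟨e, he⟩, rfl⟩
  have hle : ((X.subgroupOf (A ⊔ X)).normalCore).map (A ⊔ X).subtype ≤ X := by
    rintro _ ⟨n, hn, rfl⟩
    exact mem_subgroupOf.1 (normalCore_le (X.subgroupOf (A ⊔ X)) hn)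
  refine le_trans ?_ (le_opc hN (hX.to_le hle))
  intro v hv
  refine ⟨⟨v, mem_sup_left (opc_le q A hv)⟩, ?_, rfl⟩
  rintro ⟨b, hb⟩
  obtain ⟨x, hx, a, ha, rfl⟩ := hp.mem_sup'.1 hb
  rw [mem_subgroupOf]
  have h1 : a * v * a⁻¹ ∈ X := hV ((opc_normalIn q A).conj_mem ha hv)
  have h2 := mul_mem (mul_mem hx h1) (inv_mem hx)
  have h3 : x * (a * v * a⁻¹) * x⁻¹ = x * a * v * (x * a)⁻¹ := by group
  rw [h3] at h2
  exact h2

private theorem isSylowIn_sup {B N : Subgroup G} {p q : ℕ} (hpp : p.Prime) [Fact q.Prime]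
    (hpq : p ≠ q) (hB : IsPGroup p B) (hN : IsPGroup q N) (hperm : Permutes B N) :
    IsSylowIn p B (B ⊔ N) where
  le := le_sup_left
  isPGroup := hB
  not_dvd := by
    rw [hperm.relIndex_sup]
    intro hd
    obtain ⟨n, hn⟩ := (IsPGroup.iff_card).1 hN
    have h1 : p ∣ q ^ n := hd.trans (hn ▸ relIndex_dvd_card B N)
    exact hpq ((Nat.prime_dvd_prime_iff_eq hpp Fact.out).1 (hpp.dvd_of_dvd_pow h1))

private theorem normalIn_sup_opc {X : Subgroup G} [Fact q.Prime]
    (hab : ∀ a ∈ A, ∀ b ∈ A, a * b = b * a) (hX : IsPGroup q X) (hp : Permutes A X)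
    (hsol : Group.IsSolvable (A ⊔ X : Subgroup G)) {p : ℕ} (hpp : p.Prime) (hpq : p ≠ q) :
    NormalIn (opc p A ⊔ opc q (A ⊔ X)) (A ⊔ X) := by
  set L := A ⊔ X with hL
  have hAL : A ≤ L := le_sup_left
  have hXL : X ≤ L := le_sup_right
  have hab' : ∀ a ∈ A.subgroupOf L, ∀ b ∈ A.subgroupOf L, a * b = b * a :=
    fun a ha b hb => Subtype.ext (hab a ha b hb)
  have h := DIAux.normal_sup (G := L) (A := A.subgroupOf L) (R := X.subgroupOf L) (s := q)
    hab' (hX.comap_subtype)
    (by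
      refine permutes_of_map (f := L.subtype) L.subtype_injective ?_
      rwa [subgroupOf_map_subtype, subgroupOf_map_subtype, inf_of_le_left hAL,
        inf_of_le_left hXL])
    (by
      rw [← subgroupOf_sup hAL hXL, ← hL, subgroupOf_self])
    hsol hpp hpq (isSylowIn_opc_of_abelian hab' hpp)
  have h2 := (normalIn_top.2 h).map L.subtype
  rwa [map_subtype_top, Subgroup.map_sup, opc_subgroupOf p hAL,
    map_subtype_subgroupOf ((opc_le p A).trans hAL), ← opc_eq_map_top] at h2

/-- A Frattini argument: `X ≤ N N_X(A_p)`, `N = O_q(AX)`. -/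
private theorem exists_frattini (h : MCq A q) {X : Subgroup G} (hX : IsPGroup q X)
    (hp : Permutes A X) (hV : opc q A ≤ X) {p : ℕ} (hpp : p.Prime) (hpq : p ≠ q) {x : G}
    (hx : x ∈ X) : ∃ n ∈ opc q (A ⊔ X), ∃ y ∈ X, y ∈ normalizer (opc p A : Set G) ∧
      n * y = x := by
  have hq : Fact q.Prime := ⟨h.prime⟩
  have hpf : Fact p.Prime := ⟨hpp⟩
  have hsol := h.mc.isSolvable_sup_of_isPGroup hX hp
  have hXs : IsSylowIn q X (A ⊔ X) := by
    refine ⟨le_sup_right, hX, fun hd => ?_⟩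
    rw [sup_comm, hp.symm.relIndex_sup] at hd
    exact (isSylowIn_opc_of_abelian h.comm h.prime).not_dvd
      (hd.trans (relIndex_dvd_of_le_left A hV))
  have hNX : opc q (A ⊔ X) ≤ X := hXs.opc_le
  have hK := normalIn_sup_opc h.comm hX hp hsol hpp hpq
  have hNn : opc p A ≤ normalizer (opc q (A ⊔ X) : Set G) :=
    ((opc_le p A).trans le_sup_left).trans (opc_normalIn q (A ⊔ X)).le_normalizer
  have hS : IsSylowIn p (opc p A) (opc p A ⊔ opc q (A ⊔ X)) :=
    isSylowIn_sup hpp hpq (opc_isPGroup p A) (opc_isPGroup q _)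
      (permutes_of_le_normalizer hNn).symm
  obtain ⟨m, hm, y, hy, rfl⟩ := hS.frattini hK (mem_sup_right hx : x ∈ A ⊔ X)
  rw [sup_comm] at hm
  obtain ⟨n, hn, b, hb, rfl⟩ := (mem_sup_of_le_normalizer' hNn).1 hm
  refine ⟨n, hn, b * y, ?_, mul_mem (le_normalizer hb) hy.2, by group⟩
  have h1 := mul_mem (inv_mem (hNX hn)) hx
  have h2 : n⁻¹ * (n * b * y) = b * y := by group
  rwa [h2] at h1

/-- The exceptional case `p = 2`, `q = 3` of (3.8.3). -/
private theorem exceptional (h : MCq A 3) {X : Subgroup G} (hX : IsPGroup 3 X)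
    (hp : Permutes A X) (hV : opc 3 A ≤ X) {y : G} (hy : y ∈ X)
    (hyn : y ∈ normalizer (opc 2 A : Set G)) {t : G} (ht : t ∈ opc 2 A) (ht2 : t ^ 2 = 1)
    (hyt : y * t ≠ t * y)
    (hidx : ∀ B ≤ opc 2 A, y ∈ normalizer (B : Set G) → B.relIndex (opc 2 A) ≠ 2) : False := by
  have h3 : Fact (Nat.Prime 3) := ⟨Nat.prime_three⟩
  have h2 : Fact (Nat.Prime 2) := ⟨Nat.prime_two⟩
  have hVb : opc 3 A ≠ ⊥ := h.opc_ne_bot
  have hVs : Group.IsSolvable (opc 3 A) := isSolvable_of_isPGroup (opc_isPGroup 3 A)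
  set V := opc 3 A with hVdef
  -- step 1
  have hcent : ∀ O : Subgroup G, IsPGroup 3 O → A ≤ normalizer (O : Set G) → V ≤ O →
      y ∈ normalizer (O : Set G) → opc 2 A ≤ centralizer (O : Set G) := by
    intro O hO hAO hVO hyO
    have h4 := h.F2_index hO hAO hVO
    have h5 : y ∈ normalizer (opc 2 A ⊓ centralizer (O : Set G) : Subgroup G) := by
      have h6 : ∀ z ∈ zpowers y, ∀ c ∈ opc 2 A ⊓ centralizer (O : Set G),
          z * c * z⁻¹ ∈ opc 2 A ⊓ centralizer (O : Set G) := by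
        intro z hz c hc
        have hzn : z ∈ normalizer (opc 2 A : Set G) :=
          (zpowers_le.2 hyn : zpowers y ≤ normalizer (opc 2 A : Set G)) hz
        have hzO : z ∈ normalizer (O : Set G) :=
          (zpowers_le.2 hyO : zpowers y ≤ normalizer (O : Set G)) hz
        exact ⟨(mem_normalizer_iff.1 hzn c).1 hc.1, conj_mem_centralizer hzO hc.2⟩
      exact le_normalizer_of_conj_mem h6 (mem_zpowers y)
    have h6 := hidx _ inf_le_left h5
    have h7 : (opc 2 A ⊓ centralizer (O : Set G)).relIndex (opc 2 A) ≠ 0 :=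
      index_ne_zero_of_finite
    have h8 : (opc 2 A ⊓ centralizer (O : Set G)).relIndex (opc 2 A) = 1 := by omega
    exact (relIndex_eq_one.1 h8).trans inf_le_right
  -- step 2
  set N := opc 3 (A ⊔ X) with hN
  have hVN : V ≤ N := opc_le_opc_sup hX hp hV
  have hLN : A ⊔ X ≤ normalizer (N : Set G) := (opc_normalIn 3 (A ⊔ X)).le_normalizer
  have hNp : IsPGroup 3 N := opc_isPGroup 3 _
  have hNc : opc 2 A ≤ centralizer (N : Set G) :=
    hcent N hNp (le_sup_left.trans hLN) hVN (hLN (mem_sup_right hy))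
  -- step 3
  have claim : ∀ X' : Subgroup G, IsPGroup 3 X' → Permutes A X' → V ≤ X' →
      NormalIn (opc 2 A) (A ⊔ X') := by
    intro X' hX' hp' hV'
    set N' := opc 3 (A ⊔ X') with hN'
    have hVN' : V ≤ N' := opc_le_opc_sup hX' hp' hV'
    have hLN' : A ⊔ X' ≤ normalizer (N' : Set G) := (opc_normalIn 3 (A ⊔ X')).le_normalizer
    have hNp' : IsPGroup 3 N' := opc_isPGroup 3 _
    have hAN' : A ≤ normalizer (N' : Set G) := le_sup_left.trans hLN'
    have hsol := h.mc.isSolvable_sup_of_isPGroup hX' hp'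
    have hK : NormalIn (opc 2 A ⊔ N') (A ⊔ X') :=
      normalIn_sup_opc h.comm hX' hp' hsol Nat.prime_two (by norm_num)
    by_cases hc : opc 2 A ≤ centralizer (N' : Set G)
    · have h4 : IsSylowIn 2 (opc 2 A) (opc 2 A ⊔ N') :=
        isSylowIn_sup Nat.prime_two (by norm_num) (opc_isPGroup 2 A) hNp'
          (permutes_of_le_normalizer (((opc_le 2 A).trans hAN'))).symm
      have h5 : NormalIn (opc 2 A) (opc 2 A ⊔ N') := by
        refine normalIn_of_le_normalizer le_sup_left (sup_le le_normalizer ?_)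
        refine le_normalizer_of_conj_mem fun n hn a ha => ?_
        have h6 : n * a = a * n := mem_centralizer_iff.1 (hc ha) n hn
        rw [h6, mul_inv_cancel_right]
        exact ha
      have h6 : opc 2 A = opc 2 (opc 2 A ⊔ N') :=
        h4.eq_of_le (opc_isPGroup 2 _) (le_opc h5 (opc_isPGroup 2 A)) (opc_le 2 _)
      have h7 := hK.opc 2
      rwa [← h6] at h7
    · exfalso
      obtain ⟨a, ha, hac⟩ := SetLike.not_le_iff_exists.1 hc
      have haA : a ∈ A := opc_le 2 A ha
      have hane : ∃ n ∈ N', a * n ≠ n * a := by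
        by_contra hno
        push Not at hno
        exact hac (mem_centralizer_iff.2 fun n hn => (hno n hn).symm)
      obtain ⟨n, hn, han⟩ := hane
      have hF : ∀ x ∈ N', a * x = x * a → x ∈ V :=
        (h.F2 hNp' hAN' hVN' Nat.prime_two (by norm_num) ha).resolve_left
          fun hall => han (hall n hn)
      have hlt : V < N' := by
        refine lt_of_le_of_ne hVN' fun he => han ?_
        have : n ∈ A := opc_le 3 A (by rw [← hVdef, he]; exact hn)
        exact h.comm a haA n this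
      set E := normalizer (V : Set G) with hE
      have hEt : E ≠ ⊤ := h.mc.normalizer_ne_top hVb hVs
      have hAE : A ≤ E := (opc_normalIn 3 A).le_normalizer
      set X₁ : Subgroup G := N' ⊓ E with hX₁
      have hX₁p : IsPGroup 3 X₁ := hNp'.to_inf_left
      have hlt₁ : V < X₁ := lt_inf_normalizer_of_lt hNp' hlt
      obtain ⟨x₁, hx₁, hx₁V⟩ := SetLike.exists_of_lt hlt₁
      have hAX₁ : A ≤ normalizer (X₁ : Set G) := by
        refine le_normalizer_of_conj_mem fun b hb x hx => ⟨?_, ?_⟩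
        · exact (mem_normalizer_iff.1 (hAN' hb) x).1 hx.1
        · exact E.mul_mem (E.mul_mem (hAE hb) hx.2) (E.inv_mem (hAE hb))
      have ha2 : IsPGroup 2 (zpowers a) :=
        (opc_isPGroup 2 A).to_le (zpowers_le.2 ha)
      have haX₁ : zpowers a ≤ normalizer (X₁ : Set G) := zpowers_le.2 (hAX₁ haA)
      have h2X₁ : ¬ 2 ∣ Nat.card X₁ :=
        not_dvd_card_of_isPGroup Nat.prime_two Nat.prime_three (by norm_num) hX₁p
      set Z := ⁅X₁, zpowers a⁆ with hZ
      have hZX₁ : Z ≤ X₁ := le_normalizer_iff_commutator_le_left.1 haX₁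
      have hZZ : ⁅Z, zpowers a⁆ = Z := commutator_commutator_eq ha2 haX₁ h2X₁
      have haA' : zpowers a ≤ A := zpowers_le.2 haA
      have hAZ : A ≤ normalizer (Z : Set G) := by
        refine le_normalizer_commutator hAX₁ ?_
        refine le_normalizer_of_conj_mem fun b hb x hx => ?_
        rw [h.comm b hb x (haA' hx), mul_inv_cancel_right]
        exact hx
      have hZO : Z ≤ opc 3 E := by
        refine h.mc.lemmaP hAE hEt (hZX₁.trans inf_le_right) (hX₁p.to_le hZX₁)
          (fun b hb x hx => (mem_normalizer_iff.1 (hAZ hb) x).1 hx) ?_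
        calc Z = ⁅Z, zpowers a⁆ := hZZ.symm
          _ ≤ ⁅Z, A⁆ := commutator_mono le_rfl haA'
      set O := opc 3 E with hO
      have hOp : IsPGroup 3 O := opc_isPGroup 3 E
      have hVO : V ≤ O := le_opc ⟨le_normalizer, fun e he v hv =>
        (mem_normalizer_iff.1 he v).1 hv⟩ (opc_isPGroup 3 A)
      have hEO : E ≤ normalizer (O : Set G) := (opc_normalIn 3 E).le_normalizer
      have haO : ¬ ∀ x ∈ O, a * x = x * a := by
        intro hall
        apply hx₁V
        refine hF x₁ hx₁.1 ?_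
        have hZb : Z = ⊥ := by
          rw [← hZZ, commutator_eq_bot_iff_le_centralizer]
          intro z hz
          rw [mem_centralizer_iff]
          intro b hb
          obtain ⟨i, rfl⟩ := mem_zpowers_iff.1 hb
          exact (Commute.zpow_left (hall z (hZO hz) : Commute a z) i)
        have h6 := commute_of_commutator_eq_bot hZb x₁ hx₁ a (mem_zpowers a)
        exact h6.symm
      have hM : IsPGroup 3 ((N ⊓ E) ⊔ O : Subgroup G) :=
        IsPGroup.to_sup_of_normal_right' (hNp.to_inf_left) hOp (inf_le_right.trans hEO)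
      have hAM : A ≤ normalizer (((N ⊓ E) ⊔ O : Subgroup G) : Set G) := by
        refine le_normalizer_of_conj_mem fun b hb => ?_
        have h6 : (N ⊓ E) ⊔ O ≤ ((N ⊓ E) ⊔ O : Subgroup G).comap
            (MulAut.conj b).toMonoidHom := by
          refine sup_le ?_ ?_
          · intro x hx
            refine mem_sup_left ⟨?_, ?_⟩
            · exact (mem_normalizer_iff.1 (hLN (mem_sup_left hb)) x).1 hx.1
            · exact E.mul_mem (E.mul_mem (hAE hb) hx.2) (E.inv_mem (hAE hb))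
          · intro x hx
            exact mem_sup_right ((mem_normalizer_iff.1 (hEO (hAE hb)) x).1 hx)
        exact fun x hx => h6 hx
      have hFM := (h.F2 hM hAM (hVO.trans le_sup_right) Nat.prime_two (by norm_num) ha).resolve_left
        fun hall => haO fun x hx => hall x (mem_sup_right hx)
      have hNE : N ⊓ E ≤ V := by
        intro x hx
        exact hFM x (mem_sup_left hx) ((mem_centralizer_iff.1 (hNc ha) x hx.1).symm)
      have hNV : N = V := by
        by_contra hne
        exact (lt_inf_normalizer_of_lt hNp (lt_of_le_of_ne hVN (Ne.symm hne))).not_ge hNE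
      have hyE : y ∈ E := by
        have := hLN (mem_sup_right hy : y ∈ A ⊔ X)
        rwa [hNV] at this
      have h6 := hcent O hOp (hAE.trans hEO) hVO (hEO hyE)
      exact haO fun x hx => (mem_centralizer_iff.1 (h6 ha) x hx).symm
  -- step 4
  obtain ⟨k, hk⟩ := hX ⟨y, hy⟩
  refine h.EX ⟨k, congrArg Subtype.val hk⟩ hyn (opc_le 2 A ht) ht2 hyt ?_
  intro s hs hs2 hsA P hP
  have hs3 : s = 3 := by
    have h4 := h.max s hs hsA
    have h5 := hs.two_le
    omega
  subst hs3
  obtain ⟨-, h5, -⟩ := h.permutes_opc hP.isPGroup hP.permutes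
  have hPs : IsSylowIn 3 P ⊤ := ⟨le_top, hP.isPGroup, by
    rw [relIndex_top_right]; exact hP.not_dvd⟩
  have hVP : V ≤ P := by
    rw [hPs.eq_of_le h5 le_sup_right le_top]
    exact le_sup_left
  exact (le_sup_right : P ≤ A ⊔ P).trans (claim P hP.isPGroup hP.permutes hVP).le_normalizer

/-- (3.8.3) (R2b): `A` normalises the `q`-groups containing `V` and permuting with `A`, if the
rank of `A` is at most two. -/
theorem MCq.R2b_of_rank (h : MCq A q)
    (hrank : ∀ p : ℕ, p.Prime → ∀ B ≤ A, (∀ b ∈ B, b ^ p = 1) → Nat.card B ≤ p ^ 2)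
    {X : Subgroup G} (hX : IsPGroup q X) (hp : Permutes A X)
    (hV : opc q A ≤ X) : A ≤ normalizer (X : Set G) := by
  have hq : Fact q.Prime := ⟨h.prime⟩
  apply le_of_opc_le_of_abelian h.comm
  intro p hpp hpA
  by_cases hpq : p = q
  · rw [hpq]; exact hV.trans le_normalizer
  refine le_normalizer_of_conj_mem fun a ha x hx => ?_
  obtain ⟨n, hn, y, hy, hyn, rfl⟩ := exists_frattini h hX hp hV hpp hpq hx
  have hXs : IsSylowIn q X (A ⊔ X) := by
    refine ⟨le_sup_right, hX, fun hd => ?_⟩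
    rw [sup_comm, hp.symm.relIndex_sup] at hd
    exact (isSylowIn_opc_of_abelian h.comm h.prime).not_dvd
      (hd.trans (relIndex_dvd_of_le_left A hV))
  have hNX : opc q (A ⊔ X) ≤ X := hXs.opc_le
  have haA : a ∈ A := opc_le p A ha
  by_cases hc : a * y = y * a
  · have h1 : a * (n * y) * a⁻¹ = a * n * a⁻¹ * y := by
      calc a * (n * y) * a⁻¹ = a * n * a⁻¹ * (a * y) * a⁻¹ := by group
        _ = a * n * a⁻¹ * (y * a) * a⁻¹ := by rw [hc]
        _ = a * n * a⁻¹ * y := by group
    rw [h1]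
    exact mul_mem (hNX ((opc_normalIn q (A ⊔ X)).conj_mem (mem_sup_left haA) hn)) hy
  · exfalso
    obtain ⟨k, hk⟩ := hX ⟨y, hy⟩
    have hlt : p < q := lt_of_le_of_ne (h.max p hpp hpA) hpq
    obtain ⟨rfl, rfl, ⟨t, ht, ht2, hyt⟩, hidx⟩ := small_action hpp h.prime hlt (opc_isPGroup p A)
      (fun a ha b hb => h.comm a (opc_le p A ha) b (opc_le p A hb))
      (fun B hB hexp => hrank p hpp B (hB.trans (opc_le p A)) hexp)
      ⟨k, congrArg Subtype.val hk⟩ hyn ⟨a, ha, hc⟩
    exact exceptional h hX hp hV hy hyn ht ht2 hyt hidx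

end r2b

end MP_5771ce_al
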