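import Pool.Agent.Lib.MP_5771ce_al.S3.R2A

/-!
# Section 3: uniqueness of the vertex (hypothesis `uq` of the tree theorem)
-/

open Subgroup
open scoped Pointwise commutatorElement

universe u

namespace MP_5771ce_al

variable {G : Type u} [Group G]

private theorem uq_commute_of_bot {X Y : Subgroup G} (h : ⁅X, Y⁆ = ⊥) {x y : G} (hx : x ∈ X)
    (hy : y ∈ Y) : x * y = y * x := by
  have h1 : ⁅x, y⁆ ∈ ⁅X, Y⁆ := commutator_mem_commutator hx hy
  rw [h, Subgroup.mem_bot, commutatorElement_eq_one_iff_mul_comm] at h1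
  exact h1

private theorem uq_bot_of_commute {X Y : Subgroup G} (h : ∀ x ∈ X, ∀ y ∈ Y, x * y = y * x) :
    ⁅X, Y⁆ = ⊥ := by
  rw [eq_bot_iff, commutator_le]
  intro x hx y hy
  rw [Subgroup.mem_bot, commutatorElement_eq_one_iff_mul_comm]
  exact h x hx y hy

private theorem uq_conj_of_mem {S : Subgroup G} {m : G} (hm : m ∈ normalizer (S : Set G)) {x : G} :
    m * x * m⁻¹ ∈ S ↔ x ∈ S := (Subgroup.mem_normalizer_iff.1 hm x).symm

private theorem uq_conjBy_eq {S : Subgroup G} {m : G} (hm : m ∈ normalizer (S : Set G)) :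
    conjBy S m = S := by
  ext x
  rw [mem_conjBy]
  exact uq_conj_of_mem hm

variable [Finite G] {A : Subgroup G} {q : ℕ}

/-- If some conjugate of `A` centralises `S` then every active conjugate is faithful on `S`. -/
theorem Act.faithful (h : MCq A q) {s : ℕ} {S : Subgroup G} {g g₁ : G}
    (hS : Act s (MP_5771ce_al.conjBy A g) S)
    (hc : ∀ a ∈ MP_5771ce_al.conjBy A g₁, ∀ x ∈ S, a * x = x * a) {a : G}
    (ha : a ∈ MP_5771ce_al.conjBy A g) (hac : ∀ x ∈ S, a * x = x * a) : a = 1 := by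
  by_contra hne
  set A₂ := MP_5771ce_al.conjBy A g with hA₂
  have h₂ : MCq A₂ q := h.conjBy g
  set C : Subgroup G := A₂ ⊓ centralizer (S : Set G) with hC
  have haC : a ∈ C := ⟨ha, Subgroup.mem_centralizer_iff.2 fun x hx => (hac x hx).symm⟩
  have hCb : C ≠ ⊥ := fun h0 => hne ((Subgroup.mem_bot).1 (h0 ▸ haC))
  have hN := hS.normalizer_le_of_centralizes h₂ (B := C) inf_le_left hCb inf_le_right
  -- `S ^ (g₁⁻¹ g)` is centralised by `A₂`
  have hle : MP_5771ce_al.conjBy S (g₁⁻¹ * g) ≤ normalizer (S : Set G) := by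
    refine le_trans ?_ hN
    intro y hy
    rw [mem_conjBy] at hy
    have hyc : ∀ c ∈ A₂, c * y = y * c := by
      intro c hcA
      have h3 : (g₁⁻¹ * g) * c * (g₁⁻¹ * g)⁻¹ ∈ MP_5771ce_al.conjBy A g₁ := by
        rw [mem_conjBy]
        rw [hA₂, mem_conjBy] at hcA
        have : g₁ * (g₁⁻¹ * g * c * (g₁⁻¹ * g)⁻¹) * g₁⁻¹ = g * c * g⁻¹ := by group
        rwa [this]
      have h4 := hc _ h3 _ hy
      have h5 := congrArg (fun t => (g₁⁻¹ * g)⁻¹ * t * (g₁⁻¹ * g)) h4
      simpa [mul_assoc] using h5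
    rw [Subgroup.mem_normalizer_iff]
    intro c
    constructor
    · intro hcC
      rw [← hyc c hcC.1, mul_inv_cancel_right]
      exact hcC
    · intro hcC
      have h6 := hyc _ hcC.1
      have h7 : c = y * c * y⁻¹ := by
        have : y * c * y⁻¹ * y = y * (y * c * y⁻¹) := h6
        have h8 : y * c = y * (y * c * y⁻¹) := by simpa [mul_assoc] using this
        exact mul_left_cancel h8
      rw [h7]
      exact hcC
  have hmem := hS.mem_of_conjBy_le h₂ hle
  apply hS.ne
  apply uq_bot_of_commute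
  intro x hx c hcA
  have hx' : x ∈ MP_5771ce_al.conjBy S (g₁⁻¹ * g) := by rwa [uq_conjBy_eq hmem]
  rw [mem_conjBy] at hx'
  have h3 : (g₁⁻¹ * g) * c * (g₁⁻¹ * g)⁻¹ ∈ MP_5771ce_al.conjBy A g₁ := by
    rw [mem_conjBy]
    rw [hA₂, mem_conjBy] at hcA
    have : g₁ * (g₁⁻¹ * g * c * (g₁⁻¹ * g)⁻¹) * g₁⁻¹ = g * c * g⁻¹ := by group
    rwa [this]
  have h4 := (hc _ h3 _ hx').symm
  have h5 := congrArg (fun t => (g₁⁻¹ * g)⁻¹ * t * (g₁⁻¹ * g)) h4
  simpa [mul_assoc] using h5

/-- **UQ.** -/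
theorem MCq.uq (h : MCq A q) {x : G} {E : Subgroup G} (hE : InP A E)
    (hloc : normalizer (zpowers x : Set G) ≤ E) {s : ℕ} {S : Subgroup G} (hs : Iplus A q s)
    (hS : IsSylowIn s S ⊤) (hxS : x ∈ normalizer (S : Set G)) {d : G} (hd : d ∈ S) (hd1 : d ≠ 1)
    (hdx : d * x = x * d) : E ≤ normalizer (S : Set G) := by
  have hsp : s.Prime := hs.prime
  have : Fact s.Prime := ⟨hsp⟩
  obtain ⟨hEt, g₀, hg₀⟩ := hE
  -- `d ∈ E`
  have hdn : d ∈ normalizer (zpowers x : Set G) := by
    rw [Subgroup.mem_normalizer_iff]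
    intro t
    constructor
    · intro ht
      obtain ⟨n, rfl⟩ := mem_zpowers_iff.1 ht
      have h5 : Commute d (x ^ n) := (show Commute d x from hdx).zpow_right n
      rw [h5.eq, mul_inv_cancel_right]
      exact ht
    · intro ht
      obtain ⟨n, hn⟩ := mem_zpowers_iff.1 ht
      have h5 : Commute d (x ^ n) := (show Commute d x from hdx).zpow_right n
      have h6 : t = x ^ n := by
        have : t = d⁻¹ * (x ^ n) * d := by rw [hn]; group
        rw [this, mul_assoc, ← h5.eq]; group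
      rw [h6]
      exact Subgroup.zpow_mem _ (mem_zpowers x) n
  have hdE : d ∈ E := hloc hdn
  -- a Sylow `s`-subgroup of `E` containing `d`, permuting with a conjugate `A₁ ≤ E`
  have hdp : IsPGroup s (zpowers d) := by
    have h1 : zpowers d ≤ S := zpowers_le.2 hd
    exact hS.isPGroup.to_le h1
  obtain ⟨S₁, hS₁, hdS₁⟩ := exists_isSylowIn_ge hdp (zpowers_le.2 hdE)
  have hdS₁' : d ∈ S₁ := hdS₁ (mem_zpowers d)
  obtain ⟨e, heE, he⟩ := (h.conjBy g₀).mc.her E hg₀ S₁ hS₁.le
  set g₁ := g₀ * e⁻¹ with hg₁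
  have hA₁E : MP_5771ce_al.conjBy A g₁ ≤ E := by
    rw [hg₁, conjBy_mul]
    have := conjBy_mono hg₀ e⁻¹
    rwa [conjBy_eq_self (E.inv_mem heE)] at this
  have hperm : Permutes (MP_5771ce_al.conjBy A g₁) S₁ := by
    have := permutes_conj he e⁻¹
    rwa [← conjBy_mul, ← conjBy_mul, mul_inv_cancel, conjBy_one, ← hg₁] at this
  have h₁ : MCq (MP_5771ce_al.conjBy A g₁) q := h.conjBy g₁
  have hs₁ : Iplus (MP_5771ce_al.conjBy A g₁) q s := (Iplus.conjBy_iff g₁).2 hs
  have hn₁ := h₁.R2a hs₁ hS₁.isPGroup hperm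
  have hES : E ⊓ S ≠ ⊥ := fun h0 =>
    hd1 ((Subgroup.mem_bot).1 (h0 ▸ (⟨hdE, hd⟩ : d ∈ E ⊓ S)))
  by_cases hcase : ⁅S₁, MP_5771ce_al.conjBy A g₁⁆ = ⊥
  swap
  · -- `A₁` is active
    obtain ⟨S₂, hS₁₂, hact⟩ := h₁.exists_act hsp (hs₁.not_dvd h₁) hS₁.isPGroup hn₁ hcase
    obtain ⟨y, _, hy⟩ := hact.syl.exists_conjBy_eq hS
    have hne : S₂ ⊓ MP_5771ce_al.conjBy S₂ y ≠ ⊥ := by
      rw [hy]
      exact fun h0 => hd1 ((Subgroup.mem_bot).1 (h0 ▸ (⟨hS₁₂ hdS₁', hd⟩ : d ∈ S₂ ⊓ S)))
    have hyn := hact.mem_of_inf_ne_bot h₁ hne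
    have hSS : S₂ = S := by rw [← hy, uq_conjBy_eq hyn]
    rw [hSS] at hact
    exact hact.le_normalizer h₁ hEt hA₁E hES
  · -- `A₁` centralises `S`
    obtain ⟨g₂, hact, _⟩ := hs.exists_actV h hS
    have h₂ : MCq (MP_5771ce_al.conjBy A g₂) q := h.conjBy g₂
    have hcd : ∀ a ∈ MP_5771ce_al.conjBy A g₁, a * d = d * a := fun a ha =>
      (uq_commute_of_bot hcase hdS₁' ha).symm
    have hA₁S : MP_5771ce_al.conjBy A g₁ ≤ normalizer (S : Set G) := by
      refine le_trans ?_ (hact.normalizer_le h₂ (X := zpowers d) (zpowers_le.2 hd)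
        (by rw [Ne, zpowers_eq_bot]; exact hd1))
      intro a ha
      rw [Subgroup.mem_normalizer_iff]
      intro t
      have hcomm : Commute a d := hcd a ha
      constructor
      · intro ht
        obtain ⟨n, rfl⟩ := mem_zpowers_iff.1 ht
        rw [(hcomm.zpow_right n).eq, mul_inv_cancel_right]
        exact ht
      · intro ht
        obtain ⟨n, hn⟩ := mem_zpowers_iff.1 ht
        have h6 : t = d ^ n := by
          have : t = a⁻¹ * (d ^ n) * a := by rw [hn]; group
          rw [this, mul_assoc, ← (hcomm.zpow_right n).eq]; group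
        rw [h6]
        exact Subgroup.zpow_mem _ (mem_zpowers d) n
    -- rewrite `A₁` as a conjugate of `A₂`
    have hconj : ∀ g g' : G, MP_5771ce_al.conjBy (MP_5771ce_al.conjBy A g') (g'⁻¹ * g) =
        MP_5771ce_al.conjBy A g := by
      intro g g'
      rw [← conjBy_mul, mul_inv_cancel_left]
    have hcS : ∀ a ∈ MP_5771ce_al.conjBy A g₁, ∀ y ∈ S, a * y = y * a := by
      intro a ha
      have hf := hact.fpf h₂ (g := g₂⁻¹ * g₁) (a := a) (by rw [hconj]; exact hA₁S)
        (by rw [hconj]; exact ha)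
      rcases hf with hf | hf
      · exact hf
      · exact absurd (hf d hd (hcd a ha)) hd1
    -- `A₃ = A₂ ^ m⁻¹` permutes with `⟨x⟩`
    have hmax := hact.norm
    obtain ⟨m, hm, hmp⟩ := h₂.mc.her (normalizer (S : Set G)) hmax (zpowers x)
      (zpowers_le.2 hxS)
    set g₃ := g₂ * m⁻¹ with hg₃
    have hA₃ : MP_5771ce_al.conjBy A g₃ ≤ normalizer (S : Set G) := by
      rw [hg₃, conjBy_mul]
      have := conjBy_mono hmax m⁻¹
      rwa [conjBy_eq_self (Subgroup.inv_mem _ hm)] at this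
    have hperm₃ : Permutes (MP_5771ce_al.conjBy A g₃) (zpowers x) := by
      have := permutes_conj hmp m⁻¹
      rwa [← conjBy_mul, ← conjBy_mul, mul_inv_cancel, conjBy_one, ← hg₃] at this
    have hact₃ : Act s (MP_5771ce_al.conjBy A g₃) S := by
      have := hact.conj h₂ m⁻¹
      rwa [← conjBy_mul, ← hg₃, uq_conjBy_eq (Subgroup.inv_mem _ hm)] at this
    have h₃ : MCq (MP_5771ce_al.conjBy A g₃) q := h.conjBy g₃
    set A₃ := MP_5771ce_al.conjBy A g₃ with hA₃def
    -- an element of `A₃` commuting with `d` is trivial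
    have hfaith : ∀ a ∈ A₃, a * d = d * a → a = 1 := by
      intro a ha had
      have hf := hact₃.fpf h₃ (g := 1) (a := a) (by rw [conjBy_one]; exact hA₃)
        (by rw [conjBy_one]; exact ha)
      rcases hf with hf | hf
      · exact Act.faithful h hact₃ hcS ha hf
      · exact absurd (hf d hd had) hd1
    -- the kernel `C` of `A₃ ⟨x⟩` on `C_S(x)`
    let C : Subgroup G :=
      { carrier := {k | k ∈ A₃ ⊔ zpowers x ∧ ∀ y ∈ S, y * x = x * y → k * y = y * k}
        mul_mem' := by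
          rintro a b ⟨ha, ha'⟩ ⟨hb, hb'⟩
          refine ⟨mul_mem ha hb, fun y hy hyx => ?_⟩
          rw [mul_assoc, hb' y hy hyx, ← mul_assoc, ha' y hy hyx, mul_assoc]
        one_mem' := ⟨one_mem _, fun y _ _ => by simp⟩
        inv_mem' := by
          rintro a ⟨ha, ha'⟩
          refine ⟨inv_mem ha, fun y hy hyx => ?_⟩
          exact ((show Commute a y from ha' y hy hyx).inv_left).eq }
    have hxC : zpowers x ≤ C := by
      rw [zpowers_le]
      exact ⟨mem_sup_right (mem_zpowers x), fun y _ hyx => hyx.symm⟩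
    have hCA : C ⊓ A₃ = ⊥ := by
      rw [eq_bot_iff]
      rintro a ⟨⟨_, ha⟩, ha3⟩
      rw [Subgroup.mem_bot]
      exact hfaith a ha3 (ha d hd hdx)
    have hpow : ∀ a ∈ A₃, ∀ y ∈ S, ∃ k : ℕ, a * y * a⁻¹ = y ^ k := by
      intro a ha y hy
      obtain ⟨k, hk⟩ := hact₃.pow h₃ (g := 1) (a := a) (by rw [conjBy_one]; exact hA₃)
        (by rw [conjBy_one]; exact ha)
      exact ⟨k, hk y hy⟩
    have hCn : A₃ ≤ normalizer (C : Set G) := by
      have key : ∀ a ∈ A₃, ∀ k ∈ C, a * k * a⁻¹ ∈ C := by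
        rintro a ha k ⟨hk, hk'⟩
        refine ⟨mul_mem (mul_mem (mem_sup_left ha) hk) (inv_mem (mem_sup_left ha)), ?_⟩
        intro y hy hyx
        obtain ⟨n, hn⟩ := hpow a⁻¹ (inv_mem ha) y hy
        rw [inv_inv] at hn
        have hyn : y ^ n * x = x * y ^ n := ((show Commute y x from hyx).pow_left n).eq
        have h6 := hk' (y ^ n) (S.pow_mem hy n) hyn
        rw [← hn] at h6
        have h7 := congrArg (fun t => a * t * a⁻¹) h6
        simpa [mul_assoc] using h7
      intro a ha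
      rw [Subgroup.mem_normalizer_iff]
      intro k
      refine ⟨key a ha k, fun hk => ?_⟩
      have := key a⁻¹ (inv_mem ha) _ hk
      simpa [mul_assoc] using this
    have hCX : C = zpowers x := by
      -- order count
      have hle : Nat.card C ≤ Nat.card (zpowers x) := by
        have h6 : Nat.card A₃ * Nat.card C ≤ Nat.card (A₃ ⊔ zpowers x : Subgroup G) := by
          have hinj : Function.Injective
              (fun z : A₃ × C => (⟨z.1 * z.2, mul_mem (mem_sup_left z.1.2) z.2.2.1⟩ :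
                (A₃ ⊔ zpowers x : Subgroup G))) := by
            rintro ⟨a, c⟩ ⟨a', c'⟩ hac
            have hac' : (a : G) * c = a' * c' := congrArg Subtype.val hac
            have h7 : (a' : G)⁻¹ * a = c' * (c : G)⁻¹ := by
              rw [inv_mul_eq_iff_eq_mul, ← mul_assoc, ← hac', mul_inv_cancel_right]
            have h8 : (a' : G)⁻¹ * a ∈ C ⊓ A₃ :=
              ⟨h7 ▸ C.mul_mem c'.2 (C.inv_mem c.2), A₃.mul_mem (A₃.inv_mem a'.2) a.2⟩
            rw [hCA, Subgroup.mem_bot] at h8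
            have h9 : (a : G) = a' := (inv_mul_eq_one.1 h8).symm
            have h10 : (c : G) = c' := by
              rw [h9] at hac'
              exact mul_left_cancel hac'
            exact Prod.ext (Subtype.ext h9) (Subtype.ext h10)
          have := Nat.card_le_card_of_injective _ hinj
          rwa [Nat.card_prod] at this
        have h7 : Nat.card (A₃ ⊔ zpowers x : Subgroup G) ≤ Nat.card A₃ * Nat.card (zpowers x) := by
          exact Nat.le_of_dvd (Nat.mul_pos Nat.card_pos Nat.card_pos) hperm₃.card_sup_dvd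
        exact Nat.le_of_mul_le_mul_left (h6.trans h7) Nat.card_pos
      exact (Subgroup.eq_of_le_of_card_ge hxC hle).symm
    rw [hCX] at hCn
    exact hact₃.le_normalizer h₃ hEt (hCn.trans hloc) hES

end MP_5771ce_al
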